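import Pool.Agent.Y735.MainL

/-!
A generic form in at least three variables is irreducible.
-/

set_option autoImplicit false

open MvPolynomial Pool.Agent.TH145.GH Cardinal

namespace Pool.Agent.Y735

section Comp

variable {K : Type} [Field K] {n : ℕ}

theorem comp_mul {a : ℕ} {G : MvPolynomial (Fin (n + 1)) K} (hG : G.IsHomogeneous a)
    (W : MvPolynomial (Fin (n + 1)) K) (e : ℕ) :
    ∃ W' : MvPolynomial (Fin (n + 1)) K, homogeneousComponent e (W * G) = W' * G ∧
      (e < a → W' = 0) ∧ W'.IsHomogeneous (e - a) := by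
  classical
  have h1 : homogeneousComponent e (W * G) =
      ∑ i ∈ Finset.range (W.totalDegree + 1), if e = i + a then homogeneousComponent i W * G
        else 0 := by
    conv_lhs => rw [← sum_homogeneousComponent W]
    rw [Finset.sum_mul, map_sum]
    refine Finset.sum_congr rfl fun i _ => ?_
    rw [homogeneousComponent_of_mem (n := i + a)
      ((homogeneousComponent_isHomogeneous i W).mul hG)]
  by_cases hea : a ≤ e
  · refine ⟨homogeneousComponent (e - a) W, ?_, fun h => by omega,
      homogeneousComponent_isHomogeneous _ _⟩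
    rw [h1]
    by_cases h2 : e - a ∈ Finset.range (W.totalDegree + 1)
    · rw [Finset.sum_eq_single (e - a)]
      · rw [if_pos (by omega)]
      · intro i _ hi
        rw [if_neg (by omega)]
      · intro h3
        exact absurd h2 h3
    · rw [homogeneousComponent_eq_zero _ _ (by rw [Finset.mem_range] at h2; omega), zero_mul]
      refine Finset.sum_eq_zero fun i hi => ?_
      rw [if_neg]
      rintro rfl
      apply h2
      rwa [Nat.add_sub_cancel]
  · refine ⟨0, ?_, fun _ => rfl, isHomogeneous_zero _ _ _⟩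
    rw [h1, zero_mul]
    refine Finset.sum_eq_zero fun i hi => ?_
    rw [if_neg (by omega)]

theorem split_forms {d : ℕ} {F G H : MvPolynomial (Fin (n + 1)) K} (hF : F.IsHomogeneous d)
    (hF0 : F ≠ 0) (h : F = G * H) :
    ∃ (a b : ℕ) (G' H' : MvPolynomial (Fin (n + 1)) K), a = G.totalDegree ∧ b = H.totalDegree ∧
      a + b = d ∧ G'.IsHomogeneous a ∧ H'.IsHomogeneous b ∧ F = G' * H' := by
  classical
  have hG0 : G ≠ 0 := by rintro rfl; rw [zero_mul] at h; exact hF0 h
  have hH0 : H ≠ 0 := by rintro rfl; rw [mul_zero] at h; exact hF0 h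
  have h1 : F.totalDegree = d := hF.totalDegree hF0
  have h2 : G.totalDegree + H.totalDegree = d := by
    rw [← totalDegree_mul_of_isDomain hG0 hH0, ← h, h1]
  refine ⟨G.totalDegree, H.totalDegree, homogeneousComponent G.totalDegree G,
    homogeneousComponent H.totalDegree H, rfl, rfl, h2, homogeneousComponent_isHomogeneous _ _,
    homogeneousComponent_isHomogeneous _ _, ?_⟩
  have h3 : F = homogeneousComponent d F := (homogeneousComponent_eq_self hF).symm
  rw [h3, h]
  conv_lhs => rw [← sum_homogeneousComponent G, ← sum_homogeneousComponent H]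
  rw [Finset.sum_mul_sum, map_sum, Finset.sum_eq_single G.totalDegree, map_sum,
    Finset.sum_eq_single H.totalDegree]
  · rw [homogeneousComponent_of_mem (n := G.totalDegree + H.totalDegree)
      ((homogeneousComponent_isHomogeneous _ G).mul (homogeneousComponent_isHomogeneous _ H)),
      if_pos h2.symm]
  · intro j hj hne
    rw [Finset.mem_range] at hj
    rw [homogeneousComponent_of_mem (n := G.totalDegree + j)
      ((homogeneousComponent_isHomogeneous _ G).mul (homogeneousComponent_isHomogeneous _ H)),
      if_neg (by omega)]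
  · intro h4
    exact absurd (Finset.mem_range.2 (Nat.lt_succ_self _)) h4
  · intro i hi hne
    rw [Finset.mem_range] at hi
    rw [map_sum]
    refine Finset.sum_eq_zero fun j hj => ?_
    rw [Finset.mem_range] at hj
    rw [homogeneousComponent_of_mem (n := i + j)
      ((homogeneousComponent_isHomogeneous _ G).mul (homogeneousComponent_isHomogeneous _ H)),
      if_neg (by omega)]
  · intro h4
    exact absurd (Finset.mem_range.2 (Nat.lt_succ_self _)) h4

/-- Two forms in at least three variables have a common zero. -/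
theorem two_forms {a b N : ℕ} (ha : 0 < a) (hb : 0 < b) {G H : MvPolynomial (Fin (n + 1)) K}
    (hG : G.IsHomogeneous a) (hH : H.IsHomogeneous b)
    (hN : ∀ l : Fin (n + 1), ∃ U V : MvPolynomial (Fin (n + 1)) K, X l ^ N = U * G + V * H) :
    n + 1 ≤ 2 := by
  classical
  obtain ⟨s, hs⟩ : ∃ s : Finset (MvPolynomial (Fin (n + 1)) K), s = {G, H} := ⟨_, rfl⟩
  have hGs : G ∈ Algebra.adjoin K (s : Set (MvPolynomial (Fin (n + 1)) K)) :=
    Algebra.subset_adjoin (by rw [hs]; simp)
  have hHs : H ∈ Algebra.adjoin K (s : Set (MvPolynomial (Fin (n + 1)) K)) :=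
    Algebra.subset_adjoin (by rw [hs]; simp)
  obtain ⟨A, hA⟩ : ∃ A, A = Algebra.adjoin K (s : Set (MvPolynomial (Fin (n + 1)) K)) := ⟨_, rfl⟩
  rw [← hA] at hGs hHs
  have hfin : {I : Fin (n + 1) →₀ ℕ | I.degree < (n + 1) * N + 1}.Finite := by
    have h1 : {I : Fin (n + 1) →₀ ℕ | I.degree < (n + 1) * N + 1} =
        ⋃ e ∈ Finset.range ((n + 1) * N + 1), {I : Fin (n + 1) →₀ ℕ | I.degree = e} := by
      ext I
      simp
    rw [h1]
    refine Set.Finite.biUnion (Finset.finite_toSet _) fun e _ => ?_
    exact finite_deg n e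
  obtain ⟨M, hM⟩ : ∃ M : Submodule A (MvPolynomial (Fin (n + 1)) K),
      M = Submodule.span A ((fun I => monomial I (1 : K)) ''
        {I : Fin (n + 1) →₀ ℕ | I.degree < (n + 1) * N + 1}) := ⟨_, rfl⟩
  have hpoly : ∀ e : ℕ, (∀ I : Fin (n + 1) →₀ ℕ, I.degree = e → monomial I (1 : K) ∈ M) →
      ∀ W : MvPolynomial (Fin (n + 1)) K, W.IsHomogeneous e → W ∈ M := by
    intro e he W hW
    rw [W.as_sum]
    refine Submodule.sum_mem _ fun I hI => ?_
    have h2 : monomial I (W.coeff I) =
        (algebraMap K A (W.coeff I)) • (monomial I (1 : K) : MvPolynomial (Fin (n + 1)) K) := by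
      rw [algebraMap_smul, smul_monomial, smul_eq_mul, mul_one]
    rw [h2]
    exact M.smul_mem _ (he I (deg_of_mem hW hI))
  have key : ∀ e : ℕ, ∀ I : Fin (n + 1) →₀ ℕ, I.degree = e → monomial I (1 : K) ∈ M := by
    intro e
    induction e using Nat.strong_induction_on with
    | _ e ih =>
      intro I hI
      by_cases he : e < (n + 1) * N + 1
      · rw [hM]
        exact Submodule.subset_span ⟨I, by change I.degree < _; rw [hI]; exact he, rfl⟩
      · obtain ⟨l, hl⟩ : ∃ l, N ≤ I l := by
          by_contra hcon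
          push Not at hcon
          rw [Finsupp.degree_eq_sum] at hI
          have h3 : ∑ i, I i ≤ ∑ _i : Fin (n + 1), N := Finset.sum_le_sum fun i _ => (hcon i).le
          rw [Finset.sum_const, Finset.card_univ, Fintype.card_fin, smul_eq_mul] at h3
          omega
        obtain ⟨U, V, hUV⟩ := hN l
        obtain ⟨J, hJ⟩ : ∃ J : Fin (n + 1) →₀ ℕ, J + Finsupp.single l N = I := by
          refine ⟨I - Finsupp.single l N, ?_⟩
          refine tsub_add_cancel_of_le ?_
          rw [Finsupp.single_le_iff]
          exact hl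
        have h4 : monomial I (1 : K) = (monomial J 1 * U) * G + (monomial J 1 * V) * H := by
          rw [← hJ, mul_assoc, mul_assoc, ← mul_add, ← hUV, X_pow_eq_monomial, monomial_mul,
            one_mul]
        obtain ⟨U', hU1, hU2, hU3⟩ := comp_mul hG (monomial J 1 * U) e
        obtain ⟨V', hV1, hV2, hV3⟩ := comp_mul hH (monomial J 1 * V) e
        have h5 : monomial I (1 : K) = U' * G + V' * H := by
          rw [← hU1, ← hV1, ← map_add, ← h4]
          exact (homogeneousComponent_eq_self (isHomogeneous_monomial _ hI)).symm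
        rw [h5]
        refine M.add_mem ?_ ?_
        · by_cases hea : e < a
          · rw [hU2 hea, zero_mul]; exact M.zero_mem
          · have h6 := hpoly (e - a) (ih (e - a) (by omega)) U' hU3
            have h7 := M.smul_mem ⟨G, hGs⟩ h6
            rwa [Subalgebra.smul_def, smul_eq_mul, mul_comm] at h7
        · by_cases hea : e < b
          · rw [hV2 hea, zero_mul]; exact M.zero_mem
          · have h6 := hpoly (e - b) (ih (e - b) (by omega)) V' hV3
            have h7 := M.smul_mem ⟨H, hHs⟩ h6
            rwa [Subalgebra.smul_def, smul_eq_mul, mul_comm] at h7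
  have htop : M = ⊤ := by
    rw [eq_top_iff]
    intro W _
    rw [W.as_sum]
    refine Submodule.sum_mem _ fun I _ => ?_
    exact hpoly I.degree (key I.degree) _ (isHomogeneous_monomial _ rfl)
  have hmf : Module.Finite A (MvPolynomial (Fin (n + 1)) K) := by
    refine ⟨⟨(hfin.image fun I => monomial I (1 : K)).toFinset, ?_⟩⟩
    rw [Set.Finite.coe_toFinset, ← hM, htop]
  have hint : Algebra.IsIntegral A (MvPolynomial (Fin (n + 1)) K) := Algebra.IsIntegral.of_finite _ _
  have halg : Algebra.IsAlgebraic (Algebra.adjoin K (s : Set (MvPolynomial (Fin (n + 1)) K)))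
      (MvPolynomial (Fin (n + 1)) K) := by
    rw [← hA]
    exact hint.isAlgebraic
  have h8 := Algebra.IsAlgebraic.trdeg_le_cardinalMk K
    (s : Set (MvPolynomial (Fin (n + 1)) K))
  rw [MvPolynomial.trdeg_of_isDomain] at h8
  have h9 : Cardinal.mk (s : Set (MvPolynomial (Fin (n + 1)) K)) ≤ (2 : ℕ) := by
    have h10 : Cardinal.mk (s : Set (MvPolynomial (Fin (n + 1)) K)) = s.card :=
      Cardinal.mk_coe_finset
    rw [h10, hs]
    exact_mod_cast Finset.card_le_two
  have h11 := h8.trans h9
  rw [Cardinal.mk_fin, Cardinal.lift_natCast] at h11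
  exact_mod_cast h11

end Comp

/-- A generic form in at least three variables is irreducible. -/
theorem irreducible_gen {k K : Type} [Field k] [Field K] [Algebra k K] [CharZero K] {n d : ℕ}
    (hn : 2 ≤ n) (hd : 0 < d)
    {F : MvPolynomial (Fin (n + 1)) K} (hF : F.IsHomogeneous d)
    (I0 : {I : Fin (n + 1) →₀ ℕ // I.degree = d}) (h0 : F.coeff I0.1 ≠ 0)
    (hgen : AlgebraicIndependent k fun I : {I : {I : Fin (n + 1) →₀ ℕ // I.degree = d} // I ≠ I0} =>
      F.coeff I.1.1 / F.coeff I0.1) : Irreducible F := by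
  classical
  have hF0 : F ≠ 0 := by
    rintro rfl
    exact h0 (coeff_zero _)
  constructor
  · intro hu
    obtain ⟨r, hr, hrF⟩ := isUnit_iff_eq_C_of_isReduced.1 hu
    have h1 := hF.totalDegree hF0
    rw [hrF, totalDegree_C] at h1
    omega
  · intro G H hGH
    obtain ⟨a, b, G', H', haG, hbH, hab, hG', hH', hFGH⟩ := split_forms hF hF0 hGH
    have hconst : ∀ P : MvPolynomial (Fin (n + 1)) K, P ≠ 0 → P.totalDegree = 0 → IsUnit P := by
      intro P hP0 hP
      rw [isUnit_iff_eq_C_of_isReduced]
      have h2 := totalDegree_eq_zero_iff_eq_C.1 hP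
      refine ⟨P.coeff 0, ?_, h2⟩
      rw [isUnit_iff_ne_zero]
      intro h3
      rw [h3, map_zero] at h2
      exact hP0 h2
    have hG0 : G ≠ 0 := by rintro rfl; rw [zero_mul] at hGH; exact hF0 hGH
    have hH0 : H ≠ 0 := by rintro rfl; rw [mul_zero] at hGH; exact hF0 hGH
    rcases Nat.eq_zero_or_pos a with ha | ha
    · exact Or.inl (hconst G hG0 (by rw [← haG, ha]))
    rcases Nat.eq_zero_or_pos b with hb | hb
    · exact Or.inr (hconst H hH0 (by rw [← hbH, hb]))
    exfalso
    obtain ⟨Ω, hΩ, hA, hkΩ, lam, hst, hac, hcz, hlam, hFΩ, hind⟩ :=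
      exists_scaled_form hF I0 h0 hgen
    obtain ⟨N, Q, hQ⟩ := exists_null hd hFΩ hind
    have h3 : lam • map (algebraMap K Ω) F =
        (lam • map (algebraMap K Ω) G') * map (algebraMap K Ω) H' := by
      rw [hFGH, map_mul, smul_mul_assoc]
    have h4 := two_forms (n := n) (N := N) ha hb
      (G := lam • map (algebraMap K Ω) G') (H := map (algebraMap K Ω) H') (by
        rw [smul_eq_C_mul]
        have := (isHomogeneous_C (Fin (n + 1)) lam).mul (hG'.map (algebraMap K Ω))
        rwa [zero_add] at this) (hH'.map _) (by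
        intro l
        refine ⟨∑ i, Q l i * pderiv i (map (algebraMap K Ω) H'),
          ∑ i, Q l i * pderiv i (lam • map (algebraMap K Ω) G'), ?_⟩
        rw [hQ l, Finset.sum_mul, Finset.sum_mul, ← Finset.sum_add_distrib]
        refine Finset.sum_congr rfl fun i _ => ?_
        rw [h3, Derivation.leibniz, smul_eq_mul, smul_eq_mul]
        ring)
    omega

end Pool.Agent.Y735
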