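import Pool.Agent.Y735.Integ
import Pool.Agent.TH145.GH.MainA

/-!
Finiteness of the points that do not lie on lines.
-/

set_option autoImplicit false

open MvPolynomial FF Pool.Agent.W603.LV Pool.Agent.W603.PV Pool.Agent.W602.RG Pool.Agent.TH145.GH

namespace Pool.Agent.Y735

/-- The point lies on a line that is contained in the hypersurface. -/
def OnL {K : Type} [Field K] {n : ℕ} (F : MvPolynomial (Fin (n + 1)) K) (x : Fin (n + 1) → K) :
    Prop :=
  ∃ (y : Fin (n + 1) → K) (ik : Fin (n + 1) × Fin (n + 1)), pl x y ik ≠ 0 ∧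
    ∀ a b : K, eval (a • x + b • y) F = 0

theorem onL_of {K : Type} [Field K] {n d : ℕ} {F : MvPolynomial (Fin (n + 1)) K}
    (hF : F.IsHomogeneous d) {x y : Fin (n + 1) → K} (hx : eval x F = 0)
    (hd : 0 < d) {ik : Fin (n + 1) × Fin (n + 1)} (hik : pl x y ik ≠ 0)
    (h : ∀ t : K, eval (t • x + y) F = 0) : OnL F x := by
  refine ⟨y, ik, hik, fun a b => ?_⟩
  by_cases hb : b = 0
  · rw [hb, zero_smul, add_zero, eval_smul_hom hF, hx, mul_zero]
  · have h5 : a • x + b • y = b • ((a / b) • x + y) := by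
      rw [smul_add, smul_smul, mul_div_cancel₀ _ hb]
    rw [h5, eval_smul_hom hF, h, mul_zero]

section
variable {k K : Type} [Field k] [Field K] [Algebra k K] {n : ℕ}
variable [CharZero k] [IsFF k K] [IsAlgClosed k]

/-- The height inequality. -/
theorem ineqL {d : ℕ} {F : MvPolynomial (Fin (n + 1)) K}
    {D : (Fin (n + 1) →₀ ℕ) → Derivation ℤ K K} {e g : Place k K → ℤ}
    (hdat : Data k F d D e g) (hc : ∀ I J a, D I (D J a) = D J (D I a))
    (hn : 2 ≤ n) (hd : 3 * n + 2 ≤ 2 * d) {x : Fin (n + 1) → K}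
    (hxF : eval x F = 0) (hx0 : x ≠ 0) :
    OnL F x ∨ pht k x ≤ (d + 1) * CC n e g + 2 * ∑ᶠ P, g P := by
  have hcz : CharZero K := charZero_of_injective_algebraMap (algebraMap k K).injective
  exact combine hdat hn hd hxF hx0
    (lineBound hdat.pos hdat.hom hdat.dual hc hxF (dFl_ne' hdat hx0))

end

variable {k0 K ι : Type} [Field k0] [Field K] [Algebra k0 K] [IsAlgClosed K] [CharZero K]
  {y : ι → K} (E : IntermediateField (IntermediateField.adjoin k0 (Set.range y)) K)

/-- The data in the structure of a variable. -/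
theorem exists_data_L' {n d N : ℕ} (hy : AlgebraicIndependent k0 y)
    [FiniteDimensional (IntermediateField.adjoin k0 (Set.range y)) E]
    {F : MvPolynomial (Fin (n + 1)) E.toSubfield}
    {DE : (Fin (n + 1) →₀ ℕ) → E.toSubfield → E.toSubfield}
    {Q : Fin (n + 1) → Fin (n + 1) → MvPolynomial (Fin (n + 1)) E.toSubfield}
    (hG : Gen F d DE N Q)
    (D : (Fin (n + 1) →₀ ℕ) → Derivation ℤ K K)
    (hDE : ∀ I (x : E.toSubfield), D I x = (DE I x : K))
    (hDk : ∀ I (r : k0), D I (algebraMap k0 K r) = 0)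
    (hDy : ∀ I j, ∃ r : k0, D I (y j) = algebraMap k0 K r)
    (hDc : ∀ I J a, D I (D J a) = D J (D I a)) (i : ι) :
    ∃ (φ : E.toSubfield →+* LL k0 y (E : Set K) i)
      (D' : (Fin (n + 1) →₀ ℕ) → Derivation ℤ (LL k0 y (E : Set K) i) (LL k0 y (E : Set K) i))
      (e g : Place (kap k0 y i) (LL k0 y (E : Set K) i) → ℤ),
      (∀ x, (φ x : K) = x) ∧ Data (kap k0 y i) (map φ F) d D' e g ∧
      ∀ I J a, D' I (D' J a) = D' J (D' I a) := by
  have hFF : IsFF (kap k0 y i) (LL k0 y (E : Set K) i) := LL_ff E hy i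
  have hac : IsAlgClosed (kap k0 y i) := acl_isAlgClosed _
  have hcz : CharZero (kap k0 y i) := charZero_of_injective_algebraMap
    (algebraMap ℚ (kap k0 y i)).injective
  let φ : E.toSubfield →+* LL k0 y (E : Set K) i :=
    { toFun := fun x => ⟨x, subset_LL y _ i x.2⟩
      map_one' := rfl
      map_mul' := fun _ _ => rfl
      map_zero' := rfl
      map_add' := fun _ _ => rfl }
  have hDE' : ∀ I, ∀ x ∈ E, D I x ∈ E := by
    intro I x hx
    rw [hDE I ⟨x, hx⟩]
    exact (DE I ⟨x, hx⟩).2
  let D' : (Fin (n + 1) →₀ ℕ) → Derivation ℤ (LL k0 y (E : Set K) i) (LL k0 y (E : Set K) i) :=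
    fun I => resDer _ (D I) fun x hx => der_LL E (D I) (hDk I) (hDy I) (hDE' I) i hx
  obtain ⟨e, g, hdat⟩ := hG.exists_data (κ := kap k0 y i) φ D' (fun I x => by
    apply Subtype.ext
    exact hDE I x) (fun I c => ⟨⟨_, der_kap (D I) (hDk I) (hDy I) i c.2⟩, rfl⟩)
  exact ⟨φ, D', e, g, fun _ => rfl, hdat, fun I J a => Subtype.ext (hDc I J a)⟩

omit [IsAlgClosed K] [CharZero K] in
/-- Lines over a subfield. -/
theorem onL_incl {n d : ℕ} {L : Type} [Field L] [Algebra L K] [Infinite L] {E : Subfield K}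
    (φ : E →+* L)
    (hφ : ∀ x : E, algebraMap L K (φ x) = x) {F : MvPolynomial (Fin (n + 1)) E}
    (hF : F.IsHomogeneous d) (hd : 0 < d)
    {x : Fin (n + 1) → L} (hx : eval x (map φ F) = 0) (h : OnL (map φ F) x) :
    OnL (map E.subtype F) fun j => algebraMap L K (x j) := by
  obtain ⟨y, ik, hik, h⟩ := h
  have hz : rho x y (map φ F) = 0 := by
    apply Polynomial.funext
    intro t
    rw [eval_rho, Polynomial.eval_zero]
    have := h t 1
    rwa [one_smul] at this
  have hinj := (algebraMap L K).injective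
  refine onL_of (hF.map E.subtype) (y := fun j => algebraMap L K (y j)) ?_ hd (ik := ik) ?_ ?_
  · rw [← eval_incl φ hφ F x, hx, map_zero]
  · have h1 : pl (fun j => algebraMap L K (x j)) (fun j => algebraMap L K (y j)) ik =
        algebraMap L K (pl x y ik) := by
      simp only [pl, map_sub, map_mul]
    rw [h1]
    exact fun h0 => hik (hinj (by rw [h0, map_zero]))
  · intro t
    -- the polynomial vanishes
    have h2 : Polynomial.eval₂ (algebraMap L K) t (rho x y (map φ F)) =
        eval (t • (fun j => algebraMap L K (x j)) + fun j => algebraMap L K (y j))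
          (map E.subtype F) := by
      have h3 : ∀ p : MvPolynomial (Fin (n + 1)) L,
          Polynomial.eval₂ (algebraMap L K) t (rho x y p) =
          eval₂ (algebraMap L K)
            (t • (fun j => algebraMap L K (x j)) + fun j => algebraMap L K (y j)) p := by
        intro p
        induction p using MvPolynomial.induction_on with
        | C a =>
          rw [eval₂_C, rho, aeval_C]
          exact Polynomial.eval₂_C _ _
        | add p q hp hq => rw [map_add, Polynomial.eval₂_add, hp, hq, eval₂_add]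
        | mul_X p i hp =>
          rw [map_mul, Polynomial.eval₂_mul, hp, rho_X, eval₂_mul, eval₂_X,
            Polynomial.eval₂_add, Polynomial.eval₂_mul, Polynomial.eval₂_C, Polynomial.eval₂_C,
            Polynomial.eval₂_X, Pi.add_apply, Pi.smul_apply, smul_eq_mul,
            mul_comm (algebraMap L K (x i))]
      rw [h3, eval₂_map, eval_map]
      congr 1
      ext a
      exact hφ a
    rw [← h2, hz, Polynomial.eval₂_zero]

/-- The heights of the points of the hypersurface are bounded. -/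
theorem heights_L {n d N : ℕ} (hy : AlgebraicIndependent k0 y)
    [FiniteDimensional (IntermediateField.adjoin k0 (Set.range y)) E]
    {F : MvPolynomial (Fin (n + 1)) E.toSubfield}
    {DE : (Fin (n + 1) →₀ ℕ) → E.toSubfield → E.toSubfield}
    {Q : Fin (n + 1) → Fin (n + 1) → MvPolynomial (Fin (n + 1)) E.toSubfield}
    (hG : Gen F d DE N Q) (D : (Fin (n + 1) →₀ ℕ) → Derivation ℤ K K)
    (hDE : ∀ I (x : E.toSubfield), D I x = (DE I x : K))
    (hDk : ∀ I (r : k0), D I (algebraMap k0 K r) = 0)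
    (hDy : ∀ I j, ∃ r : k0, D I (y j) = algebraMap k0 K r)
    (hDc : ∀ I J a, D I (D J a) = D J (D I a)) (hn : 2 ≤ n) (hd : 3 * n + 2 ≤ 2 * d)
    (l0 : Fin (n + 1)) (i : ι) : ∃ B : ℤ, ∀ x : Fin (n + 1) → E, x l0 = 1 →
      eval (fun j => (x j : K)) (map E.toSubfield.subtype F) = 0 →
      ¬ OnL (map E.toSubfield.subtype F) (fun j => (x j : K)) →
      ∀ j, hgt (kap k0 y i) (⟨(x j : K), subset_LL y _ i (x j).2⟩ :
        LL k0 y (E : Set K) i) ≤ B := by
  have hFF : IsFF (kap k0 y i) (LL k0 y (E : Set K) i) := LL_ff E hy i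
  have hac : IsAlgClosed (kap k0 y i) := acl_isAlgClosed _
  have hcz : CharZero (kap k0 y i) := charZero_of_injective_algebraMap
    (algebraMap ℚ (kap k0 y i)).injective
  have hczL : CharZero (LL k0 y (E : Set K) i) := charZero_of_injective_algebraMap
    (algebraMap ℚ (LL k0 y (E : Set K) i)).injective
  obtain ⟨φ, D', e, g, hφ, hdat, hc⟩ := exists_data_L' E hy hG D hDE hDk hDy hDc i
  refine ⟨max ((d + 1) * CC n e g + 2 * ∑ᶠ P, g P) 0, fun x hx hxF hxL j => ?_⟩
  obtain ⟨x', hx'⟩ : ∃ x' : Fin (n + 1) → LL k0 y (E : Set K) i,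
    ∀ j, x' j = ⟨(x j : K), subset_LL y _ i (x j).2⟩ := ⟨_, fun _ => rfl⟩
  have hxl0 : x' l0 = 1 := by
    rw [hx']
    apply Subtype.ext
    change (x l0 : K) = 1
    rw [hx]; rfl
  have hx0 : x' ≠ 0 := by
    intro h0
    rw [h0] at hxl0
    exact zero_ne_one hxl0
  have hxx : (fun j => algebraMap (LL k0 y (E : Set K) i) K (x' j)) = fun j => (x j : K) := by
    funext j
    rw [hx']
    rfl
  have hxF' : eval x' (map φ F) = 0 := by
    apply (algebraMap (LL k0 y (E : Set K) i) K).injective
    rw [map_zero, eval_incl φ hφ F x', ← hxF, hxx]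
  have h1 := ineqL hdat hc hn hd hxF' hx0
  have h2 : ¬ OnL (map φ F) x' := by
    intro h2
    have h3 := onL_incl φ hφ hG.hom hG.pos hxF' h2
    rw [hxx] at h3
    exact hxL h3
  have h3 := h1.resolve_left h2
  rw [← hx']
  by_cases hj : x' j = 0
  · rw [hj]
    have := Pool.Agent.TH145.MG.hgt_const (k := kap k0 y i) (L := LL k0 y (E : Set K) i) 0
    rw [map_zero] at this
    rw [this]
    exact le_max_right _ _
  · have h2 := Pool.Agent.W603.CX.hgt_le_pht (k := kap k0 y i) x' hj (l := l0)
      (by rw [hxl0]; exact one_ne_zero)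
    rw [hxl0, div_one] at h2
    exact (h2.trans h3).trans (le_max_left _ _)

end Pool.Agent.Y735
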