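import Mathlib
import Pool.Agent.W603.LV.Ord

/-!
Orders of the values of alternating maps.
-/

set_option autoImplicit false

open Module Submodule FF Pool.Agent.W603.LV

namespace Pool.Agent.Y735

section alt

variable {K V ι : Type*} [Field K] [AddCommGroup V] [Module K V] [DecidableEq ι]

theorem alt_span (f : V [⋀^ι]→ₗ[K] K) (R : ι → V) {k : ι} {S : Set ι} (hk : k ∉ S) {w : V}
    (hw : w ∈ span K (R '' S)) : f (Function.update R k w) = 0 := by
  induction hw using Submodule.span_induction with
  | mem w hw =>
    obtain ⟨l, hl, rfl⟩ := hw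
    exact f.map_update_self R (fun h => hk (h ▸ hl))
  | zero => exact f.map_update_zero R k
  | add v w _ _ hv hw => rw [f.map_update_add, hv, hw, add_zero]
  | smul a v _ hv => rw [f.map_update_smul, hv, smul_zero]

/-- Replacement of rows, modulo the other rows. -/
theorem alt_repl (f : V [⋀^ι]→ₗ[K] K) (R u : ι → V) (c : ι → K) (s : Finset ι)
    (h : ∀ k ∈ s, R k - c k • u k ∈ span K (R '' {l | l ∉ s})) :
    f R = (∏ k ∈ s, c k) * f (s.piecewise u R) := by
  classical
  have key : ∀ t : Finset ι, t ⊆ s → f R = (∏ k ∈ t, c k) * f (t.piecewise u R) := by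
    intro t
    induction t using Finset.induction_on with
    | empty => intro _; simp
    | insert k t hk ih =>
      intro hts
      have hks : k ∈ s := hts (Finset.mem_insert_self _ _)
      rw [ih ((Finset.subset_insert _ _).trans hts), Finset.prod_insert hk, mul_assoc,
        mul_left_comm]
      congr 1
      obtain ⟨X, hX⟩ : ∃ X, X = t.piecewise u R := ⟨_, rfl⟩
      have h1 : X = Function.update X k (R k) := by
        have h2 : X k = R k := by rw [hX, Finset.piecewise_eq_of_notMem _ _ _ hk]
        rw [← h2, Function.update_eq_self]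
      have h3 : R k = c k • u k + (R k - c k • u k) := by abel
      have h4 : R k - c k • u k ∈ span K (X '' {l | l ∉ s}) := by
        have h5 : X '' {l | l ∉ s} = R '' {l | l ∉ s} := by
          refine Set.image_congr fun l hl => ?_
          rw [hX, Finset.piecewise_eq_of_notMem _ _ _ fun hlt =>
            hl ((Finset.subset_insert _ _).trans hts hlt)]
        rw [h5]
        exact h k hks
      rw [Finset.piecewise_insert, ← hX]
      conv_lhs => rw [h1, h3]
      rw [f.map_update_add, f.map_update_smul, alt_span f X (S := {l | l ∉ s}) (fun h => h hks) h4,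
        add_zero, smul_eq_mul]
  exact key s (Finset.Subset.refl s)

/-- Triangular replacement of all rows. -/
theorem alt_tri [Fintype ι] (f : V [⋀^ι]→ₗ[K] K) (R u : ι → V) (c : ι → K) (ρ : ι → ℕ)
    (h : ∀ k, R k - c k • u k ∈ span K (R '' {l | ρ l < ρ k})) :
    f R = (∏ k, c k) * f u := by
  classical
  have key : ∀ j m : ℕ, (∀ k, ρ k < m + j) → f R = (∏ k ∈ Finset.univ.filter (fun k => m ≤ ρ k), c k) *
      f ((Finset.univ.filter (fun k => m ≤ ρ k)).piecewise u R) := by
    intro j
    induction j with
    | zero =>
      intro m hm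
      have h1 : Finset.univ.filter (fun k => m ≤ ρ k) = ∅ := by
        rw [Finset.filter_eq_empty_iff]
        intro k _
        have := hm k
        omega
      rw [h1]; simp
    | succ j ih =>
      intro m hm
      rw [ih (m + 1) (fun k => by have := hm k; omega)]
      obtain ⟨X, hX⟩ : ∃ X, X = (Finset.univ.filter (fun k => m + 1 ≤ ρ k)).piecewise u R :=
        ⟨_, rfl⟩
      obtain ⟨s, hs⟩ : ∃ s : Finset ι, s = Finset.univ.filter (fun k => ρ k = m) := ⟨_, rfl⟩
      have hXl : ∀ l, ρ l < m + 1 → X l = R l := fun l hl => by
        rw [hX, Finset.piecewise_eq_of_notMem]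
        simp only [Finset.mem_filter, Finset.mem_univ, true_and, not_le]
        exact hl
      have h1 := alt_repl f X u c s (fun k hk => by
        have hk' : ρ k = m := by rw [hs] at hk; simpa using hk
        rw [hXl k (by omega)]
        have h2 : R '' {l | ρ l < ρ k} ⊆ X '' {l | l ∉ s} := by
          rintro _ ⟨l, hl, rfl⟩
          have hl' : ρ l < m := by rw [← hk']; exact hl
          refine ⟨l, ?_, hXl l (by omega)⟩
          rw [hs]
          simp only [Set.mem_ofPred_eq, Finset.mem_filter, Finset.mem_univ, true_and]
          omega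
        exact Submodule.span_mono h2 (h k))
      rw [← hX, h1, ← mul_assoc]
      have h2 : Finset.univ.filter (fun k => m ≤ ρ k) =
          s ∪ Finset.univ.filter (fun k => m + 1 ≤ ρ k) := by
        ext k
        rw [hs]
        simp only [Finset.mem_filter, Finset.mem_univ, true_and, Finset.mem_union]
        omega
      have h3 : Disjoint s (Finset.univ.filter (fun k => m + 1 ≤ ρ k)) := by
        rw [Finset.disjoint_left, hs]
        intro k hk hk'
        simp only [Finset.mem_filter, Finset.mem_univ, true_and] at hk hk'
        omega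
      congr 1
      · rw [h2, Finset.prod_union h3, mul_comm]
      · congr 1
        funext k
        by_cases hks : k ∈ s
        · rw [Finset.piecewise_eq_of_mem _ _ _ hks, Finset.piecewise_eq_of_mem]
          rw [h2]
          exact Finset.mem_union_left _ hks
        · rw [Finset.piecewise_eq_of_notMem _ _ _ hks, hX]
          by_cases hk2 : k ∈ Finset.univ.filter (fun k => m + 1 ≤ ρ k)
          · rw [Finset.piecewise_eq_of_mem _ _ _ hk2, Finset.piecewise_eq_of_mem]
            rw [h2]
            exact Finset.mem_union_right _ hk2
          · rw [Finset.piecewise_eq_of_notMem _ _ _ hk2, Finset.piecewise_eq_of_notMem]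
            rw [h2, Finset.mem_union]
            push Not
            exact ⟨hks, hk2⟩
  have h1 := key (Finset.univ.sup ρ + 1) 0 (fun k => by
    have := Finset.le_sup (f := ρ) (Finset.mem_univ k)
    omega)
  have h2 : Finset.univ.filter (fun k => 0 ≤ ρ k) = Finset.univ := by
    ext k; simp
  rw [h2] at h1
  rw [h1]
  congr 2
  funext k
  rw [Finset.piecewise_eq_of_mem _ _ _ (Finset.mem_univ k)]

/-- Expansion of a pair of rows. -/
theorem alt_pair (f : V [⋀^ι]→ₗ[K] K) (R : ι → V) {k l : ι} (hkl : k ≠ l) (e1 e2 e3 : V)
    (x0 x1 x2 : K) : f (Function.update (Function.update R k (x0 • e2 - x1 • e1)) l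
      (x0 • e3 - x2 • e1)) = x0 * (x0 * f (Function.update (Function.update R k e2) l e3) -
        x1 * f (Function.update (Function.update R k e1) l e3) +
        x2 * f (Function.update (Function.update R k e1) l e2)) := by
  have hself : ∀ v, f (Function.update (Function.update R k v) l v) = 0 := by
    intro v
    refine f.map_eq_zero_of_eq _ (i := k) (j := l) ?_ hkl
    rw [Function.update_self, Function.update_of_ne hkl, Function.update_self]
  have hswap : ∀ v w, f (Function.update (Function.update R k v) l w) =
      - f (Function.update (Function.update R k w) l v) := by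
    intro v w
    have h1 := hself (v + w)
    rw [f.map_update_add, Function.update_comm hkl, f.map_update_add,
      Function.update_comm hkl (v + w) w R] at h1
    rw [f.map_update_add] at h1
    have h2 := hself v
    have h3 := hself w
    rw [Function.update_comm hkl] at h2 h3 ⊢
    rw [Function.update_comm hkl w v R]
    rw [h2, h3, zero_add, add_zero] at h1
    linear_combination h1
  have hlin : ∀ (a b : K) (v w : V) (S : ι → V) (m : ι), f (Function.update S m (a • v - b • w)) =
      a * f (Function.update S m v) - b * f (Function.update S m w) := by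
    intro a b v w S m
    rw [f.map_update_sub, f.map_update_smul, f.map_update_smul, smul_eq_mul, smul_eq_mul]
  rw [hlin, Function.update_comm hkl, Function.update_comm hkl _ e1 R, hlin, hlin,
    Function.update_comm hkl.symm, Function.update_comm hkl.symm, Function.update_comm hkl.symm,
    Function.update_comm hkl.symm, hself e1, hswap e2 e1]
  ring

end alt

section ord

variable {k K J ι : Type*} [Field k] [Field K] [Algebra k K] [DecidableEq ι]

/-- The order of the value of an alternating map at rows that come in pairs. -/
theorem ge_pairs (P : Place k K) {c N : ℤ} (f : (J → K) [⋀^ι]→ₗ[K] K)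
    (hf : ∀ R : ι → J → K, (∀ k l, Ge P c (R k l)) → Ge P N (f R)) {B : Type*} [DecidableEq B]
    (α β : B → ι) (hα : Function.Injective α) (hβ : Function.Injective β)
    (hαβ : ∀ b b', α b ≠ β b') {x0 : K} (x1 x2 : B → K) {m : ℤ} (hm0 : Ge P m x0)
    (hm1 : ∀ b, Ge P m (x1 b)) (hm2 : ∀ b, Ge P m (x2 b)) (e1 e2 e3 : B → J → K)
    (he1 : ∀ b l, Ge P c (e1 b l)) (he2 : ∀ b l, Ge P c (e2 b l)) (he3 : ∀ b l, Ge P c (e3 b l))
    (t : Finset B) : ∀ R : ι → J → K,
      (∀ b ∈ t, R (α b) = x0 • e2 b - x1 b • e1 b ∧ R (β b) = x0 • e3 b - x2 b • e1 b) →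
      (∀ k, (∀ b ∈ t, k ≠ α b ∧ k ≠ β b) → ∀ l, Ge P c (R k l)) →
      Ge P (t.card * (P.ord x0 + m) + N) (f R) := by
  classical
  induction t using Finset.induction_on with
  | empty =>
    intro R _ h2
    rw [Finset.card_empty, Nat.cast_zero, zero_mul, zero_add]
    exact hf R fun k l => h2 k (by simp) l
  | insert b t hb ih =>
    intro R h1 h2
    obtain ⟨hRα, hRβ⟩ := h1 b (Finset.mem_insert_self _ _)
    have hR : R = Function.update (Function.update R (α b) (x0 • e2 b - x1 b • e1 b)) (β b)
        (x0 • e3 b - x2 b • e1 b) := by
      rw [← hRα, ← hRβ, Function.update_eq_self, Function.update_eq_self]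
    have key : ∀ v w : J → K, (∀ l, Ge P c (v l)) → (∀ l, Ge P c (w l)) →
        Ge P (t.card * (P.ord x0 + m) + N)
          (f (Function.update (Function.update R (α b) v) (β b) w)) := by
      intro v w hv hw
      refine ih _ ?_ ?_
      · intro b' hb'
        have hne : b' ≠ b := fun h => hb (h ▸ hb')
        rw [Function.update_of_ne (hαβ b' b), Function.update_of_ne (fun h => hne (hα h)),
          Function.update_of_ne (fun h => hne (hβ h)), Function.update_of_ne (hαβ b b').symm]
        exact h1 b' (Finset.mem_insert_of_mem hb')
      · intro k hk l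
        by_cases hkβ : k = β b
        · rw [hkβ, Function.update_self]; exact hw l
        rw [Function.update_of_ne hkβ]
        by_cases hkα : k = α b
        · rw [hkα, Function.update_self]; exact hv l
        rw [Function.update_of_ne hkα]
        refine h2 k (fun b' hb' => ?_) l
        rcases Finset.mem_insert.1 hb' with rfl | hb'
        · exact ⟨hkα, hkβ⟩
        · exact hk b' hb'
    rw [hR, alt_pair f R (hαβ b b)]
    have h3 : Ge P (P.ord x0) x0 := Or.inr le_rfl
    have h4 := h3.mul (((hm0.mul (key _ _ (he2 b) (he3 b))).sub
      ((hm1 b).mul (key _ _ (he1 b) (he3 b)))).add ((hm2 b).mul (key _ _ (he1 b) (he2 b))))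
    refine h4.mono ?_
    rw [Finset.card_insert_of_notMem hb]
    push_cast
    linarith

end ord

end Pool.Agent.Y735
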