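import Pool.Agent.Y735.LimL

/-!
The finitely generated fields, and commuting derivations dual to the coefficients of the form.
-/

set_option autoImplicit false

open MvPolynomial Pool.Agent.TH145.GH

namespace Pool.Agent.Y735

/-- The finite Galois extension, and the dual derivations. -/
theorem exists_setup' {k0 K ι : Type} [Field k0] [Field K] [Algebra k0 K] [IsAlgClosed K]
    [CharZero K] {y : ι → K} (hy : IsTranscendenceBasis k0 y) {n d N : ℕ} (hd : 0 < d)
    {F : MvPolynomial (Fin (n + 1)) K} (hF : F.IsHomogeneous d)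
    (s : {I : Fin (n + 1) →₀ ℕ // I.degree = d} → ι) (hs : Function.Injective s)
    (hFs : ∀ I, F.coeff I.1 = y (s I))
    (Q : Fin (n + 1) → Fin (n + 1) → MvPolynomial (Fin (n + 1)) K)
    (hQ : ∀ l, X l ^ N = ∑ i, Q l i * pderiv i F) (T : Finset K) :
    ∃ (E : IntermediateField (IntermediateField.adjoin k0 (Set.range y)) K)
      (F1 : MvPolynomial (Fin (n + 1)) E.toSubfield)
      (DE : (Fin (n + 1) →₀ ℕ) → E.toSubfield → E.toSubfield)
      (Q1 : Fin (n + 1) → Fin (n + 1) → MvPolynomial (Fin (n + 1)) E.toSubfield)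
      (D : (Fin (n + 1) →₀ ℕ) → Derivation ℤ K K),
      FiniteDimensional (IntermediateField.adjoin k0 (Set.range y)) E ∧
      IsGalois (IntermediateField.adjoin k0 (Set.range y)) E ∧ Gen F1 d DE N Q1 ∧
      (∀ I (x : E.toSubfield), D I x = (DE I x : K)) ∧
      (∀ I (r : k0), D I (algebraMap k0 K r) = 0) ∧
      (∀ I j, ∃ r : k0, D I (y j) = algebraMap k0 K r) ∧
      map E.toSubfield.subtype F1 = F ∧ (∀ t ∈ T, t ∈ E) ∧
      ∀ I J a, D I (D J a) = D J (D I a) := by
  classical
  have hck : CharZero k0 := by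
    constructor
    intro a b hab
    have h1 := congrArg (algebraMap k0 K) hab
    rw [map_natCast, map_natCast] at h1
    exact Nat.cast_injective h1
  set R := IntermediateField.adjoin k0 (Set.range y) with hR
  have hcR : CharZero R := charZero_of_injective_algebraMap (algebraMap k0 R).injective
  have halg : Algebra.IsAlgebraic R K := hy.isAlgebraic_field
  obtain ⟨T', hT'⟩ : ∃ T' : Finset K, T' = T ∪ Finset.univ.biUnion
    fun p : Fin (n + 1) × Fin (n + 1) => (Q p.1 p.2).support.image fun u => (Q p.1 p.2).coeff u :=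
      ⟨_, rfl⟩
  have hfin0 : FiniteDimensional R (IntermediateField.adjoin R (T' : Set K)) := by
    have : Finite (T' : Set K) := T'.finite_toSet
    exact IntermediateField.finiteDimensional_adjoin fun x _ =>
      (halg.isAlgebraic x).isIntegral
  obtain ⟨E, hE⟩ : ∃ E : IntermediateField R K,
    E = IntermediateField.normalClosure R (IntermediateField.adjoin R (T' : Set K)) K := ⟨_, rfl⟩
  have hclo : IsAlgClosure R K := ⟨inferInstance, halg⟩
  have hnK : Normal R K := IsAlgClosure.normal R K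
  have hfin : FiniteDimensional R E := by
    rw [hE]; infer_instance
  have hnE : Normal R E := by
    rw [hE]; infer_instance
  have hgal : IsGalois R E := { }
  have hTE : ∀ t ∈ T', t ∈ E := by
    intro t ht
    rw [hE]
    exact (IntermediateField.le_normalClosure _) (IntermediateField.subset_adjoin _ _ ht)
  -- the derivations
  have hD : ∀ I : Fin (n + 1) →₀ ℕ, ∃ D : Derivation k0 K K, ∀ j, D (y j) =
      if ∃ h : I.degree = d, s ⟨I, h⟩ = j then 1 else 0 := fun I =>
    Pool.Agent.W602.GT.exists_der y hy _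
  choose D hD using hD
  have hD' : ∀ I (r : k0), D I (algebraMap k0 K r) = 0 := fun I r => (D I).map_algebraMap r
  have hDy : ∀ I j, ∃ r : k0, D I (y j) = algebraMap k0 K r := by
    intro I j
    rw [hD]
    split_ifs
    · exact ⟨1, (map_one _).symm⟩
    · exact ⟨0, (map_zero _).symm⟩
  have hDR : ∀ I x, x ∈ R.toSubfield → (D I).restrictScalars ℤ x ∈ R.toSubfield := by
    intro I x hx
    rw [hR, IntermediateField.adjoin_toSubfield] at hx
    refine der_closure ((D I).restrictScalars ℤ) ?_ hx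
    rintro z (⟨r, rfl⟩ | ⟨j, rfl⟩)
    · refine ⟨R.algebraMap_mem r, ?_⟩
      change D I _ ∈ _
      rw [hD']
      exact zero_mem _
    · refine ⟨IntermediateField.subset_adjoin _ _ ⟨j, rfl⟩, ?_⟩
      change D I _ ∈ _
      obtain ⟨r, hr⟩ := hDy I j
      rw [hr]
      exact R.algebraMap_mem r
  have hDE : ∀ I x, x ∈ E.toSubfield → (D I).restrictScalars ℤ x ∈ E.toSubfield := by
    intro I x hx
    refine (isDer_top ((D I).restrictScalars ℤ)).mem_of_alg E.toSubfield trivial hx ?_
    have h1 : IsAlgebraic R.toSubfield x := halg.isAlgebraic x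
    refine Pool.Agent.TH145.MF.alg_mono ?_ h1
    intro z hz
    exact ⟨trivial, E.algebraMap_mem ⟨z, hz⟩, E.algebraMap_mem ⟨_, hDR I z hz⟩⟩
  have hFE : ∀ u, F.coeff u ∈ E.toSubfield := by
    intro u
    by_cases hu : u ∈ F.support
    · rw [hFs ⟨u, deg_of_mem hF hu⟩]
      exact E.algebraMap_mem ⟨_, IntermediateField.subset_adjoin _ _ ⟨_, rfl⟩⟩
    · rw [notMem_support_iff.1 hu]; exact zero_mem _
  have hQE : ∀ l i u, (Q l i).coeff u ∈ E.toSubfield := by
    intro l i u
    by_cases hu : u ∈ (Q l i).support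
    · refine hTE _ ?_
      rw [hT']
      refine Finset.mem_union_right _ (Finset.mem_biUnion.2 ⟨(l, i), Finset.mem_univ _, ?_⟩)
      exact Finset.mem_image.2 ⟨u, hu, rfl⟩
    · rw [notMem_support_iff.1 hu]; exact zero_mem _
  obtain ⟨F1, hF1⟩ := lift_poly E.toSubfield F hFE
  choose Q1 hQ1 using fun l i => lift_poly E.toSubfield (Q l i) (hQE l i)
  have hinj : Function.Injective (map (σ := Fin (n + 1)) E.toSubfield.subtype) :=
    map_injective _ Subtype.val_injective
  refine ⟨E, F1, fun I x => ⟨_, hDE I x x.2⟩, Q1, fun I => (D I).restrictScalars ℤ, hfin, hgal,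
    ⟨hd, ?_, ?_, ?_⟩, fun _ _ => rfl, hD', hDy, hF1, fun t ht => hTE t ?_, fun I J a => ?_⟩
  · refine MvPolynomial.IsHomogeneous.of_map (f := E.toSubfield.subtype) Subtype.val_injective ?_
    rw [hF1]
    exact hF
  · intro I J hI hJ
    have h1 : ((F1.coeff J : E.toSubfield) : K) = y (s ⟨J, hJ⟩) := by
      rw [← hFs, ← hF1, coeff_map]
      rfl
    constructor
    · intro hIJ
      apply Subtype.ext
      change D I ((F1.coeff J : E.toSubfield) : K) = 1
      rw [h1, hD, if_pos]
      subst hIJ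
      exact ⟨hI, rfl⟩
    · intro hIJ
      apply Subtype.ext
      change D I ((F1.coeff J : E.toSubfield) : K) = 0
      rw [h1, hD, if_neg]
      rintro ⟨h2, h3⟩
      exact hIJ (congrArg Subtype.val (hs h3))
  · intro l
    apply hinj
    rw [map_pow, map_X, hQ l, map_sum]
    refine Finset.sum_congr rfl fun i _ => ?_
    rw [map_mul, hQ1, ← hF1, pderiv_map]
  · rw [hT']
    exact Finset.mem_union_left _ ht
  · have h1 : ⁅D I, D J⁆ = 0 := by
      refine Pool.Agent.W602.GT.der_eq_zero ⁅D I, D J⁆ (Set.range y) hy.isAlgebraic_field ?_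
      rintro _ ⟨j, rfl⟩
      obtain ⟨r, hr⟩ := hDy J j
      obtain ⟨r', hr'⟩ := hDy I j
      rw [Derivation.commutator_apply, hr, hr', hD', hD', sub_self]
    have h2 := congrArg (fun X : Derivation k0 K K => X a) h1
    rw [Derivation.commutator_apply] at h2
    exact sub_eq_zero.1 h2

/-- Everything that is needed over a field generated by a finite set over `k0`. -/
theorem exists_all' {k0 K : Type} [Field k0] [Field K] [Algebra k0 K] [IsAlgClosed K] [CharZero K]
    {n d : ℕ} (hd : 0 < d) {F : MvPolynomial (Fin (n + 1)) K} (hF : F.IsHomogeneous d)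
    (hind : AlgebraicIndependent k0 fun I : {I : Fin (n + 1) →₀ ℕ // I.degree = d} => F.coeff I.1)
    (T : Finset K) :
    ∃ (B : Set K) (_ : B.Finite) (K1 : IntermediateField (IntermediateField.adjoin k0 B) K)
      (y : B → K1) (N : ℕ) (E : IntermediateField (IntermediateField.adjoin k0 (Set.range y)) K1)
      (F1 : MvPolynomial (Fin (n + 1)) E.toSubfield)
      (DE : (Fin (n + 1) →₀ ℕ) → E.toSubfield → E.toSubfield)
      (Q1 : Fin (n + 1) → Fin (n + 1) → MvPolynomial (Fin (n + 1)) E.toSubfield)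
      (D : (Fin (n + 1) →₀ ℕ) → Derivation ℤ K1 K1),
      IsAlgClosed K1 ∧ CharZero K1 ∧ IsTranscendenceBasis k0 y ∧
      FiniteDimensional (IntermediateField.adjoin k0 (Set.range y)) E ∧
      IsGalois (IntermediateField.adjoin k0 (Set.range y)) E ∧ Gen F1 d DE N Q1 ∧
      (∀ I (x : E.toSubfield), D I x = (DE I x : K1)) ∧
      (∀ I (r : k0), D I (algebraMap k0 K1 r) = 0) ∧
      (∀ I j, ∃ r : k0, D I (y j) = algebraMap k0 K1 r) ∧
      map ((algebraMap K1 K).comp E.toSubfield.subtype) F1 = F ∧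
      (∀ t ∈ IntermediateField.adjoin k0 (T : Set K), ∃ e : K1, e ∈ E ∧ (e : K) = t) ∧
      ∀ I J a, D I (D J a) = D J (D I a) := by
  classical
  obtain ⟨N, Q, hQ⟩ := exists_null hd hF hind
  obtain ⟨T', hT'⟩ : ∃ T' : Finset K, T' = T ∪ Finset.univ.biUnion
    fun p : Fin (n + 1) × Fin (n + 1) => (Q p.1 p.2).support.image fun u => (Q p.1 p.2).coeff u :=
      ⟨_, rfl⟩
  have := finite_deg n d
  obtain ⟨B, hB, K1, y, s, hK1, hy, hys, hs, hTK⟩ := exists_closed hind T'
  have hc : CharZero K1 := by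
    constructor
    intro a b hab
    have h1 := congrArg (algebraMap K1 K) hab
    rw [map_natCast, map_natCast] at h1
    exact Nat.cast_injective h1
  have hFK : ∀ u, F.coeff u ∈ Set.range (algebraMap K1 K) := by
    intro u
    by_cases hu : u ∈ F.support
    · exact ⟨y (s ⟨u, deg_of_mem hF hu⟩), hys _⟩
    · rw [notMem_support_iff.1 hu]; exact ⟨0, map_zero _⟩
  have hQK : ∀ l i u, (Q l i).coeff u ∈ Set.range (algebraMap K1 K) := by
    intro l i u
    by_cases hu : u ∈ (Q l i).support
    · refine ⟨⟨_, hTK _ ?_⟩, rfl⟩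
      rw [hT']
      refine Finset.mem_union_right _ (Finset.mem_biUnion.2 ⟨(l, i), Finset.mem_univ _, ?_⟩)
      exact Finset.mem_image.2 ⟨u, hu, rfl⟩
    · rw [notMem_support_iff.1 hu]; exact ⟨0, map_zero _⟩
  obtain ⟨F0, hF0⟩ := lift_poly' (algebraMap K1 K) F hFK
  choose Q0 hQ0 using fun l i => lift_poly' (algebraMap K1 K) (Q l i) (hQK l i)
  have hinj : Function.Injective (algebraMap K1 K) := (algebraMap K1 K).injective
  obtain ⟨T1, hT1⟩ : ∃ T1 : Finset K1, ∀ t ∈ T, ∃ t1 ∈ T1, (t1 : K) = t := by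
    refine ⟨T.preimage (fun x : K1 => (x : K)) hinj.injOn, fun t ht => ?_⟩
    refine ⟨⟨t, hTK t ?_⟩, ?_, rfl⟩
    · rw [hT']; exact Finset.mem_union_left _ ht
    · rw [Finset.mem_preimage]; exact ht
  obtain ⟨E, F1, DE, Q1, D, h1, h2, h3, h4, h5, h6, h7, h8, h8c⟩ := exists_setup' hy hd (F := F0)
    (MvPolynomial.IsHomogeneous.of_map (f := algebraMap K1 K) hinj (by rw [hF0]; exact hF)) s hs
    (fun I => by
      apply hinj
      rw [← coeff_map, hF0]
      exact (hys I).symm) Q0 (N := N) (fun l => by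
      apply map_injective _ hinj
      rw [map_pow, map_X, hQ l, map_sum]
      refine Finset.sum_congr rfl fun i _ => ?_
      rw [map_mul, hQ0, ← hF0, pderiv_map]) T1
  refine ⟨B, hB, K1, y, N, E, F1, DE, Q1, D, hK1, hc, hy, h1, h2, h3, h4, h5, h6, ?_, ?_, h8c⟩
  · rw [← map_map, h7, hF0]
  · intro t ht
    have h9 : t ∈ Subfield.closure (Set.range (algebraMap k0 K) ∪ (T : Set K)) := by
      rw [← IntermediateField.adjoin_toSubfield]
      exact ht
    have h10 : Subfield.closure (Set.range (algebraMap k0 K) ∪ (T : Set K)) ≤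
        E.toSubfield.map (algebraMap K1 K) := by
      rw [Subfield.closure_le]
      rintro z (⟨r, rfl⟩ | hz)
      · exact ⟨algebraMap k0 K1 r, E.algebraMap_mem (algebraMap k0 _ r), rfl⟩
      · obtain ⟨t1, ht1, htz⟩ := hT1 z hz
        exact ⟨t1, h8 t1 ht1, htz⟩
    obtain ⟨e, he, het⟩ := h10 h9
    exact ⟨e, he, het⟩

/-- Finiteness of the rational points that do not lie on lines. -/
theorem fin_points_L {k0 K : Type} [Field k0] [Field K] [Algebra k0 K] [IsAlgClosed K]
    [CharZero K] [IsAlgClosed k0] {n d : ℕ} (hn : 2 ≤ n) (hd : 3 * n + 2 ≤ 2 * d)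
    {F : MvPolynomial (Fin (n + 1)) K} (hF : F.IsHomogeneous d)
    (hind : AlgebraicIndependent k0 fun I : {I : Fin (n + 1) →₀ ℕ // I.degree = d} => F.coeff I.1)
    (T : Finset K) (l0 : Fin (n + 1)) :
    {x : Fin (n + 1) → K | (∀ j, x j ∈ IntermediateField.adjoin k0 (T : Set K)) ∧ x l0 = 1 ∧
      eval x F = 0 ∧ ¬ OnL F x}.Finite := by
  obtain ⟨B, hB, K1, y, N, E, F1, DE, Q1, D, hK1, hc, hy, h1, h2, h3, h4, h5, h6, h7, h8, h8c⟩ :=
    exists_all' (by omega) hF hind T
  have : Finite B := hB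
  have h9 := fin_L E hy h3 D h4 h5 h6 h8c hn hd l0
  refine (h9.image fun x j => (x j : K)).subset ?_
  rintro x ⟨hx, hxl, hxF, hxL⟩
  choose e he hex using fun j => h8 (x j) (hx j)
  have hF1 : eval e (map E.toSubfield.subtype F1) = 0 := by
    apply (algebraMap K1 K).injective
    rw [map_zero, ← hxF, ← h7, eval_map, eval_map]
    have h10 := hom_eval₂ F1 E.toSubfield.subtype (algebraMap K1 K) e
    rw [h10]
    congr 1
    funext j
    exact hex j
  refine ⟨e, ⟨he, ?_, hF1, fun h => hxL ?_⟩, funext hex⟩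
  · apply Subtype.ext
    rw [hex, hxl]
    rfl
  · have h10 := onL_map (algebraMap K1 K) (h3.hom.map E.toSubfield.subtype) h3.pos hF1 h
    rw [map_map, h7] at h10
    have h11 : (fun j => algebraMap K1 K (e j)) = x := funext hex
    rwa [h11] at h10

end Pool.Agent.Y735
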