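import Pool.Agent.Y735.LineH
import Pool.Agent.Y735.SetupL

/-!
Extension of the base field.
-/

set_option autoImplicit false

open MvPolynomial Pool.Agent.TH145.GH Cardinal

namespace Pool.Agent.Y735

/-- Generators of a field that are as many as some independent elements are independent. -/
theorem algInd_of_adjoin {k Ω ι κ : Type} [Field k] [Field Ω] [Algebra k Ω] [Finite ι] [Finite κ]
    (v : ι → Ω) {w : κ → Ω} (hw : AlgebraicIndependent k w)
    (h : ∀ j, w j ∈ IntermediateField.adjoin k (Set.range v)) (hcard : Nat.card ι ≤ Nat.card κ) :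
    AlgebraicIndependent k v := by
  classical
  obtain ⟨L, hL⟩ : ∃ L, L = IntermediateField.adjoin k (Set.range v) := ⟨_, rfl⟩
  rw [← hL] at h
  obtain ⟨v', hv'⟩ : ∃ v' : ι → L, ∀ i, (v' i : Ω) = v i :=
    ⟨fun i => ⟨v i, by rw [hL]; exact IntermediateField.subset_adjoin _ _ ⟨i, rfl⟩⟩, fun _ => rfl⟩
  obtain ⟨w', hw'⟩ : ∃ w' : κ → L, ∀ i, (w' i : Ω) = w i := ⟨fun i => ⟨w i, h i⟩, fun _ => rfl⟩
  have h1 : AlgebraicIndependent k w' := by
    refine AlgebraicIndependent.of_comp L.val ?_
    have h4 : L.val ∘ w' = w := funext hw'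
    rw [h4]
    exact hw
  have h2 : IntermediateField.adjoin k (Set.range v') = ⊤ := by
    rw [eq_top_iff]
    rintro ⟨x, hx⟩ -
    have h2 : (IntermediateField.adjoin k (Set.range v')).map L.val = L := by
      rw [IntermediateField.adjoin_map]
      conv_rhs => rw [hL]
      congr 1
      ext z
      constructor
      · rintro ⟨_, ⟨b, rfl⟩, rfl⟩
        exact ⟨b, (hv' b).symm⟩
      · rintro ⟨b, rfl⟩
        exact ⟨_, ⟨b, rfl⟩, hv' b⟩
    have h3 : x ∈ (IntermediateField.adjoin k (Set.range v')).map L.val := by rw [h2]; exact hx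
    obtain ⟨w, hw, hwx⟩ := h3
    have h4 : w = ⟨x, hx⟩ := Subtype.ext hwx
    rw [← h4]
    exact hw
  have h3 : Algebra.IsAlgebraic (Algebra.adjoin k (Set.range v')) L := by
    rw [← IntermediateField.isAlgebraic_adjoin_iff_top, h2]
    exact ⟨fun x => isAlgebraic_algebraMap (⟨x, trivial⟩ : (⊤ : IntermediateField k L))⟩
  have h5 := h1.cardinalMk_le_trdeg
  have h6 : #ι ≤ Algebra.trdeg k L := by
    refine le_trans ?_ h5
    rw [← Nat.cast_card, ← Nat.cast_card]
    exact_mod_cast hcard
  have h7 := Algebra.IsAlgebraic.isTranscendenceBasis_of_le_trdeg_of_finite k v' h6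
  have h8 := h7.1.map' (f := L.val) Subtype.val_injective
  have h9 : L.val ∘ v' = v := funext hv'
  rwa [h9] at h8

/-- An algebraically closed field with a transcendental element. -/
theorem exists_ext (K : Type) [Field K] [CharZero K] : ∃ (Ω : Type) (_ : Field Ω)
    (_ : Algebra K Ω) (lam : Ω), IsAlgClosed Ω ∧ CharZero Ω ∧ Transcendental K lam := by
  refine ⟨AlgebraicClosure (RatFunc K), inferInstance, inferInstance,
    algebraMap (RatFunc K) (AlgebraicClosure (RatFunc K)) RatFunc.X, inferInstance, ?_, ?_⟩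
  · exact charZero_of_injective_algebraMap
      (algebraMap K (AlgebraicClosure (RatFunc K))).injective
  · exact (transcendental_algebraMap_iff (algebraMap (RatFunc K)
      (AlgebraicClosure (RatFunc K))).injective).2 RatFunc.transcendental_X

/-- The coefficients of a multiple of the form are independent. -/
theorem scaled_ind {k K Ω : Type} [Field k] [Field K] [Field Ω] [Algebra k K] [Algebra K Ω]
    [Algebra k Ω] [IsScalarTower k K Ω] {lam : Ω} (hlam : Transcendental K lam) {n d : ℕ}
    {F : MvPolynomial (Fin (n + 1)) K} (I0 : {I : Fin (n + 1) →₀ ℕ // I.degree = d})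
    (h0 : F.coeff I0.1 ≠ 0)
    (hgen : AlgebraicIndependent k fun I : {I : {I : Fin (n + 1) →₀ ℕ // I.degree = d} // I ≠ I0} =>
      F.coeff I.1.1 / F.coeff I0.1) :
    AlgebraicIndependent k fun I : {I : Fin (n + 1) →₀ ℕ // I.degree = d} =>
      (lam • map (algebraMap K Ω) F).coeff I.1 := by
  classical
  have hfd := finite_deg n d
  have h1 : AlgebraicIndependent K fun _ : Unit => lam * algebraMap K Ω (F.coeff I0.1) := by
    rw [algebraicIndependent_unique_type_iff]
    intro h
    apply hlam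
    have h2 : IsAlgebraic K (algebraMap K Ω (F.coeff I0.1))⁻¹ := by
      rw [← map_inv₀]
      exact isAlgebraic_algebraMap _
    have h3 := h.mul h2
    rwa [mul_assoc, mul_inv_cancel₀ (by
      rw [Ne, map_eq_zero]
      exact h0), mul_one] at h3
  have h2 := hgen.sumElim_comp h1
  refine algInd_of_adjoin _ h2 ?_ ?_
  · obtain ⟨M, hM⟩ : ∃ M, M = IntermediateField.adjoin k (Set.range
      fun I : {I : Fin (n + 1) →₀ ℕ // I.degree = d} =>
        (lam • map (algebraMap K Ω) F).coeff I.1) := ⟨_, rfl⟩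
    rw [← hM]
    have hmem : ∀ I : {I : Fin (n + 1) →₀ ℕ // I.degree = d},
        lam * algebraMap K Ω (F.coeff I.1) ∈ M := by
      intro I
      rw [hM]
      refine IntermediateField.subset_adjoin _ _ ⟨I, ?_⟩
      dsimp only
      rw [coeff_smul, coeff_map, smul_eq_mul]
    rintro (_ | I)
    · exact hmem I0
    · change algebraMap K Ω (F.coeff I.1.1 / F.coeff I0.1) ∈ M
      have h3 := div_mem (hmem I.1) (hmem I0)
      rw [mul_div_mul_left _ _ (fun h => hlam (by rw [h]; exact isAlgebraic_zero)), ← map_div₀]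
        at h3
      exact h3
  · rw [Nat.card_sum, Nat.card_unique (α := Unit)]
    have h3 : Nat.card {I : Fin (n + 1) →₀ ℕ // I.degree = d} =
        Nat.card (Option {I : {I : Fin (n + 1) →₀ ℕ // I.degree = d} // I ≠ I0}) :=
      Nat.card_congr (Equiv.optionSubtypeNe I0).symm
    rw [h3, Finite.card_option]
    omega

/-- Lines over an extension of an algebraically closed field. -/
theorem onL_descend {K Ω : Type} [Field K] [Field Ω] [Algebra K Ω] [IsAlgClosed K] {n d : ℕ}
    {F : MvPolynomial (Fin (n + 1)) K} (hF : F.IsHomogeneous d) {lam : Ω} (hlam : lam ≠ 0)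
    {x : Fin (n + 1) → K}
    (h : OnL (lam • map (algebraMap K Ω) F) fun j => algebraMap K Ω (x j)) : OnL F x := by
  classical
  obtain ⟨y, ⟨i, j⟩, hij, h⟩ := h
  obtain ⟨f, hf⟩ : ∃ f : K → K → MvPolynomial (Fin (n + 1)) K, ∀ s t, f s t =
      aeval (fun l => MvPolynomial.C (s * x l) + MvPolynomial.C t * X l) F := ⟨_, fun _ _ => rfl⟩
  obtain ⟨p, hp⟩ : ∃ p : MvPolynomial (Fin (n + 1)) K,
    p = MvPolynomial.C (x i) * X j - MvPolynomial.C (x j) * X i := ⟨_, rfl⟩
  obtain ⟨I, hI⟩ : ∃ I : Ideal (MvPolynomial (Fin (n + 1)) K),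
    I = Ideal.span (Set.range fun st : K × K => f st.1 st.2) := ⟨_, rfl⟩
  obtain ⟨ev, hev⟩ : ∃ ev : MvPolynomial (Fin (n + 1)) K →ₐ[K] Ω, ev = aeval y := ⟨_, rfl⟩
  have h1 : I ≤ RingHom.ker ev := by
    rw [hI, Ideal.span_le]
    rintro _ ⟨⟨s, t⟩, rfl⟩
    rw [SetLike.mem_coe, RingHom.mem_ker]
    dsimp only
    have h2 := h (algebraMap K Ω s) (algebraMap K Ω t)
    rw [smul_eval, mul_eq_zero] at h2
    have h3 := h2.resolve_left hlam
    rw [hf, hev, ← h3, eval_map, ← aeval_def, ← AlgHom.comp_apply]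
    congr 1
    apply MvPolynomial.algHom_ext
    intro l
    rw [AlgHom.comp_apply, aeval_X, aeval_X, map_add, C_mul, map_mul, map_mul, aeval_X, aeval_C,
      aeval_C, aeval_C, Pi.add_apply, Pi.smul_apply, Pi.smul_apply, smul_eq_mul, smul_eq_mul]
  have h2 : ∃ y0 : Fin (n + 1) → K, (∀ q ∈ I, eval y0 q = 0) ∧ eval y0 p ≠ 0 := by
    by_contra hcon
    push Not at hcon
    have h3 : p ∈ vanishingIdeal K (zeroLocus K I) := by
      rw [mem_vanishingIdeal_iff]
      intro y0 hy0
      exact hcon y0 fun q hq => hy0 q hq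
    rw [vanishingIdeal_zeroLocus_eq_radical] at h3
    obtain ⟨m, hm⟩ := h3
    have h4 := h1 hm
    rw [RingHom.mem_ker, map_pow] at h4
    have h5 : ev p = 0 := by
      by_contra hne
      exact pow_ne_zero m hne h4
    rw [hp, hev, map_sub, map_mul, map_mul, aeval_X, aeval_X, aeval_C, aeval_C] at h5
    exact hij h5
  obtain ⟨y0, hy0, hpy⟩ := h2
  refine ⟨y0, (i, j), ?_, fun a b => ?_⟩
  · rw [hp, map_sub, map_mul, map_mul, eval_X, eval_X, eval_C, eval_C] at hpy
    exact hpy
  · have h3 := hy0 (f a b) (by rw [hI]; exact Ideal.subset_span ⟨(a, b), rfl⟩)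
    rw [hf] at h3
    rw [← h3, ← coe_aeval_eq_eval, RingHom.coe_coe, ← coe_aeval_eq_eval, RingHom.coe_coe,
      ← AlgHom.comp_apply]
    congr 1
    apply MvPolynomial.algHom_ext
    intro l
    rw [AlgHom.comp_apply, aeval_X, aeval_X, map_add, C_mul, map_mul, map_mul, aeval_X]
    simp

/-- A form over the base field that vanishes on the lines. -/
theorem H_descend {K Ω : Type} [Field K] [Field Ω] [Algebra K Ω] {m e : ℕ}
    {H : MvPolynomial (Fin m) Ω} (hH : H ≠ 0) (hHe : H.IsHomogeneous e) :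
    ∃ H0 : MvPolynomial (Fin m) K, H0 ≠ 0 ∧ H0.IsHomogeneous e ∧ ∀ x : Fin m → K,
      eval (fun j => algebraMap K Ω (x j)) H = 0 → eval x H0 = 0 := by
  classical
  obtain ⟨u, hu⟩ := ne_zero_iff.1 hH
  obtain ⟨φ, hφ⟩ : ∃ φ : Module.Dual K Ω, φ (H.coeff u) ≠ 0 := by
    by_contra hcon
    push Not at hcon
    exact hu ((Module.forall_dual_apply_eq_zero_iff K _).1 hcon)
  obtain ⟨H0, hH0⟩ : ∃ H0 : MvPolynomial (Fin m) K, ∀ v, H0.coeff v = φ (H.coeff v) := by
    refine ⟨∑ v ∈ H.support, monomial v (φ (H.coeff v)), fun v => ?_⟩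
    rw [coeff_sum]
    simp only [coeff_monomial]
    rw [Finset.sum_ite_eq']
    split_ifs with h
    · rfl
    · rw [notMem_support_iff.1 h, map_zero]
  refine ⟨H0, ?_, ?_, fun x hx => ?_⟩
  · rintro rfl
    apply hφ
    rw [← hH0, coeff_zero]
  · intro v hv
    apply hHe
    intro h
    rw [hH0, h, map_zero] at hv
    exact hv rfl
  · have h1 : eval x H0 = φ (eval (fun j => algebraMap K Ω (x j)) H) := by
      have hsub : H0.support ⊆ H.support := by
        intro v hv
        rw [mem_support_iff] at hv ⊢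
        intro h
        rw [hH0, h, map_zero] at hv
        exact hv rfl
      rw [eval_eq', eval_eq', map_sum, Finset.sum_subset hsub]
      · refine Finset.sum_congr rfl fun v _ => ?_
        rw [hH0]
        have h2 : H.coeff v * ∏ i, algebraMap K Ω (x i) ^ v i =
            (∏ i, x i ^ v i) • H.coeff v := by
          rw [Algebra.smul_def, map_prod, mul_comm]
          simp only [map_pow]
        rw [h2, map_smul, smul_eq_mul, mul_comm]
      · intro v _ hv
        rw [notMem_support_iff.1 hv, zero_mul]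
    rw [h1, hx, map_zero]

end Pool.Agent.Y735
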