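import Pool.Agent.Y735.Nabla

/-!
The bracket of two operators.
-/

set_option autoImplicit false

open MvPolynomial FF Pool.Agent.W603.LV Pool.Agent.W603.PV Pool.Agent.TH145.GH

namespace Pool.Agent.Y735

variable {K : Type} [Field K] {n : ℕ}

/-- A derivation on vectors. -/
def dv (δ : Derivation ℤ K K) (v : Fin (n + 1) → K) : Fin (n + 1) → K := fun l => δ (v l)

theorem dv_add (δ : Derivation ℤ K K) (v w : Fin (n + 1) → K) :
    dv δ (v + w) = dv δ v + dv δ w := by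
  funext l
  exact map_add δ _ _

theorem dv_sub (δ : Derivation ℤ K K) (v w : Fin (n + 1) → K) :
    dv δ (v - w) = dv δ v - dv δ w := by
  funext l
  exact map_sub δ _ _

theorem dv_smul (δ : Derivation ℤ K K) (c : K) (v : Fin (n + 1) → K) :
    dv δ (c • v) = δ c • v + c • dv δ v := by
  funext l
  rw [dv, Pi.smul_apply, smul_eq_mul, δ.leibniz, Pi.add_apply, Pi.smul_apply, Pi.smul_apply,
    smul_eq_mul, smul_eq_mul, smul_eq_mul, smul_eq_mul, dv]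
  ring

theorem dv_mulVec (δ : Derivation ℤ K K) (M : Matrix (Fin (n + 1)) (Fin (n + 1)) K)
    (v : Fin (n + 1) → K) :
    dv δ (M.mulVec v) = (M.map δ).mulVec v + M.mulVec (dv δ v) := by
  funext l
  rw [dv, Pi.add_apply]
  simp only [Matrix.mulVec, dotProduct, Matrix.map_apply, dv]
  rw [map_sum, ← Finset.sum_add_distrib]
  refine Finset.sum_congr rfl fun b _ => ?_
  rw [δ.leibniz, smul_eq_mul, smul_eq_mul]
  ring

theorem vec_dv (D : (Fin (n + 1) →₀ ℕ) → Derivation ℤ K K) (x : Fin (n + 1) → K)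
    (G : MvPolynomial (Fin (n + 1)) K) : vec D x G = dv (DD D G) x := rfl

/-- The bracket. -/
theorem bracket {F : MvPolynomial (Fin (n + 1)) K} {d : ℕ} (hd : 0 < d)
    {D : (Fin (n + 1) →₀ ℕ) → Derivation ℤ K K} (hF : F.IsHomogeneous d) (hD : Dual F d D)
    (hc : ∀ I J a, D I (D J a) = D J (D I a)) {x : Fin (n + 1) → K}
    {G1 G2 : MvPolynomial (Fin (n + 1)) K} {M1 M2 : Matrix (Fin (n + 1)) (Fin (n + 1)) K}
    (h1 : IsOp F d D x G1 M1) (h2 : IsOp F d D x G2 M2) :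
    (nab F D G1 M1 G2 - nab F D G2 M2 G1).IsHomogeneous d ∧
      vec D x (nab F D G1 M1 G2 - nab F D G2 M2 G1) ∈ Wsp F D x := by
  obtain ⟨hG1, c1, hc1⟩ := h1
  obtain ⟨hG2, c2, hc2⟩ := h2
  obtain ⟨A1, hA1⟩ : ∃ A, A = G1 + LM M1 F := ⟨_, rfl⟩
  obtain ⟨A2, hA2⟩ : ∃ A, A = G2 + LM M2 F := ⟨_, rfl⟩
  have hA1h : A1.IsHomogeneous d := by rw [hA1]; exact hG1.add (LM_hom M1 hd hF)
  have hA2h : A2.IsHomogeneous d := by rw [hA2]; exact hG2.add (LM_hom M2 hd hF)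
  unfold nab
  rw [← hA1, ← hA2]
  rw [← hA1] at hc1
  rw [← hA2] at hc2
  obtain ⟨δ1, hδ1⟩ : ∃ δ, δ = DD D A1 := ⟨_, rfl⟩
  obtain ⟨δ2, hδ2⟩ : ∃ δ, δ = DD D A2 := ⟨_, rfl⟩
  rw [vec_dv, ← hδ1] at hc1
  rw [vec_dv, ← hδ2] at hc2
  have e1 : cD δ1 F = A1 := by rw [hδ1]; exact cD_F hF hD hA1h
  have e2 : cD δ2 F = A2 := by rw [hδ2]; exact cD_F hF hD hA2h
  have hG1A : G1 = A1 - LM M1 F := by rw [hA1]; abel
  have hG2A : G2 = A2 - LM M2 F := by rw [hA2]; abel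
  rw [← hδ1, ← hδ2]
  refine ⟨((cD_hom δ1 hG2).sub (LM_hom M1 hd hG2)).sub
    ((cD_hom δ2 hG1).sub (LM_hom M2 hd hG1)), ?_⟩
  obtain ⟨N, hN⟩ : ∃ N : Matrix (Fin (n + 1)) (Fin (n + 1)) K,
    N = M2.map δ1 - M1.map δ2 - (M2 * M1 - M1 * M2) := ⟨_, rfl⟩
  have hH : cD δ1 G2 - LM M1 G2 - (cD δ2 G1 - LM M2 G1) =
      (cD δ1 A2 - cD δ2 A1) - LM N F := by
    rw [hG1A, hG2A, map_sub, map_sub, map_sub, map_sub, cD_LM, cD_LM, e1, e2, hN, LM_sub, LM_sub,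
      ← LM_LM]
    abel
  rw [hH, map_sub]
  have hv : vec D x (cD δ1 A2 - cD δ2 A1) = dv δ1 (dv δ2 x) - dv δ2 (dv δ1 x) := by
    funext l
    rw [vec_apply, Pi.sub_apply, dv, dv, dv, dv, hδ1, hδ2]
    exact (DD_comm hc A1 A2 (x l)).symm
  have hx1 : dv δ1 x = c1 • x - M1.mulVec x := by rw [← hc1]; abel
  have hx2 : dv δ2 x = c2 • x - M2.mulVec x := by rw [← hc2]; abel
  have hbr : dv δ1 (dv δ2 x) - dv δ2 (dv δ1 x) = (δ1 c2 - δ2 c1) • x - N.mulVec x := by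
    rw [hx1, hx2, dv_sub, dv_sub, dv_smul, dv_smul, dv_mulVec, dv_mulVec, hx1, hx2, hN,
      Matrix.sub_mulVec, Matrix.sub_mulVec, Matrix.sub_mulVec, Matrix.mulVec_sub,
      Matrix.mulVec_sub, Matrix.mulVec_smul, Matrix.mulVec_smul, Matrix.mulVec_mulVec,
      Matrix.mulVec_mulVec, sub_smul, smul_sub, smul_sub, smul_smul, smul_smul, mul_comm c1 c2]
    abel
  rw [hv, hbr]
  have h3 : (δ1 c2 - δ2 c1) • x - N.mulVec x - vec D x (LM N F) =
      (δ1 c2 - δ2 c1) • x - (vec D x (LM N F) + N.mulVec x) := by abel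
  rw [h3, vec_LM]
  refine sub_mem (Submodule.smul_mem _ _ (x_mem_Wsp F D x)) (sum_mem fun a _ => sum_mem fun b _ =>
    Submodule.smul_mem _ _ (wv_mem_Wsp F D x (a, b)))

/-- The operators for the elements of the space. -/
theorem exists_op {F : MvPolynomial (Fin (n + 1)) K} {d : ℕ}
    {D : (Fin (n + 1) →₀ ℕ) → Derivation ℤ K K} {x : Fin (n + 1) → K}
    {G : MvPolynomial (Fin (n + 1)) K} (hG : G.IsHomogeneous d) (h : vec D x G ∈ Wsp F D x) :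
    ∃ M, IsOp F d D x G M := by
  unfold Wsp at h
  obtain ⟨u, hu, w, hw, huw⟩ := Submodule.mem_sup.1 h
  obtain ⟨c, rfl⟩ := Submodule.mem_span_singleton.1 hu
  obtain ⟨f, hf⟩ := (Submodule.mem_span_range_iff_exists_fun K).1 hw
  refine ⟨Matrix.of fun a b => -f (a, b), hG, c, ?_⟩
  rw [map_add, add_assoc, vec_LM, ← huw, ← hf, Fintype.sum_prod_type]
  simp only [Matrix.of_apply, neg_smul, Finset.sum_neg_distrib]
  abel

/-- The operators given by matrices. -/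
theorem op_matrix {F : MvPolynomial (Fin (n + 1)) K} {d : ℕ} (hd : 0 < d)
    (hF : F.IsHomogeneous d) {D : (Fin (n + 1) →₀ ℕ) → Derivation ℤ K K} {x : Fin (n + 1) → K}
    {M : Matrix (Fin (n + 1)) (Fin (n + 1)) K} {c : K} (h : M.mulVec x = c • x) :
    IsOp F d D x (-LM M F) M := by
  refine ⟨(LM_hom M hd hF).neg, c, ?_⟩
  rw [neg_add_cancel, map_zero, zero_add, h]

theorem vec_matrix {F : MvPolynomial (Fin (n + 1)) K}
    {D : (Fin (n + 1) →₀ ℕ) → Derivation ℤ K K} {x : Fin (n + 1) → K}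
    {M : Matrix (Fin (n + 1)) (Fin (n + 1)) K} {c : K} (h : M.mulVec x = c • x) :
    vec D x (LM M F) ∈ Wsp F D x := by
  have h1 : vec D x (LM M F) = (vec D x (LM M F) + M.mulVec x) - c • x := by rw [h]; abel
  rw [h1, vec_LM]
  exact sub_mem (sum_mem fun a _ => sum_mem fun b _ =>
    Submodule.smul_mem _ _ (wv_mem_Wsp F D x (a, b))) (Submodule.smul_mem _ _ (x_mem_Wsp F D x))

end Pool.Agent.Y735
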