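import Pool.Agent.Y735.Dich2

/-!
The combination of the cases.
-/

set_option autoImplicit false

open MvPolynomial FF Pool.Agent.W603.LV Pool.Agent.W603.PV Pool.Agent.TH145.GH

namespace Pool.Agent.Y735

variable {k K : Type} [Field k] [Field K] [Algebra k K] {n : ℕ}

/-- The condition on the lines through the point. -/
def LineBound (F : MvPolynomial (Fin (n + 1)) K) (d : ℕ)
    (D : (Fin (n + 1) →₀ ℕ) → Derivation ℤ K K) (x : Fin (n + 1) → K) : Prop :=
  ∀ (y : Fin (n + 1) → K) (ik : Fin (n + 1) × Fin (n + 1)), pl x y ik ≠ 0 →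
    2 * Module.finrank K (Vl F D x y (d - 1)) + 2 ≤ Module.finrank K (Wsp F D x) + n →
    (d + 1 + Module.finrank K (Vl F D x y (d - 1)) ≤ 2 * n →
      ∀ a b : K, eval (a • x + b • y) F = 0) ∧
    (d + Module.finrank K (Vl F D x y (d - 1)) = 2 * n →
      ∀ a b : K, eval (a • x + b • y) F = b ^ d * eval y F)

section
variable [CharZero k] [IsFF k K] [IsAlgClosed k]

theorem CC_nonneg {d : ℕ} {F : MvPolynomial (Fin (n + 1)) K}
    {D : (Fin (n + 1) →₀ ℕ) → Derivation ℤ K K} {e g : Place k K → ℤ}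
    (hdat : Data k F d D e g) : 0 ≤ CC n e g := by
  refine finsum_nonneg fun P => ?_
  have h1 := hdat.e_nonneg P
  have h2 := hdat.g_nonneg P
  positivity

theorem pht_nonneg {x : Fin (n + 1) → K} (hx0 : x ≠ 0) : 0 ≤ pht k x := by
  rw [← fht_fin]
  exact fht_nonneg hx0

/-- The height of the points that are not on lines. -/
theorem combine {d : ℕ} {F : MvPolynomial (Fin (n + 1)) K}
    {D : (Fin (n + 1) →₀ ℕ) → Derivation ℤ K K} {e g : Place k K → ℤ}
    (hdat : Data k F d D e g) (hn : 2 ≤ n) (hd : 3 * n + 2 ≤ 2 * d) {x : Fin (n + 1) → K}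
    (hxF : eval x F = 0) (hx0 : x ≠ 0) (hL : LineBound F d D x) :
    (∃ (y : Fin (n + 1) → K) (ik : Fin (n + 1) × Fin (n + 1)), pl x y ik ≠ 0 ∧
      ∀ a b : K, eval (a • x + b • y) F = 0) ∨
    pht k x ≤ (d + 1) * CC n e g + 2 * ∑ᶠ P, g P := by
  classical
  have hC := CC_nonneg hdat
  have hg : 0 ≤ ∑ᶠ P, g P := finsum_nonneg fun P => hdat.g_nonneg P
  have hh := pht_nonneg (k := k) hx0
  have hF0 : dFl F x ≠ 0 := dFl_ne' hdat hx0
  have hker := ker_finrank hF0
  have hWle := Wsp_le hdat.pos hdat.hom hdat.dual hxF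
  have hwn : Module.finrank K (Wsp F D x) ≤ n := (Submodule.finrank_mono hWle).trans_eq hker
  have hw1 : 1 ≤ Module.finrank K (Wsp F D x) :=
    (finrank_span_singleton (K := K) hx0).symm.le.trans (Submodule.finrank_mono le_sup_left)
  have hdZ : (((d - 1 : ℕ) : ℤ)) = d - 1 := by
    have := hdat.pos
    omega
  have hdC : 0 ≤ (d : ℤ) * CC n e g := mul_nonneg (by positivity) hC
  obtain ⟨C, hCC⟩ : ∃ C, C = CC n e g := ⟨_, rfl⟩
  obtain ⟨G, hGG⟩ : ∃ G, G = ∑ᶠ P, g P := ⟨_, rfl⟩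
  obtain ⟨h, hhh⟩ : ∃ h, h = pht k x := ⟨_, rfl⟩
  rw [← hCC, ← hGG, ← hhh]
  rw [← hCC] at hC hdC
  rw [← hGG] at hg
  rw [← hhh] at hh
  -- points on lines of bounded height
  have hline : ∀ (y : Fin (n + 1) → K) (ik : Fin (n + 1) × Fin (n + 1)), pl x y ik ≠ 0 →
      fht k (pl x y) ≤ C → ((∃ (y : Fin (n + 1) → K) (ik : Fin (n + 1) × Fin (n + 1)),
        pl x y ik ≠ 0 ∧ ∀ a b : K, eval (a • x + b • y) F = 0) ∨ h ≤ (d + 1) * C + 2 * G) := by
    intro y ik hik hl
    by_cases hz : ∀ a b : K, eval (a • x + b • y) F = 0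
    · exact Or.inl ⟨y, ik, hik, hz⟩
    · push Not at hz
      obtain ⟨a, b, hab⟩ := hz
      have h1 := line_ht hdat hxF hik hab
      right
      rw [← hhh, ← hGG] at h1
      have h2 : (d : ℤ) * fht k (pl x y) ≤ d * C := mul_le_mul_of_nonneg_left hl (by positivity)
      nlinarith
  by_cases hG : Good (Bset k D x (d - 1)) (LinearMap.ker (dFl F x)) (Wsp F D x)
  · rcases Nat.even_or_odd' (n - Module.finrank K (Wsp F D x)) with ⟨p, hp | hp⟩
    · right
      have h1 := case_even hdat (by omega) hxF hx0 hG (p := p) (by omega)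
      rw [hdZ, ← hCC, ← hhh] at h1
      have h2 : (1 : ℤ) ≤ d - 1 - ((n + p : ℕ) : ℤ) := by
        have : n + p + 2 ≤ d := by omega
        omega
      have h3 : h ≤ C := by nlinarith
      nlinarith
    · obtain ⟨y, ik, hik, h1⟩ := case_odd hdat hxF hx0 hG (p := p) (by omega)
      rw [hdZ, ← hCC, ← hhh] at h1
      have h2 : (0 : ℤ) ≤ d - 1 - ((n + p + 1 : ℕ) : ℤ) := by
        have : n + p + 2 ≤ d := by omega
        omega
      exact hline y ik hik (by nlinarith)
  · unfold Good at hG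
    push Not at hG
    obtain ⟨φ, hφ0, hφ⟩ := hG
    obtain ⟨y, hy, ik, hik⟩ := exists_pl hx0 hφ0
    rw [← Vl_eq F D (d - 1) hy, hker] at hφ
    have hWV : Module.finrank K (Wsp F D x) ≤ Module.finrank K (Vl F D x y (d - 1)) :=
      Submodule.finrank_mono le_sup_left
    obtain ⟨v, hv⟩ : ∃ v, v = Module.finrank K (Vl F D x y (d - 1)) := ⟨_, rfl⟩
    obtain ⟨w, hw⟩ : ∃ w, w = Module.finrank K (Wsp F D x) := ⟨_, rfl⟩
    have hL1 := hL y ik hik
    have hcl := case_line hdat hxF hik (j := v - w) (r := n - v) (by omega) (by omega)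
    rw [← hv, ← hw] at hL1 hφ hWV
    rw [← hw] at hwn hw1
    have hL2 := hL1 (by omega)
    have hl0 : 0 ≤ fht k (pl x y) := fht_nonneg fun h0 => hik (by rw [h0]; rfl)
    rw [hdZ, ← hCC, ← hhh] at hcl
    obtain ⟨l, hll⟩ : ∃ l, l = fht k (pl x y) := ⟨_, rfl⟩
    rw [← hll] at hcl hl0
    obtain ⟨s, hs⟩ : ∃ s : ℤ, s = ((n - v : ℕ) : ℤ) - ((v - w : ℕ) : ℤ) := ⟨_, rfl⟩
    have hs2 : 2 ≤ s := by omega
    rw [← hs] at hcl
    by_cases h1 : d + 1 + v ≤ 2 * n
    · exact Or.inl ⟨y, ik, hik, hL2.1 h1⟩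
    by_cases h2 : d + v = 2 * n
    · -- a point of multiplicity `d`
      by_cases hz : ∀ a b : K, eval (a • x + b • y) F = 0
      · exact Or.inl ⟨y, ik, hik, hz⟩
      · push Not at hz
        obtain ⟨a, b, hab⟩ := hz
        right
        have h3 := line_ht_d hdat (hL2.2 h2) hik hab
        rw [← hhh, ← hGG, ← hll] at h3
        have hd1 : (1 : ℤ) ≤ d := by
          have := hdat.pos
          omega
        have h4 : h ≤ l + G := by
          by_contra hcon
          push Not at hcon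
          have h7 : (d : ℤ) * (l + G + 1) ≤ d * h :=
            mul_le_mul_of_nonneg_left (by omega) (by omega)
          have h8 : G ≤ d * G := le_mul_of_one_le_left hg hd1
          have h9 : (d : ℤ) * (l + G + 1) = d * l + d * G + d := by ring
          linarith
        have h5 : (d : ℤ) - 1 - ((n + (n - v) : ℕ) : ℤ) = -1 := by omega
        rw [h5] at hcl
        have h6 : l ≤ C + G := by
          have h7 : 2 * l ≤ s * l := mul_le_mul_of_nonneg_right hs2 hl0
          linarith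
        linarith
    · by_cases h3 : d + v = 2 * n + 1
      · have h5 : (d : ℤ) - 1 - ((n + (n - v) : ℕ) : ℤ) = 0 := by omega
        rw [h5] at hcl
        exact hline y ik hik (by rw [← hll]; nlinarith)
      · right
        have h5 : 1 ≤ (d : ℤ) - 1 - ((n + (n - v) : ℕ) : ℤ) := by omega
        have h6 : h ≤ C := by nlinarith
        nlinarith

end

end Pool.Agent.Y735
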