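import Mathlib

/-!
Spaces of linear maps: pairs of vectors.
-/

set_option autoImplicit false

open Module Submodule

namespace Pool.Agent.Y735

variable {K M E : Type*} [Field K] [AddCommGroup M] [Module K M] [AddCommGroup E] [Module K E]

/-- The span of the images of `H` under the maps in `B`. -/
def imB (B : AddSubmonoid (M →ₗ[K] E)) (H : Submodule K M) : Submodule K E :=
  span K {e | ∃ b ∈ B, ∃ m ∈ H, e = b m}

theorem mem_imB {B : AddSubmonoid (M →ₗ[K] E)} {H : Submodule K M} {b : M →ₗ[K] E} (hb : b ∈ B)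
    {m : M} (hm : m ∈ H) : b m ∈ imB B H := subset_span ⟨b, hb, m, hm, rfl⟩

theorem imB_le {B : AddSubmonoid (M →ₗ[K] E)} {H : Submodule K M} {U : Submodule K E}
    (h : ∀ b ∈ B, ∀ m ∈ H, b m ∈ U) : imB B H ≤ U := by
  unfold imB
  rw [span_le]
  rintro _ ⟨b, hb, m, hm, rfl⟩
  exact h b hb m hm

theorem imB_mono {B : AddSubmonoid (M →ₗ[K] E)} {H H' : Submodule K M} (h : H ≤ H') :
    imB B H ≤ imB B H' := imB_le fun _ hb _ hm => mem_imB hb (h hm)

/-- Maps of rank at most one modulo `D` have a common kernel or images in a common line. -/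
theorem common_kernel (B : AddSubmonoid (M →ₗ[K] E)) (D : Submodule K E)
    (h1 : ∀ b ∈ B, ∀ m m', b m ∉ D → b m' ∈ D ⊔ span K {b m})
    (h2 : ∀ b ∈ B, ∀ m, b m ∉ D → ∃ b' ∈ B, ∃ m', b' m' ∉ D ⊔ span K {b m})
    (h3 : ∃ b ∈ B, ∃ m, b m ∉ D) :
    ∃ φ : M →ₗ[K] K, φ ≠ 0 ∧ ∀ b ∈ B, ∀ m, φ m = 0 → b m ∈ D := by
  classical
  -- a relation
  have hrel : ∀ b ∈ B, ∀ m m', b m ∉ D → ∃ a : K, b m' - a • b m ∈ D := by
    intro b hb m m' hm
    obtain ⟨d, hd, y, hy, hdy⟩ := Submodule.mem_sup.1 (h1 b hb m m' hm)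
    obtain ⟨a, rfl⟩ := Submodule.mem_span_singleton.1 hy
    refine ⟨a, ?_⟩
    rw [← hdy, add_sub_cancel_right]
    exact hd
  -- kernels
  have key : ∀ b ∈ B, ∀ b' ∈ B, ∀ m m', b m ∉ D → b' m' ∉ D ⊔ span K {b m} →
      ∀ z, b z ∈ D → b' z ∈ D := by
    intro b hb b' hb' m m' hm hm' z hz
    by_contra hz'
    -- `b' z` is proportional to `b' m'`
    have hm'D : b' m' ∉ D := fun h => hm' (Submodule.mem_sup_left h)
    obtain ⟨a, ha⟩ := hrel b' hb' z m' hz'
    have hz2 : (b + b') z ∉ D := by
      intro h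
      apply hz'
      have := sub_mem h hz
      simpa using this
    obtain ⟨c, hc⟩ := hrel (b + b') (add_mem hb hb') z m hz2
    -- `b m + b' m - c (b z + b' z) ∈ D`
    obtain ⟨e, he⟩ := hrel b' hb' z m hz'
    have h4 : b m - (c - e) • b' z ∈ D := by
      have h5 : b m - (c - e) • b' z = ((b + b') m - c • (b + b') z) - (b' m - e • b' z) +
          c • b z := by
        simp only [LinearMap.add_apply, smul_add, sub_smul]
        abel
      rw [h5]
      exact add_mem (sub_mem hc he) (D.smul_mem _ hz)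
    have h6 : c - e ≠ 0 := by
      intro h0
      rw [h0, zero_smul, sub_zero] at h4
      exact hm h4
    apply hm'
    have h7 : b' z ∈ D ⊔ span K {b m} := by
      have h8 : b' z = (c - e)⁻¹ • (-(b m - (c - e) • b' z)) + (c - e)⁻¹ • b m := by
        rw [neg_sub, smul_sub, smul_smul, inv_mul_cancel₀ h6, one_smul]
        abel
      rw [h8]
      exact add_mem (Submodule.mem_sup_left (D.smul_mem _ (D.neg_mem h4)))
        (Submodule.mem_sup_right (Submodule.smul_mem _ _ (Submodule.mem_span_singleton_self _)))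
    have h9 : b' m' = (b' m' - a • b' z) + a • b' z := by abel
    rw [h9]
    exact add_mem (Submodule.mem_sup_left ha) (Submodule.smul_mem _ _ h7)
  obtain ⟨b0, hb0, m0, hm0⟩ := h3
  obtain ⟨b1, hb1, m1, hm1⟩ := h2 b0 hb0 m0 hm0
  have hm1D : b1 m1 ∉ D := fun h => hm1 (Submodule.mem_sup_left h)
  have hsymm : b0 m0 ∉ D ⊔ span K {b1 m1} := by
    intro h
    obtain ⟨d, hd, y, hy, hdy⟩ := Submodule.mem_sup.1 h
    obtain ⟨a, rfl⟩ := Submodule.mem_span_singleton.1 hy
    by_cases ha : a = 0
    · rw [ha, zero_smul, add_zero] at hdy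
      rw [hdy] at hd
      exact hm0 hd
    · apply hm1
      have h5 : b1 m1 = a⁻¹ • (-d) + a⁻¹ • b0 m0 := by
        rw [← hdy, smul_add, smul_smul, inv_mul_cancel₀ ha, one_smul, smul_neg]
        abel
      rw [h5]
      exact add_mem (Submodule.mem_sup_left (D.smul_mem _ (D.neg_mem hd)))
        (Submodule.mem_sup_right (Submodule.smul_mem _ _ (Submodule.mem_span_singleton_self _)))
  -- the kernel of `b0` modulo `D`
  have hker : ∀ b ∈ B, ∀ z, b0 z ∈ D → b z ∈ D := by
    intro b hb z hz
    by_contra hbz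
    by_cases h4 : b z ∈ D ⊔ span K {b0 m0}
    · -- then `b z ∉ D ⊔ span {b1 m1}`
      have h5 : b z ∉ D ⊔ span K {b1 m1} := by
        intro h5
        obtain ⟨d, hd, y, hy, hdy⟩ := Submodule.mem_sup.1 h4
        obtain ⟨a, rfl⟩ := Submodule.mem_span_singleton.1 hy
        have ha : a ≠ 0 := by
          rintro rfl
          rw [zero_smul, add_zero] at hdy
          rw [hdy] at hd
          exact hbz hd
        apply hsymm
        have h6 : b0 m0 = a⁻¹ • (-d) + a⁻¹ • b z := by
          rw [← hdy, smul_add, smul_smul, inv_mul_cancel₀ ha, one_smul, smul_neg]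
          abel
        rw [h6]
        exact add_mem (Submodule.mem_sup_left (D.smul_mem _ (D.neg_mem hd)))
          (Submodule.smul_mem _ _ h5)
      exact hbz (key b1 hb1 b hb m1 z hm1D h5 z (key b0 hb0 b1 hb1 m0 m1 hm0 hm1 z hz))
    · exact hbz (key b0 hb0 b hb m0 z hm0 h4 z hz)
  -- the functional
  have h5 : D.mkQ (b0 m0) ≠ 0 := by
    rw [Ne, Submodule.mkQ_apply, Submodule.Quotient.mk_eq_zero]
    exact hm0
  obtain ⟨ψ, hψ⟩ : ∃ ψ : Module.Dual K (E ⧸ D), ψ (D.mkQ (b0 m0)) ≠ 0 := by
    by_contra hcon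
    push Not at hcon
    exact h5 ((Module.forall_dual_apply_eq_zero_iff K _).1 hcon)
  refine ⟨ψ ∘ₗ D.mkQ ∘ₗ b0, ?_, ?_⟩
  · intro h0
    apply hψ
    have := LinearMap.congr_fun h0 m0
    simpa using this
  · intro b hb m hm
    apply hker b hb
    obtain ⟨a, ha⟩ := hrel b0 hb0 m0 m hm0
    have h6 : ψ (D.mkQ (b0 m)) = a • ψ (D.mkQ (b0 m0)) := by
      rw [← map_smul, ← map_smul, ← sub_eq_zero, ← map_sub, ← map_sub]
      have : D.mkQ (b0 m - a • b0 m0) = 0 := by
        rw [Submodule.mkQ_apply, Submodule.Quotient.mk_eq_zero]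
        exact ha
      rw [this, map_zero]
    have h7 : a = 0 := by
      have h8 : ψ (D.mkQ (b0 m)) = 0 := hm
      rw [h8] at h6
      rcases smul_eq_zero.1 h6.symm with h | h
      · exact h
      · exact absurd h hψ
    rw [h7, zero_smul, sub_zero] at ha
    exact ha

/-- Every hyperplane has a large image. -/
def Good (B : AddSubmonoid (M →ₗ[K] E)) (T D : Submodule K E) : Prop :=
  ∀ φ : M →ₗ[K] K, φ ≠ 0 →
    finrank K T + finrank K D ≤ 2 * finrank K (imB B (LinearMap.ker φ) ⊔ D : Submodule K E) + 1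

theorem sup_span_pair (D : Submodule K E) (u v : E) :
    D ⊔ span K {u, v} = (D ⊔ span K {u}) ⊔ span K {v} := by
  rw [sup_assoc, ← span_union, Set.singleton_union]

theorem finrank_sup_one [FiniteDimensional K E] {D : Submodule K E} {u : E} (hu : u ∉ D) :
    finrank K (D ⊔ span K {u} : Submodule K E) = finrank K D + 1 := by
  have hu0 : u ≠ 0 := by rintro rfl; exact hu D.zero_mem
  have h1 := Submodule.finrank_sup_add_finrank_inf_eq D (span K {u})
  have h2 : D ⊓ span K {u} = ⊥ := by
    rw [eq_bot_iff]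
    rintro y ⟨hy, hy'⟩
    obtain ⟨a, rfl⟩ := Submodule.mem_span_singleton.1 hy'
    by_cases ha : a = 0
    · rw [ha, zero_smul]; exact zero_mem _
    · exfalso
      apply hu
      have := D.smul_mem a⁻¹ hy
      rwa [smul_smul, inv_mul_cancel₀ ha, one_smul] at this
  rw [h2, finrank_bot, finrank_span_singleton hu0, add_zero] at h1
  exact h1

theorem finrank_sup_two [FiniteDimensional K E] {D : Submodule K E} {u v : E} (hu : u ∉ D)
    (hv : v ∉ D ⊔ span K {u}) :
    finrank K (D ⊔ span K {u, v} : Submodule K E) = finrank K D + 2 := by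
  rw [sup_span_pair, finrank_sup_one hv, finrank_sup_one hu]

/-- Selection of a pair. -/
theorem exists_pair [FiniteDimensional K E] {ι : Type*} (bas : ι → M)
    (hbas : span K (Set.range bas) = ⊤) (B : AddSubmonoid (M →ₗ[K] E)) (T : Submodule K E)
    (D : Submodule K E) (him : imB B ⊤ ⊔ D = T) (hg : Good B T D)
    (hr : finrank K D + 2 ≤ finrank K T) :
    ∃ b ∈ B, ∃ i j, b (bas i) ∉ D ∧ b (bas j) ∉ D ⊔ span K {b (bas i)} ∧
      Good B T (D ⊔ span K {b (bas i), b (bas j)}) := by
  classical
  have him' : ∀ W : Submodule K E, D ≤ W → (∀ b ∈ B, ∀ m, b m ∈ W) → T ≤ W := by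
    intro W hD h
    rw [← him]
    exact sup_le (imB_le fun b hb m _ => h b hb m) hD
  obtain ⟨U, hU⟩ : ∃ U : (M →ₗ[K] K) → Submodule K E, ∀ φ, U φ = imB B (LinearMap.ker φ) ⊔ D :=
    ⟨_, fun _ => rfl⟩
  have hDU : ∀ φ, D ≤ U φ := fun φ => by rw [hU]; exact le_sup_right
  have hmem : ∀ φ b, b ∈ B → ∀ m, φ m = 0 → b m ∈ U φ := fun φ b hb m hm => by
    rw [hU]; exact Submodule.mem_sup_left (mem_imB hb hm)
  -- a basis vector that is not mapped to a subspace
  have hbv : ∀ (b : M →ₗ[K] E) (W : Submodule K E) (m : M), b m ∉ W → ∃ i, b (bas i) ∉ W := by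
    intro b W m hm
    by_contra hcon
    push Not at hcon
    apply hm
    have h1 : (⊤ : Submodule K M) ≤ W.comap b := by
      rw [← hbas, span_le]
      rintro _ ⟨i, rfl⟩
      exact hcon i
    exact h1 trivial
  -- the bad hyperplanes
  obtain ⟨bad, hbad⟩ : ∃ bad : (M →ₗ[K] K) → Prop, ∀ φ, bad φ ↔ φ ≠ 0 ∧
      2 * finrank K (U φ) ≤ finrank K T + finrank K D := ⟨_, fun _ => Iff.rfl⟩
  -- it suffices to avoid the bad hyperplanes
  have hsuff : ∀ b ∈ B, ∀ i j, b (bas i) ∉ D → b (bas j) ∉ D ⊔ span K {b (bas i)} →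
      (∀ φ, bad φ → ¬ (D ⊔ span K {b (bas i), b (bas j)} ≤ U φ)) →
      Good B T (D ⊔ span K {b (bas i), b (bas j)}) := by
    intro b hb i j hi hj h φ hφ
    obtain ⟨D', hD'⟩ : ∃ D', D' = D ⊔ span K {b (bas i), b (bas j)} := ⟨_, rfl⟩
    have h1 : finrank K D' = finrank K D + 2 := by rw [hD']; exact finrank_sup_two hi hj
    rw [← hD']
    have h2 : U φ ≤ imB B (LinearMap.ker φ) ⊔ D' := by
      rw [hU, hD']
      exact sup_le_sup_left le_sup_left _
    have h3 := hg φ hφ
    rw [← hU] at h3
    have h4 := Submodule.finrank_mono h2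
    by_contra hcon
    push Not at hcon
    have h5 : finrank K (imB B (LinearMap.ker φ) ⊔ D' : Submodule K E) = finrank K (U φ) := by
      omega
    have h6 : U φ = imB B (LinearMap.ker φ) ⊔ D' := Submodule.eq_of_le_of_finrank_eq h2 h5.symm
    refine h φ ((hbad φ).2 ⟨hφ, by omega⟩) ?_
    rw [← hD', h6]
    exact le_sup_right
  -- rank two
  have hrank : ∃ b ∈ B, ∃ m m', b m ∉ D ∧ b m' ∉ D ⊔ span K {b m} := by
    by_contra hcon
    push Not at hcon
    have hne : ∀ W : Submodule K E, D ≤ W → finrank K W < finrank K T → ∃ b ∈ B, ∃ m, b m ∉ W := by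
      intro W hDW hW
      by_contra hcon
      push Not at hcon
      have := Submodule.finrank_mono (him' W hDW hcon)
      omega
    obtain ⟨φ, hφ, hφD⟩ := common_kernel B D (fun b hb m m' hm => hcon b hb m m' hm)
      (fun b hb m hm => hne _ le_sup_left (by rw [finrank_sup_one hm]; omega))
      (hne D le_rfl (by omega))
    have h1 := hg φ hφ
    have h2 : imB B (LinearMap.ker φ) ⊔ D = D :=
      sup_eq_right.2 (imB_le fun b hb m hm => hφD b hb m hm)
    rw [h2] at h1
    omega
  by_cases hAB : ∃ φ1 φ2, bad φ1 ∧ bad φ2 ∧ LinearMap.ker φ1 ≠ LinearMap.ker φ2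
  · -- two bad hyperplanes
    have hinf : ∀ φ1 φ2, bad φ1 → bad φ2 → LinearMap.ker φ1 ≠ LinearMap.ker φ2 →
        U φ1 ⊓ U φ2 = D := by
      intro φ1 φ2 h1 h2 hne
      have h3 : T ≤ U φ1 ⊔ U φ2 := by
        refine him' _ ((hDU φ1).trans le_sup_left) fun b hb m => ?_
        -- decompose `m`
        have h4 : LinearMap.ker φ1 ⊔ LinearMap.ker φ2 = ⊤ := by
          have hc := (LinearMap.isCoatom_ker_of_surjective (LinearMap.surjective ((hbad φ1).1 h1).1))
          have hc2 := (LinearMap.isCoatom_ker_of_surjective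
            (LinearMap.surjective ((hbad φ2).1 h2).1))
          rcases hc.le_iff.1 (le_sup_left : LinearMap.ker φ1 ≤
            LinearMap.ker φ1 ⊔ LinearMap.ker φ2) with h | h
          · exact h
          · exfalso
            have h5 : LinearMap.ker φ2 ≤ LinearMap.ker φ1 := by
              rw [← h]; exact le_sup_right
            rcases hc2.le_iff.1 h5 with h6 | h6
            · exact hc.1 h6
            · exact hne h6
        obtain ⟨y, hy, z, hz, rfl⟩ := Submodule.mem_sup.1 (h4 ▸ Submodule.mem_top : m ∈ _)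
        rw [map_add]
        exact add_mem (Submodule.mem_sup_left (hmem φ1 b hb y hy))
          (Submodule.mem_sup_right (hmem φ2 b hb z hz))
      have h4 := Submodule.finrank_sup_add_finrank_inf_eq (U φ1) (U φ2)
      have h3' := Submodule.finrank_mono h3
      have h5 := ((hbad φ1).1 h1).2
      have h6 := ((hbad φ2).1 h2).2
      symm
      refine Submodule.eq_of_le_of_finrank_le (le_inf (hDU _) (hDU _)) ?_
      omega
    obtain ⟨φ1, φ2, hb1, hb2, hne⟩ := hAB
    have hφ1 := ((hbad φ1).1 hb1).1
    have hφ2 := ((hbad φ2).1 hb2).1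
    have hD12 := hinf φ1 φ2 hb1 hb2 hne
    -- the two directions
    have hex : ∀ φ ψ : M →ₗ[K] K, φ ≠ 0 → ψ ≠ 0 → LinearMap.ker φ ≠ LinearMap.ker ψ →
        ∃ t, φ t = 0 ∧ ψ t ≠ 0 := by
      intro φ ψ hφ hψ hne
      by_contra hcon
      push Not at hcon
      have h5 : LinearMap.ker φ ≤ LinearMap.ker ψ := fun z hz => hcon z hz
      rcases (LinearMap.isCoatom_ker_of_surjective (LinearMap.surjective hφ)).le_iff.1 h5
        with h6 | h6
      · exact hψ (LinearMap.ker_eq_top.1 h6)
      · exact hne h6.symm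
    obtain ⟨t2, ht2, ht2'⟩ := hex φ1 φ2 hφ1 hφ2 hne
    obtain ⟨t1, ht1, ht1'⟩ := hex φ2 φ1 hφ2 hφ1 hne.symm
    have hN : ∀ b ∈ B, ∀ m, φ1 m = 0 → φ2 m = 0 → b m ∈ D := fun b hb m h1 h2 => by
      rw [← hD12]
      exact ⟨hmem φ1 b hb m h1, hmem φ2 b hb m h2⟩
    have hdec : ∀ m, ∃ a c : K, φ1 (m - (a • t1 + c • t2)) = 0 ∧
        φ2 (m - (a • t1 + c • t2)) = 0 := by
      intro m
      refine ⟨φ1 m / φ1 t1, φ2 m / φ2 t2, ?_, ?_⟩
      · simp only [map_sub, map_add, map_smul, ht2, smul_eq_mul, mul_zero, add_zero]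
        rw [div_mul_cancel₀ _ ht1', sub_self]
      · simp only [map_sub, map_add, map_smul, ht1, smul_eq_mul, mul_zero, zero_add]
        rw [div_mul_cancel₀ _ ht2', sub_self]
    have hproper : ∀ φ, bad φ → finrank K (U φ) < finrank K T := fun φ h => by
      have := ((hbad φ).1 h).2
      omega
    have hne0 : ∀ φ ψ : M →ₗ[K] K, ∀ t, bad φ → bad ψ → LinearMap.ker φ ≠ LinearMap.ker ψ →
        φ t = 0 → ψ t ≠ 0 → ∃ b ∈ B, b t ∉ D := by
      intro φ ψ t hφ hψ hne ht ht'
      by_contra hcon
      push Not at hcon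
      -- then everything is in `U ψ`
      have h1 : T ≤ U ψ := by
        refine him' _ (hDU ψ) fun b hb m => ?_
        have h2 : m = (m - (ψ m / ψ t) • t) + (ψ m / ψ t) • t := by abel
        rw [h2, map_add, map_smul]
        refine add_mem (hmem ψ b hb _ ?_) ((U ψ).smul_mem _ (hDU ψ (hcon b hb)))
        rw [map_sub, map_smul, smul_eq_mul, div_mul_cancel₀ _ ht', sub_self]
      have := Submodule.finrank_mono h1
      have := hproper ψ hψ
      omega
    obtain ⟨b1, hb1B, hb1t⟩ := hne0 φ1 φ2 t2 hb1 hb2 hne ht2 ht2'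
    obtain ⟨b2, hb2B, hb2t⟩ := hne0 φ2 φ1 t1 hb2 hb1 hne.symm ht1 ht1'
    obtain ⟨b, hbB, hbt1, hbt2⟩ : ∃ b ∈ B, b t1 ∉ D ∧ b t2 ∉ D := by
      by_cases h1 : b1 t1 ∈ D
      · by_cases h2 : b2 t2 ∈ D
        · refine ⟨b1 + b2, add_mem hb1B hb2B, fun h => hb2t ?_, fun h => hb1t ?_⟩
          · have := sub_mem h h1
            simpa using this
          · have := sub_mem h h2
            simpa using this
        · exact ⟨b2, hb2B, hb2t, h2⟩
      · exact ⟨b1, hb1B, h1, hb1t⟩
    have hbt2' : b t2 ∉ D ⊔ span K {b t1} := by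
      intro h
      obtain ⟨d, hd, y, hy, hdy⟩ := Submodule.mem_sup.1 h
      have h1 : b t2 ∈ U φ2 := by
        rw [← hdy]
        refine add_mem (hDU _ hd) ?_
        obtain ⟨a, rfl⟩ := Submodule.mem_span_singleton.1 hy
        exact (U φ2).smul_mem _ (hmem φ2 b hbB t1 ht1)
      apply hbt2
      rw [← hD12]
      exact ⟨hmem φ1 b hbB t2 ht2, h1⟩
    obtain ⟨i, hi⟩ := hbv b D t1 hbt1
    obtain ⟨j, hj⟩ : ∃ j, b (bas j) ∉ D ⊔ span K {b (bas i)} := by
      by_contra hcon
      push Not at hcon
      have h1 : ∀ m, b m ∈ D ⊔ span K {b (bas i)} := by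
        intro m
        by_contra h
        obtain ⟨j, hj⟩ := hbv b _ m h
        exact hj (hcon j)
      have h2 : D ⊔ span K {b t1, b t2} ≤ D ⊔ span K {b (bas i)} := by
        refine sup_le le_sup_left ?_
        rw [span_le]
        rintro _ (rfl | rfl)
        · exact h1 t1
        · exact h1 t2
      have h3 := Submodule.finrank_mono h2
      rw [finrank_sup_two hbt1 hbt2', finrank_sup_one hi] at h3
      omega
    -- the two spaces are equal
    have hDD : D ⊔ span K {b (bas i), b (bas j)} = D ⊔ span K {b t1, b t2} := by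
      refine Submodule.eq_of_le_of_finrank_eq ?_ ?_
      · refine sup_le le_sup_left ?_
        rw [span_le]
        have h1 : ∀ m, b m ∈ D ⊔ span K {b t1, b t2} := by
          intro m
          obtain ⟨a, c, h2, h3⟩ := hdec m
          have h4 : b m = b (m - (a • t1 + c • t2)) + (a • b t1 + c • b t2) := by
            rw [← map_smul, ← map_smul, ← map_add, ← map_add]
            congr 1
            abel
          rw [h4]
          refine add_mem (Submodule.mem_sup_left (hN b hbB _ h2 h3)) (Submodule.mem_sup_right ?_)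
          exact add_mem (Submodule.smul_mem _ _ (subset_span (by simp)))
            (Submodule.smul_mem _ _ (subset_span (by simp)))
        rintro _ (rfl | rfl)
        · exact h1 _
        · exact h1 _
      · rw [finrank_sup_two hi hj, finrank_sup_two hbt1 hbt2']
    refine ⟨b, hbB, i, j, hi, hj, hsuff b hbB i j hi hj fun φ hφ hle => ?_⟩
    rw [hDD] at hle
    have h1 : b t1 ∈ U φ := hle (Submodule.mem_sup_right (subset_span (by simp)))
    have h2 : b t2 ∈ U φ := hle (Submodule.mem_sup_right (subset_span (by simp)))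
    by_cases h3 : LinearMap.ker φ = LinearMap.ker φ1
    · have h4 := hinf φ φ2 hφ hb2 (by rw [h3]; exact hne)
      apply hbt1
      rw [← h4]
      exact ⟨h1, hmem φ2 b hbB t1 ht1⟩
    · have h4 := hinf φ φ1 hφ hb1 h3
      apply hbt2
      rw [← h4]
      exact ⟨h2, hmem φ1 b hbB t2 ht2⟩
  · -- at most one bad hyperplane
    push Not at hAB
    obtain ⟨W, hDW, hW, hWbad⟩ : ∃ W : Submodule K E, D ≤ W ∧ finrank K W < finrank K T ∧
        ∀ φ, bad φ → U φ = W := by
      by_cases h1 : ∃ φ, bad φ
      · obtain ⟨φ0, h0⟩ := h1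
        refine ⟨U φ0, hDU _, ?_, fun φ hφ => ?_⟩
        · have := ((hbad φ0).1 h0).2
          omega
        · rw [hU, hU, hAB φ φ0 hφ h0]
      · push Not at h1
        exact ⟨D, le_rfl, by omega, fun φ hφ => absurd hφ (h1 φ)⟩
    obtain ⟨b2, hb2, m2, hm2⟩ : ∃ b ∈ B, ∃ m, b m ∉ W := by
      by_contra hcon
      push Not at hcon
      have := Submodule.finrank_mono (him' W hDW hcon)
      omega
    obtain ⟨b1, hb1, m, m', hm, hm'⟩ := hrank
    -- a map of rank two with an image not contained in `W`
    obtain ⟨b, hb, z, hz, hbw⟩ : ∃ b ∈ B, ∃ z, b z ∉ W ∧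
        ∀ w, b w ∉ W → ∃ z', b z' ∉ D ⊔ span K {b w} := by
      by_cases h1 : ∃ z, b1 z ∉ W
      · obtain ⟨z, hz⟩ := h1
        refine ⟨b1, hb1, z, hz, fun w hw => ?_⟩
        by_contra hcon
        push Not at hcon
        have h2 : D ⊔ span K {b1 m, b1 m'} ≤ D ⊔ span K {b1 w} := by
          refine sup_le le_sup_left ?_
          rw [span_le]
          rintro _ (rfl | rfl)
          · exact hcon _
          · exact hcon _
        have h3 := Submodule.finrank_mono h2
        rw [finrank_sup_two hm hm', finrank_sup_one (fun h => hw (hDW h))] at h3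
        omega
      · push Not at h1
        by_cases h2 : ∀ w, b2 w ∉ W → ∃ z', b2 z' ∉ D ⊔ span K {b2 w}
        · exact ⟨b2, hb2, m2, hm2, h2⟩
        push Not at h2
        obtain ⟨w0, hw0, hw0'⟩ := h2
        refine ⟨b1 + b2, add_mem hb1 hb2, m2, fun h => hm2 ?_, fun w hw => ?_⟩
        · have := sub_mem h (h1 m2)
          simpa using this
        · by_contra hcon
          push Not at hcon
          have hb2w : b2 w ∉ W := by
            intro h
            apply hw
            rw [LinearMap.add_apply]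
            exact add_mem (h1 w) h
          have hrep : ∀ (D : Submodule K E) (u v : E), v ∈ D ⊔ span K {u} →
              ∃ a : K, v - a • u ∈ D := by
            intro D u v h
            obtain ⟨d, hd, y, hy, hdy⟩ := Submodule.mem_sup.1 h
            obtain ⟨a, rfl⟩ := Submodule.mem_span_singleton.1 hy
            exact ⟨a, by rw [← hdy, add_sub_cancel_right]; exact hd⟩
          obtain ⟨c, hc⟩ := hrep _ _ _ (hw0' w)
          have hc0 : c ≠ 0 := by
            rintro rfl
            rw [zero_smul, sub_zero] at hc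
            exact hb2w (hDW hc)
          have h5 : ∀ z, ∃ a : K, b1 z - a • b1 w ∈ D := by
            intro z
            obtain ⟨f, hf⟩ := hrep _ _ _ (hcon z)
            obtain ⟨g, hg'⟩ := hrep _ _ _ (hw0' z)
            -- `b2 z - (g / c) b2 w ∈ D`
            have h6 : b2 z - (g / c) • b2 w ∈ D := by
              have h7 : b2 z - (g / c) • b2 w = (b2 z - g • b2 w0) -
                  (g / c) • (b2 w - c • b2 w0) := by
                rw [smul_sub, smul_smul, div_mul_cancel₀ _ hc0]
                abel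
              rw [h7]
              exact sub_mem hg' (D.smul_mem _ hc)
            -- the difference
            have h8 : b1 z - f • b1 w - (f - g / c) • b2 w ∈ D := by
              have h9 : b1 z - f • b1 w - (f - g / c) • b2 w =
                  ((b1 + b2) z - f • (b1 + b2) w) - (b2 z - (g / c) • b2 w) := by
                simp only [LinearMap.add_apply, smul_add, sub_smul]
                abel
              rw [h9]
              exact sub_mem hf h6
            have h10 : (f - g / c) • b2 w ∈ W := by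
              have h11 : (f - g / c) • b2 w = (b1 z - f • b1 w) -
                  (b1 z - f • b1 w - (f - g / c) • b2 w) := by abel
              rw [h11]
              exact sub_mem (sub_mem (h1 z) (W.smul_mem _ (h1 w))) (hDW h8)
            have h12 : f - g / c = 0 := by
              by_contra h0
              apply hb2w
              have := W.smul_mem (f - g / c)⁻¹ h10
              rwa [smul_smul, inv_mul_cancel₀ h0, one_smul] at this
            rw [h12, zero_smul, sub_zero] at h8
            exact ⟨f, h8⟩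
          have h6 : ∀ z, b1 z ∈ D ⊔ span K {b1 w} := by
            intro z
            obtain ⟨a, ha⟩ := h5 z
            have h7 : b1 z = (b1 z - a • b1 w) + a • b1 w := by abel
            rw [h7]
            exact add_mem (Submodule.mem_sup_left ha) (Submodule.mem_sup_right
              (Submodule.smul_mem _ _ (Submodule.mem_span_singleton_self _)))
          have h7 : D ⊔ span K {b1 m, b1 m'} ≤ D ⊔ span K {b1 w} := by
            refine sup_le le_sup_left ?_
            rw [span_le]
            rintro _ (rfl | rfl)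
            · exact h6 _
            · exact h6 _
          have h8 := Submodule.finrank_mono h7
          rw [finrank_sup_two hm hm'] at h8
          by_cases h9 : b1 w ∈ D
          · have h10 : D ⊔ span K {b1 w} = D := by
              rw [sup_eq_left, span_le]
              rintro _ rfl
              exact h9
            rw [h10] at h8
            omega
          · rw [finrank_sup_one h9] at h8
            omega
    obtain ⟨i, hi⟩ := hbv b W z hz
    obtain ⟨z', hz'⟩ := hbw _ hi
    obtain ⟨j, hj⟩ := hbv b _ z' hz'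
    refine ⟨b, hb, i, j, fun h => hi (hDW h), hj, hsuff b hb i j (fun h => hi (hDW h)) hj
      fun φ hφ hle => ?_⟩
    rw [hWbad φ hφ] at hle
    exact hi (hle (Submodule.mem_sup_right (subset_span (by simp))))

/-- Selection of pairs. -/
theorem exists_pairs [FiniteDimensional K E] {ι : Type*} (bas : ι → M)
    (hbas : span K (Set.range bas) = ⊤) (B : AddSubmonoid (M →ₗ[K] E)) (T : Submodule K E)
    (p : ℕ) : ∀ D : Submodule K E, imB B ⊤ ⊔ D = T → Good B T D →
      finrank K D + 2 * p ≤ finrank K T →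
    ∃ (b : Fin p → M →ₗ[K] E) (i j : Fin p → ι), (∀ a, b a ∈ B) ∧
      finrank K (D ⊔ span K (Set.range (fun a => b a (bas (i a))) ∪
        Set.range (fun a => b a (bas (j a)))) : Submodule K E) = finrank K D + 2 * p := by
  induction p with
  | zero =>
    intro D _ _ _
    refine ⟨fun a => a.elim0, fun a => a.elim0, fun a => a.elim0, fun a => a.elim0, ?_⟩
    rw [Set.range_eq_empty, Set.union_empty, span_empty, sup_bot_eq, mul_zero, add_zero]
  | succ p ih =>
    intro D him hg hr
    obtain ⟨b0, hb0, i0, j0, hi0, hj0, hg0⟩ := exists_pair bas hbas B T D him hg (by omega)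
    have hD0 := finrank_sup_two hi0 hj0
    obtain ⟨b, i, j, hb, hfin⟩ := ih _ (by
      rw [← him]
      refine le_antisymm (sup_le le_sup_left (sup_le le_sup_right ?_))
        (sup_le_sup_left le_sup_left _)
      rw [span_le]
      rintro _ (rfl | rfl)
      · exact Submodule.mem_sup_left (mem_imB hb0 trivial)
      · exact Submodule.mem_sup_left (mem_imB hb0 trivial)) hg0 (by omega)
    refine ⟨Fin.cons b0 b, Fin.cons i0 i, Fin.cons j0 j, ?_, ?_⟩
    · intro a
      refine Fin.cases ?_ (fun a => ?_) a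
      · exact hb0
      · exact hb a
    · rw [hD0] at hfin
      have h1 : D ⊔ span K (Set.range (fun a => (Fin.cons b0 b : Fin (p + 1) → M →ₗ[K] E) a
          (bas ((Fin.cons i0 i : Fin (p + 1) → ι) a))) ∪
          Set.range (fun a => (Fin.cons b0 b : Fin (p + 1) → M →ₗ[K] E) a
          (bas ((Fin.cons j0 j : Fin (p + 1) → ι) a)))) =
          (D ⊔ span K {b0 (bas i0), b0 (bas j0)}) ⊔ span K (Set.range (fun a => b a (bas (i a))) ∪
            Set.range (fun a => b a (bas (j a)))) := by
        rw [sup_assoc, ← span_union]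
        congr 2
        ext y
        simp only [Set.mem_union, Set.mem_range, Fin.exists_fin_succ, Fin.cons_zero, Fin.cons_succ,
          Set.mem_insert_iff, Set.mem_singleton_iff]
        constructor
        · rintro ((h | h) | (h | h))
          · exact Or.inl (Or.inl h.symm)
          · exact Or.inr (Or.inl h)
          · exact Or.inl (Or.inr h.symm)
          · exact Or.inr (Or.inr h)
        · rintro ((h | h) | (h | h))
          · exact Or.inl (Or.inl h.symm)
          · exact Or.inr (Or.inl h.symm)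
          · exact Or.inl (Or.inr h)
          · exact Or.inr (Or.inr h)
      rw [h1, hfin]
      ring

end Pool.Agent.Y735
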