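import Pool.Agent.Y735.LineHt
import Pool.Agent.Y735.Pairs

/-!
The spaces of vector fields at a point.
-/

set_option autoImplicit false

open MvPolynomial FF Pool.Agent.W603.LV Pool.Agent.W603.PV Pool.Agent.TH145.GH

namespace Pool.Agent.Y735

/-- Selection of vectors. -/
theorem sel {K V ι : Type*} [Field K] [AddCommGroup V] [Module K V] [FiniteDimensional K V]
    (w : ι → V) : ∀ (N : ℕ) (D : Submodule K V),
      Module.finrank K (D ⊔ Submodule.span K (Set.range w) : Submodule K V) =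
        Module.finrank K D + N → ∃ v : Fin N → ι,
      D ⊔ Submodule.span K (Set.range (w ∘ v)) = D ⊔ Submodule.span K (Set.range w) := by
  intro N
  induction N with
  | zero =>
    intro D hD
    refine ⟨fun a => a.elim0, ?_⟩
    have h1 : D = D ⊔ Submodule.span K (Set.range w) :=
      Submodule.eq_of_le_of_finrank_eq le_sup_left (by rw [hD, add_zero])
    rw [Set.range_eq_empty, Submodule.span_empty, sup_bot_eq]
    exact h1
  | succ N ih =>
    intro D hD
    obtain ⟨i, hi⟩ : ∃ i, w i ∉ D := by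
      by_contra hcon
      push Not at hcon
      have h1 : D ⊔ Submodule.span K (Set.range w) = D := by
        rw [sup_eq_left, Submodule.span_le]
        rintro _ ⟨i, rfl⟩
        exact hcon i
      rw [h1] at hD
      omega
    have h1 : (D ⊔ Submodule.span K {w i}) ⊔ Submodule.span K (Set.range w) =
        D ⊔ Submodule.span K (Set.range w) := by
      rw [sup_assoc, ← Submodule.span_union]
      congr 2
      rw [Set.singleton_union]
      exact Set.insert_eq_of_mem ⟨i, rfl⟩
    obtain ⟨v, hv⟩ := ih (D ⊔ Submodule.span K {w i}) (by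
      rw [h1, hD, finrank_sup_one hi]
      ring)
    refine ⟨Fin.cons i v, ?_⟩
    rw [h1] at hv
    rw [← hv, sup_assoc, ← Submodule.span_union]
    congr 2
    ext z
    simp only [Set.mem_range, Function.comp_apply, Fin.exists_fin_succ, Fin.cons_zero,
      Fin.cons_succ, Set.mem_union, Set.mem_singleton_iff]
    exact or_congr_left eq_comm

variable {k K : Type} [Field k] [Field K] [Algebra k K] {n : ℕ}

/-- The space of the vectors of the linear group. -/
noncomputable def Wsp (F : MvPolynomial (Fin (n + 1)) K)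
    (D : (Fin (n + 1) →₀ ℕ) → Derivation ℤ K K) (x : Fin (n + 1) → K) :
    Submodule K (Fin (n + 1) → K) :=
  Submodule.span K {x} ⊔ Submodule.span K (Set.range (wv F D x))

theorem x_mem_Wsp (F : MvPolynomial (Fin (n + 1)) K)
    (D : (Fin (n + 1) →₀ ℕ) → Derivation ℤ K K) (x : Fin (n + 1) → K) : x ∈ Wsp F D x :=
  Submodule.mem_sup_left (Submodule.mem_span_singleton_self x)

theorem wv_mem_Wsp (F : MvPolynomial (Fin (n + 1)) K)
    (D : (Fin (n + 1) →₀ ℕ) → Derivation ℤ K K) (x : Fin (n + 1) → K)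
    (pq : Fin (n + 1) × Fin (n + 1)) : wv F D x pq ∈ Wsp F D x :=
  Submodule.mem_sup_right (Submodule.subset_span ⟨pq, rfl⟩)

/-- The linear forms that vanish at `x`. -/
noncomputable def Mx (x : Fin (n + 1) → K) : Submodule K (Fin (n + 1) → K) :=
  LinearMap.ker (∑ l, x l • LinearMap.proj (R := K) (φ := fun _ : Fin (n + 1) => K) l)

theorem mem_Mx {x m : Fin (n + 1) → K} : m ∈ Mx x ↔ ∑ l, m l * x l = 0 := by
  unfold Mx
  rw [LinearMap.mem_ker]
  simp only [LinearMap.coe_sum, Finset.sum_apply, LinearMap.smul_apply, LinearMap.proj_apply,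
    smul_eq_mul]
  rw [Finset.sum_congr rfl fun l _ => mul_comm (x l) (m l)]

/-- The map given by a form of degree `d - 1`. -/
noncomputable def bmap (D : (Fin (n + 1) →₀ ℕ) → Derivation ℤ K K) (x : Fin (n + 1) → K)
    (Q : MvPolynomial (Fin (n + 1)) K) : Mx x →ₗ[K] (Fin (n + 1) → K) :=
  vec D x ∘ₗ LinearMap.mulLeft K Q ∘ₗ lf ∘ₗ (Mx x).subtype

theorem bmap_apply (D : (Fin (n + 1) →₀ ℕ) → Derivation ℤ K K) (x : Fin (n + 1) → K)
    (Q : MvPolynomial (Fin (n + 1)) K) (m : Mx x) :
    bmap D x Q m = vec D x (Q * lf (m : Fin (n + 1) → K)) := rfl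

variable (k K n) in
/-- The forms with constant coefficients. -/
def CS (e : ℕ) : AddSubmonoid (MvPolynomial (Fin (n + 1)) K) where
  carrier := {Q | Q.IsHomogeneous e ∧ ∀ u, ∃ c : k, Q.coeff u = algebraMap k K c}
  add_mem' := by
    rintro a b ⟨ha, ha'⟩ ⟨hb, hb'⟩
    refine ⟨ha.add hb, fun u => ?_⟩
    obtain ⟨c, hc⟩ := ha' u
    obtain ⟨c', hc'⟩ := hb' u
    exact ⟨c + c', by rw [coeff_add, hc, hc', map_add]⟩
  zero_mem' := ⟨isHomogeneous_zero _ _ _, fun u => ⟨0, by rw [coeff_zero, map_zero]⟩⟩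

theorem mem_CS {e : ℕ} {Q : MvPolynomial (Fin (n + 1)) K} : Q ∈ CS k K n e ↔
    Q.IsHomogeneous e ∧ ∀ u, ∃ c : k, Q.coeff u = algebraMap k K c := Iff.rfl

theorem monomial_mem_CS {e : ℕ} {u : Fin (n + 1) →₀ ℕ} (hu : u.degree = e) :
    (monomial u 1 : MvPolynomial (Fin (n + 1)) K) ∈ CS k K n e := by
  classical
  refine ⟨isHomogeneous_monomial _ hu, fun v => ?_⟩
  rw [coeff_monomial]
  split_ifs
  · exact ⟨1, (map_one _).symm⟩
  · exact ⟨0, (map_zero _).symm⟩

/-- The maps given by the forms with constant coefficients. -/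
noncomputable def Bset (k : Type) {K : Type} [Field k] [Field K] [Algebra k K] {n : ℕ}
    (D : (Fin (n + 1) →₀ ℕ) → Derivation ℤ K K) (x : Fin (n + 1) → K) (e : ℕ) :
    AddSubmonoid (Mx x →ₗ[K] (Fin (n + 1) → K)) where
  carrier := {b | ∃ Q ∈ CS k K n e, b = bmap D x Q}
  add_mem' := by
    rintro a b ⟨Q, hQ, rfl⟩ ⟨R, hR, rfl⟩
    refine ⟨Q + R, add_mem hQ hR, ?_⟩
    ext1 m
    rw [LinearMap.add_apply, bmap_apply, bmap_apply, bmap_apply, add_mul, map_add]
  zero_mem' := by
    refine ⟨0, zero_mem _, ?_⟩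
    ext1 m
    rw [bmap_apply, zero_mul, map_zero, LinearMap.zero_apply]

theorem mem_Bset {D : (Fin (n + 1) →₀ ℕ) → Derivation ℤ K K} {x : Fin (n + 1) → K} {e : ℕ}
    {b : Mx x →ₗ[K] (Fin (n + 1) → K)} :
    b ∈ Bset k D x e ↔ ∃ Q ∈ CS k K n e, b = bmap D x Q := Iff.rfl

theorem pm_mem_Mx (x : Fin (n + 1) → K) (i j : Fin (n + 1)) : pm x i j ∈ Mx x := by
  rw [mem_Mx, ← eval_lf]
  exact eval_pm x i j

/-- The generators of the space of linear forms. -/
def pmx (x : Fin (n + 1) → K) (i0 j : Fin (n + 1)) : Mx x := ⟨pm x i0 j, pm_mem_Mx x i0 j⟩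

theorem span_pmx {x : Fin (n + 1) → K} {i0 : Fin (n + 1)} (hi0 : x i0 ≠ 0) :
    Submodule.span K (Set.range (pmx x i0)) = ⊤ := by
  rw [eq_top_iff]
  rintro m -
  have h1 : m = ∑ j, ((m : Fin (n + 1) → K) j / x i0) • pmx x i0 j := by
    ext l
    have hm := mem_Mx.1 m.2
    rw [Submodule.coe_sum, Finset.sum_apply]
    have h2 : ∀ j, ((((m : Fin (n + 1) → K) j / x i0) • pmx x i0 j : Mx x) : Fin (n + 1) → K) l =
        (if l = j then (m : Fin (n + 1) → K) j else 0) -
          (if l = i0 then (m : Fin (n + 1) → K) j * x j / x i0 else 0) := by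
      intro j
      rw [Submodule.coe_smul, Pi.smul_apply, smul_eq_mul]
      change _ * ((if l = j then x i0 else 0) - if l = i0 then x j else 0) = _
      split_ifs <;> field_simp <;> ring
    rw [Finset.sum_congr rfl fun j _ => h2 j, Finset.sum_sub_distrib, Finset.sum_ite_eq]
    simp only [Finset.mem_univ, if_true]
    have h3 : ∑ j, (if l = i0 then (m : Fin (n + 1) → K) j * x j / x i0 else 0) = 0 := by
      split_ifs
      · rw [← Finset.sum_div, hm, zero_div]
      · exact Finset.sum_const_zero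
    rw [h3, sub_zero]
  rw [h1]
  exact sum_mem fun j _ => Submodule.smul_mem _ _ (Submodule.subset_span ⟨j, rfl⟩)

theorem ker_finrank {F : MvPolynomial (Fin (n + 1)) K} {x : Fin (n + 1) → K}
    (hF0 : dFl F x ≠ 0) : Module.finrank K (LinearMap.ker (dFl F x)) = n := by
  have h2 := LinearMap.finrank_range_add_finrank_ker (dFl F x)
  have h3 : LinearMap.range (dFl F x) = ⊤ := LinearMap.range_eq_top.2 (LinearMap.surjective hF0)
  rw [h3, finrank_top, Module.finrank_self, Module.finrank_fin_fun] at h2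
  omega

theorem Wsp_le {F : MvPolynomial (Fin (n + 1)) K} {d : ℕ} (hd : 0 < d) (hF : F.IsHomogeneous d)
    {D : (Fin (n + 1) →₀ ℕ) → Derivation ℤ K K} (hD : Dual F d D)
    {x : Fin (n + 1) → K} (hx : eval x F = 0) : Wsp F D x ≤ LinearMap.ker (dFl F x) := by
  unfold Wsp
  refine sup_le ?_ ?_
  · rw [Submodule.span_le, Set.singleton_subset_iff]
    exact dF_x hF hx
  · rw [Submodule.span_le]
    rintro _ ⟨pq, rfl⟩
    exact dF_wv hd hF hD hx pq

/-- The vector fields span the tangent space. -/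
theorem im_top {F : MvPolynomial (Fin (n + 1)) K} {d : ℕ} (hd : 0 < d) (hF : F.IsHomogeneous d)
    {D : (Fin (n + 1) →₀ ℕ) → Derivation ℤ K K} (hD : Dual F d D)
    {x : Fin (n + 1) → K} (hx : eval x F = 0) {i0 : Fin (n + 1)} (hi0 : x i0 ≠ 0) :
    imB (Bset k D x (d - 1)) ⊤ ⊔ Wsp F D x = LinearMap.ker (dFl F x) := by
  refine le_antisymm (sup_le (imB_le ?_) (Wsp_le hd hF hD hx)) ?_
  · rintro b ⟨Q, hQ, rfl⟩ m -
    exact dF_vlf hd hF hD hx hQ.1 (mem_Mx.1 m.2)
  · intro z hz
    have h1 := span_gx hd (D := D) hF x i0 hi0 z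
    have h2 : dF F x z = 0 := hz
    rw [h2, zero_div, zero_smul, add_zero] at h1
    refine Submodule.span_le.2 ?_ h1
    rintro _ ⟨a, rfl⟩
    rcases a with _ | pq | M
    · exact Submodule.mem_sup_right (x_mem_Wsp F D x)
    · rw [SetLike.mem_coe, gx_inl]
      exact Submodule.mem_sup_right (wv_mem_Wsp F D x pq)
    · refine Submodule.mem_sup_left ?_
      by_cases hM : M.1.degree + 1 = d
      · have h3 : gx F d D x (some (Sum.inr M)) =
            bmap D x (monomial M.1 1) (pmx x M.2.2 M.2.1) := by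
          rw [bmap_apply]
          change _ = vec D x (monomial M.1 1 * lf (pm x M.2.2 M.2.1))
          rw [lf_pm, mul_sub, mul_smul_comm, mul_smul_comm, map_sub, map_smul, map_smul]
          have h4 : ∀ i, (monomial M.1 1 * X i : MvPolynomial (Fin (n + 1)) K) =
              monomial (M.1 + Finsupp.single i 1) 1 := by
            intro i
            rw [X, monomial_mul, one_mul]
          rw [h4, h4]
          funext l
          simp only [gx, if_pos hM, Pi.sub_apply, Pi.smul_apply, smul_eq_mul, vec_apply,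
            DD_monomial, one_smul]
        rw [h3]
        exact mem_imB (mem_Bset.2 ⟨_, monomial_mem_CS (by omega), rfl⟩) trivial
      · have h3 : gx F d D x (some (Sum.inr M)) = 0 := by
          funext l
          simp only [gx, if_neg hM]
          rfl
        rw [h3]
        exact zero_mem _

/-- The choice of the vectors of the linear group. -/
theorem exists_wa (F : MvPolynomial (Fin (n + 1)) K)
    (D : (Fin (n + 1) →₀ ℕ) → Derivation ℤ K K) {x : Fin (n + 1) → K} (hx0 : x ≠ 0) :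
    ∃ (a : ℕ) (v : Fin a → Fin (n + 1) × Fin (n + 1)),
      1 + a = Module.finrank K (Wsp F D x) ∧
      Wsp F D x = Submodule.span K {x} ⊔ Submodule.span K (Set.range (wv F D x ∘ v)) := by
  have h1 : Module.finrank K (Submodule.span K {x}) = 1 := finrank_span_singleton hx0
  have h2 : Module.finrank K (Submodule.span K {x}) ≤ Module.finrank K (Wsp F D x) :=
    Submodule.finrank_mono le_sup_left
  obtain ⟨v, hv⟩ := sel (wv F D x) (Module.finrank K (Wsp F D x) - 1) (Submodule.span K {x}) (by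
    change Module.finrank K (Wsp F D x) = _
    omega)
  exact ⟨_, v, by omega, hv.symm⟩

/-- The rows of the first two types. -/
theorem Wsp_le_rows {A B U T : Type} (F : MvPolynomial (Fin (n + 1)) K)
    (D : (Fin (n + 1) →₀ ℕ) → Derivation ℤ K K) (x y : Fin (n + 1) → K) (i0 : Fin (n + 1))
    (ik : Fin (n + 1) × Fin (n + 1)) (rd : RD K n A B U T)
    (h : Wsp F D x = Submodule.span K {x} ⊔ Submodule.span K (Set.range (wv F D x ∘ rd.wa))) :
    Wsp F D x ≤ Submodule.span K (row1 F D x y i0 ik rd ''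
        {κ | rk (some κ : Ri A B U T) < 2}) := by
  rw [h]
  refine sup_le ?_ ?_
  · rw [Submodule.span_le, Set.singleton_subset_iff]
    exact Submodule.subset_span ⟨none, by simp [rk], rfl⟩
  · rw [Submodule.span_le]
    rintro _ ⟨a, rfl⟩
    exact Submodule.subset_span ⟨some (Sum.inl a), by simp [rk], rfl⟩

theorem exists_pl {x : Fin (n + 1) → K} (hx0 : x ≠ 0) {φ : Mx x →ₗ[K] K} (hφ : φ ≠ 0) :
    ∃ y : Fin (n + 1) → K, (∀ m : Mx x, φ m = ∑ l, (m : Fin (n + 1) → K) l * y l) ∧
      ∃ ik, pl x y ik ≠ 0 := by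
  classical
  obtain ⟨ψ, hψ⟩ := LinearMap.exists_extend φ
  have h1 : ∀ m : Fin (n + 1) → K, ψ m = ∑ l, m l * ψ (Pi.single l 1) := by
    intro m
    have h2 : m = ∑ l, m l • (Pi.single l 1 : Fin (n + 1) → K) := by
      funext i
      rw [Finset.sum_apply, Finset.sum_eq_single i]
      · rw [Pi.smul_apply, Pi.single_eq_same, smul_eq_mul, mul_one]
      · intro j _ hj
        rw [Pi.smul_apply, Pi.single_eq_of_ne hj.symm, smul_zero]
      · intro h; exact absurd (Finset.mem_univ i) h
    conv_lhs => rw [h2]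
    rw [map_sum]
    exact Finset.sum_congr rfl fun l _ => by rw [map_smul, smul_eq_mul]
  have h3 : ∀ m : Mx x, φ m = ∑ l, (m : Fin (n + 1) → K) l * ψ (Pi.single l 1) := by
    intro m
    rw [← hψ, LinearMap.comp_apply, h1]
    rfl
  refine ⟨fun l => ψ (Pi.single l 1), h3, ?_⟩
  by_contra hcon
  push Not at hcon
  apply hφ
  obtain ⟨i0, hi0⟩ := Function.ne_iff.1 hx0
  have hi0' : x i0 ≠ 0 := hi0
  ext m
  rw [h3, LinearMap.zero_apply]
  have h4 : ∀ l, ψ (Pi.single l 1) = ψ (Pi.single i0 1) / x i0 * x l := by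
    intro l
    have h5 := hcon (i0, l)
    simp only [pl, sub_eq_zero] at h5
    field_simp
    linear_combination h5
  have h6 := mem_Mx.1 m.2
  rw [Finset.sum_congr rfl fun l _ => by rw [h4 l, mul_left_comm], ← Finset.mul_sum, h6, mul_zero]

/-- The forms that vanish on a line. -/
theorem span_tm {x y : Fin (n + 1) → K} {ik : Fin (n + 1) × Fin (n + 1)} (hik : pl x y ik ≠ 0)
    {m : Fin (n + 1) → K} (hx : ∑ l, m l * x l = 0) (hy : ∑ l, m l * y l = 0) :
    m = ∑ c, (if c = ik.1 ∨ c = ik.2 then 0 else m c / pl x y ik) •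
      tm (pl x y) (ik.1, ik.2, c) := by
  classical
  obtain ⟨a, b⟩ := ik
  have hp : pl x y (a, b) = x a * y b - x b * y a := rfl
  have hab : a ≠ b := by
    rintro rfl
    rw [hp, sub_self] at hik
    exact hik rfl
  obtain ⟨m', hm'⟩ : ∃ m', m' = m - ∑ c, (if c = a ∨ c = b then 0 else m c / pl x y (a, b)) •
      tm (pl x y) (a, b, c) := ⟨_, rfl⟩
  have hz : ∀ z : Fin (n + 1) → K, ∑ l, m l * z l = 0 →
      (∀ c, ∑ l, tm (pl x y) (a, b, c) l * z l = 0) → ∑ l, m' l * z l = 0 := by
    intro z hz hc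
    rw [hm']
    simp only [Pi.sub_apply, sub_mul, Finset.sum_sub_distrib, hz, zero_sub, neg_eq_zero,
      Finset.sum_apply, Pi.smul_apply, smul_eq_mul, Finset.sum_mul]
    rw [Finset.sum_comm]
    refine Finset.sum_eq_zero fun c _ => ?_
    simp only [mul_assoc]
    rw [← Finset.mul_sum, hc, mul_zero]
  have h1 := hz x hx fun c => (sum_tm x y _).1
  have h2 := hz y hy fun c => (sum_tm x y _).2
  have h3 : ∀ l, l ≠ a → l ≠ b → m' l = 0 := by
    intro l hla hlb
    rw [hm', Pi.sub_apply, Finset.sum_apply, Finset.sum_eq_single l]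
    · rw [if_neg (by tauto), Pi.smul_apply, smul_eq_mul]
      simp only [tm, if_neg hla, if_neg hlb, if_true, sub_zero, add_zero]
      rw [div_mul_cancel₀ _ hik, sub_self]
    · intro c _ hc
      rw [Pi.smul_apply, smul_eq_mul]
      simp only [tm, if_neg hla, if_neg hlb, if_neg hc.symm, sub_zero, add_zero, mul_zero]
    · intro h; exact absurd (Finset.mem_univ l) h
  have h4 : ∀ z : Fin (n + 1) → K, ∑ l, m' l * z l = m' a * z a + m' b * z b := by
    intro z
    rw [← Finset.add_sum_erase _ _ (Finset.mem_univ a),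
      ← Finset.add_sum_erase _ _ (Finset.mem_erase.2 ⟨hab.symm, Finset.mem_univ b⟩),
      Finset.sum_eq_zero, add_zero]
    intro l hl
    rw [Finset.mem_erase, Finset.mem_erase] at hl
    rw [h3 l hl.2.1 hl.1, zero_mul]
  rw [h4] at h1 h2
  have ha : m' a = 0 := by
    have : m' a * pl x y (a, b) = 0 := by rw [hp]; linear_combination y b * h1 - x b * h2
    exact (mul_eq_zero.1 this).resolve_right hik
  have hb : m' b = 0 := by
    have : m' b * pl x y (a, b) = 0 := by rw [hp]; linear_combination x a * h2 - y a * h1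
    exact (mul_eq_zero.1 this).resolve_right hik
  have h5 : m' = 0 := by
    funext l
    by_cases hla : l = a
    · rw [hla, ha]; rfl
    · by_cases hlb : l = b
      · rw [hlb, hb]; rfl
      · rw [h3 l hla hlb]; rfl
  rw [hm', sub_eq_zero] at h5
  exact h5

section
variable [CharZero k] [IsFF k K] [IsAlgClosed k]

/-- The first case, even. -/
theorem case_even {d : ℕ} {F : MvPolynomial (Fin (n + 1)) K}
    {D : (Fin (n + 1) →₀ ℕ) → Derivation ℤ K K} {e g : Place k K → ℤ}
    (hdat : Data k F d D e g) (hn : 1 ≤ n) {x : Fin (n + 1) → K} (hxF : eval x F = 0)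
    (hx0 : x ≠ 0) (hG : Good (Bset k D x (d - 1)) (LinearMap.ker (dFl F x)) (Wsp F D x)) {p : ℕ}
    (hp : Module.finrank K (Wsp F D x) + 2 * p = n) :
    (((d - 1 : ℕ) : ℤ) - ((n + p : ℕ) : ℤ)) * pht k x ≤ CC n e g := by
  classical
  obtain ⟨i0, hi0⟩ := Function.ne_iff.1 hx0
  have hi0' : x i0 ≠ 0 := hi0
  have hF0 : dFl F x ≠ 0 := by
    obtain ⟨i, hi⟩ := dFl_ne hdat hx0
    intro h0
    have h1 := LinearMap.congr_fun h0 (Pi.single i 1)
    rw [dFl_apply, LinearMap.zero_apply] at h1
    have h2 := dF_single F x i 1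
    simp only [one_mul] at h2
    change dF F x (fun j => (Pi.single i 1 : Fin (n + 1) → K) j) = 0 at h1
    rw [h2] at h1
    exact hi h1
  have hker := ker_finrank hF0
  obtain ⟨a, v, ha, hv⟩ := exists_wa F D hx0
  obtain ⟨b, i, j, hb, hfin⟩ := exists_pairs (pmx x i0) (span_pmx hi0') (Bset k D x (d - 1))
    (LinearMap.ker (dFl F x)) p (Wsp F D x) (im_top hdat.pos hdat.hom hdat.dual hxF hi0') hG
    (by rw [hker, hp])
  choose Q hQ hbQ using fun a => mem_Bset.1 (hb a)
  -- a second point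
  obtain ⟨y, ik, hik⟩ : ∃ (y : Fin (n + 1) → K) (ik : Fin (n + 1) × Fin (n + 1)),
      pl x y ik ≠ 0 := by
    obtain ⟨l, hl⟩ : ∃ l, l ≠ i0 := by
      have : Nontrivial (Fin (n + 1)) := Fin.nontrivial_iff_two_le.2 (by omega)
      exact exists_ne i0
    refine ⟨Pi.single l 1, (i0, l), ?_⟩
    simp only [pl, Pi.single_eq_same, mul_one]
    rw [Pi.single_eq_of_ne hl.symm, mul_zero, sub_zero]
    exact hi0'
  obtain ⟨rd, hrd⟩ : ∃ rd : RD K n (Fin a) (Fin p) Empty Empty,
      rd = ⟨v, Q, i, j, fun e => e.elim, fun e => e.elim, fun e => e.elim⟩ := ⟨_, rfl⟩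
  have hW : Wsp F D x ≤ Submodule.span K (Set.range (row1 F D x y i0 ik rd)) :=
    (Wsp_le_rows F D x y i0 ik rd (by rw [hrd]; exact hv)).trans
      (Submodule.span_mono (Set.image_subset_range _ _))
  have h1 := global_ineq hdat hxF hi0' hik rd (fun b => by rw [hrd]; exact (hQ b).1)
    (fun b => b.elim) (fun b => b.elim) (fun b => by rw [hrd]; exact (hQ b).2)
    (fun b => b.elim) (fun b => b.elim) (fun t => t.elim) (by
      rw [Fintype.card_fin, Fintype.card_fin, Fintype.card_empty]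
      omega) (by
      intro z hz
      have h2 : Wsp F D x ⊔ Submodule.span K (Set.range (fun a => b a (pmx x i0 (i a))) ∪
          Set.range (fun a => b a (pmx x i0 (j a)))) = LinearMap.ker (dFl F x) := by
        refine Submodule.eq_of_le_of_finrank_eq ?_ (by rw [hfin, hker, hp])
        refine sup_le (Wsp_le hdat.pos hdat.hom hdat.dual hxF) ?_
        rw [Submodule.span_le]
        rintro _ (⟨a, rfl⟩ | ⟨a, rfl⟩)
        · dsimp only
          rw [hbQ a]
          exact dF_vlf hdat.pos hdat.hom hdat.dual hxF (hQ a).1 (mem_Mx.1 (pmx x i0 (i a)).2)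
        · dsimp only
          rw [hbQ a]
          exact dF_vlf hdat.pos hdat.hom hdat.dual hxF (hQ a).1 (mem_Mx.1 (pmx x i0 (j a)).2)
      have h3 : z ∈ LinearMap.ker (dFl F x) := hz
      rw [← h2] at h3
      refine (sup_le hW ?_ : _ ≤ _) h3
      rw [Submodule.span_le]
      rintro _ (⟨a, rfl⟩ | ⟨a, rfl⟩)
      · dsimp only
        rw [hbQ a]
        exact Submodule.subset_span ⟨some (Sum.inr (Sum.inl (Sum.inl a))), by rw [hrd]; rfl⟩
      · dsimp only
        rw [hbQ a]
        exact Submodule.subset_span ⟨some (Sum.inr (Sum.inl (Sum.inr a))), by rw [hrd]; rfl⟩)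
  rw [Fintype.card_fin, Fintype.card_fin, Fintype.card_empty] at h1
  have h2 : 1 + a + 3 * p + 0 + 2 * 0 = n + p := by omega
  rw [h2, Nat.cast_zero, sub_zero, zero_mul, add_zero] at h1
  exact h1

end

end Pool.Agent.Y735
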