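import Pool.Agent.Y735.Dich

/-!
The cases of the dichotomy.
-/

set_option autoImplicit false

open MvPolynomial FF Pool.Agent.W603.LV Pool.Agent.W603.PV Pool.Agent.TH145.GH

namespace Pool.Agent.Y735

variable {k K : Type} [Field k] [Field K] [Algebra k K] {n : ℕ}

theorem compl_one {V : Type*} [AddCommGroup V] [Module K V] [FiniteDimensional K V]
    {D T : Submodule K V} (h : D ≤ T) (hf : Module.finrank K D + 1 = Module.finrank K T) {v : V}
    (hv : v ∈ T) (hvD : v ∉ D) : D ⊔ Submodule.span K {v} = T := by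
  refine Submodule.eq_of_le_of_finrank_eq (sup_le h ?_) (by rw [finrank_sup_one hvD, hf])
  rw [Submodule.span_le, Set.singleton_subset_iff]
  exact hv

/-- The space of the vector fields that are given by the forms that vanish on a line. -/
noncomputable def Vl (F : MvPolynomial (Fin (n + 1)) K)
    (D : (Fin (n + 1) →₀ ℕ) → Derivation ℤ K K) (x y : Fin (n + 1) → K) (e : ℕ) :
    Submodule K (Fin (n + 1) → K) :=
  Wsp F D x ⊔ Submodule.span K {v | ∃ (Q : MvPolynomial (Fin (n + 1)) K) (m : Fin (n + 1) → K),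
    Q.IsHomogeneous e ∧ ∑ l, m l * x l = 0 ∧ ∑ l, m l * y l = 0 ∧ v = vec D x (Q * lf m)}

/-- Reduction to constant coefficients. -/
theorem vec_mem_of_const (D : (Fin (n + 1) →₀ ℕ) → Derivation ℤ K K) (x : Fin (n + 1) → K)
    (U : Submodule K (Fin (n + 1) → K)) {e : ℕ} {m : Fin (n + 1) → K}
    (h : ∀ Q ∈ CS k K n e, vec D x (Q * lf m) ∈ U) {Q : MvPolynomial (Fin (n + 1)) K}
    (hQ : Q.IsHomogeneous e) : vec D x (Q * lf m) ∈ U := by
  rw [Q.as_sum, Finset.sum_mul, map_sum]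
  refine sum_mem fun u hu => ?_
  have h1 : (monomial u (Q.coeff u) : MvPolynomial (Fin (n + 1)) K) =
      Q.coeff u • monomial u 1 := by
    rw [smul_monomial, smul_eq_mul, mul_one]
  rw [h1, smul_mul_assoc, map_smul]
  exact U.smul_mem _ (h _ (monomial_mem_CS (deg_of_mem hQ hu)))

theorem Vl_eq (F : MvPolynomial (Fin (n + 1)) K)
    (D : (Fin (n + 1) →₀ ℕ) → Derivation ℤ K K) {x y : Fin (n + 1) → K} (e : ℕ)
    {φ : Mx x →ₗ[K] K} (hφ : ∀ m : Mx x, φ m = ∑ l, (m : Fin (n + 1) → K) l * y l) :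
    Vl F D x y e = imB (Bset k D x e) (LinearMap.ker φ) ⊔ Wsp F D x := by
  rw [sup_comm]
  unfold Vl
  refine le_antisymm (sup_le le_sup_left ?_) (sup_le le_sup_left (imB_le ?_))
  · rw [Submodule.span_le]
    rintro _ ⟨Q, m, hQ, hx, hy, rfl⟩
    refine vec_mem_of_const (k := k) D x _ (fun Q' hQ' => Submodule.mem_sup_right ?_) hQ
    have h1 : (⟨m, mem_Mx.2 hx⟩ : Mx x) ∈ LinearMap.ker φ := by
      rw [LinearMap.mem_ker, hφ]
      exact hy
    have h2 : bmap D x Q' ∈ Bset k D x e := mem_Bset.2 ⟨Q', hQ', rfl⟩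
    have h3 := mem_imB h2 h1
    exact h3
  · rintro b ⟨Q, hQ, rfl⟩ m hm
    rw [LinearMap.mem_ker, hφ] at hm
    exact Submodule.mem_sup_right (Submodule.subset_span
      ⟨Q, m, hQ.1, mem_Mx.1 m.2, hm, rfl⟩)

theorem pm_y (x y : Fin (n + 1) → K) {ik : Fin (n + 1) × Fin (n + 1)} (hik : pl x y ik ≠ 0) :
    ∑ l, ((pl x y ik)⁻¹ • pm x ik.1 ik.2) l * y l = 1 := by
  simp only [Pi.smul_apply, smul_eq_mul, mul_assoc]
  rw [← Finset.mul_sum, sum_pm]
  exact inv_mul_cancel₀ hik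

theorem pm_x (x y : Fin (n + 1) → K) (ik : Fin (n + 1) × Fin (n + 1)) :
    ∑ l, ((pl x y ik)⁻¹ • pm x ik.1 ik.2) l * x l = 0 := by
  simp only [Pi.smul_apply, smul_eq_mul, mul_assoc]
  rw [← Finset.mul_sum, sum_pm, mul_comm (x ik.2), sub_self, mul_zero]

section
variable [CharZero k] [IsFF k K] [IsAlgClosed k]

theorem dFl_ne' {d : ℕ} {F : MvPolynomial (Fin (n + 1)) K}
    {D : (Fin (n + 1) →₀ ℕ) → Derivation ℤ K K} {e g : Place k K → ℤ}
    (hdat : Data k F d D e g) {x : Fin (n + 1) → K} (hx0 : x ≠ 0) : dFl F x ≠ 0 := by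
  obtain ⟨i, hi⟩ := dFl_ne hdat hx0
  intro h0
  have h1 := LinearMap.congr_fun h0 (Pi.single i 1)
  rw [dFl_apply, LinearMap.zero_apply] at h1
  have h2 := dF_single F x i 1
  simp only [one_mul] at h2
  change dF F x (fun j => (Pi.single i 1 : Fin (n + 1) → K) j) = 0 at h1
  rw [h2] at h1
  exact hi h1

/-- The first case, odd. -/
theorem case_odd {d : ℕ} {F : MvPolynomial (Fin (n + 1)) K}
    {D : (Fin (n + 1) →₀ ℕ) → Derivation ℤ K K} {e g : Place k K → ℤ}
    (hdat : Data k F d D e g) {x : Fin (n + 1) → K} (hxF : eval x F = 0)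
    (hx0 : x ≠ 0) (hG : Good (Bset k D x (d - 1)) (LinearMap.ker (dFl F x)) (Wsp F D x)) {p : ℕ}
    (hp : Module.finrank K (Wsp F D x) + 2 * p + 1 = n) :
    ∃ (y : Fin (n + 1) → K) (ik : Fin (n + 1) × Fin (n + 1)), pl x y ik ≠ 0 ∧
      (((d - 1 : ℕ) : ℤ) - ((n + p + 1 : ℕ) : ℤ)) * pht k x + fht k (pl x y) ≤ CC n e g := by
  classical
  obtain ⟨i0, hi0⟩ := Function.ne_iff.1 hx0
  have hi0' : x i0 ≠ 0 := hi0
  have hF0 : dFl F x ≠ 0 := dFl_ne' hdat hx0
  have hker := ker_finrank hF0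
  obtain ⟨a, v, ha, hv⟩ := exists_wa F D hx0
  have him := im_top (k := k) hdat.pos hdat.hom hdat.dual hxF hi0'
  obtain ⟨b, i, j, hb, hfin⟩ := exists_pairs (pmx x i0) (span_pmx hi0') (Bset k D x (d - 1))
    (LinearMap.ker (dFl F x)) p (Wsp F D x) him hG (by rw [hker]; omega)
  choose Q hQ hbQ using fun a => mem_Bset.1 (hb a)
  obtain ⟨D', hD'⟩ : ∃ D', D' = Wsp F D x ⊔ Submodule.span K
    (Set.range (fun a => b a (pmx x i0 (i a))) ∪
          Set.range (fun a => b a (pmx x i0 (j a)))) := ⟨_, rfl⟩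
  rw [← hD'] at hfin
  have hD'T : D' ≤ LinearMap.ker (dFl F x) := by
    rw [hD']
    refine sup_le (Wsp_le hdat.pos hdat.hom hdat.dual hxF) ?_
    rw [Submodule.span_le]
    rintro _ (⟨a, rfl⟩ | ⟨a, rfl⟩)
    · dsimp only
      rw [hbQ a]
      exact dF_vlf hdat.pos hdat.hom hdat.dual hxF (hQ a).1 (mem_Mx.1 (pmx x i0 (i a)).2)
    · dsimp only
      rw [hbQ a]
      exact dF_vlf hdat.pos hdat.hom hdat.dual hxF (hQ a).1 (mem_Mx.1 (pmx x i0 (j a)).2)
  -- the last vector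
  obtain ⟨Q0, hQ0, m0, hm0⟩ : ∃ Q0 ∈ CS k K n (d - 1), ∃ m : Mx x, bmap D x Q0 m ∉ D' := by
    by_contra hcon
    push Not at hcon
    have h1 : LinearMap.ker (dFl F x) ≤ D' := by
      rw [← him]
      refine sup_le (imB_le ?_) (by rw [hD']; exact le_sup_left)
      rintro b ⟨Q, hQ, rfl⟩ m -
      exact hcon Q hQ m
    have := Submodule.finrank_mono h1
    omega
  have hmemT : ∀ m : Mx x, bmap D x Q0 m ∈ LinearMap.ker (dFl F x) := fun m =>
    dF_vlf hdat.pos hdat.hom hdat.dual hxF hQ0.1 (mem_Mx.1 m.2)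
  obtain ⟨ψ, hψ0, hψ⟩ := Submodule.exists_dual_map_eq_bot_of_notMem hm0 inferInstance
  have hψD : ∀ z ∈ D', ψ z = 0 := by
    intro z hz
    have h1 : ψ z ∈ D'.map ψ := Submodule.mem_map_of_mem hz
    rw [hψ] at h1
    exact (Submodule.mem_bot K).1 h1
  obtain ⟨φ, hφ⟩ : ∃ φ : Mx x →ₗ[K] K, ∀ m, φ m = ψ (bmap D x Q0 m) :=
    ⟨ψ ∘ₗ bmap D x Q0, fun _ => rfl⟩
  have hφ0 : φ ≠ 0 := by
    intro h0
    apply hψ0
    rw [← hφ, h0, LinearMap.zero_apply]
  have hφker : ∀ m, φ m = 0 → bmap D x Q0 m ∈ D' := by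
    intro m hm
    have h1 := compl_one hD'T (by omega) (hmemT m0) hm0
    have h2 := hmemT m
    rw [← h1] at h2
    obtain ⟨z, hz, w, hw, hzw⟩ := Submodule.mem_sup.1 h2
    obtain ⟨c, rfl⟩ := Submodule.mem_span_singleton.1 hw
    rw [hφ, ← hzw, map_add, hψD z hz, zero_add, map_smul, smul_eq_mul] at hm
    rcases mul_eq_zero.1 hm with h3 | h3
    · rw [← hzw, h3, zero_smul, add_zero]; exact hz
    · exact absurd h3 hψ0
  obtain ⟨y, hy, ik, hik⟩ := exists_pl hx0 hφ0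
  refine ⟨y, ik, hik, ?_⟩
  obtain ⟨rd, hrd⟩ : ∃ rd : RD K n (Fin a) (Fin p) Empty Unit,
      rd = ⟨v, Q, i, j, fun e => e.elim, fun e => e.elim, fun _ => Q0⟩ := ⟨_, rfl⟩
  have hW := Wsp_le_rows F D x y i0 ik rd (by rw [hrd]; exact hv)
  have hD'row : D' ≤ Submodule.span K (row1 F D x y i0 ik rd ''
        {κ | rk (some κ : Ri (Fin a) (Fin p) Empty Unit) < 2}) := by
    rw [hD']
    refine sup_le hW ?_
    rw [Submodule.span_le]
    rintro _ (⟨a, rfl⟩ | ⟨a, rfl⟩)
    · dsimp only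
      rw [hbQ a]
      exact Submodule.subset_span ⟨some (Sum.inr (Sum.inl (Sum.inl a))), by simp [rk],
        by rw [hrd]; rfl⟩
    · dsimp only
      rw [hbQ a]
      exact Submodule.subset_span ⟨some (Sum.inr (Sum.inl (Sum.inr a))), by simp [rk],
        by rw [hrd]; rfl⟩
  have h1 := global_ineq hdat hxF hi0' hik rd (fun b => by rw [hrd]; exact (hQ b).1)
    (fun b => b.elim) (fun b => by rw [hrd]; exact hQ0.1) (fun b => by rw [hrd]; exact (hQ b).2)
    (fun b => b.elim) (fun b => by rw [hrd]; exact hQ0.2) (by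
      intro t m hmx hmy
      refine hD'row ?_
      rw [hrd]
      exact hφker ⟨m, mem_Mx.2 hmx⟩ (by rw [hy]; exact hmy)) (by
      rw [Fintype.card_fin, Fintype.card_fin, Fintype.card_empty, Fintype.card_unit]
      omega) (by
      intro z hz
      obtain ⟨m1, hm1⟩ : ∃ m1 : Mx x, (m1 : Fin (n + 1) → K) =
        (pl x y ik)⁻¹ • pm x ik.1 ik.2 := ⟨⟨_, mem_Mx.2 (pm_x x y ik)⟩, rfl⟩
      have hφ1 : φ m1 = 1 := by rw [hy, hm1, pm_y x y hik]
      have h2 : bmap D x Q0 m1 ∉ D' := by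
        intro h2
        have h3 := hψD _ h2
        rw [← hφ, hφ1] at h3
        exact one_ne_zero h3
      have h3 : z ∈ LinearMap.ker (dFl F x) := hz
      rw [← compl_one hD'T (by omega) (hmemT m1) h2] at h3
      refine (sup_le (hD'row.trans (Submodule.span_mono (Set.image_subset_range _ _))) ?_ :
        _ ≤ _) h3
      rw [Submodule.span_le, Set.singleton_subset_iff]
      refine Submodule.subset_span ⟨some (Sum.inr (Sum.inr (Sum.inr ()))), ?_⟩
      rw [hrd, bmap_apply, hm1]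
      rfl)
  rw [Fintype.card_fin, Fintype.card_fin, Fintype.card_empty, Fintype.card_unit] at h1
  have h2 : 1 + a + 3 * p + 0 + 2 * 1 = n + p + 1 := by omega
  rw [h2, Nat.cast_zero, sub_zero, Nat.cast_one, one_mul] at h1
  exact h1

/-- The second case. -/
theorem case_line {d : ℕ} {F : MvPolynomial (Fin (n + 1)) K}
    {D : (Fin (n + 1) →₀ ℕ) → Derivation ℤ K K} {e g : Place k K → ℤ}
    (hdat : Data k F d D e g) {x : Fin (n + 1) → K} (hxF : eval x F = 0)
    {y : Fin (n + 1) → K} {ik : Fin (n + 1) × Fin (n + 1)} (hik : pl x y ik ≠ 0) {j r : ℕ}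
    (hj : Module.finrank K (Wsp F D x) + j = Module.finrank K (Vl F D x y (d - 1)))
    (hr : Module.finrank K (Vl F D x y (d - 1)) + r = n) :
    (((d - 1 : ℕ) : ℤ) - ((n + r : ℕ) : ℤ)) * pht k x + ((r : ℤ) - j) * fht k (pl x y) ≤
      CC n e g := by
  classical
  have hx0 : x ≠ 0 := by
    rintro rfl
    apply hik
    simp [pl]
  obtain ⟨i0, hi0⟩ := Function.ne_iff.1 hx0
  have hi0' : x i0 ≠ 0 := hi0
  have hF0 : dFl F x ≠ 0 := dFl_ne' hdat hx0
  have hker := ker_finrank hF0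
  obtain ⟨a, v, ha, hv⟩ := exists_wa F D hx0
  have him := im_top (k := k) hdat.pos hdat.hom hdat.dual hxF hi0'
  -- the forms that vanish on the line
  obtain ⟨w1, hw1⟩ : ∃ w1 : CS k K n (d - 1) × Fin (n + 1) × Fin (n + 1) × Fin (n + 1) →
      Fin (n + 1) → K, ∀ q, w1 q = vec D x ((q.1 : MvPolynomial (Fin (n + 1)) K) *
        lf (tm (pl x y) q.2)) := ⟨_, fun _ => rfl⟩
  have hV1 : Wsp F D x ⊔ Submodule.span K (Set.range w1) = Vl F D x y (d - 1) := by
    unfold Vl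
    refine le_antisymm (sup_le le_sup_left ?_) (sup_le le_sup_left ?_)
    · rw [Submodule.span_le]
      rintro _ ⟨q, rfl⟩
      rw [hw1]
      exact Submodule.mem_sup_right (Submodule.subset_span
        ⟨_, _, q.1.2.1, (sum_tm x y _).1, (sum_tm x y _).2, rfl⟩)
    · rw [Submodule.span_le]
      rintro _ ⟨Q, m, hQ, hmx, hmy, rfl⟩
      refine vec_mem_of_const (k := k) D x _ (fun Q' hQ' => Submodule.mem_sup_right ?_) hQ
      rw [span_tm hik hmx hmy, map_sum, Finset.mul_sum, map_sum]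
      refine sum_mem fun c _ => ?_
      rw [map_smul, mul_smul_comm, map_smul]
      refine Submodule.smul_mem _ _ (Submodule.subset_span ⟨(⟨Q', hQ'⟩, (ik.1, ik.2, c)), ?_⟩)
      rw [hw1]
  obtain ⟨v1, hv1⟩ := sel w1 j (Wsp F D x) (by rw [hV1, hj])
  rw [hV1] at hv1
  -- the other forms
  obtain ⟨w2, hw2⟩ : ∃ w2 : CS k K n (d - 1) → Fin (n + 1) → K,
      ∀ q, w2 q = vec D x ((q : MvPolynomial (Fin (n + 1)) K) *
        lf ((pl x y ik)⁻¹ • pm x ik.1 ik.2)) := ⟨_, fun _ => rfl⟩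
  have hV2 : Vl F D x y (d - 1) ⊔ Submodule.span K (Set.range w2) =
      LinearMap.ker (dFl F x) := by
    refine le_antisymm (sup_le (sup_le (Wsp_le hdat.pos hdat.hom hdat.dual hxF) ?_) ?_) ?_
    · rw [Submodule.span_le]
      rintro _ ⟨Q, m, hQ, hmx, hmy, rfl⟩
      exact dF_vlf hdat.pos hdat.hom hdat.dual hxF hQ hmx
    · rw [Submodule.span_le]
      rintro _ ⟨q, rfl⟩
      rw [hw2]
      exact dF_vlf hdat.pos hdat.hom hdat.dual hxF q.2.1 (pm_x x y ik)
    · rw [← him]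
      refine sup_le (imB_le ?_) (le_sup_left.trans le_sup_left)
      rintro b ⟨Q, hQ, rfl⟩ m -
      have hmx := mem_Mx.1 m.2
      obtain ⟨s, hs⟩ : ∃ s, s = ∑ l, (m : Fin (n + 1) → K) l * y l := ⟨_, rfl⟩
      have h1 : (m : Fin (n + 1) → K) = s • ((pl x y ik)⁻¹ • pm x ik.1 ik.2) +
          ((m : Fin (n + 1) → K) - s • ((pl x y ik)⁻¹ • pm x ik.1 ik.2)) := by abel
      rw [bmap_apply, h1, map_add, mul_add, map_add, map_smul, mul_smul_comm, map_smul]
      refine add_mem (Submodule.mem_sup_right (Submodule.smul_mem _ _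
        (Submodule.subset_span ⟨⟨Q, hQ⟩, hw2 _⟩))) (Submodule.mem_sup_left
        (Submodule.mem_sup_right (Submodule.subset_span ⟨Q, _, hQ.1, ?_, ?_, rfl⟩)))
      · simp only [Pi.sub_apply, sub_mul, Finset.sum_sub_distrib]
        rw [hmx, zero_sub, neg_eq_zero]
        have h2 := pm_x x y ik
        simp only [Pi.smul_apply s, smul_eq_mul, mul_assoc] at h2 ⊢
        rw [← Finset.mul_sum]
        simp only [Pi.smul_apply, smul_eq_mul, mul_assoc] at h2 ⊢
        rw [h2, mul_zero]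
      · simp only [Pi.sub_apply, sub_mul, Finset.sum_sub_distrib]
        rw [← hs, sub_eq_zero]
        have h2 := pm_y x y hik
        simp only [Pi.smul_apply s, smul_eq_mul, mul_assoc] at h2 ⊢
        rw [← Finset.mul_sum]
        simp only [Pi.smul_apply, smul_eq_mul, mul_assoc] at h2 ⊢
        rw [h2, mul_one]
  obtain ⟨v2, hv2⟩ := sel w2 r (Vl F D x y (d - 1)) (by rw [hV2, hr, hker])
  rw [hV2] at hv2
  obtain ⟨rd, hrd⟩ : ∃ rd : RD K n (Fin a) Empty (Fin j) (Fin r),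
      rd = ⟨v, fun e => e.elim, fun e => e.elim, fun e => e.elim, fun u => (v1 u).1,
        fun u => (v1 u).2, fun t => v2 t⟩ := ⟨_, rfl⟩
  have hW := Wsp_le_rows F D x y i0 ik rd (by rw [hrd]; exact hv)
  have hVrow : Vl F D x y (d - 1) ≤ Submodule.span K (row1 F D x y i0 ik rd ''
        {κ | rk (some κ : Ri (Fin a) Empty (Fin j) (Fin r)) < 2}) := by
    rw [← hv1]
    refine sup_le hW ?_
    rw [Submodule.span_le]
    rintro _ ⟨u, rfl⟩
    rw [Function.comp_apply, hw1]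
    exact Submodule.subset_span ⟨some (Sum.inr (Sum.inr (Sum.inl u))), by simp [rk],
      by rw [hrd]; rfl⟩
  have h1 := global_ineq hdat hxF hi0' hik rd (fun b => b.elim)
    (fun u => by rw [hrd]; exact (v1 u).1.2.1) (fun t => by rw [hrd]; exact (v2 t).2.1)
    (fun b => b.elim)
    (fun u => by rw [hrd]; exact (v1 u).1.2.2) (fun t => by rw [hrd]; exact (v2 t).2.2) (by
      intro t m hmx hmy
      refine hVrow (Submodule.mem_sup_right (Submodule.subset_span ⟨_, m, ?_, hmx, hmy, rfl⟩))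
      rw [hrd]
      exact (v2 t).2.1) (by
      rw [Fintype.card_fin, Fintype.card_fin, Fintype.card_empty, Fintype.card_fin]
      omega) (by
      intro z hz
      have h3 : z ∈ LinearMap.ker (dFl F x) := hz
      rw [← hv2] at h3
      refine (sup_le (hVrow.trans (Submodule.span_mono (Set.image_subset_range _ _))) ?_ :
        _ ≤ _) h3
      rw [Submodule.span_le]
      rintro _ ⟨t, rfl⟩
      rw [Function.comp_apply, hw2]
      exact Submodule.subset_span ⟨some (Sum.inr (Sum.inr (Sum.inr t))), by rw [hrd]; rfl⟩)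
  rw [Fintype.card_fin, Fintype.card_fin, Fintype.card_empty, Fintype.card_fin] at h1
  have h2 : 1 + a + 3 * 0 + j + 2 * r = n + r := by omega
  rw [h2] at h1
  exact h1

end

end Pool.Agent.Y735
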