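import Pool.Agent.Y735.BaseL
import Pool.Agent.TH145.GL.Main

/-!
Generic hypersurfaces: rational points that do not lie on lines, and general type.
-/

set_option autoImplicit false

open MvPolynomial Pool.Agent.TH145.GH Pool.Agent.W602.GT LinearAlgebra.Projectivization
open Pool.Agent.TH145.MG (DimLE)

namespace Pool.Agent.Y735

/-- The extension of the base field, and the multiple of the form. -/
theorem exists_scaled_form {k K : Type} [Field k] [Field K] [Algebra k K] [CharZero K] {n d : ℕ}
    {F : MvPolynomial (Fin (n + 1)) K} (hF : F.IsHomogeneous d)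
    (I0 : {I : Fin (n + 1) →₀ ℕ // I.degree = d}) (h0 : F.coeff I0.1 ≠ 0)
    (hgen : AlgebraicIndependent k fun I : {I : {I : Fin (n + 1) →₀ ℕ // I.degree = d} // I ≠ I0} =>
      F.coeff I.1.1 / F.coeff I0.1) :
    ∃ (Ω : Type) (_ : Field Ω) (_ : Algebra K Ω) (_ : Algebra k Ω) (lam : Ω),
      IsScalarTower k K Ω ∧ IsAlgClosed Ω ∧ CharZero Ω ∧ lam ≠ 0 ∧
      (lam • map (algebraMap K Ω) F).IsHomogeneous d ∧
      AlgebraicIndependent k fun I : {I : Fin (n + 1) →₀ ℕ // I.degree = d} =>
        (lam • map (algebraMap K Ω) F).coeff I.1 := by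
  obtain ⟨Ω, hΩ, hA, lam, hac, hcz, hlam⟩ := exists_ext K
  let _ : Algebra k Ω := ((algebraMap K Ω).comp (algebraMap k K)).toAlgebra
  have hst : IsScalarTower k K Ω := IsScalarTower.of_algebraMap_eq fun _ => rfl
  refine ⟨Ω, hΩ, hA, inferInstance, lam, hst, hac, hcz, ?_, ?_, scaled_ind hlam I0 h0 hgen⟩
  · rintro rfl
    exact hlam isAlgebraic_zero
  · rw [smul_eq_C_mul]
    have := (isHomogeneous_C (Fin (n + 1)) lam).mul (hF.map (algebraMap K Ω))
    rwa [zero_add] at this

theorem eval_scaled {K Ω : Type} [Field K] [Field Ω] [Algebra K Ω] {n : ℕ}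
    (F : MvPolynomial (Fin (n + 1)) K) (lam : Ω) (x : Fin (n + 1) → K) :
    eval (fun j => algebraMap K Ω (x j)) (lam • map (algebraMap K Ω) F) =
      lam * algebraMap K Ω (eval x F) := by
  have h1 := hom_eval₂ F (RingHom.id K) (algebraMap K Ω) x
  rw [RingHom.comp_id] at h1
  rw [smul_eval, eval_map]
  have h2 : eval₂ (RingHom.id K) x F = eval x F := rfl
  rw [← h2, h1]

theorem onL_scaled {K Ω : Type} [Field K] [Infinite K] [Field Ω] [Algebra K Ω] {n d : ℕ}
    {F : MvPolynomial (Fin (n + 1)) K} (hF : F.IsHomogeneous d) (hd : 0 < d) (lam : Ω)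
    {x : Fin (n + 1) → K} (h : OnL F x) :
    OnL (lam • map (algebraMap K Ω) F) fun j => algebraMap K Ω (x j) := by
  have hx : eval x F = 0 := by
    obtain ⟨y, -, -, h⟩ := h
    have := h 1 0
    rwa [one_smul, zero_smul, add_zero] at this
  obtain ⟨y, ik, hik, h⟩ := onL_map (algebraMap K Ω) hF hd hx h
  refine ⟨y, ik, hik, fun a b => ?_⟩
  rw [smul_eval, h, mul_zero]

/-- Finiteness of the points that do not lie on lines. -/
theorem fin_scaled {k K : Type} [Field k] [Field K] [Algebra k K] [IsAlgClosed K] [CharZero K]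
    [IsAlgClosed k] {n d : ℕ} (hn : 2 ≤ n) (hd : 3 * n + 2 ≤ 2 * d)
    {F : MvPolynomial (Fin (n + 1)) K} (hF : F.IsHomogeneous d)
    (I0 : {I : Fin (n + 1) →₀ ℕ // I.degree = d}) (h0 : F.coeff I0.1 ≠ 0)
    (hgen : AlgebraicIndependent k fun I : {I : {I : Fin (n + 1) →₀ ℕ // I.degree = d} // I ≠ I0} =>
      F.coeff I.1.1 / F.coeff I0.1) (T : Finset K) (l0 : Fin (n + 1)) :
    {x : Fin (n + 1) → K | (∀ j, x j ∈ IntermediateField.adjoin k (T : Set K)) ∧ x l0 = 1 ∧
      eval x F = 0 ∧ ¬ OnL F x}.Finite := by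
  classical
  obtain ⟨Ω, hΩ, hA, hkΩ, lam, hst, hac, hcz, hlam, hF', hind⟩ := exists_scaled_form hF I0 h0 hgen
  have h1 := fin_points_L hn hd hF' hind (T.image (algebraMap K Ω)) l0
  have hinj : Function.Injective fun (x : Fin (n + 1) → K) j => algebraMap K Ω (x j) := by
    intro x x' h
    funext j
    exact (algebraMap K Ω).injective (congrFun h j)
  refine Set.Finite.of_finite_image (h1.subset ?_) (f := fun x j => algebraMap K Ω (x j))
    hinj.injOn
  rintro _ ⟨x, ⟨hx, hxl, hxF, hxL⟩, rfl⟩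
  refine ⟨fun j => ?_, ?_, ?_, fun h => hxL (onL_descend hF hlam h)⟩
  · have h2 : IntermediateField.adjoin k (T : Set K) ≤
        (IntermediateField.adjoin k ((T.image (algebraMap K Ω) : Finset Ω) : Set Ω)).comap
          (IsScalarTower.toAlgHom k K Ω) := by
      rw [IntermediateField.adjoin_le_iff]
      intro t ht
      refine IntermediateField.subset_adjoin _ _ ?_
      rw [Finset.coe_image]
      exact ⟨t, ht, rfl⟩
    exact h2 (hx j)
  · dsimp only
    rw [hxl, map_one]
  · rw [eval_scaled, hxF, map_zero, mul_zero]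

/-- A form that vanishes on the lines. -/
theorem exists_H_scaled {k K : Type} [Field k] [Field K] [Algebra k K] [CharZero K]
    {n d : ℕ} (hn : n ≤ d) (hd : 0 < d)
    {F : MvPolynomial (Fin (n + 1)) K} (hF : F.IsHomogeneous d)
    (I0 : {I : Fin (n + 1) →₀ ℕ // I.degree = d}) (h0 : F.coeff I0.1 ≠ 0)
    (hgen : AlgebraicIndependent k fun I : {I : {I : Fin (n + 1) →₀ ℕ // I.degree = d} // I ≠ I0} =>
      F.coeff I.1.1 / F.coeff I0.1) :
    ∃ (H : MvPolynomial (Fin n) K) (e : ℕ), H ≠ 0 ∧ H.IsHomogeneous e ∧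
      ∀ x : Fin (n + 1) → K, OnL F x → eval (fun l => x l.castSucc) H = 0 := by
  obtain ⟨Ω, hΩ, hA, hkΩ, lam, hst, hac, hcz, hlam, hF', hind⟩ := exists_scaled_form hF I0 h0 hgen
  obtain ⟨H, e, hH0, hHe, hH⟩ := exists_H hn hd hF' hind
  obtain ⟨H0, h1, h2, h3⟩ := H_descend (K := K) hH0 hHe
  exact ⟨H0, e, h1, h2, fun x hx => h3 _ (hH _ (onL_scaled hF hd lam hx))⟩

/-- There are no lines. -/
theorem no_lines_scaled {k K : Type} [Field k] [Field K] [Algebra k K] [CharZero K]
    {n d : ℕ} (hn : 2 * n ≤ d + 2) (hd : 0 < d)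
    {F : MvPolynomial (Fin (n + 1)) K} (hF : F.IsHomogeneous d)
    (I0 : {I : Fin (n + 1) →₀ ℕ // I.degree = d}) (h0 : F.coeff I0.1 ≠ 0)
    (hgen : AlgebraicIndependent k fun I : {I : {I : Fin (n + 1) →₀ ℕ // I.degree = d} // I ≠ I0} =>
      F.coeff I.1.1 / F.coeff I0.1) (x : Fin (n + 1) → K) : ¬ OnL F x := by
  obtain ⟨Ω, hΩ, hA, hkΩ, lam, hst, hac, hcz, hlam, hF', hind⟩ := exists_scaled_form hF I0 h0 hgen
  exact fun hx => no_lines hn hF' hind _ (onL_scaled hF hd lam hx)

theorem trdeg_adjoin_le {k Ω : Type} [Field k] [Field Ω] [Algebra k Ω] (S : Finset Ω) :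
    Algebra.trdeg k (IntermediateField.adjoin k (S : Set Ω)) ≤ S.card := by
  classical
  obtain ⟨L, hL⟩ : ∃ L, L = IntermediateField.adjoin k (S : Set Ω) := ⟨_, rfl⟩
  rw [← hL]
  obtain ⟨s, hs⟩ : ∃ s : Set L, ∀ x : L, x ∈ s ↔ (x : Ω) ∈ S :=
    ⟨{x : L | (x : Ω) ∈ S}, fun _ => Iff.rfl⟩
  have h2 : IntermediateField.adjoin k s = ⊤ := by
    rw [eq_top_iff]
    rintro ⟨x, hx⟩ -
    have h2 : (IntermediateField.adjoin k s).map L.val = L := by
      rw [IntermediateField.adjoin_map]
      conv_rhs => rw [hL]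
      congr 1
      ext z
      constructor
      · rintro ⟨b, hb, rfl⟩
        exact (hs b).1 hb
      · intro hz
        have hzL : z ∈ L := by rw [hL]; exact IntermediateField.subset_adjoin _ _ hz
        exact ⟨⟨z, hzL⟩, (hs _).2 hz, rfl⟩
    have h3 : x ∈ (IntermediateField.adjoin k s).map L.val := by rw [h2]; exact hx
    obtain ⟨w, hw, hwx⟩ := h3
    have h4 : w = ⟨x, hx⟩ := Subtype.ext hwx
    rw [← h4]
    exact hw
  have h3 : Algebra.IsAlgebraic (Algebra.adjoin k s) L := by
    rw [← IntermediateField.isAlgebraic_adjoin_iff_top, h2]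
    exact ⟨fun x => isAlgebraic_algebraMap (⟨x, trivial⟩ : (⊤ : IntermediateField k L))⟩
  have h4 := Algebra.IsAlgebraic.trdeg_le_cardinalMk k s
  have h6 : Cardinal.mk s ≤ S.card := by
    have h7 : Function.Injective (fun x : s => (⟨(x : L), (hs _).1 x.2⟩ : S)) := by
      intro a b hab
      have h8 := congrArg Subtype.val hab
      exact Subtype.ext (Subtype.ext h8)
    have h8 := Cardinal.mk_le_of_injective h7
    rwa [Cardinal.mk_coe_finset] at h8
  exact h4.trans h6

/-- The dimension of projective space. -/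
theorem dim_top (k : Type) [Field k] (n : ℕ) :
    DimLE k (∅ : Set (MvPolynomial (Fin (n + 1)) k)) n := by
  classical
  intro Ω _ _ x hx0 _
  obtain ⟨j0, hj0⟩ := Function.ne_iff.1 hx0
  have hj0' : x j0 ≠ 0 := hj0
  obtain ⟨S, hS⟩ : ∃ S : Finset Ω, S = (Finset.univ.erase j0).image fun i => x i / x j0 :=
    ⟨_, rfl⟩
  have hmem : ∀ i, x i / x j0 ∈ IntermediateField.adjoin k (S : Set Ω) := by
    intro i
    by_cases hi : i = j0
    · rw [hi, div_self hj0']; exact one_mem _
    · refine IntermediateField.subset_adjoin _ _ ?_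
      rw [hS]
      exact Finset.mem_coe.2 (Finset.mem_image_of_mem _
        (Finset.mem_erase.2 ⟨hi, Finset.mem_univ i⟩))
  have h1 : coords k x = IntermediateField.adjoin k (S : Set Ω) := by
    refine le_antisymm ?_ ?_
    · unfold coords
      rw [IntermediateField.adjoin_le_iff]
      rintro z ⟨i, j, hj, rfl⟩
      have h2 : x i / x j = (x i / x j0) / (x j / x j0) := by field_simp
      rw [h2]
      exact div_mem (hmem i) (hmem j)
    · rw [IntermediateField.adjoin_le_iff]
      intro z hz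
      rw [hS, Finset.mem_coe, Finset.mem_image] at hz
      obtain ⟨i, -, rfl⟩ := hz
      exact IntermediateField.subset_adjoin _ _ ⟨i, j0, hj0', rfl⟩
  rw [h1]
  refine (trdeg_adjoin_le S).trans ?_
  have h2 : S.card ≤ n := by
    rw [hS]
    refine Finset.card_image_le.trans ?_
    rw [Finset.card_erase_of_mem (Finset.mem_univ _), Finset.card_univ, Fintype.card_fin]
    omega
  exact_mod_cast h2

/-- The subvarieties of large dimension of a generic hypersurface are of general type. -/
theorem general_sub {k K L : Type} [Field k] [Field K] [Field L] [Algebra k K] [Algebra K L]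
    [IsAlgClosed K] [CharZero K] {n d w : ℕ} (hw : 0 < w) (hd : 2 * n + 1 ≤ d + w)
    {F : MvPolynomial (Fin (n + 1)) K} (hF : F.IsHomogeneous d)
    (I0 : {I : Fin (n + 1) →₀ ℕ // I.degree = d}) (h0 : F.coeff I0.1 ≠ 0)
    (hgen : AlgebraicIndependent k fun I : {I : {I : Fin (n + 1) →₀ ℕ // I.degree = d} // I ≠ I0} =>
      F.coeff I.1.1 / F.coeff I0.1) (htr : Algebra.trdeg K L = w) {x : Fin (n + 1) → L}
    (hx0 : x ≠ 0) (halg : Algebra.IsAlgebraic (coords K x) L) (hxF : aeval x F = 0) :
    GeneralType K L w := by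
  classical
  have hfd := finite_deg n d
  have : Fintype {I : Fin (n + 1) →₀ ℕ // I.degree = d} := Fintype.ofFinite _
  obtain ⟨c0, hc0⟩ := Function.ne_iff.1 hx0
  have h1 := Pool.Agent.TH145.GL.cyc_general (k0 := k) (K := K) (L := L) (n := n) (m := n) (w := w)
    (A := Unit) (dg := fun _ => d) (∅ : Set (MvPolynomial (Fin (n + 1)) k)) (by simp) (dim_top k n)
    (J := fun _ => {I : Fin (n + 1) →₀ ℕ // I.degree = d})
    (fun _ I => monomial I.1 1) (fun _ I => isHomogeneous_monomial _ I.2)
    (fun _ I => F.coeff I.1) (fun _ => I0) (fun _ => h0) (by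
      have h2 := hgen.comp (fun p : (Σ _ : Unit, {j : {I : Fin (n + 1) →₀ ℕ // I.degree = d} //
        j ≠ I0}) => p.2) (by
          rintro ⟨a, b⟩ ⟨a', b'⟩ h
          have h' : b = b' := h
          rw [h'])
      exact h2) c0 (fun _ I hI => ⟨⟨I, Pool.Agent.TH145.GD.deg_St hI⟩, rfl⟩)
    (F := fun _ => F) (fun _ => by
      have h2 : ∀ I : {I : Fin (n + 1) →₀ ℕ // I.degree = d},
          MvPolynomial.C (F.coeff I.1) * map (algebraMap k K) (monomial I.1 1) =
            monomial I.1 (F.coeff I.1) := by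
        intro I
        rw [map_monomial, map_one, C_mul_monomial, mul_one]
      rw [Finset.sum_congr rfl fun I _ => h2 I]
      conv_lhs => rw [F.as_sum]
      rw [← Finset.sum_subtype_of_mem (p := fun I : Fin (n + 1) →₀ ℕ => I.degree = d)
        (fun I => monomial I (F.coeff I)) (fun I hI => deg_of_mem hF hI)]
      refine Finset.sum_subset (Finset.subset_univ _) fun I _ hI => ?_
      rw [Finset.mem_subtype, notMem_support_iff] at hI
      rw [hI, monomial_zero])
    Finset.univ (fun _ => 1) (fun a ha => absurd (Finset.mem_univ a) ha) hw (by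
      have h6 : ∀ S : Finset Unit, (∀ a, a ∈ S ↔ a ∉ (Finset.univ : Finset Unit)) →
          2 * n + 2 + ∑ a ∈ S, d / 1 ≤ ∑ _a : Unit, d + (Finset.univ : Finset Unit).card + w := by
        intro S hS
        rw [Finset.sum_eq_zero fun a ha => absurd (Finset.mem_univ a) ((hS a).1 ha)]
        simp only [Finset.univ_unique, Finset.sum_singleton, Finset.card_singleton]
        omega
      exact h6 _ fun a => by simp) htr x hc0 halg (by simp) (fun _ _ => hxF) (fun a ha => absurd (Finset.mem_univ a) ha)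
    (fun _ => 0) (fun a ha => absurd (Finset.mem_univ a) ha)
  refine general_of_log ?_
  have h2 : (fun Q : FF.Place K L => ∃ a : Unit, a ∉ (Finset.univ : Finset Unit) ∧ (1 : ℕ) = 0 ∧
      (d : ℤ) * Pool.Agent.W603.PV.pord Q x < Q.ord (aeval x F)) = fun _ => False := by
    funext Q
    refine eq_false ?_
    rintro ⟨a, ha, -⟩
    exact ha (Finset.mem_univ a)
  rwa [h2] at h1

/-- A form in fewer variables is not divisible by the generic form. -/
theorem not_dvd {K : Type} [Field K] [Infinite K] {n d : ℕ} (hd : 0 < d)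
    {F : MvPolynomial (Fin (n + 1)) K} (hF : F.IsHomogeneous d)
    (h0 : F.coeff (Finsupp.single (Fin.last n) d) ≠ 0) {H : MvPolynomial (Fin n) K} (hH : H ≠ 0) :
    ¬ F ∣ rename Fin.castSucc H := by
  classical
  rintro ⟨G, hG⟩
  obtain ⟨v, hv⟩ : ∃ v : Fin n → K, eval v H ≠ 0 := by
    by_contra hcon
    push Not at hcon
    exact hH (MvPolynomial.funext fun v => by rw [hcon v, map_zero])
  obtain ⟨x, hx⟩ : ∃ x : Fin (n + 1) → K, x = Pi.single (Fin.last n) 1 := ⟨_, rfl⟩
  obtain ⟨y, hy⟩ : ∃ y : Fin (n + 1) → K, y = Fin.snoc v 0 := ⟨_, rfl⟩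
  have hxl : ∀ l : Fin n, x l.castSucc = 0 := fun l => by
    rw [hx, Pi.single_eq_of_ne (Fin.castSucc_lt_last l).ne]
  have hyl : ∀ l : Fin n, y l.castSucc = v l := fun l => by rw [hy, Fin.snoc_castSucc]
  have h1 : rho x y (rename Fin.castSucc H) = Polynomial.C (eval v H) := by
    apply Polynomial.funext
    intro t
    rw [eval_rho, Polynomial.eval_C, eval_rename]
    congr 2
    funext l
    rw [Function.comp_apply, Pi.add_apply, Pi.smul_apply, hxl, hyl, smul_zero, zero_add]
  have h2 := congrArg (rho x y) hG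
  rw [h1, map_mul] at h2
  have h3 : (rho x y F).coeff d = F.coeff (Finsupp.single (Fin.last n) d) := by
    conv_lhs => rw [F.as_sum]
    rw [map_sum, Polynomial.finsetSum_coeff]
    have h4 : ∀ I ∈ F.support, (rho x y (monomial I (F.coeff I))).coeff d =
        if I = Finsupp.single (Fin.last n) d then F.coeff (Finsupp.single (Fin.last n) d)
          else 0 := by
      intro I hI
      have hId := deg_of_mem hF hI
      rw [Finsupp.degree_eq_sum] at hId
      rw [rho, aeval_monomial, Polynomial.algebraMap_eq, Finsupp.prod_fintype _ _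
        (fun i => pow_zero _), Fin.prod_univ_castSucc]
      have h5 : ∏ i : Fin n, (Polynomial.C (x i.castSucc) * Polynomial.X +
          Polynomial.C (y i.castSucc)) ^ I i.castSucc =
          Polynomial.C (∏ i : Fin n, v i ^ I i.castSucc) := by
        rw [map_prod]
        refine Finset.prod_congr rfl fun i _ => ?_
        rw [hxl, hyl, map_zero, zero_mul, zero_add, map_pow]
      have h6 : Polynomial.C (x (Fin.last n)) * Polynomial.X + Polynomial.C (y (Fin.last n)) =
          Polynomial.X := by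
        rw [hx, hy, Pi.single_eq_same, Fin.snoc_last, map_one, map_zero, one_mul, add_zero]
      rw [h5, h6, ← mul_assoc, ← map_mul, Polynomial.coeff_C_mul_X_pow]
      by_cases hI2 : I = Finsupp.single (Fin.last n) d
      · rw [if_pos hI2, if_pos (by rw [hI2, Finsupp.single_eq_same]), hI2]
        rw [Finset.prod_eq_one, mul_one]
        intro i _
        rw [Finsupp.single_eq_of_ne (Fin.castSucc_lt_last i).ne, pow_zero]
      · rw [if_neg hI2, if_neg]
        intro hd'
        apply hI2
        ext l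
        rw [Fin.sum_univ_castSucc, ← hd'] at hId
        have h7 : ∑ i : Fin n, I i.castSucc = 0 := by omega
        refine Fin.lastCases ?_ (fun i => ?_) l
        · rw [Finsupp.single_eq_same, hd']
        · rw [Finsupp.single_eq_of_ne (Fin.castSucc_lt_last i).ne]
          exact Finset.sum_eq_zero_iff.1 h7 i (Finset.mem_univ i)
    rw [Finset.sum_congr rfl h4, Finset.sum_ite_eq']
    split_ifs with h
    · rfl
    · rw [notMem_support_iff.1 h]
  have h4 : IsUnit (rho x y F) := by
    refine isUnit_of_mul_isUnit_left (y := rho x y G) ?_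
    rw [← h2]
    exact Polynomial.isUnit_C.2 (isUnit_iff_ne_zero.2 hv)
  have h5 := Polynomial.natDegree_eq_zero_of_isUnit h4
  have h6 := Polynomial.le_natDegree_of_ne_zero (p := rho x y F) (n := d) (by rw [h3]; exact h0)
  omega

/-- The condition that a point lies on a line. -/
theorem onL_iff {K : Type} [Field K] {n : ℕ} {F : MvPolynomial (Fin (n + 1)) K}
    {x : Fin (n + 1) → K} : OnL F x ↔ ∃ y : Fin (n + 1) → K, LinearIndependent K ![x, y] ∧
      ∀ a b : K, eval (a • x + b • y) F = 0 := by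
  constructor
  · rintro ⟨y, ik, hik, h⟩
    refine ⟨y, ?_, h⟩
    rw [LinearIndependent.pair_iff]
    intro s t hst
    have h1 := congrFun hst ik.1
    have h2 := congrFun hst ik.2
    simp only [Pi.add_apply, Pi.smul_apply, smul_eq_mul, Pi.zero_apply] at h1 h2
    have hp : pl x y ik = x ik.1 * y ik.2 - x ik.2 * y ik.1 := rfl
    constructor
    · have h3 : s * pl x y ik = 0 := by rw [hp]; linear_combination y ik.2 * h1 - y ik.1 * h2
      exact (mul_eq_zero.1 h3).resolve_right hik
    · have h3 : t * pl x y ik = 0 := by rw [hp]; linear_combination x ik.1 * h2 - x ik.2 * h1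
      exact (mul_eq_zero.1 h3).resolve_right hik
  · rintro ⟨y, hxy, h⟩
    rw [LinearIndependent.pair_iff] at hxy
    by_contra hcon
    have hpl : ∀ ik, pl x y ik = 0 := by
      intro ik
      by_contra hne
      exact hcon ⟨y, ik, hne, h⟩
    have hx0 : x ≠ 0 := by
      rintro rfl
      have := (hxy 1 0 (by simp)).1
      exact one_ne_zero this
    obtain ⟨i0, hi0⟩ := Function.ne_iff.1 hx0
    have hi0' : x i0 ≠ 0 := hi0
    have h1 := (hxy (-y i0) (x i0) (by
      funext l
      have h2 := hpl (i0, l)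
      simp only [pl] at h2
      simp only [Pi.add_apply, Pi.smul_apply, smul_eq_mul, Pi.zero_apply]
      linear_combination h2)).2
    exact hi0' h1

end Pool.Agent.Y735
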