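import Pool.Agent.Y735.Local

/-!
The global inequality.
-/

set_option autoImplicit false

open MvPolynomial FF Pool.Agent.W603.LV Pool.Agent.W603.PV Pool.Agent.TH145.GH

namespace Pool.Agent.Y735

variable {k K : Type} [Field k] [Field K] [Algebra k K] {n : ℕ} {A B U T : Type}

variable (k) in
/-- The height of a family of functions. -/
noncomputable def fht {ι : Type} (f : ι → K) : ℤ := - ∑ᶠ P : Place k K, po P f

/-- The differential as a linear form. -/
noncomputable def dFl (F : MvPolynomial (Fin (n + 1)) K) (x : Fin (n + 1) → K) :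
    (Fin (n + 1) → K) →ₗ[K] K where
  toFun z := dF F x z
  map_add' y z := dF_add F x y z
  map_smul' a z := dF_smul F x z a

theorem dFl_apply (F : MvPolynomial (Fin (n + 1)) K) (x z : Fin (n + 1) → K) :
    dFl F x z = dF F x z := rfl

/-- The rows without the first one. -/
noncomputable def row1 (F : MvPolynomial (Fin (n + 1)) K)
    (D : (Fin (n + 1) →₀ ℕ) → Derivation ℤ K K) (x y : Fin (n + 1) → K) (i0 : Fin (n + 1))
    (ik : Fin (n + 1) × Fin (n + 1)) (rd : RD K n A B U T)
    (κ : Option (A ⊕ (B ⊕ B) ⊕ (U ⊕ T))) : Fin (n + 1) → K :=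
  row F D x y i0 ik rd 0 (some κ)

theorem row_some (F : MvPolynomial (Fin (n + 1)) K)
    (D : (Fin (n + 1) →₀ ℕ) → Derivation ℤ K K) (x y : Fin (n + 1) → K) (i0 : Fin (n + 1))
    (ik : Fin (n + 1) × Fin (n + 1)) (rd : RD K n A B U T) (z : Fin (n + 1) → K)
    (κ : Option (A ⊕ (B ⊕ B) ⊕ (U ⊕ T))) :
    row F D x y i0 ik rd z (some κ) = row1 F D x y i0 ik rd κ := by
  rcases κ with _ | a | (b | b) | u | t <;> rfl

/-- The existence of the function. -/
theorem exists_Theta {F : MvPolynomial (Fin (n + 1)) K}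
    (D : (Fin (n + 1) →₀ ℕ) → Derivation ℤ K K) (x y : Fin (n + 1) → K) (i0 : Fin (n + 1))
    (ik : Fin (n + 1) × Fin (n + 1)) (rd : RD K n A B U T) [Fintype A] [Fintype B] [Fintype U]
    [Fintype T] (hF0 : dFl F x ≠ 0) (hrow : ∀ κ, dF F x (row1 F D x y i0 ik rd κ) = 0)
    (hspan : ∀ z, dF F x z = 0 → z ∈ Submodule.span K (Set.range (row1 F D x y i0 ik rd)))
    (E : Ri A B U T ≃ Fin (n + 1)) :
    ∃ Θ : K, Θ ≠ 0 ∧ ∀ z, vol E (row F D x y i0 ik rd z) = Θ * dF F x z := by
  classical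
  have hker : Module.finrank K (LinearMap.ker (dFl F x)) = n := by
    have h2 := LinearMap.finrank_range_add_finrank_ker (dFl F x)
    have h3 : LinearMap.range (dFl F x) = ⊤ := LinearMap.range_eq_top.2 (LinearMap.surjective hF0)
    rw [h3, finrank_top, Module.finrank_self, Module.finrank_fin_fun] at h2
    omega
  have hsp : Submodule.span K (Set.range (row1 F D x y i0 ik rd)) = LinearMap.ker (dFl F x) := by
    refine le_antisymm ?_ fun z hz => hspan z hz
    rw [Submodule.span_le]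
    rintro _ ⟨κ, rfl⟩
    exact hrow κ
  have hcard : Fintype.card (Option (A ⊕ (B ⊕ B) ⊕ (U ⊕ T))) = n := by
    have h1 := Fintype.card_congr E
    rw [Fintype.card_option, Fintype.card_fin] at h1
    omega
  have hind : LinearIndependent K (row1 F D x y i0 ik rd) := by
    rw [linearIndependent_iff_card_eq_finrank_span, Set.finrank, hsp, hker, hcard]
  -- the determinant as a linear form
  have hup : ∀ z, row F D x y i0 ik rd z = Function.update (row F D x y i0 ik rd 0) none z := by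
    intro z
    funext κ
    rcases κ with _ | κ
    · rw [Function.update_self]; rfl
    · rw [Function.update_of_ne (by simp), row_some, row_some]
  obtain ⟨ψ, hψ⟩ : ∃ ψ : (Fin (n + 1) → K) →ₗ[K] K,
      ∀ z, ψ z = vol E (row F D x y i0 ik rd z) := by
    refine ⟨(vol E).toMultilinearMap.toLinearMap (row F D x y i0 ik rd 0) none, fun z => ?_⟩
    rw [hup z]
    rfl
  have hcomp : ∀ z, row F D x y i0 ik rd z ∘ some = row1 F D x y i0 ik rd := by
    intro z
    funext κ
    exact row_some F D x y i0 ik rd z κ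
  have hli : ∀ z, LinearIndependent K (row F D x y i0 ik rd z) ↔ dFl F x z ≠ 0 := by
    intro z
    rw [linearIndependent_option, hcomp z, hsp]
    exact ⟨fun h => h.2, fun h => ⟨hind, h⟩⟩
  have hmat : ∀ z, LinearIndependent K (row F D x y i0 ik rd z) ↔ ψ z ≠ 0 := by
    intro z
    rw [← linearIndependent_equiv E.symm, hψ, vol_apply]
    have h4 := Matrix.linearIndependent_rows_iff_isUnit
      (A := Matrix.of fun i => row F D x y i0 ik rd z (E.symm i))
    rw [Matrix.isUnit_iff_isUnit_det, isUnit_iff_ne_zero] at h4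
    exact h4
  have hzero : ∀ z, dFl F x z = 0 → ψ z = 0 := by
    intro z hz
    by_contra hcon
    exact (hli z).1 ((hmat z).2 hcon) hz
  obtain ⟨z0, hz0⟩ : ∃ z, dFl F x z ≠ 0 := by
    by_contra hcon
    push Not at hcon
    exact hF0 (LinearMap.ext hcon)
  refine ⟨ψ z0 / dFl F x z0, div_ne_zero ((hmat z0).1 ((hli z0).2 hz0)) hz0, fun z => ?_⟩
  rw [← hψ, ← dFl_apply]
  have h1 := hzero (z - (dFl F x z / dFl F x z0) • z0) (by
    rw [map_sub, map_smul, smul_eq_mul, div_mul_cancel₀ _ hz0, sub_self])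
  rw [map_sub, map_smul, smul_eq_mul, sub_eq_zero] at h1
  rw [h1]
  field_simp

theorem ge_const (P : Place k K) {p : MvPolynomial (Fin (n + 1)) K}
    (h : ∀ u, ∃ c : k, p.coeff u = algebraMap k K c) (u : Fin (n + 1) →₀ ℕ) :
    Ge P 0 (p.coeff u) := by
  obtain ⟨c, hc⟩ := h u
  rw [hc]
  exact Ge.const c

theorem dF_x {F : MvPolynomial (Fin (n + 1)) K} {d : ℕ} (hF : F.IsHomogeneous d)
    {x : Fin (n + 1) → K} (hx : eval x F = 0) : dF F x x = 0 := by
  have h1 := congrArg (eval x) hF.sum_X_mul_pderiv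
  rw [map_sum, map_nsmul, hx, smul_zero] at h1
  unfold dF
  rw [← h1]
  refine Finset.sum_congr rfl fun l _ => ?_
  rw [map_mul, eval_X]
  ring

theorem dF_wv {F : MvPolynomial (Fin (n + 1)) K} {d : ℕ} (hd : 0 < d) (hF : F.IsHomogeneous d)
    {D : (Fin (n + 1) →₀ ℕ) → Derivation ℤ K K} (hD : Dual F d D)
    {x : Fin (n + 1) → K} (hx : eval x F = 0) (pq : Fin (n + 1) × Fin (n + 1)) :
    dF F x (wv F D x pq) = 0 := by
  unfold wv
  have h3 : dF F x (Pi.single pq.1 1) = eval x (pderiv pq.1 F) := by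
    have := dF_single F x pq.1 1
    simpa using this
  have h4 : (X pq.2 * pderiv pq.1 F).IsHomogeneous d := by
    have h4 := (isHomogeneous_X K pq.2).mul (hF.pderiv (i := pq.1))
    have h5 : 1 + (d - 1) = d := by omega
    rwa [h5] at h4
  rw [dF_add, dF_smul, dF_vec hF hD x h4, h3, hx, map_zero, map_mul, eval_X]
  ring

theorem dF_vlf {F : MvPolynomial (Fin (n + 1)) K} {d : ℕ} (hd : 0 < d) (hF : F.IsHomogeneous d)
    {D : (Fin (n + 1) →₀ ℕ) → Derivation ℤ K K} (hD : Dual F d D)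
    {x : Fin (n + 1) → K} (hx : eval x F = 0) {Q : MvPolynomial (Fin (n + 1)) K}
    (hQ : Q.IsHomogeneous (d - 1)) {m : Fin (n + 1) → K} (hm : ∑ l, m l * x l = 0) :
    dF F x (vec D x (Q * lf m)) = 0 := by
  have h3 := hQ.mul (lf_hom m)
  rw [Nat.sub_add_cancel hd] at h3
  rw [dF_vec hF hD x h3, hx, map_zero, map_mul, eval_lf, hm, mul_zero, sub_zero]

theorem fht_fin (x : Fin (n + 1) → K) : fht k x = pht k x := rfl

section
variable [CharZero k] [IsFF k K]

theorem po_finite {ι : Type} [Finite ι] {f : ι → K} (hf : f ≠ 0) :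
    {P : Place k K | po P f ≠ 0}.Finite := by
  classical
  have : Fintype ι := Fintype.ofFinite ι
  obtain ⟨S, hS⟩ := exists_supp (k := k) (Finset.univ : Finset ι) f
  refine S.finite_toSet.subset fun P hP => ?_
  by_contra hPS
  apply hP
  obtain ⟨j, -, hj⟩ := exists_po P hf
  rw [← hj]
  by_contra hcon
  exact hPS (hS j (Finset.mem_univ _) P hcon)

variable [IsAlgClosed k]

/-- The sum of the local inequalities. -/
theorem sum_two {x : Fin (n + 1) → K} (hx0 : x ≠ 0) {ι : Type} [Finite ι] {f : ι → K}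
    (hf : f ≠ 0) {g Θ : K} {a b c : ℤ} {C : Place k K → ℤ} (hC : {P | C P ≠ 0}.Finite)
    (h : ∀ P : Place k K, a * pord P x + b * po P f + c * P.ord g - C P ≤ P.ord Θ) :
    (-a) * pht k x + (-b) * fht k f ≤ ∑ᶠ P, C P := by
  classical
  have hp := pord_finite (k := k) (Function.ne_iff.1 hx0)
  have hq := po_finite (k := k) hf
  obtain ⟨S, hS⟩ := exists_supp (k := k) (Finset.univ : Finset (Fin 2)) ![Θ, g]
  obtain ⟨V, hV⟩ : ∃ V : Finset (Place k K),
    V = S ∪ (hp.toFinset ∪ (hq.toFinset ∪ hC.toFinset)) := ⟨_, rfl⟩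
  have h1 : ∑ P ∈ V, P.ord Θ = 0 := sum_ord_finset _ _ fun P hP => by
    rw [hV]; exact Finset.mem_union_left _ (hS 0 (Finset.mem_univ _) P hP)
  have h1' : ∑ P ∈ V, P.ord g = 0 := sum_ord_finset _ _ fun P hP => by
    rw [hV]; exact Finset.mem_union_left _ (hS 1 (Finset.mem_univ _) P hP)
  have h2 : pht k x = - ∑ P ∈ V, pord P x := by
    unfold pht
    rw [finsum_eq_sum_of_support_subset (s := V)]
    intro P hP
    rw [hV]
    exact Finset.mem_union_right _ (Finset.mem_union_left _ (hp.mem_toFinset.2 hP))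
  have h2' : fht k f = - ∑ P ∈ V, po P f := by
    unfold fht
    rw [finsum_eq_sum_of_support_subset (s := V)]
    intro P hP
    rw [hV]
    exact Finset.mem_union_right _ (Finset.mem_union_right _
      (Finset.mem_union_left _ (hq.mem_toFinset.2 hP)))
  have h3 : ∑ᶠ P, C P = ∑ P ∈ V, C P := by
    rw [finsum_eq_sum_of_support_subset (s := V)]
    intro P hP
    rw [hV]
    exact Finset.mem_union_right _ (Finset.mem_union_right _
      (Finset.mem_union_right _ (hC.mem_toFinset.2 hP)))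
  have h4 := Finset.sum_le_sum (s := V) fun P _ => h P
  rw [Finset.sum_sub_distrib, Finset.sum_add_distrib, Finset.sum_add_distrib, ← Finset.mul_sum,
    ← Finset.mul_sum, ← Finset.mul_sum, h1, h1', ← h3] at h4
  rw [h2, h2']
  linarith

theorem exists_place : ∃ _ : Place k K, True := by
  obtain ⟨t, ht⟩ := IsFF.exists_transcendental (k := k) (K := K)
  obtain ⟨S, hS, -, hS3⟩ := zeros (k := k) ht
  have h1 : 0 < Module.finrank (IntermediateField.adjoin k {t}) K := by
    have := IsFF.finite ht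
    exact Module.finrank_pos
  rw [← hS3] at h1
  obtain ⟨P, hP⟩ : S.Nonempty := by
    by_contra hcon
    rw [Finset.not_nonempty_iff_eq_empty] at hcon
    rw [hcon, Finset.sum_empty] at h1
    exact lt_irrefl _ h1
  exact ⟨P, trivial⟩

/-- The differential is not zero. -/
theorem dFl_ne {d : ℕ} {F : MvPolynomial (Fin (n + 1)) K}
    {D : (Fin (n + 1) →₀ ℕ) → Derivation ℤ K K}
    {e g : Place k K → ℤ} (hdat : Data k F d D e g) {x : Fin (n + 1) → K} (hx0 : x ≠ 0) :
    ∃ i, eval x (pderiv i F) ≠ 0 := by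
  obtain ⟨P0, -⟩ := exists_place (k := k) (K := K)
  obtain ⟨lam, x', hlam, -, hxx, hx', hx1⟩ := exists_scaled P0 hx0
  obtain ⟨i, hi0, -⟩ := hdat.smooth P0 x' hx' hx1
  refine ⟨i, fun h1 => ?_⟩
  rw [hxx, eval_smul_hom hdat.hom.pderiv] at h1
  exact mul_ne_zero (pow_ne_zero _ hlam) hi0 h1

/-- The constant of the inequality. -/
noncomputable def CC (n : ℕ) (e g : Place k K → ℤ) : ℤ :=
  ∑ᶠ P : Place k K, ((n + 1) * (e P + g P) + g P)

/-- The global inequality. -/
theorem global_ineq [Fintype A] [Fintype B] [Fintype U] [Fintype T] {d : ℕ}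
    {F : MvPolynomial (Fin (n + 1)) K} {D : (Fin (n + 1) →₀ ℕ) → Derivation ℤ K K}
    {e g : Place k K → ℤ} (hdat : Data k F d D e g) {x y : Fin (n + 1) → K}
    (hxF : eval x F = 0) {i0 : Fin (n + 1)}
    (hi0 : x i0 ≠ 0) {ik : Fin (n + 1) × Fin (n + 1)} (hik : pl x y ik ≠ 0)
    (rd : RD K n A B U T)
    (hPB : ∀ b, (rd.PB b).IsHomogeneous (d - 1)) (hPU : ∀ b, (rd.PU b).IsHomogeneous (d - 1))
    (hPT : ∀ b, (rd.PT b).IsHomogeneous (d - 1))
    (hcB : ∀ b u, ∃ c : k, (rd.PB b).coeff u = algebraMap k K c)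
    (hcU : ∀ b u, ∃ c : k, (rd.PU b).coeff u = algebraMap k K c)
    (hcT : ∀ b u, ∃ c : k, (rd.PT b).coeff u = algebraMap k K c)
    (hT : ∀ t m, ∑ l, m l * x l = 0 → ∑ l, m l * y l = 0 → vec D x (rd.PT t * lf m) ∈
      Submodule.span K (row1 F D x y i0 ik rd ''
        {κ | rk (some κ : Ri A B U T) < 2}))
    (hcard : 1 + Fintype.card A + 2 * Fintype.card B + Fintype.card U + Fintype.card T = n)
    (hspan : ∀ z, dF F x z = 0 → z ∈ Submodule.span K (Set.range (row1 F D x y i0 ik rd))) :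
    (((d - 1 : ℕ) : ℤ) - ((1 + Fintype.card A + 3 * Fintype.card B + Fintype.card U +
      2 * Fintype.card T : ℕ) : ℤ)) * pht k x +
      ((Fintype.card T : ℤ) - Fintype.card U) * fht k (pl x y) ≤ CC n e g := by
  classical
  have hx0 : x ≠ 0 := by
    rintro rfl
    exact hi0 rfl
  have hp0 : pl x y ≠ 0 := fun h0 => hik (by rw [h0]; rfl)
  obtain ⟨i, hi⟩ := dFl_ne hdat hx0
  have hF0 : dFl F x ≠ 0 := by
    intro h0
    have h1 := LinearMap.congr_fun h0 (Pi.single i 1)
    rw [dFl_apply, LinearMap.zero_apply] at h1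
    have h2 := dF_single F x i 1
    simp only [one_mul] at h2
    change dF F x (fun j => (Pi.single i 1 : Fin (n + 1) → K) j) = 0 at h1
    rw [h2] at h1
    exact hi h1
  have hE : Fintype.card (Ri A B U T) = Fintype.card (Fin (n + 1)) := by
    simp only [Fintype.card_option, Fintype.card_sum, Fintype.card_fin]
    omega
  obtain ⟨E⟩ : Nonempty (Ri A B U T ≃ Fin (n + 1)) := Fintype.card_eq.1 hE
  obtain ⟨Θ, hΘ0, hΘ⟩ := exists_Theta D x y i0 ik rd hF0 (by
    intro κ
    rcases κ with _ | a | (b | b) | u | t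
    · exact dF_x hdat.hom hxF
    · exact dF_wv hdat.pos hdat.hom hdat.dual hxF _
    · exact dF_vlf hdat.pos hdat.hom hdat.dual hxF (hPB b) (by
        rw [← eval_lf]; exact eval_pm x i0 _)
    · exact dF_vlf hdat.pos hdat.hom hdat.dual hxF (hPB b) (by
        rw [← eval_lf]; exact eval_pm x i0 _)
    · exact dF_vlf hdat.pos hdat.hom hdat.dual hxF (hPU u) (sum_tm x y _).1
    · refine dF_vlf hdat.pos hdat.hom hdat.dual hxF (hPT t) ?_
      rw [← eval_lf, map_smul, smul_eval, eval_pm, mul_zero]) hspan E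
  have hloc := fun P : Place k K => local_ineq hdat hi0 hik rd hPB hPU hPT P
    (fun b u => ge_const P (hcB b) u) (fun b u => ge_const P (hcU b) u)
    (fun b u => ge_const P (hcT b) u) (by
      intro z t m h1 h2
      refine Submodule.span_mono ?_ (hT t m h1 h2)
      rintro _ ⟨κ, hκ, rfl⟩
      exact ⟨some κ, hκ, row_some F D x y i0 ik rd z κ⟩) E hΘ0 hΘ
  have hfin : {P : Place k K | ((n : ℤ) + 1) * (e P + g P) + g P ≠ 0}.Finite := by
    refine hdat.fin.subset fun P hP => ?_
    by_contra hcon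
    simp only [Set.mem_ofPred_eq, not_or, not_not] at hcon
    apply hP
    rw [hcon.1, hcon.2]
    ring
  have h1 := sum_two hx0 hp0 hfin hloc
  rw [neg_sub, neg_sub] at h1
  exact h1

end

end Pool.Agent.Y735
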