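import Pool.Agent.Y735.Zs
import Pool.Agent.Y735.Comb

/-!
Integrability: the lines through the point that are given by the vector fields.
-/

set_option autoImplicit false

open MvPolynomial FF Pool.Agent.W603.LV Pool.Agent.W603.PV Pool.Agent.TH145.GH

namespace Pool.Agent.Y735

variable {K : Type} [Field K] {n : ℕ}

variable {F : MvPolynomial (Fin (n + 1)) K} {d : ℕ} {D : (Fin (n + 1) →₀ ℕ) → Derivation ℤ K K}
  {x y ms mt : Fin (n + 1) → K}

theorem rho_nab {G : MvPolynomial (Fin (n + 1)) K} {M : Matrix (Fin (n + 1)) (Fin (n + 1)) K}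
    (h : IsOp F d D x G M) {m : Fin (n + 1) → K} (hm : m ∈ Nl x y)
    (Q : MvPolynomial (Fin (n + 1)) K) :
    rho x y (nab F D G M (Q * lf m)) = (-dt m (nabv F D G M y)) • rho x y Q := by
  obtain ⟨-, c, hc⟩ := h
  rw [mem_Nl] at hm
  obtain ⟨m', hm', hv⟩ := nab_lf F D G M m
  have h1 : dt m' x = 0 := by
    have h2 := hv x
    have h3 : nabv F D G M x = c • x := hc
    rw [h3] at h2
    change dt m' x = DD D (G + LM M F) (dt m x) - dt m (c • x) at h2
    rw [h2, hm.1, map_zero, dt_smul, hm.1, mul_zero, sub_zero]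
  have h2 : dt m' y = -dt m (nabv F D G M y) := by
    have h2 := hv y
    change dt m' y = DD D (G + LM M F) (dt m y) - dt m (nabv F D G M y) at h2
    rw [h2, hm.2, map_zero, zero_sub]
  rw [nab_mul, hm', map_add, map_mul, map_mul, rho_lf, rho_lf, hm.1, hm.2, h1, h2, map_zero,
    zero_mul, zero_add, mul_zero, zero_add, zero_add, Polynomial.smul_eq_C_mul, mul_comm]

/-- An operator maps the ideal of the line to the ideal of the line when it preserves the line. -/
theorem rho_nab_Js {G : MvPolynomial (Fin (n + 1)) K}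
    {M : Matrix (Fin (n + 1)) (Fin (n + 1)) K} (h : IsOp F d D x G M)
    (hy : ∀ m ∈ Nl x y, dt m (nabv F D G M y) = 0) {p : MvPolynomial (Fin (n + 1)) K}
    (hp : p ∈ Js (Nl x y) d) : rho x y (nab F D G M p) = 0 := by
  have key : rho x y (nab F D G M p) = 0 ∧ rho x y p = 0 := by
    refine Submodule.span_induction (p := fun q _ => rho x y (nab F D G M q) = 0 ∧ rho x y q = 0)
      ?_ ?_ ?_ ?_ hp
    · rintro _ ⟨Q, m, e', he', hQ, hm, rfl⟩
      refine ⟨?_, ?_⟩
      · rw [rho_nab h hm, hy m hm, neg_zero, zero_smul]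
      · rw [mem_Nl] at hm
        rw [map_mul, rho_lf, hm.1, hm.2, map_zero, zero_mul, zero_add, mul_zero]
    · refine ⟨?_, map_zero _⟩
      unfold nab
      rw [(cD _).map_zero, (LM M).map_zero, sub_zero, map_zero]
    · rintro p q - - ⟨hp, hp'⟩ ⟨hq, hq'⟩
      rw [nab_add, map_add, map_add, hp, hq, hp', hq']
      exact ⟨add_zero _, add_zero _⟩
    · rintro c p - ⟨hp, hp'⟩
      have h1 : nab F D G M (c • p) = (DD D (G + LM M F) c) • p + c • nab F D G M p := by
        unfold nab
        rw [cD_smul, (LM M).map_smul, smul_sub]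
        abel
      rw [h1, map_add, map_smul, map_smul, map_smul, hp, hp', smul_zero, smul_zero]
      exact ⟨add_zero _, rfl⟩
  exact key.1

section
variable [CharZero K] (hL : LineData F d D x y ms mt)
include hL

/-- The first step. -/
theorem LineData.step1
    (hr : 2 * Module.finrank K (Vl F D x y (d - 1)) + 2 ≤ Module.finrank K (Wsp F D x) + n)
    {Q1 : MvPolynomial (Fin (n + 1)) K} {M1 : Matrix (Fin (n + 1)) (Fin (n + 1)) K}
    {m1 m : Fin (n + 1) → K} (hm1 : m1 ∈ Nl x y)
    (h1 : IsOp F d D x (Q1 * lf m1) M1) (hm : m ∈ Nl x y) :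
    dt m (nabv F D (Q1 * lf m1) M1 y) = 0 := by
  by_contra hne
  have hN : Nm F D x ms mt m d ≤ Zs F D x y ms mt d ⊔ Submodule.span K {rho x y Q1} := by
    intro q hq
    rw [mem_Nm] at hq
    obtain ⟨hqd, hq⟩ := hq
    obtain ⟨M2, h2⟩ := exists_op (hL.sg_hom q m) hq
    have hbr := bracket hL.pos hL.hom hL.dual hL.comm h1 h2
    have h3 := hL.rho_mem_Zs hbr.1 hbr.2
    have h4 : d - 1 + 1 = d := by have := hL.pos; omega
    rw [map_sub, rho_nab h1 hm, rho_nab h2 hm1, rho_sg hL.sx hL.sy hL.tx hL.ty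
      (by rw [h4]; exact hqd)] at h3
    obtain ⟨a, ha⟩ : ∃ a, a = dt m (nabv F D (Q1 * lf m1) M1 y) := ⟨_, rfl⟩
    obtain ⟨b, hb⟩ : ∃ b, b = dt m1 (nabv F D (sg ms mt (d - 1) q * lf m) M2 y) := ⟨_, rfl⟩
    rw [← ha] at h3 hne
    rw [← hb] at h3
    have h5 : q = (-a⁻¹) • ((-a) • q - (-b) • rho x y Q1) + (a⁻¹ * b) • rho x y Q1 := by
      rw [smul_sub, smul_smul, smul_smul, neg_mul_neg, neg_mul_neg, inv_mul_cancel₀ hne, one_smul]
      abel
    rw [h5]
    exact add_mem (Submodule.mem_sup_left (Submodule.smul_mem _ _ h3))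
      (Submodule.mem_sup_right (Submodule.smul_mem _ _ (Submodule.mem_span_singleton_self _)))
  have h2 := Submodule.finrank_mono hN
  have h3 : Module.finrank K (Zs F D x y ms mt d ⊔ Submodule.span K {rho x y Q1} :
      Submodule K (Polynomial K)) ≤ Module.finrank K (Zs F D x y ms mt d) + 1 := by
    refine (Submodule.finrank_add_le_finrank_add_finrank _ _).trans ?_
    have h6 : Module.finrank K (Submodule.span K {rho x y Q1}) ≤ 1 := by
      have := finrank_span_le_card (R := K) ({rho x y Q1} : Set (Polynomial K))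
      simpa using this
    omega
  have h4 := hL.finrank_Zs
  have h5 := hL.finrank_Nm hm
  omega

/-- The second step. -/
theorem LineData.step2
    (hr : 2 * Module.finrank K (Vl F D x y (d - 1)) + 2 ≤ Module.finrank K (Wsp F D x) + n)
    {G1 : MvPolynomial (Fin (n + 1)) K} {M1 : Matrix (Fin (n + 1)) (Fin (n + 1)) K}
    {m : Fin (n + 1) → K} (hG1 : rho x y G1 = 0)
    (h1 : IsOp F d D x G1 M1) (hm : m ∈ Nl x y) : dt m (nabv F D G1 M1 y) = 0 := by
  by_contra hne
  have hN : Nm F D x ms mt m d ≤ Zs F D x y ms mt d := by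
    intro q hq
    rw [mem_Nm] at hq
    obtain ⟨hqd, hq⟩ := hq
    obtain ⟨M2, h2⟩ := exists_op (hL.sg_hom q m) hq
    have hbr := bracket hL.pos hL.hom hL.dual hL.comm h1 h2
    have h3 := hL.rho_mem_Zs hbr.1 hbr.2
    have h4 : d - 1 + 1 = d := by have := hL.pos; omega
    have h5 := rho_nab_Js h2 (fun m' hm' => hL.step1 hr hm h2 hm')
      (mem_Js_line hL.sx hL.sy hL.tx hL.ty h1.1 hG1)
    rw [map_sub, rho_nab h1 hm, h5, sub_zero, rho_sg hL.sx hL.sy hL.tx hL.ty
      (by rw [h4]; exact hqd)] at h3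
    have h6 := Submodule.smul_mem _ (-(dt m (nabv F D G1 M1 y))⁻¹) h3
    rwa [smul_smul, neg_mul_neg, inv_mul_cancel₀ hne, one_smul] at h6
  have h2 := Submodule.finrank_mono hN
  have h4 := hL.finrank_Zs
  have h5 := hL.finrank_Nm hm
  omega

end

/-- The matrix of rank one. -/
def vm (z m : Fin (n + 1) → K) : Matrix (Fin (n + 1)) (Fin (n + 1)) K :=
  Matrix.of fun a b => z a * m b

theorem vm_mulVec (z m v : Fin (n + 1) → K) : (vm z m).mulVec v = dt m v • z := by
  funext l
  simp only [vm, Matrix.mulVec, dotProduct, Matrix.of_apply, dt, Pi.smul_apply, smul_eq_mul]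
  rw [Finset.sum_mul]
  exact Finset.sum_congr rfl fun b _ => by ring

/-- The derivative in a direction. -/
noncomputable def pdz (F : MvPolynomial (Fin (n + 1)) K) :
    (Fin (n + 1) → K) →ₗ[K] MvPolynomial (Fin (n + 1)) K where
  toFun z := ∑ a, z a • pderiv a F
  map_add' z w := by
    rw [← Finset.sum_add_distrib]
    exact Finset.sum_congr rfl fun i _ => by rw [Pi.add_apply, add_smul]
  map_smul' c z := by
    rw [Finset.smul_sum]
    exact Finset.sum_congr rfl fun i _ => by
      rw [Pi.smul_apply, smul_eq_mul, mul_smul, RingHom.id_apply]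

theorem LM_vm (F : MvPolynomial (Fin (n + 1)) K) (z m : Fin (n + 1) → K) :
    LM (vm z m) F = lf m * pdz F z := by
  rw [LM_apply, lf_apply]
  change _ = (∑ i, m i • X i) * ∑ a, z a • pderiv a F
  rw [Finset.sum_mul_sum, Finset.sum_comm]
  refine Finset.sum_congr rfl fun b _ => Finset.sum_congr rfl fun a _ => ?_
  rw [vm, Matrix.of_apply, smul_mul_smul_comm, mul_comm (z a)]

/-- The vectors of the line. -/
theorem mem_line (h1 : dt ms x = 1) (h2 : dt ms y = 0) (h3 : dt mt x = 0) (h4 : dt mt y = 1)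
    {z : Fin (n + 1) → K} (hz : ∀ m ∈ Nl x y, dt m z = 0) : z = dt ms z • x + dt mt z • y := by
  funext i
  have h5 := hz (Pi.single i 1 - x i • ms - y i • mt) (by
    rw [mem_Nl, dt_sub', dt_sub', dt_single, dt_smul', dt_smul', dt_sub', dt_sub', dt_single,
      dt_smul', dt_smul', h1, h2, h3, h4]
    constructor <;> ring)
  rw [dt_sub', dt_sub', dt_single, dt_smul', dt_smul'] at h5
  rw [Pi.add_apply, Pi.smul_apply, Pi.smul_apply, smul_eq_mul, smul_eq_mul]
  linear_combination h5

/-- The two-parameter family of restrictions. -/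
noncomputable def gam (F : MvPolynomial (Fin (n + 1)) K) (x y : Fin (n + 1) → K) :
    ((Fin (n + 1) → K) × K) →ₗ[K] Polynomial K :=
  LinearMap.coprod ((rho x y).toLinearMap ∘ₗ pdz F)
    (LinearMap.toSpanSingleton K (Polynomial K) (Polynomial.X * rho x y (pdz F x)))

theorem gam_apply (F : MvPolynomial (Fin (n + 1)) K) (x y z : Fin (n + 1) → K) (c : K) :
    gam F x y (z, c) = rho x y (pdz F z) + c • (Polynomial.X * rho x y (pdz F x)) := rfl

section
variable [CharZero K] (hL : LineData F d D x y ms mt)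
include hL

omit [CharZero K] in
theorem LineData.op_gam (z : Fin (n + 1) → K) (c : K) :
    ∃ M : Matrix (Fin (n + 1)) (Fin (n + 1)) K, IsOp F d D x (-LM M F) M ∧
      vec D x (LM M F) ∈ Wsp F D x ∧ rho x y (LM M F) = gam F x y (z, c) ∧
      nabv F D (-LM M F) M y = z := by
  have hx : (vm z mt + vm (c • x) ms).mulVec x = c • x := by
    rw [Matrix.add_mulVec, vm_mulVec, vm_mulVec, hL.tx, hL.sx, zero_smul, zero_add, one_smul]
  refine ⟨vm z mt + vm (c • x) ms, op_matrix hL.pos hL.hom hx, vec_matrix hx, ?_, ?_⟩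
  · rw [LM_add, LM_vm, LM_vm, map_add, map_mul, map_mul, rho_lf, rho_lf, hL.tx, hL.ty, hL.sx,
      hL.sy, gam_apply, map_smul, map_smul, map_zero, map_one, zero_mul, zero_add, one_mul,
      one_mul, add_zero, mul_smul_comm]
  · unfold nabv
    rw [neg_add_cancel, map_zero, zero_add, Matrix.add_mulVec, vm_mulVec, vm_mulVec, hL.ty, hL.sy,
      zero_smul, add_zero, one_smul]

theorem LineData.gam_mem (z : Fin (n + 1) → K) (c : K) :
    gam F x y (z, c) ∈ Zs F D x y ms mt d := by
  obtain ⟨M, -, h2, h3, -⟩ := hL.op_gam z c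
  rw [← h3]
  exact hL.rho_mem_Zs (LM_hom M hL.pos hL.hom) h2

/-- The kernel. -/
theorem LineData.gam_ker
    (hr : 2 * Module.finrank K (Vl F D x y (d - 1)) + 2 ≤ Module.finrank K (Wsp F D x) + n)
    {z : Fin (n + 1) → K} {c : K} (h : gam F x y (z, c) = 0) :
    z = dt ms z • x + dt mt z • y := by
  obtain ⟨M, h1, h2, h3, h4⟩ := hL.op_gam z c
  refine mem_line hL.sx hL.sy hL.tx hL.ty fun m hm => ?_
  rw [← h4]
  refine hL.step2 hr ?_ h1 hm
  rw [map_neg, h3, h, neg_zero]

omit [CharZero K] hL in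
theorem rho_pdz_x (F : MvPolynomial (Fin (n + 1)) K) (x y : Fin (n + 1) → K) :
    rho x y (pdz F x) = Polynomial.derivative (rho x y F) := by
  rw [rho_deriv]
  change rho x y (∑ a, x a • pderiv a F) = _
  rw [map_sum]
  exact Finset.sum_congr rfl fun a _ => map_smul _ _ _

omit [CharZero K] in
theorem LineData.rho_pdz_y : (d : Polynomial K) * rho x y F =
    Polynomial.X * rho x y (pdz F x) + rho x y (pdz F y) := by
  have h1 := congrArg (rho x y) hL.hom.sum_X_mul_pderiv
  rw [map_nsmul, nsmul_eq_mul, map_sum] at h1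
  rw [← h1]
  change _ = Polynomial.X * rho x y (∑ a, x a • pderiv a F) + rho x y (∑ a, y a • pderiv a F)
  rw [map_sum, map_sum, Finset.mul_sum, ← Finset.sum_add_distrib]
  refine Finset.sum_congr rfl fun a _ => ?_
  rw [map_mul, rho_X, map_smul, map_smul, Polynomial.smul_eq_C_mul, Polynomial.smul_eq_C_mul]
  ring

theorem LineData.deriv_zero
    (hr : 2 * Module.finrank K (Vl F D x y (d - 1)) + 2 ≤ Module.finrank K (Wsp F D x) + n)
    (hd : d + Module.finrank K (Vl F D x y (d - 1)) ≤ 2 * n) :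
    Polynomial.derivative (rho x y F) = 0 := by
  have hZ := hL.finrank_Zs
  -- an element of the kernel
  obtain ⟨f, hf⟩ : ∃ f : ((Fin (n + 1) → K) × K) →ₗ[K] (Zs F D x y ms mt d × K),
      ∀ p, f p = (⟨gam F x y p, hL.gam_mem p.1 p.2⟩, dt mt p.1) := by
    refine ⟨LinearMap.prod (LinearMap.codRestrict _ (gam F x y) fun p => hL.gam_mem p.1 p.2)
      ((∑ l, mt l • LinearMap.proj (R := K) (φ := fun _ : Fin (n + 1) => K) l) ∘ₗ
        LinearMap.fst K _ K), fun p => ?_⟩
    refine Prod.ext rfl ?_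
    simp only [LinearMap.prod_apply, Function.prod_apply, LinearMap.comp_apply,
      LinearMap.fst_apply, LinearMap.coe_sum, Finset.sum_apply, LinearMap.smul_apply,
      LinearMap.proj_apply, smul_eq_mul]
    rfl
  have hker : LinearMap.ker f ≠ ⊥ := by
    apply LinearMap.ker_ne_bot_of_finrank_lt
    rw [Module.finrank_prod, Module.finrank_prod, Module.finrank_fin_fun, Module.finrank_self]
    omega
  obtain ⟨⟨z, c⟩, hzc, hne⟩ := Submodule.exists_mem_ne_zero_of_ne_bot hker
  rw [LinearMap.mem_ker, hf, Prod.mk_eq_zero] at hzc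
  have h1 : gam F x y (z, c) = 0 := congrArg Subtype.val hzc.1
  have h2 := hL.gam_ker hr h1
  rw [hzc.2, zero_smul, add_zero] at h2
  obtain ⟨a, ha⟩ : ∃ a, a = dt ms z := ⟨_, rfl⟩
  rw [← ha] at h2
  rw [h2, gam_apply, map_smul, map_smul, rho_pdz_x] at h1
  have h3 : (Polynomial.C a + Polynomial.C c * Polynomial.X) *
      Polynomial.derivative (rho x y F) = 0 := by
    rw [← h1, Polynomial.smul_eq_C_mul, Polynomial.smul_eq_C_mul]
    ring
  rcases mul_eq_zero.1 h3 with h4 | h4
  · exfalso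
    apply hne
    have h5 : c = 0 := by
      have := congrArg (fun p => Polynomial.coeff p 1) h4
      simpa using this
    have h6 : a = 0 := by
      have := congrArg (fun p => Polynomial.coeff p 0) h4
      simpa using this
    rw [h5, h2, h6, zero_smul]
    rfl
  · exact h4

theorem LineData.line_zero
    (hr : 2 * Module.finrank K (Vl F D x y (d - 1)) + 2 ≤ Module.finrank K (Wsp F D x) + n)
    (hd : d + 1 + Module.finrank K (Vl F D x y (d - 1)) ≤ 2 * n) : rho x y F = 0 := by
  have hder := hL.deriv_zero hr (by omega)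
  have hZ := hL.finrank_Zs
  obtain ⟨f, hf⟩ : ∃ f : (Fin (n + 1) → K) →ₗ[K] (Zs F D x y ms mt d × K),
      ∀ z, f z = (⟨gam F x y (z, 0), hL.gam_mem z 0⟩, dt ms z) := by
    refine ⟨LinearMap.prod (LinearMap.codRestrict _ (gam F x y ∘ₗ LinearMap.inl K _ K)
      fun z => hL.gam_mem z 0)
      (∑ l, ms l • LinearMap.proj (R := K) (φ := fun _ : Fin (n + 1) => K) l), fun p => ?_⟩
    refine Prod.ext rfl ?_
    simp only [LinearMap.prod_apply, Function.prod_apply, LinearMap.coe_sum, Finset.sum_apply,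
      LinearMap.smul_apply, LinearMap.proj_apply, smul_eq_mul]
    rfl
  have hker : LinearMap.ker f ≠ ⊥ := by
    apply LinearMap.ker_ne_bot_of_finrank_lt
    rw [Module.finrank_prod, Module.finrank_fin_fun, Module.finrank_self]
    omega
  obtain ⟨z, hzc, hne⟩ := Submodule.exists_mem_ne_zero_of_ne_bot hker
  rw [LinearMap.mem_ker, hf, Prod.mk_eq_zero] at hzc
  have h1 : gam F x y (z, 0) = 0 := congrArg Subtype.val hzc.1
  have h2 := hL.gam_ker hr h1
  rw [hzc.2, zero_smul, zero_add] at h2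
  obtain ⟨b, hb⟩ : ∃ b, b = dt mt z := ⟨_, rfl⟩
  rw [← hb] at h2
  have h3 := hL.rho_pdz_y
  rw [rho_pdz_x, hder, mul_zero, zero_add] at h3
  rw [h2, gam_apply, map_smul, map_smul, zero_smul, add_zero, ← h3] at h1
  rcases smul_eq_zero.1 h1 with h4 | h4
  · exfalso
    apply hne
    rw [h2, h4, zero_smul]
  · rcases mul_eq_zero.1 h4 with h5 | h5
    · exfalso
      have := hL.pos
      have h6 : (d : Polynomial K) ≠ 0 := by
        exact_mod_cast this.ne'
      exact h6 h5
    · exact h5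

end

/-- The condition on the lines holds. -/
theorem lineBound [CharZero K] (hd : 0 < d)
    (hF : F.IsHomogeneous d) (hD : Dual F d D) (hc : ∀ I J a, D I (D J a) = D J (D I a))
    (hx : eval x F = 0) (hne : dFl F x ≠ 0) : LineBound F d D x := by
  intro y ik hik hr
  obtain ⟨ms, mt, h1, h2, h3, h4⟩ := exists_ms_mt hik
  have hL : LineData F d D x y ms mt := ⟨hd, hF, hD, hc, hx, h1, h2, h3, h4, hne⟩
  have hval : ∀ a b : K, b ≠ 0 → eval (a • x + b • y) F =
      b ^ d * (rho x y F).eval (a / b) := by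
    intro a b hb
    have h5 : a • x + b • y = b • ((a / b) • x + y) := by
      rw [smul_add, smul_smul, mul_div_cancel₀ _ hb]
    rw [h5, eval_smul_hom hF, eval_rho]
  have h0 : ∀ a : K, eval (a • x + (0 : K) • y) F = 0 := by
    intro a
    rw [zero_smul, add_zero, eval_smul_hom hF, hx, mul_zero]
  refine ⟨fun h5 a b => ?_, fun h5 a b => ?_⟩
  · by_cases hb : b = 0
    · rw [hb]; exact h0 a
    · rw [hval a b hb, hL.line_zero hr h5, Polynomial.eval_zero, mul_zero]
  · by_cases hb : b = 0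
    · rw [hb, h0 a, zero_pow hd.ne', zero_mul]
    · have h6 := hL.deriv_zero hr (by omega)
      have h7 := Polynomial.natDegree_eq_zero_of_derivative_eq_zero h6
      rw [Polynomial.natDegree_eq_zero] at h7
      obtain ⟨c, hc'⟩ := h7
      have h8 : eval y F = c := by
        have h9 := eval_rho x y F 0
        rw [zero_smul, zero_add, ← hc', Polynomial.eval_C] at h9
        exact h9.symm
      rw [hval a b hb, ← hc', Polynomial.eval_C, h8]

end Pool.Agent.Y735
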