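import Pool.Agent.Y735.Dich2

/-!
Restriction of forms to a line.
-/

set_option autoImplicit false

open MvPolynomial FF Pool.Agent.W603.LV Pool.Agent.W603.PV Pool.Agent.TH145.GH

namespace Pool.Agent.Y735

variable {K : Type} [Field K] {n : ℕ}

/-- The scalar product. -/
def dt (m v : Fin (n + 1) → K) : K := ∑ l, m l * v l

theorem dt_add (m v w : Fin (n + 1) → K) : dt m (v + w) = dt m v + dt m w := by
  unfold dt
  rw [← Finset.sum_add_distrib]
  exact Finset.sum_congr rfl fun l _ => by rw [Pi.add_apply, mul_add]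

theorem dt_smul (c : K) (m v : Fin (n + 1) → K) : dt m (c • v) = c * dt m v := by
  unfold dt
  rw [Finset.mul_sum]
  exact Finset.sum_congr rfl fun l _ => by rw [Pi.smul_apply, smul_eq_mul]; ring

theorem dt_add' (m m' v : Fin (n + 1) → K) : dt (m + m') v = dt m v + dt m' v := by
  unfold dt
  rw [← Finset.sum_add_distrib]
  exact Finset.sum_congr rfl fun l _ => by rw [Pi.add_apply, add_mul]

theorem dt_sub' (m m' v : Fin (n + 1) → K) : dt (m - m') v = dt m v - dt m' v := by
  unfold dt
  rw [← Finset.sum_sub_distrib]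
  exact Finset.sum_congr rfl fun l _ => by rw [Pi.sub_apply, sub_mul]

theorem dt_smul' (c : K) (m v : Fin (n + 1) → K) : dt (c • m) v = c * dt m v := by
  unfold dt
  rw [Finset.mul_sum]
  exact Finset.sum_congr rfl fun l _ => by rw [Pi.smul_apply, smul_eq_mul]; ring

theorem dt_single (i : Fin (n + 1)) (v : Fin (n + 1) → K) : dt (Pi.single i 1) v = v i := by
  unfold dt
  rw [Finset.sum_eq_single i]
  · rw [Pi.single_eq_same, one_mul]
  · intro j _ hj
    rw [Pi.single_eq_of_ne hj, zero_mul]
  · intro h; exact absurd (Finset.mem_univ i) h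

/-- The restriction to the line through `x` and `y`. -/
noncomputable def rho (x y : Fin (n + 1) → K) :
    MvPolynomial (Fin (n + 1)) K →ₐ[K] Polynomial K :=
  aeval fun i => Polynomial.C (x i) * Polynomial.X + Polynomial.C (y i)

theorem rho_X (x y : Fin (n + 1) → K) (i : Fin (n + 1)) :
    rho x y (X i) = Polynomial.C (x i) * Polynomial.X + Polynomial.C (y i) := aeval_X _ _

theorem rho_lf (x y m : Fin (n + 1) → K) :
    rho x y (lf m) = Polynomial.C (dt m x) * Polynomial.X + Polynomial.C (dt m y) := by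
  rw [lf_apply, map_sum]
  simp only [map_smul, rho_X, smul_add]
  rw [Finset.sum_add_distrib, dt, dt, map_sum, map_sum, Finset.sum_mul]
  congr 1
  · refine Finset.sum_congr rfl fun l _ => ?_
    rw [Polynomial.smul_eq_C_mul, map_mul]
    ring
  · refine Finset.sum_congr rfl fun l _ => ?_
    rw [Polynomial.smul_eq_C_mul, map_mul]

theorem eval_rho (x y : Fin (n + 1) → K) (p : MvPolynomial (Fin (n + 1)) K) (t : K) :
    (rho x y p).eval t = eval (t • x + y) p := by
  induction p using MvPolynomial.induction_on with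
  | C a =>
    rw [eval_C, rho, aeval_C]
    exact Polynomial.eval_C
  | add p q hp hq => rw [map_add, map_add, Polynomial.eval_add, hp, hq]
  | mul_X p i hp =>
    rw [map_mul, map_mul, Polynomial.eval_mul, hp, rho_X, eval_X, Polynomial.eval_add,
      Polynomial.eval_mul, Polynomial.eval_C, Polynomial.eval_C, Polynomial.eval_X, Pi.add_apply,
      Pi.smul_apply, smul_eq_mul, mul_comm (x i)]

theorem rho_deg (x y : Fin (n + 1) → K) {e : ℕ} {p : MvPolynomial (Fin (n + 1)) K}
    (hp : p.IsHomogeneous e) : (rho x y p).natDegree ≤ e := by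
  classical
  rw [p.as_sum, map_sum]
  refine Polynomial.natDegree_sum_le_of_forall_le _ _ fun u hu => ?_
  rw [rho, aeval_monomial]
  refine (Polynomial.natDegree_C_mul_le _ _).trans ?_
  rw [Finsupp.prod_fintype _ _ (fun i => pow_zero _)]
  refine (Polynomial.natDegree_prod_le _ _).trans ?_
  rw [← deg_of_mem hp hu, Finsupp.degree_eq_sum]
  refine Finset.sum_le_sum fun i _ => ?_
  refine Polynomial.natDegree_pow_le.trans ?_
  calc u i * _ ≤ u i * 1 := Nat.mul_le_mul_left _ (by
        refine Polynomial.natDegree_add_le_of_degree_le ?_ ?_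
        · exact (Polynomial.natDegree_C_mul_le _ _).trans Polynomial.natDegree_X_le
        · rw [Polynomial.natDegree_C]; exact Nat.zero_le _)
    _ = u i := mul_one _

theorem rho_mem (x y : Fin (n + 1) → K) {e f : ℕ} (hef : e < f) {p : MvPolynomial (Fin (n + 1)) K}
    (hp : p.IsHomogeneous e) : rho x y p ∈ Polynomial.degreeLT K f := by
  rw [Polynomial.mem_degreeLT]
  exact (Polynomial.degree_le_natDegree).trans_lt
    (by exact_mod_cast (rho_deg x y hp).trans_lt hef)

/-- The binary forms. -/
noncomputable def sg (ms mt : Fin (n + 1) → K) (e : ℕ) :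
    Polynomial K →ₗ[K] MvPolynomial (Fin (n + 1)) K where
  toFun q := ∑ i ∈ Finset.range (e + 1), q.coeff i • (lf ms ^ i * lf mt ^ (e - i))
  map_add' p q := by
    rw [← Finset.sum_add_distrib]
    exact Finset.sum_congr rfl fun i _ => by rw [Polynomial.coeff_add, add_smul]
  map_smul' c q := by
    rw [RingHom.id_apply, Finset.smul_sum]
    exact Finset.sum_congr rfl fun i _ => by
      rw [Polynomial.coeff_smul, smul_eq_mul, mul_smul]

theorem sg_apply (ms mt : Fin (n + 1) → K) (e : ℕ) (q : Polynomial K) : sg ms mt e q =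
    ∑ i ∈ Finset.range (e + 1), q.coeff i • (lf ms ^ i * lf mt ^ (e - i)) := rfl

theorem sg_hom (ms mt : Fin (n + 1) → K) (e : ℕ) (q : Polynomial K) :
    (sg ms mt e q).IsHomogeneous e := by
  rw [sg_apply]
  refine IsHomogeneous.sum _ _ _ fun i hi => ?_
  have h1 := ((lf_hom ms).pow i).mul ((lf_hom mt).pow (e - i))
  rw [Finset.mem_range] at hi
  have h2 : 1 * i + 1 * (e - i) = e := by omega
  rw [h2] at h1
  rw [smul_eq_C_mul]
  have := (isHomogeneous_C (Fin (n + 1)) (q.coeff i)).mul h1
  rwa [zero_add] at this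

theorem rho_sg {x y ms mt : Fin (n + 1) → K} (h1 : dt ms x = 1) (h2 : dt ms y = 0)
    (h3 : dt mt x = 0) (h4 : dt mt y = 1) {e : ℕ} {q : Polynomial K}
    (hq : q ∈ Polynomial.degreeLT K (e + 1)) : rho x y (sg ms mt e q) = q := by
  rw [sg_apply, map_sum]
  have h5 : ∀ i ∈ Finset.range (e + 1), rho x y (q.coeff i • (lf ms ^ i * lf mt ^ (e - i))) =
      Polynomial.monomial i (q.coeff i) := by
    intro i _
    rw [map_smul, map_mul, map_pow, map_pow, rho_lf, rho_lf, h1, h2, h3, h4, map_one, map_zero,
      one_mul, zero_mul, add_zero, zero_add, one_pow, mul_one, Polynomial.smul_eq_C_mul,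
      Polynomial.C_mul_X_pow_eq_monomial]
  rw [Finset.sum_congr rfl h5]
  have h6 : q.natDegree < e + 1 := by
    by_cases h0 : q = 0
    · rw [h0, Polynomial.natDegree_zero]; omega
    · rw [Polynomial.mem_degreeLT] at hq
      exact (Polynomial.natDegree_lt_iff_degree_lt h0).2 hq
  exact (Polynomial.as_sum_range' q (e + 1) h6).symm

/-- The forms in the ideal of a space of linear forms. -/
noncomputable def Js (N : Submodule K (Fin (n + 1) → K)) (e : ℕ) : Submodule K (MvPolynomial (Fin (n + 1)) K) :=
  Submodule.span K {p | ∃ (Q : MvPolynomial (Fin (n + 1)) K) (m : Fin (n + 1) → K) (e' : ℕ),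
    e' + 1 = e ∧ Q.IsHomogeneous e' ∧ m ∈ N ∧ p = Q * lf m}

/-- Reduction modulo linear forms. -/
noncomputable def Lam (a : Fin (n + 1) → Fin (n + 1) → K) :
    MvPolynomial (Fin (n + 1)) K →ₐ[K] MvPolynomial (Fin (n + 1)) K :=
  aeval fun i => X i - lf (a i)

theorem Lam_sub (N : Submodule K (Fin (n + 1) → K)) {a : Fin (n + 1) → Fin (n + 1) → K}
    (ha : ∀ i, a i ∈ N) {e : ℕ} {p : MvPolynomial (Fin (n + 1)) K} (hp : p.IsHomogeneous e) :
    p - Lam a p ∈ Js N e := by
  classical
  have key : ∀ (e : ℕ) (u : Fin (n + 1) →₀ ℕ), u.degree = e →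
      (monomial u 1 : MvPolynomial (Fin (n + 1)) K) - Lam a (monomial u 1) ∈ Js N e := by
    intro e
    induction e with
    | zero =>
      intro u hu
      have h1 : u = 0 := by
        rw [Finsupp.degree_eq_sum] at hu
        ext i
        exact Finset.sum_eq_zero_iff.1 hu i (Finset.mem_univ i)
      have h2 : (monomial u 1 : MvPolynomial (Fin (n + 1)) K) = 1 := by rw [h1]; rfl
      rw [h2, map_one, sub_self]
      exact zero_mem _
    | succ e ih =>
      intro u hu
      obtain ⟨i, hi⟩ : ∃ i, u i ≠ 0 := by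
        by_contra hcon
        push Not at hcon
        rw [Finsupp.degree_eq_sum, Finset.sum_eq_zero fun i _ => hcon i] at hu
        omega
      obtain ⟨v, hv⟩ : ∃ v : Fin (n + 1) →₀ ℕ, u = v + Finsupp.single i 1 :=
        ⟨u - Finsupp.single i 1, by
          rw [tsub_add_cancel_of_le]
          rw [Finsupp.single_le_iff]
          omega⟩
      have hvd : v.degree = e := by
        rw [hv, map_add, Finsupp.degree_single] at hu
        omega
      have h1 : (monomial u 1 : MvPolynomial (Fin (n + 1)) K) = monomial v 1 * X i := by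
        rw [X, monomial_mul, one_mul, hv]
      have h2 : Lam a (X i) = X i - lf (a i) := aeval_X _ _
      have h3 : (monomial u 1 : MvPolynomial (Fin (n + 1)) K) - Lam a (monomial u 1) =
          monomial v 1 * lf (a i) + (monomial v 1 - Lam a (monomial v 1)) * (X i - lf (a i)) := by
        rw [h1, map_mul, h2]
        ring
      rw [h3]
      refine add_mem (Submodule.subset_span ⟨_, _, e, rfl, isHomogeneous_monomial _ hvd, ha i, rfl⟩)
        ?_
      have h4 : ∀ q ∈ Js N e, q * (X i - lf (a i)) ∈ Js N (e + 1) := by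
        intro q hq
        refine Submodule.span_induction (p := fun q _ => q * (X i - lf (a i)) ∈ Js N (e + 1))
          ?_ ?_ ?_ ?_ hq
        · rintro _ ⟨Q, m, e', he', hQ, hm, rfl⟩
          refine Submodule.subset_span ⟨Q * (X i - lf (a i)), m, e, rfl, ?_, hm, by ring⟩
          have := hQ.mul ((isHomogeneous_X K i).sub (lf_hom (a i)))
          rwa [he'] at this
        · rw [zero_mul]; exact zero_mem _
        · intro p q _ _ hp hq
          rw [add_mul]; exact add_mem hp hq
        · intro c p _ hp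
          rw [smul_mul_assoc]; exact Submodule.smul_mem _ _ hp
      exact h4 _ (ih v hvd)
  have h1 : p - Lam a p = ∑ u ∈ p.support, p.coeff u • (monomial u 1 - Lam a (monomial u 1)) := by
    conv_lhs => rw [p.as_sum]
    rw [map_sum, ← Finset.sum_sub_distrib]
    refine Finset.sum_congr rfl fun u _ => ?_
    have h2 : (monomial u (p.coeff u) : MvPolynomial (Fin (n + 1)) K) =
        p.coeff u • monomial u 1 := by
      rw [smul_monomial, smul_eq_mul, mul_one]
    rw [h2, map_smul, smul_sub]
  rw [h1]
  exact sum_mem fun u hu => Submodule.smul_mem _ _ (key e u (deg_of_mem hp hu))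

theorem eval_Lam (a : Fin (n + 1) → Fin (n + 1) → K) (v : Fin (n + 1) → K)
    (p : MvPolynomial (Fin (n + 1)) K) :
    eval v (Lam a p) = eval (fun i => v i - dt (a i) v) p := by
  induction p using MvPolynomial.induction_on with
  | C c => rw [eval_C, Lam, aeval_C]; exact eval_C _
  | add p q hp hq => rw [map_add, map_add, map_add, hp, hq]
  | mul_X p i hp =>
    have h2 : Lam a (X i) = X i - lf (a i) := aeval_X _ _
    rw [map_mul, map_mul, map_mul, hp, h2, map_sub, eval_X, eval_X, eval_lf]
    rfl

/-- The forms that vanish at a point. -/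
theorem mem_Js_point [Infinite K] {x : Fin (n + 1) → K} (hx0 : x ≠ 0) {e : ℕ}
    {p : MvPolynomial (Fin (n + 1)) K} (hp : p.IsHomogeneous e) (h : eval x p = 0) :
    p ∈ Js (Mx x) e := by
  classical
  obtain ⟨i0, hi0⟩ := Function.ne_iff.1 hx0
  have hi0' : x i0 ≠ 0 := hi0
  obtain ⟨ms, hms⟩ : ∃ ms : Fin (n + 1) → K, ms = (x i0)⁻¹ • Pi.single i0 1 := ⟨_, rfl⟩
  have hmsx : dt ms x = 1 := by rw [hms, dt_smul', dt_single, inv_mul_cancel₀ hi0']
  obtain ⟨a, ha⟩ : ∃ a : Fin (n + 1) → Fin (n + 1) → K,
    ∀ i, a i = Pi.single i 1 - x i • ms := ⟨_, fun _ => rfl⟩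
  have h1 := Lam_sub (Mx x) (a := a) (fun i => by
    rw [mem_Mx]
    change dt (a i) x = 0
    rw [ha, dt_sub', dt_single, dt_smul', hmsx, mul_one, sub_self]) hp
  have h2 : Lam a p = 0 := by
    apply MvPolynomial.funext
    intro v
    rw [eval_Lam, map_zero]
    have h3 : (fun i => v i - dt (a i) v) = dt ms v • x := by
      funext i
      rw [ha, dt_sub', dt_single, dt_smul', Pi.smul_apply, smul_eq_mul]
      ring
    rw [h3, eval_smul_hom hp, h, mul_zero]
  rwa [h2, sub_zero] at h1

/-- The linear forms that vanish on a line. -/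
noncomputable def Nl (x y : Fin (n + 1) → K) : Submodule K (Fin (n + 1) → K) := Mx x ⊓ Mx y

theorem mem_Nl {x y m : Fin (n + 1) → K} : m ∈ Nl x y ↔ dt m x = 0 ∧ dt m y = 0 := by
  unfold Nl
  rw [Submodule.mem_inf, mem_Mx, mem_Mx]
  rfl

/-- The forms that vanish on a line. -/
theorem mem_Js_line [Infinite K] {x y ms mt : Fin (n + 1) → K} (h1 : dt ms x = 1)
    (h2 : dt ms y = 0) (h3 : dt mt x = 0) (h4 : dt mt y = 1) {e : ℕ}
    {p : MvPolynomial (Fin (n + 1)) K} (hp : p.IsHomogeneous e) (h : rho x y p = 0) :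
    p ∈ Js (Nl x y) e := by
  classical
  obtain ⟨a, ha⟩ : ∃ a : Fin (n + 1) → Fin (n + 1) → K,
    ∀ i, a i = Pi.single i 1 - x i • ms - y i • mt := ⟨_, fun _ => rfl⟩
  have h5 := Lam_sub (Nl x y) (a := a) (fun i => by
    rw [mem_Nl, ha, dt_sub', dt_sub', dt_single, dt_smul', dt_smul', dt_sub', dt_sub', dt_single,
      dt_smul', dt_smul', h1, h2, h3, h4]
    constructor <;> ring) hp
  have h6 : Lam a p * lf mt = 0 := by
    apply MvPolynomial.funext
    intro v
    rw [map_mul, eval_Lam, map_zero, eval_lf]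
    change _ * dt mt v = 0
    have h7 : (fun i => v i - dt (a i) v) = dt ms v • x + dt mt v • y := by
      funext i
      rw [ha, dt_sub', dt_sub', dt_single, dt_smul', dt_smul', Pi.add_apply, Pi.smul_apply,
        Pi.smul_apply, smul_eq_mul, smul_eq_mul]
      ring
    rw [h7]
    by_cases h0 : dt mt v = 0
    · rw [h0, mul_zero]
    · have h8 : dt ms v • x + dt mt v • y = dt mt v • ((dt ms v / dt mt v) • x + y) := by
        rw [smul_add, smul_smul, mul_div_cancel₀ _ h0]
      rw [h8, eval_smul_hom hp, ← eval_rho, h, Polynomial.eval_zero, mul_zero, zero_mul]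
  have h7 : lf mt ≠ (0 : MvPolynomial (Fin (n + 1)) K) := by
    intro h0
    have h8 := eval_lf mt y
    rw [h0, map_zero] at h8
    rw [dt] at h4
    rw [h4] at h8
    exact zero_ne_one h8
  rw [(mul_eq_zero.1 h6).resolve_right h7, sub_zero] at h5
  exact h5

/-- The chain rule. -/
theorem rho_deriv (x y : Fin (n + 1) → K) (p : MvPolynomial (Fin (n + 1)) K) :
    Polynomial.derivative (rho x y p) = ∑ i, x i • rho x y (pderiv i p) := by
  classical
  induction p using MvPolynomial.induction_on with
  | C a =>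
    rw [rho, aeval_C]
    simp only [pderiv_C, map_zero, smul_zero, Finset.sum_const_zero]
    exact Polynomial.derivative_C
  | add p q hp hq =>
    rw [map_add, map_add, hp, hq, ← Finset.sum_add_distrib]
    refine Finset.sum_congr rfl fun i _ => ?_
    rw [map_add, map_add, smul_add]
  | mul_X p j hp =>
    rw [map_mul, Polynomial.derivative_mul, hp, rho_X, Finset.sum_mul]
    simp only [Derivation.leibniz, smul_eq_mul, map_add, map_mul, smul_add,
      Finset.sum_add_distrib]
    rw [add_comm]
    congr 1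
    · rw [Finset.sum_eq_single j]
      · rw [pderiv_X_self, map_one, mul_one, Polynomial.derivative_mul, Polynomial.derivative_C,
          Polynomial.derivative_C, Polynomial.derivative_X, zero_mul, zero_add, mul_one, add_zero,
          Polynomial.smul_eq_C_mul, mul_comm]
      · intro i _ hi
        rw [pderiv_X_of_ne hi.symm, map_zero, mul_zero, smul_zero]
      · intro h; exact absurd (Finset.mem_univ j) h
    · refine Finset.sum_congr rfl fun i _ => ?_
      rw [rho_X, smul_mul_assoc, mul_comm]

end Pool.Agent.Y735
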