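import Pool.Agent.Y735.Dich

/-!
Operators on polynomials and vectors.
-/

set_option autoImplicit false

open MvPolynomial FF Pool.Agent.W603.LV Pool.Agent.W603.PV Pool.Agent.TH145.GH

namespace Pool.Agent.Y735

variable {K : Type} [Field K] {n : ℕ}

/-- The action of a derivation on the coefficients. -/
noncomputable def cDf (δ : Derivation ℤ K K) (p : MvPolynomial (Fin (n + 1)) K) :
    MvPolynomial (Fin (n + 1)) K := ∑ u ∈ p.support, monomial u (δ (p.coeff u))

theorem coeff_cDf (δ : Derivation ℤ K K) (p : MvPolynomial (Fin (n + 1)) K)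
    (u : Fin (n + 1) →₀ ℕ) : (cDf δ p).coeff u = δ (p.coeff u) := by
  classical
  unfold cDf
  rw [coeff_sum]
  simp only [coeff_monomial]
  rw [Finset.sum_ite_eq']
  split_ifs with h
  · rfl
  · rw [notMem_support_iff.1 h, map_zero]

/-- The action of a derivation on the coefficients. -/
noncomputable def cD (δ : Derivation ℤ K K) :
    Derivation ℤ (MvPolynomial (Fin (n + 1)) K) (MvPolynomial (Fin (n + 1)) K) :=
  Derivation.mk' (AddMonoidHom.toIntLinearMap
    { toFun := cDf δ
      map_zero' := by ext u; rw [coeff_cDf, coeff_zero, map_zero]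
      map_add' := fun p q => by ext u; rw [coeff_cDf, coeff_add, coeff_add, coeff_cDf, coeff_cDf,
                    map_add] }) (by
    intro p q
    classical
    change cDf δ (p * q) = p * cDf δ q + q * cDf δ p
    ext u
    rw [coeff_cDf, coeff_mul, map_sum, mul_comm q, coeff_add, coeff_mul, coeff_mul,
      ← Finset.sum_add_distrib]
    refine Finset.sum_congr rfl fun v _ => ?_
    rw [δ.leibniz, coeff_cDf, coeff_cDf, smul_eq_mul, smul_eq_mul]
    ring)

theorem coeff_cD (δ : Derivation ℤ K K) (p : MvPolynomial (Fin (n + 1)) K)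
    (u : Fin (n + 1) →₀ ℕ) : (cD δ p).coeff u = δ (p.coeff u) := coeff_cDf δ p u

theorem cD_hom (δ : Derivation ℤ K K) {p : MvPolynomial (Fin (n + 1)) K} {d : ℕ}
    (hp : p.IsHomogeneous d) : (cD δ p).IsHomogeneous d := by
  intro u hu
  apply hp
  intro h
  apply hu
  rw [coeff_cD, h, map_zero]

theorem cD_smul (δ : Derivation ℤ K K) (a : K) (p : MvPolynomial (Fin (n + 1)) K) :
    cD δ (a • p) = δ a • p + a • cD δ p := by
  ext u
  rw [coeff_cD, coeff_smul, coeff_add, coeff_smul, coeff_smul, coeff_cD, smul_eq_mul, δ.leibniz]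
  simp only [smul_eq_mul]
  ring

theorem cD_X (δ : Derivation ℤ K K) (i : Fin (n + 1)) :
    cD δ (X i : MvPolynomial (Fin (n + 1)) K) = 0 := by
  classical
  ext u
  rw [coeff_cD, coeff_X, coeff_zero]
  split_ifs
  · exact δ.map_one_eq_zero
  · exact map_zero _

theorem cD_pderiv (δ : Derivation ℤ K K) (i : Fin (n + 1)) (p : MvPolynomial (Fin (n + 1)) K) :
    cD δ (pderiv i p) = pderiv i (cD δ p) := by
  ext u
  rw [coeff_cD, coeff_pderiv, coeff_pderiv, coeff_cD, δ.leibniz]
  have h1 : δ ((((u i : ℕ) : K) + 1)) = 0 := by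
    have := δ.map_natCast (u i + 1)
    push_cast at this
    exact this
  rw [h1, smul_zero, zero_add, smul_eq_mul, mul_comm]

/-- The derivation given by a matrix. -/
noncomputable def LM (M : Matrix (Fin (n + 1)) (Fin (n + 1)) K) :
    Derivation K (MvPolynomial (Fin (n + 1)) K) (MvPolynomial (Fin (n + 1)) K) :=
  ∑ a, ∑ b, M a b • (X b : MvPolynomial (Fin (n + 1)) K) • pderiv a

theorem LM_apply (M : Matrix (Fin (n + 1)) (Fin (n + 1)) K) (p : MvPolynomial (Fin (n + 1)) K) :
    LM M p = ∑ a, ∑ b, M a b • (X b * pderiv a p) := by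
  unfold LM
  rw [← Derivation.coeFnAddMonoidHom_apply, map_sum, Finset.sum_apply]
  refine Finset.sum_congr rfl fun a _ => ?_
  rw [map_sum, Finset.sum_apply]
  rfl

theorem LM_X (M : Matrix (Fin (n + 1)) (Fin (n + 1)) K) (i : Fin (n + 1)) :
    LM M (X i) = ∑ b, M i b • X b := by
  classical
  rw [LM_apply, Finset.sum_eq_single i]
  · refine Finset.sum_congr rfl fun b _ => ?_
    rw [pderiv_X_self, mul_one]
  · intro a _ ha
    refine Finset.sum_eq_zero fun b _ => ?_
    rw [pderiv_X_of_ne ha.symm, mul_zero, smul_zero]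
  · intro h; exact absurd (Finset.mem_univ i) h

theorem LM_hom (M : Matrix (Fin (n + 1)) (Fin (n + 1)) K) {p : MvPolynomial (Fin (n + 1)) K}
    {d : ℕ} (hd : 0 < d) (hp : p.IsHomogeneous d) : (LM M p).IsHomogeneous d := by
  rw [LM_apply]
  refine IsHomogeneous.sum _ _ _ fun a _ => IsHomogeneous.sum _ _ _ fun b _ => ?_
  have h4 := (isHomogeneous_X K b).mul (hp.pderiv (i := a))
  have h5 : 1 + (d - 1) = d := by omega
  rw [h5] at h4
  rw [smul_eq_C_mul]
  have := (isHomogeneous_C (Fin (n + 1)) (M a b)).mul h4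
  rwa [zero_add] at this

theorem LM_sub (M N : Matrix (Fin (n + 1)) (Fin (n + 1)) K) (p : MvPolynomial (Fin (n + 1)) K) :
    LM (M - N) p = LM M p - LM N p := by
  rw [LM_apply, LM_apply, LM_apply, ← Finset.sum_sub_distrib]
  refine Finset.sum_congr rfl fun a _ => ?_
  rw [← Finset.sum_sub_distrib]
  refine Finset.sum_congr rfl fun b _ => ?_
  rw [Matrix.sub_apply, sub_smul]

theorem LM_add (M N : Matrix (Fin (n + 1)) (Fin (n + 1)) K) (p : MvPolynomial (Fin (n + 1)) K) :
    LM (M + N) p = LM M p + LM N p := by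
  rw [LM_apply, LM_apply, LM_apply, ← Finset.sum_add_distrib]
  refine Finset.sum_congr rfl fun a _ => ?_
  rw [← Finset.sum_add_distrib]
  refine Finset.sum_congr rfl fun b _ => ?_
  rw [Matrix.add_apply, add_smul]

theorem LM_LM (M N : Matrix (Fin (n + 1)) (Fin (n + 1)) K) (p : MvPolynomial (Fin (n + 1)) K) :
    LM M (LM N p) - LM N (LM M p) = LM (N * M - M * N) p := by
  have h1 : ⁅LM M, LM N⁆ = LM (N * M - M * N) := by
    apply MvPolynomial.derivation_ext
    intro i
    rw [Derivation.commutator_apply, LM_X, LM_X, LM_X, map_sum, map_sum]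
    have h2 : ∀ (A B : Matrix (Fin (n + 1)) (Fin (n + 1)) K),
        ∑ b, LM A (B i b • X b) = ∑ c, (B * A) i c • (X c : MvPolynomial (Fin (n + 1)) K) := by
      intro A B
      have h3 : ∀ b, LM A (B i b • X b) =
          ∑ c, (B i b * A b c) • (X c : MvPolynomial (Fin (n + 1)) K) := by
        intro b
        rw [(LM A).map_smul, LM_X, Finset.smul_sum]
        exact Finset.sum_congr rfl fun c _ => smul_smul _ _ _
      rw [Finset.sum_congr rfl fun b _ => h3 b, Finset.sum_comm]
      refine Finset.sum_congr rfl fun c _ => ?_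
      rw [Matrix.mul_apply, Finset.sum_smul]
    rw [h2, h2, ← Finset.sum_sub_distrib]
    refine Finset.sum_congr rfl fun c _ => ?_
    rw [Matrix.sub_apply, sub_smul]
  rw [← h1, Derivation.commutator_apply]

theorem cD_LM (δ : Derivation ℤ K K) (M : Matrix (Fin (n + 1)) (Fin (n + 1)) K)
    (p : MvPolynomial (Fin (n + 1)) K) : cD δ (LM M p) = LM (M.map δ) p + LM M (cD δ p) := by
  rw [LM_apply, LM_apply, LM_apply, map_sum, ← Finset.sum_add_distrib]
  refine Finset.sum_congr rfl fun a _ => ?_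
  rw [map_sum, ← Finset.sum_add_distrib]
  refine Finset.sum_congr rfl fun b _ => ?_
  rw [cD_smul, (cD δ).leibniz, cD_X, smul_zero, add_zero, cD_pderiv, Matrix.map_apply,
    smul_eq_mul]

/-- The derivation of a form. -/
theorem cD_F {F : MvPolynomial (Fin (n + 1)) K} {d : ℕ}
    {D : (Fin (n + 1) →₀ ℕ) → Derivation ℤ K K} (hF : F.IsHomogeneous d) (hD : Dual F d D)
    {G : MvPolynomial (Fin (n + 1)) K} (hG : G.IsHomogeneous d) : cD (DD D G) F = G := by
  ext J
  rw [coeff_cD]
  exact DD_coeff hF hD hG J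

theorem DD_apply' (D : (Fin (n + 1) →₀ ℕ) → Derivation ℤ K K) (G : MvPolynomial (Fin (n + 1)) K)
    (a : K) {s : Finset (Fin (n + 1) →₀ ℕ)} (hs : G.support ⊆ s) :
    DD D G a = ∑ J ∈ s, G.coeff J * D J a := by
  rw [DD_apply]
  refine Finset.sum_subset hs fun J _ hJ => ?_
  rw [notMem_support_iff.1 hJ, zero_mul]

/-- The commutator. -/
theorem DD_comm {D : (Fin (n + 1) →₀ ℕ) → Derivation ℤ K K}
    (hc : ∀ I J a, D I (D J a) = D J (D I a)) (G H : MvPolynomial (Fin (n + 1)) K) (a : K) :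
    DD D G (DD D H a) - DD D H (DD D G a) = DD D (cD (DD D G) H - cD (DD D H) G) a := by
  classical
  obtain ⟨s, hs⟩ : ∃ s, s = G.support ∪ H.support := ⟨_, rfl⟩
  have hG : G.support ⊆ s := by rw [hs]; exact Finset.subset_union_left
  have hH : H.support ⊆ s := by rw [hs]; exact Finset.subset_union_right
  have hGH : (cD (DD D G) H - cD (DD D H) G).support ⊆ s := by
    intro u hu
    by_contra h
    rw [mem_support_iff, coeff_sub, coeff_cD, coeff_cD, notMem_support_iff.1 (fun h1 => h (hG h1)),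
      notMem_support_iff.1 (fun h1 => h (hH h1)), map_zero, map_zero, sub_zero] at hu
    exact hu rfl
  have key : ∀ P Q : MvPolynomial (Fin (n + 1)) K, P.support ⊆ s → Q.support ⊆ s →
      DD D P (DD D Q a) = ∑ J ∈ s, (DD D P (Q.coeff J)) * D J a +
        ∑ J ∈ s, ∑ I ∈ s, Q.coeff J * (P.coeff I * D I (D J a)) := by
    intro P Q hP hQ
    rw [DD_apply' D Q a hQ, map_sum, ← Finset.sum_add_distrib]
    refine Finset.sum_congr rfl fun J _ => ?_
    rw [(DD D P).leibniz, smul_eq_mul, smul_eq_mul, DD_apply' D P (D J a) hP, Finset.mul_sum]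
    ring
  rw [key G H hG hH, key H G hH hG, DD_apply' D _ a hGH]
  have h1 : ∑ J ∈ s, ∑ I ∈ s, H.coeff J * (G.coeff I * D I (D J a)) =
      ∑ J ∈ s, ∑ I ∈ s, G.coeff J * (H.coeff I * D I (D J a)) := by
    rw [Finset.sum_comm]
    refine Finset.sum_congr rfl fun J _ => Finset.sum_congr rfl fun I _ => ?_
    rw [hc J I a]
    ring
  rw [h1, add_sub_add_right_eq_sub, ← Finset.sum_sub_distrib]
  refine Finset.sum_congr rfl fun J _ => ?_
  rw [coeff_sub, coeff_cD, coeff_cD]
  ring

/-- The vector of the form `L_M F`. -/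
theorem vec_LM (F : MvPolynomial (Fin (n + 1)) K) (D : (Fin (n + 1) →₀ ℕ) → Derivation ℤ K K)
    (x : Fin (n + 1) → K) (M : Matrix (Fin (n + 1)) (Fin (n + 1)) K) :
    vec D x (LM M F) + M.mulVec x = ∑ a, ∑ b, M a b • wv F D x (a, b) := by
  have h1 : M.mulVec x = ∑ a, ∑ b, M a b • (x b • (Pi.single a 1 : Fin (n + 1) → K)) := by
    funext i
    simp only [Finset.sum_apply, Pi.smul_apply, smul_eq_mul, Pi.single_apply, mul_ite, mul_one,
      mul_zero]
    rw [Finset.sum_comm]
    simp only [Finset.sum_ite_eq, Finset.mem_univ, if_true]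
    rfl
  rw [h1, LM_apply, map_sum, ← Finset.sum_add_distrib]
  refine Finset.sum_congr rfl fun a _ => ?_
  rw [map_sum, ← Finset.sum_add_distrib]
  refine Finset.sum_congr rfl fun b _ => ?_
  rw [map_smul, ← smul_add, add_comm (vec D x _)]
  rfl

/-- An operator that preserves the line spanned by `x`, and maps `F` to `G`. -/
def IsOp (F : MvPolynomial (Fin (n + 1)) K) (d : ℕ)
    (D : (Fin (n + 1) →₀ ℕ) → Derivation ℤ K K) (x : Fin (n + 1) → K)
    (G : MvPolynomial (Fin (n + 1)) K) (M : Matrix (Fin (n + 1)) (Fin (n + 1)) K) : Prop :=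
  G.IsHomogeneous d ∧ ∃ c : K, vec D x (G + LM M F) + M.mulVec x = c • x

/-- The operator on polynomials. -/
noncomputable def nab (F : MvPolynomial (Fin (n + 1)) K)
    (D : (Fin (n + 1) →₀ ℕ) → Derivation ℤ K K)
    (G : MvPolynomial (Fin (n + 1)) K) (M : Matrix (Fin (n + 1)) (Fin (n + 1)) K)
    (p : MvPolynomial (Fin (n + 1)) K) : MvPolynomial (Fin (n + 1)) K :=
  cD (DD D (G + LM M F)) p - LM M p

/-- The operator on vectors. -/
noncomputable def nabv (F : MvPolynomial (Fin (n + 1)) K)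
    (D : (Fin (n + 1) →₀ ℕ) → Derivation ℤ K K)
    (G : MvPolynomial (Fin (n + 1)) K) (M : Matrix (Fin (n + 1)) (Fin (n + 1)) K)
    (v : Fin (n + 1) → K) : Fin (n + 1) → K :=
  vec D v (G + LM M F) + M.mulVec v

theorem nab_mul (F : MvPolynomial (Fin (n + 1)) K) (D : (Fin (n + 1) →₀ ℕ) → Derivation ℤ K K)
    (G : MvPolynomial (Fin (n + 1)) K) (M : Matrix (Fin (n + 1)) (Fin (n + 1)) K)
    (p q : MvPolynomial (Fin (n + 1)) K) :
    nab F D G M (p * q) = nab F D G M p * q + p * nab F D G M q := by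
  unfold nab
  rw [(cD _).leibniz, (LM M).leibniz]
  simp only [smul_eq_mul]
  ring

theorem nab_add (F : MvPolynomial (Fin (n + 1)) K) (D : (Fin (n + 1) →₀ ℕ) → Derivation ℤ K K)
    (G : MvPolynomial (Fin (n + 1)) K) (M : Matrix (Fin (n + 1)) (Fin (n + 1)) K)
    (p q : MvPolynomial (Fin (n + 1)) K) :
    nab F D G M (p + q) = nab F D G M p + nab F D G M q := by
  unfold nab
  rw [(cD _).map_add, (LM M).map_add]
  ring

/-- The operator on linear forms. -/
theorem nab_lf (F : MvPolynomial (Fin (n + 1)) K) (D : (Fin (n + 1) →₀ ℕ) → Derivation ℤ K K)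
    (G : MvPolynomial (Fin (n + 1)) K) (M : Matrix (Fin (n + 1)) (Fin (n + 1)) K)
    (m : Fin (n + 1) → K) : ∃ m' : Fin (n + 1) → K, nab F D G M (lf m) = lf m' ∧
      ∀ v, ∑ l, m' l * v l = DD D (G + LM M F) (∑ l, m l * v l) -
        ∑ l, m l * nabv F D G M v l := by
  obtain ⟨δ, hδ⟩ : ∃ δ, δ = DD D (G + LM M F) := ⟨_, rfl⟩
  refine ⟨fun b => δ (m b) - ∑ i, m i * M i b, ?_, fun v => ?_⟩
  · unfold nab
    rw [← hδ, lf_apply, lf_apply, map_sum, map_sum]
    have h1 : ∀ i, LM M (m i • X i) =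
        ∑ b, (m i * M i b) • (X b : MvPolynomial (Fin (n + 1)) K) := by
      intro i
      rw [(LM M).map_smul, LM_X, Finset.smul_sum]
      exact Finset.sum_congr rfl fun c _ => smul_smul _ _ _
    rw [Finset.sum_congr rfl fun i _ => h1 i, Finset.sum_comm]
    simp only [cD_smul, cD_X, smul_zero, add_zero, sub_smul,
      Finset.sum_sub_distrib, Finset.sum_smul]
  · have h1 : ∀ l, nabv F D G M v l = δ (v l) + ∑ b, M l b * v b := by
      intro l
      unfold nabv
      rw [Pi.add_apply, vec_apply, ← hδ]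
      rfl
    simp only [h1]
    rw [← hδ, map_sum, ← Finset.sum_sub_distrib]
    simp only [δ.leibniz, smul_eq_mul, sub_mul, Finset.sum_sub_distrib, mul_add,
      Finset.sum_add_distrib, Finset.mul_sum, Finset.sum_mul]
    rw [Finset.sum_comm (f := fun l i => m i * M i l * v l)]
    have h2 : ∑ l, v l * δ (m l) = ∑ l, δ (m l) * v l :=
      Finset.sum_congr rfl fun l _ => mul_comm _ _
    have h3 : ∑ i, ∑ l, m i * M i l * v l = ∑ i, ∑ l, m i * (M i l * v l) :=
      Finset.sum_congr rfl fun i _ => Finset.sum_congr rfl fun l _ => mul_assoc _ _ _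
    rw [h2, h3]
    ring

end Pool.Agent.Y735
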