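import Pool.Agent.Y735.FinL

/-!
Limits of points that do not lie on lines, and finiteness.
-/

set_option autoImplicit false

open MvPolynomial FF Pool.Agent.W603.LV Pool.Agent.W603.PV Pool.Agent.W602.RG Pool.Agent.TH145.GH

namespace Pool.Agent.Y735

/-- Lines over an extension. -/
theorem onL_map {n d : ℕ} {L Ω : Type} [Field L] [Infinite L] [Field Ω] (ψ : L →+* Ω)
    {G : MvPolynomial (Fin (n + 1)) L} (hG : G.IsHomogeneous d) (hd : 0 < d)
    {x : Fin (n + 1) → L} (hx : eval x G = 0) (h : OnL G x) :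
    OnL (map ψ G) fun j => ψ (x j) := by
  obtain ⟨y, ik, hik, h⟩ := h
  have hz : rho x y G = 0 := by
    apply Polynomial.funext
    intro t
    rw [eval_rho, Polynomial.eval_zero]
    have := h t 1
    rwa [one_smul] at this
  refine onL_of (hG.map ψ) (y := fun j => ψ (y j)) ?_ hd (ik := ik) ?_ ?_
  · rw [eval_map]
    have h1 := hom_eval₂ G (RingHom.id L) ψ x
    rw [RingHom.comp_id] at h1
    change _ = 0
    have h2 : eval₂ (RingHom.id L) x G = 0 := hx
    rw [h2, map_zero] at h1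
    exact h1.symm
  · have h1 : pl (fun j => ψ (x j)) (fun j => ψ (y j)) ik = ψ (pl x y ik) := by
      simp only [pl, map_sub, map_mul]
    rw [h1]
    exact fun h0 => hik (ψ.injective (by rw [h0, map_zero]))
  · intro t
    have h3 : ∀ p : MvPolynomial (Fin (n + 1)) L,
        Polynomial.eval₂ ψ t (rho x y p) =
        eval₂ ψ (t • (fun j => ψ (x j)) + fun j => ψ (y j)) p := by
      intro p
      induction p using MvPolynomial.induction_on with
      | C a =>
        rw [eval₂_C, rho, aeval_C]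
        exact Polynomial.eval₂_C _ _
      | add p q hp hq => rw [map_add, Polynomial.eval₂_add, hp, hq, eval₂_add]
      | mul_X p i hp =>
        rw [map_mul, Polynomial.eval₂_mul, hp, rho_X, eval₂_mul, eval₂_X,
          Polynomial.eval₂_add, Polynomial.eval₂_mul, Polynomial.eval₂_C, Polynomial.eval₂_C,
          Polynomial.eval₂_X, Pi.add_apply, Pi.smul_apply, smul_eq_mul,
          mul_comm (ψ (x i))]
    rw [eval_map, ← h3, hz, Polynomial.eval₂_zero]

/-- Lines in the ultrapower. -/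
theorem onL_mk {K : Type} [Field K] {E : Subfield K} {n d : ℕ}
    {F : MvPolynomial (Fin (n + 1)) E} (hF : F.IsHomogeneous d) (hd : 0 < d)
    (x : ℕ → Fin (n + 1) → K) (hxF : ∀ m, eval (x m) (map E.subtype F) = 0)
    (h : OnL (map ((cst K).comp E.subtype) F) fun j => Om.mk fun m => x m j) :
    ∃ m, OnL (map E.subtype F) (x m) := by
  classical
  obtain ⟨y, ik, hik, h⟩ := h
  choose y' hy' using fun j => Om.mk_surj (y j)
  by_contra hcon
  push Not at hcon
  have h1 : pl (fun j => Om.mk fun m => x m j) y ik =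
      Om.mk fun m => pl (x m) (fun j => y' j m) ik := by
    simp only [pl, ← hy']
    rw [sub_eq_add_neg, Om.mk_mul, Om.mk_mul]
    have h2 : ∀ u v : ℕ → K, Om.mk u + -Om.mk v = Om.mk fun m => u m - v m := by
      intro u v
      rw [← Pool.Agent.TH145.MF.mkHom_apply, ← Pool.Agent.TH145.MF.mkHom_apply,
        ← Pool.Agent.TH145.MF.mkHom_apply, ← map_neg, ← map_add]
      congr 1
      funext m
      exact (sub_eq_add_neg _ _).symm
    rw [h2]
  have h2 : ∀ m, ∃ t : K, pl (x m) (fun j => y' j m) ik ≠ 0 →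
      eval (t • x m + fun j => y' j m) (map E.subtype F) ≠ 0 := by
    intro m
    by_contra hc
    push Not at hc
    have h3 : pl (x m) (fun j => y' j m) ik ≠ 0 := (hc 0).1
    exact hcon m (onL_of (hF.map _) (hxF m) hd h3 fun t => (hc t).2)
  choose t ht using h2
  have h3 := h (Om.mk t) 1
  have h4 : (Om.mk t • fun j => Om.mk fun m => x m j) + (1 : Om K) • y =
      fun j => Om.mk fun m => (t m • x m + fun j => y' j m) j := by
    funext j
    rw [one_smul, Pi.add_apply, Pi.smul_apply, smul_eq_mul, ← hy' j, Om.mk_mul, Om.mk_add]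
    rfl
  rw [h4, eval_mk F (fun m => t m • x m + fun j => y' j m)] at h3
  change _ = Om.mk (fun _ => 0) at h3
  rw [Om.mk_eq] at h3
  rw [h1] at hik
  apply hik
  change _ = Om.mk (fun _ => 0)
  rw [Om.mk_eq]
  refine h3.mono fun m hm => ?_
  by_contra hne
  exact ht m hne hm

variable {k0 K : Type} [Field k0] [Field K] [Algebra k0 K] [IsAlgClosed k0] [IsAlgClosed K]
  [CharZero K]

theorem hat_comm {D D' : Derivation ℤ K K} (h : ∀ a, D (D' a) = D' (D a)) (w : Om K) :
    hat D (hat D' w) = hat D' (hat D w) := by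
  obtain ⟨u, rfl⟩ := Om.mk_surj w
  rw [hat_mk, hat_mk, hat_mk, hat_mk]
  simp only [h]

theorem exists_rig_data' {n d N : ℕ} (E : Subfield K) (hE : ∀ r : k0, algebraMap k0 K r ∈ E)
    {F : MvPolynomial (Fin (n + 1)) E} {DE : (Fin (n + 1) →₀ ℕ) → E → E}
    {Q : Fin (n + 1) → Fin (n + 1) → MvPolynomial (Fin (n + 1)) E} (hG : Gen F d DE N Q)
    (D : (Fin (n + 1) →₀ ℕ) → Derivation ℤ K K) (hDE : ∀ I (x : E), D I x = (DE I x : K))
    (hDk : ∀ I (r : k0), D I (algebraMap k0 K r) = 0)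
    (hDc : ∀ I J a, D I (D J a) = D J (D I a)) {J : Type} [Finite J]
    (z : J → Om K) (hz : ∀ j, z j ∈ OE k0 (E : Set K)) (j1 : J)
    (hj1 : z j1 ∉ acl (cst K '' (E : Set K))) :
    ∃ (κ : Subfield (Om K)) (Λ : IntermediateField κ (Om K)) (φ : E →+* Λ)
      (D' : (Fin (n + 1) →₀ ℕ) → Derivation ℤ Λ Λ),
      IsAlgClosed κ ∧ IsFF κ Λ ∧ (∀ j, z j ∈ Λ) ∧ z j1 ∉ κ ∧ (∀ x ∈ E, cst K x ∈ κ) ∧
      (∀ x : E, ((φ x : Λ) : Om K) = cst K x) ∧ Data κ (map φ F) d D' (fun _ => 0) (fun _ => 0) ∧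
      ∀ I J a, D' I (D' J a) = D' J (D' I a) := by
  classical
  obtain ⟨κ, Λ, M, hac, hFF, hEκ, hzΛ, hzκ, hXM, hMC, hder, hplace⟩ :=
    exists_rig E hE z hz ∅ (by simp) j1 hj1
  have hczOm : CharZero (Om K) :=
    charZero_of_injective_algebraMap (algebraMap K (Om K)).injective
  have hcz : CharZero κ := charZero_of_injective_algebraMap (algebraMap ℚ κ).injective
  let φ : E →+* Λ :=
    { toFun := fun x => ⟨cst K x, Λ.algebraMap_mem ⟨cst K x, hEκ x x.2⟩⟩
      map_one' := Subtype.ext (map_one (cst K))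
      map_mul' := fun a b => Subtype.ext (map_mul (cst K) (a : K) b)
      map_zero' := Subtype.ext (map_zero (cst K))
      map_add' := fun a b => Subtype.ext (map_add (cst K) (a : K) b) }
  have hd := fun I => hder (hat (D I)) (fun w hw => hat_CC (D I) (hDk I) hw)
    (fun x hx => ⟨(DE I ⟨x, hx⟩ : K), (DE I ⟨x, hx⟩).2, by
      rw [hat_cst, ← hDE I ⟨x, hx⟩]⟩)
  let D' : (Fin (n + 1) →₀ ℕ) → Derivation ℤ Λ Λ := fun I => resDer Λ (hat (D I)) (hd I).2
  have hD' : ∀ I (x : Λ), ((D' I x : Λ) : Om K) = hat (D I) x := fun I x => rfl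
  have hS : ∀ I, Sem κ (D' I) := fun I c => ⟨⟨hat (D I) c, (hd I).1 c c.2⟩, rfl⟩
  have hM0 : ∀ I, ∀ m ∈ M, D' I m = 0 := by
    intro I m hm
    apply Subtype.ext
    rw [hD']
    exact hat_CC (D I) (hDk I) (hMC m hm)
  refine ⟨κ, Λ, φ, D', hac, hFF, hzΛ, hzκ, hEκ, fun x => rfl, ?_, fun I J a => ?_⟩
  · refine hG.data φ D' (fun I x => ?_) (fun _ => le_rfl) (fun _ => le_rfl) ?_ ?_ ?_ ?_
    · apply Subtype.ext
      rw [hD']
      change hat (D I) (cst K x) = cst K (DE I x)
      rw [hat_cst, hDE]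
    · intro P f hf I _
      rw [neg_zero]
      rcases hplace P with ⟨-, θ, hθM, c, hu⟩ | ⟨π, hπM, hπ⟩
      · refine reg_of_unif P hu (hS I) le_rfl ?_ hf
        obtain ⟨c', hc'⟩ := hS I c
        rw [map_sub, hM0 I θ hθM, hc', zero_sub]
        exact (Ge.const c').neg
      · refine reg_of_unif P hπ (hS I) le_rfl ?_ hf
        rw [hM0 I π hπM]
        exact Ge.zero
    · simp
    · intro P u
      rw [neg_zero]
      exact Ge.const (⟨cst K ((F.coeff u : E) : K), hEκ _ (F.coeff u).2⟩ : κ)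
    · intro P l i u
      rw [neg_zero]
      exact Ge.const (⟨cst K (((Q l i).coeff u : E) : K), hEκ _ ((Q l i).coeff u).2⟩ : κ)
  · apply Subtype.ext
    rw [hD', hD', hD', hD']
    exact hat_comm (hDc I J) _

/-- Limit points of the hypersurface that do not lie on lines are constant. -/
theorem limit_L {n d N : ℕ} (E : Subfield K) (hE : ∀ r : k0, algebraMap k0 K r ∈ E)
    {F : MvPolynomial (Fin (n + 1)) E} {DE : (Fin (n + 1) →₀ ℕ) → E → E}
    {Q : Fin (n + 1) → Fin (n + 1) → MvPolynomial (Fin (n + 1)) E} (hG : Gen F d DE N Q)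
    (D : (Fin (n + 1) →₀ ℕ) → Derivation ℤ K K) (hDE : ∀ I (x : E), D I x = (DE I x : K))
    (hDk : ∀ I (r : k0), D I (algebraMap k0 K r) = 0)
    (hDc : ∀ I J a, D I (D J a) = D J (D I a)) (hn : 2 ≤ n) (hd : 3 * n + 2 ≤ 2 * d)
    (z : Fin (n + 1) → Om K) (hz : ∀ j, z j ∈ OE k0 (E : Set K)) {l0 : Fin (n + 1)}
    (hl0 : z l0 = 1) (hzF : eval z (map ((cst K).comp E.subtype) F) = 0)
    (hzL : ¬ OnL (map ((cst K).comp E.subtype) F) z) (j : Fin (n + 1)) :
    z j ∈ acl (cst K '' (E : Set K)) := by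
  classical
  by_contra hj1
  obtain ⟨κ, Λ, φ, D', hac, hFF, hzΛ, hzκ, hEκ, hφ, hdat, hc⟩ :=
    exists_rig_data' E hE hG D hDE hDk hDc z hz j hj1
  have hczOm : CharZero (Om K) :=
    charZero_of_injective_algebraMap (algebraMap K (Om K)).injective
  have hcz : CharZero κ := charZero_of_injective_algebraMap (algebraMap ℚ κ).injective
  have hczΛ : CharZero Λ := charZero_of_injective_algebraMap (algebraMap ℚ Λ).injective
  obtain ⟨x, hx⟩ : ∃ x : Fin (n + 1) → Λ, ∀ j, x j = ⟨z j, hzΛ j⟩ := ⟨_, fun _ => rfl⟩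
  have hxz : (fun j => ((x j : Λ) : Om K)) = z := by
    funext j
    rw [hx]
  have hxl0 : x l0 = 1 := by
    rw [hx]
    exact Subtype.ext hl0
  have hx0 : x ≠ 0 := by
    intro h0
    rw [h0] at hxl0
    exact zero_ne_one hxl0
  have hxF : eval x (map φ F) = 0 := by
    apply Subtype.ext
    rw [eval_lift φ hφ F x, hxz, hzF]
    rfl
  rcases ineqL hdat hc hn hd hxF hx0 with h1 | h1
  · have h2 := onL_map (algebraMap Λ (Om K)) (hG.hom.map φ) hG.pos hxF h1
    rw [map_map] at h2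
    have h3 : (algebraMap Λ (Om K)).comp φ = (cst K).comp E.subtype := by
      ext a
      exact hφ a
    rw [h3] at h2
    have h4 : (fun j => algebraMap Λ (Om K) (x j)) = z := hxz
    rw [h4] at h2
    exact hzL h2
  · have h2 : CC n (fun _ : Place κ Λ => (0 : ℤ)) (fun _ => 0) = 0 := by
      unfold CC
      simp only [add_zero, mul_zero, finsum_zero]
    rw [h2, mul_zero, finsum_zero, mul_zero, add_zero] at h1
    obtain ⟨c, hc⟩ := const_of_pht h1 hxl0 j
    apply hzκ
    have h2 := congrArg (fun w : Λ => (w : Om K)) hc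
    rw [hx] at h2
    change z j = (c : Om K) at h2
    rw [h2]
    exact c.2

/-- Finiteness of the rational points that do not lie on lines. -/
theorem fin_L {ι : Type} {y : ι → K}
    (E : IntermediateField (IntermediateField.adjoin k0 (Set.range y)) K)
    {n d N : ℕ} [Finite ι] (hy : IsTranscendenceBasis k0 y)
    [FiniteDimensional (IntermediateField.adjoin k0 (Set.range y)) E]
    [IsGalois (IntermediateField.adjoin k0 (Set.range y)) E]
    {F : MvPolynomial (Fin (n + 1)) E.toSubfield}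
    {DE : (Fin (n + 1) →₀ ℕ) → E.toSubfield → E.toSubfield}
    {Q : Fin (n + 1) → Fin (n + 1) → MvPolynomial (Fin (n + 1)) E.toSubfield}
    (hG : Gen F d DE N Q) (D : (Fin (n + 1) →₀ ℕ) → Derivation ℤ K K)
    (hDE : ∀ I (x : E.toSubfield), D I x = (DE I x : K))
    (hDk : ∀ I (r : k0), D I (algebraMap k0 K r) = 0)
    (hDy : ∀ I j, ∃ r : k0, D I (y j) = algebraMap k0 K r)
    (hDc : ∀ I J a, D I (D J a) = D J (D I a)) (hn : 2 ≤ n) (hd : 3 * n + 2 ≤ 2 * d)
    (l0 : Fin (n + 1)) : {x : Fin (n + 1) → K | (∀ j, x j ∈ E) ∧ x l0 = 1 ∧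
      eval x (map E.toSubfield.subtype F) = 0 ∧
      ¬ OnL (map E.toSubfield.subtype F) x}.Finite := by
  by_contra hinf
  let f := Set.Infinite.natEmbedding _ hinf
  obtain ⟨x, hx⟩ : ∃ x : ℕ → Fin (n + 1) → K, ∀ n, x n = (f n).1 := ⟨_, fun _ => rfl⟩
  have hxinj : Function.Injective x := by
    intro a b hab
    rw [hx, hx] at hab
    exact f.injective (Subtype.ext hab)
  have hxE : ∀ n j, x n j ∈ E := fun n j => by rw [hx]; exact (f n).2.1 j
  have hxl : ∀ n, x n l0 = 1 := fun n => by rw [hx]; exact (f n).2.2.1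
  have hxF : ∀ n, eval (x n) (map E.toSubfield.subtype F) = 0 := fun n => by
    rw [hx]; exact (f n).2.2.2.1
  have hxL : ∀ n, ¬ OnL (map E.toSubfield.subtype F) (x n) := fun n => by
    rw [hx]; exact (f n).2.2.2.2
  choose B hB using fun i => heights_L E hy.1 hG D hDE hDk hDy hDc hn hd l0 i
  have hz : ∀ j, Om.mk (fun n => x n j) ∈ OE k0 ((E.toSubfield : Subfield K) : Set K) := fun j =>
    lim_mem E hy (fun n => ⟨x n j, hxE n j⟩) B fun n i =>
      hB i (fun j => ⟨x n j, hxE n j⟩) (Subtype.ext (hxl n)) (hxF n) (hxL n) j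
  have hacl := limit_L E.toSubfield (fun r => k0_mem E r) hG D hDE hDk hDc hn hd
    (fun j => Om.mk fun n => x n j) hz (l0 := l0) (by
      have h1 : (fun n => x n l0) = fun _ => 1 := funext hxl
      rw [h1]; rfl) (by
      rw [eval_mk F x]
      have h1 : (fun n => eval (x n) (map E.toSubfield.subtype F)) = fun _ => 0 := funext hxF
      rw [h1]; rfl) (fun h => by
      obtain ⟨m, hm⟩ := onL_mk hG.hom hG.pos x hxF h
      exact hxL m hm)
  choose a ha using fun j => eventually_const (hacl j)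
  exact not_all_const hxinj a ha

end Pool.Agent.Y735
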