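import Pool.Agent.Y735.Lines

/-!
The lines in a generic hypersurface do not cover it.
-/

set_option autoImplicit false

open MvPolynomial Pool.Agent.TH145.GH

namespace Pool.Agent.Y735

theorem onL_smul {K : Type} [Field K] {n : ℕ} {F : MvPolynomial (Fin (n + 1)) K}
    {x : Fin (n + 1) → K} (h : OnL F x) {c : K} (hc : c ≠ 0) : OnL F (c • x) := by
  obtain ⟨y, ik, hik, h⟩ := h
  refine ⟨y, ik, ?_, fun a b => ?_⟩
  · have h1 : pl (c • x) y ik = c * pl x y ik := by
      simp only [pl, Pi.smul_apply, smul_eq_mul]; ring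
    rw [h1]
    exact mul_ne_zero hc hik
  · rw [smul_smul]
    exact h _ _

/-- The polynomials that vanish on the lines. -/
theorem exists_H_pair {k K : Type} [Field k] [Field K] [Algebra k K] [Infinite K] {n d : ℕ}
    (hn : n ≤ d) (hd : 0 < d) {F : MvPolynomial (Fin (n + 1)) K} (hF : F.IsHomogeneous d)
    (hind : AlgebraicIndependent k fun I : {I : Fin (n + 1) →₀ ℕ // I.degree = d} => F.coeff I.1)
    (i j : Fin (n + 1)) :
    ∃ H : MvPolynomial (Fin n) K, H ≠ 0 ∧ ∀ x y : Fin (n + 1) → K, pl x y (i, j) ≠ 0 →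
      (∀ a b : K, eval (a • x + b • y) F = 0) → eval (fun l => x l.castSucc) H = 0 := by
  classical
  by_contra hcon
  push Not at hcon
  obtain ⟨A, hA⟩ : ∃ A : Type, A = MvPolynomial (Fin (n + 1) ⊕ Fin (n + 1)) K := ⟨_, rfl⟩
  subst hA
  -- the ideal
  obtain ⟨f, hf⟩ : ∃ f : K → K → MvPolynomial (Fin (n + 1) ⊕ Fin (n + 1)) K, ∀ s t, f s t =
      aeval (fun l => MvPolynomial.C s * X (Sum.inl l) + MvPolynomial.C t * X (Sum.inr l)) F :=
    ⟨_, fun _ _ => rfl⟩
  obtain ⟨p, hp⟩ : ∃ p : MvPolynomial (Fin (n + 1) ⊕ Fin (n + 1)) K, p =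
    X (Sum.inl i) * X (Sum.inr j) - X (Sum.inl j) * X (Sum.inr i) := ⟨_, rfl⟩
  obtain ⟨ι, hι⟩ : ∃ ι : MvPolynomial (Fin n) K →ₐ[K]
      MvPolynomial (Fin (n + 1) ⊕ Fin (n + 1)) K,
      ∀ H, ι H = rename (fun l : Fin n => Sum.inl l.castSucc) H := ⟨rename _, fun _ => rfl⟩
  have hιinj : Function.Injective ι := by
    intro a b hab
    rw [hι, hι] at hab
    refine rename_injective _ ?_ hab
    intro a b hab
    exact Fin.castSucc_injective _ (Sum.inl_injective hab)
  obtain ⟨I, hI⟩ : ∃ I : Ideal (MvPolynomial (Fin (n + 1) ⊕ Fin (n + 1)) K),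
    I = Ideal.span (Set.range fun st : K × K => f st.1 st.2) := ⟨_, rfl⟩
  obtain ⟨M, hM⟩ : ∃ M : Submonoid (MvPolynomial (Fin (n + 1) ⊕ Fin (n + 1)) K),
    ∀ a, a ∈ M ↔ ∃ (H : MvPolynomial (Fin n) K) (m : ℕ), H ≠ 0 ∧ a = ι H * p ^ m := by
    refine ⟨{ carrier := {a | ∃ (H : MvPolynomial (Fin n) K) (m : ℕ), H ≠ 0 ∧ a = ι H * p ^ m}
              one_mem' := ⟨1, 0, one_ne_zero, by rw [map_one, pow_zero, mul_one]⟩
              mul_mem' := ?_ }, fun a => Iff.rfl⟩
    rintro a b ⟨H, m, hH, rfl⟩ ⟨H', m', hH', rfl⟩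
    refine ⟨H * H', m + m', mul_ne_zero hH hH', ?_⟩
    rw [map_mul, pow_add]
    ring
  have hdis : Disjoint (I : Set (MvPolynomial (Fin (n + 1) ⊕ Fin (n + 1)) K)) M := by
    rw [Set.disjoint_left]
    rintro a haI haM
    obtain ⟨H, m, hH, rfl⟩ := (hM a).1 haM
    obtain ⟨x, y, hxy, hxyF, hxH⟩ := hcon H hH
    obtain ⟨ev, hev⟩ : ∃ ev : MvPolynomial (Fin (n + 1) ⊕ Fin (n + 1)) K →+* K,
      ev = eval (Sum.elim x y) := ⟨_, rfl⟩
    have h1 : I ≤ RingHom.ker ev := by
      rw [hI, Ideal.span_le]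
      rintro _ ⟨⟨s, t⟩, rfl⟩
      rw [SetLike.mem_coe, RingHom.mem_ker]
      dsimp only
      rw [hf, hev, ← hxyF s t, ← coe_aeval_eq_eval, RingHom.coe_coe, ← coe_aeval_eq_eval,
        RingHom.coe_coe, ← AlgHom.comp_apply]
      congr 1
      apply MvPolynomial.algHom_ext
      intro l
      rw [AlgHom.comp_apply, aeval_X, aeval_X, map_add, map_mul, map_mul, aeval_X, aeval_X,
        Sum.elim_inl, Sum.elim_inr]
      simp
    have h2 := h1 haI
    rw [RingHom.mem_ker, map_mul, map_pow] at h2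
    rcases mul_eq_zero.1 h2 with h3 | h3
    · apply hxH
      rw [hι, hev, eval_rename] at h3
      exact h3
    · have h5 : ev p = 0 := by
        by_contra hne
        exact pow_ne_zero m hne h3
      rw [hp, hev, map_sub, map_mul, map_mul, eval_X, eval_X, eval_X, eval_X] at h5
      exact hxy h5
  obtain ⟨P, hP, hIP, hPM⟩ := Ideal.exists_le_prime_disjoint I M hdis
  -- the field
  have hdom : IsDomain (MvPolynomial (Fin (n + 1) ⊕ Fin (n + 1)) K ⧸ P) :=
    (Ideal.Quotient.isDomain_iff_prime P).2 hP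
  obtain ⟨Ω, hΩ, hΩA, q, hq0⟩ : ∃ (Ω : Type) (_ : Field Ω) (_ : Algebra K Ω)
      (q : MvPolynomial (Fin (n + 1) ⊕ Fin (n + 1)) K →ₐ[K] Ω), ∀ a, q a = 0 ↔ a ∈ P := by
    refine ⟨FractionRing (MvPolynomial (Fin (n + 1) ⊕ Fin (n + 1)) K ⧸ P), inferInstance,
      inferInstance, (IsScalarTower.toAlgHom K (MvPolynomial (Fin (n + 1) ⊕ Fin (n + 1)) K ⧸ P)
      (FractionRing (MvPolynomial (Fin (n + 1) ⊕ Fin (n + 1)) K ⧸ P))).comp
      (Ideal.Quotient.mkₐ K P), fun a => ?_⟩
    change algebraMap (MvPolynomial (Fin (n + 1) ⊕ Fin (n + 1)) K ⧸ P)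
      (FractionRing (MvPolynomial (Fin (n + 1) ⊕ Fin (n + 1)) K ⧸ P))
      (Ideal.Quotient.mk P a) = 0 ↔ a ∈ P
    rw [← Ideal.Quotient.eq_zero_iff_mem]
    constructor
    · intro h
      exact (IsFractionRing.injective (MvPolynomial (Fin (n + 1) ⊕ Fin (n + 1)) K ⧸ P)
        (FractionRing (MvPolynomial (Fin (n + 1) ⊕ Fin (n + 1)) K ⧸ P))) (by rw [h, map_zero])
    · intro h
      rw [h, map_zero]
  let _ : Algebra k Ω := ((algebraMap K Ω).comp (algebraMap k K)).toAlgebra
  have hst : IsScalarTower k K Ω := IsScalarTower.of_algebraMap_eq fun _ => rfl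
  have hinjΩ : Function.Injective (algebraMap K Ω) := (algebraMap K Ω).injective
  have hinf : Infinite Ω := Infinite.of_injective _ hinjΩ
  obtain ⟨x, hx⟩ : ∃ x : Fin (n + 1) → Ω, ∀ l, x l = q (X (Sum.inl l)) := ⟨_, fun _ => rfl⟩
  obtain ⟨y, hy⟩ : ∃ y : Fin (n + 1) → Ω, ∀ l, y l = q (X (Sum.inr l)) := ⟨_, fun _ => rfl⟩
  have hev : ∀ s t : K, eval (algebraMap K Ω s • x + algebraMap K Ω t • y)
      (map (algebraMap K Ω) F) = 0 := by
    intro s t
    have h1 : q (f s t) = 0 := (hq0 _).2 (hIP (by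
      rw [hI]
      exact Ideal.subset_span ⟨(s, t), rfl⟩))
    rw [← h1, hf, eval_map, ← aeval_def, ← AlgHom.comp_apply]
    congr 1
    apply MvPolynomial.algHom_ext
    intro l
    rw [AlgHom.comp_apply, aeval_X, aeval_X, map_add, map_mul, map_mul, ← hx, ← hy,
      Pi.add_apply, Pi.smul_apply, Pi.smul_apply, smul_eq_mul, smul_eq_mul]
    congr 2
    · exact (q.commutes s).symm
    · exact (q.commutes t).symm
  have hF' : (map (algebraMap K Ω) F).IsHomogeneous d := hF.map _
  have hrho : rho x y (map (algebraMap K Ω) F) = 0 := by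
    apply Polynomial.eq_zero_of_infinite_isRoot
    refine (Set.infinite_range_of_injective hinjΩ).mono ?_
    rintro _ ⟨s, rfl⟩
    change Polynomial.eval _ _ = 0
    rw [eval_rho]
    have := hev s 1
    rwa [map_one, one_smul] at this
  have hall : ∀ a b : Ω, eval (a • x + b • y) (map (algebraMap K Ω) F) = 0 := by
    intro a b
    by_cases hb : b = 0
    · have h1 := hev 1 0
      rw [map_one, map_zero, one_smul, zero_smul, add_zero] at h1
      rw [hb, zero_smul, add_zero, eval_smul_hom hF', h1, mul_zero]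
    · have h5 : a • x + b • y = b • ((a / b) • x + y) := by
        rw [smul_add, smul_smul, mul_div_cancel₀ _ hb]
      rw [h5, eval_smul_hom hF', ← eval_rho, hrho, Polynomial.eval_zero, mul_zero]
  have hpl : pl x y (i, j) ≠ 0 := by
    have h1 : pl x y (i, j) = q p := by
      rw [hp, map_sub, map_mul, map_mul, ← hx, ← hx, ← hy, ← hy]
      rfl
    rw [h1]
    intro h2
    refine Set.disjoint_left.1 hPM ((hq0 _).1 h2) ((hM _).2 ⟨1, 1, one_ne_zero, ?_⟩)
    rw [map_one, pow_one, one_mul]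
  have hxind : AlgebraicIndependent K fun l : Fin n => x l.castSucc := by
    rw [algebraicIndependent_iff_injective_aeval, injective_iff_map_eq_zero]
    intro H hH
    by_contra hne
    have h1 : aeval (fun l : Fin n => x l.castSucc) H = q (ι H) := by
      rw [hι, ← AlgHom.comp_apply]
      congr 1
      apply MvPolynomial.algHom_ext
      intro l
      rw [aeval_X, AlgHom.comp_apply, rename_X, hx]
    rw [h1] at hH
    refine Set.disjoint_left.1 hPM ((hq0 _).1 hH) ((hM _).2 ⟨H, 0, hne, ?_⟩)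
    rw [pow_zero, mul_one]
  have h1 := line_count (k := k) hF' hpl hall (fun l : Fin n => l.castSucc) (by
    have h2 := hind.sumElim_comp hxind
    convert h2 using 2
    funext I
    rw [coeff_map]
    rfl)
  have h2 := h1.1
  rw [Nat.card_eq_fintype_card, Fintype.card_fin] at h2
  omega

/-- A form that vanishes on the lines. -/
theorem exists_H {k K : Type} [Field k] [Field K] [Algebra k K] [Infinite K] {n d : ℕ}
    (hn : n ≤ d) (hd : 0 < d) {F : MvPolynomial (Fin (n + 1)) K} (hF : F.IsHomogeneous d)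
    (hind : AlgebraicIndependent k fun I : {I : Fin (n + 1) →₀ ℕ // I.degree = d} =>
      F.coeff I.1) :
    ∃ (H : MvPolynomial (Fin n) K) (e : ℕ), H ≠ 0 ∧ H.IsHomogeneous e ∧
      ∀ x : Fin (n + 1) → K, OnL F x → eval (fun l => x l.castSucc) H = 0 := by
  classical
  choose H hH hHx using fun ij : Fin (n + 1) × Fin (n + 1) => exists_H_pair hn hd hF hind ij.1 ij.2
  obtain ⟨G, hG⟩ : ∃ G, G = ∏ ij, H ij := ⟨_, rfl⟩
  have hG0 : G ≠ 0 := by
    rw [hG]
    exact Finset.prod_ne_zero_iff.2 fun ij _ => hH ij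
  have hGx : ∀ x : Fin (n + 1) → K, OnL F x → eval (fun l => x l.castSucc) G = 0 := by
    rintro x ⟨y, ij, hij, h⟩
    rw [hG, map_prod]
    exact Finset.prod_eq_zero (Finset.mem_univ ij) (hHx ij x y hij h)
  obtain ⟨e, he⟩ : ∃ e, homogeneousComponent e G ≠ 0 := by
    by_contra hcon
    push Not at hcon
    apply hG0
    rw [← sum_homogeneousComponent G]
    exact Finset.sum_eq_zero fun e _ => hcon e
  refine ⟨homogeneousComponent e G, e, he, homogeneousComponent_isHomogeneous e G, fun x hx => ?_⟩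
  -- the polynomial in the scalar
  obtain ⟨R, hR⟩ : ∃ R : Polynomial K, R = ∑ i ∈ Finset.range (G.totalDegree + 1),
    Polynomial.monomial i (eval (fun l => x l.castSucc) (homogeneousComponent i G)) := ⟨_, rfl⟩
  have hR0 : Polynomial.X * R = 0 := by
    apply Polynomial.funext
    intro t
    rw [Polynomial.eval_mul, Polynomial.eval_X, Polynomial.eval_zero]
    by_cases ht : t = 0
    · rw [ht, zero_mul]
    · have h1 := hGx _ (onL_smul hx ht)
      have h2 : (fun l : Fin n => (t • x) l.castSucc) = t • fun l : Fin n => x l.castSucc := rfl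
      rw [h2, ← sum_homogeneousComponent G, map_sum] at h1
      have h3 : Polynomial.eval t R = 0 := by
        rw [← h1, hR, Polynomial.eval_finsetSum]
        refine Finset.sum_congr rfl fun i _ => ?_
        rw [Polynomial.eval_monomial]
        have h4 : ∀ (m : ℕ) (p : MvPolynomial (Fin m) K) (e : ℕ), p.IsHomogeneous e →
            ∀ v : Fin m → K, eval (t • v) p = t ^ e * eval v p := by
          intro m p e hp v
          rw [eval_eq', eval_eq', Finset.mul_sum]
          refine Finset.sum_congr rfl fun u hu => ?_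
          have h5 : ∏ i, (t • v) i ^ u i = t ^ e * ∏ i, v i ^ u i := by
            have h6 : ∑ i, u i = e := by
              have := hp (mem_support_iff.1 hu)
              rwa [Finsupp.weight_apply, Finsupp.sum_fintype _ _ (by simp)] at this
                |> fun h => by simpa using h
            rw [← h6, ← Finset.prod_pow_eq_pow_sum, ← Finset.prod_mul_distrib]
            exact Finset.prod_congr rfl fun i _ => by rw [Pi.smul_apply, smul_eq_mul, mul_pow]
          rw [h5]; ring
        rw [h4 _ _ i (homogeneousComponent_isHomogeneous i G), mul_comm]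
      rw [h3, mul_zero]
  have hR1 : R = 0 := (mul_eq_zero.1 hR0).resolve_left Polynomial.X_ne_zero
  by_cases hee : e < G.totalDegree + 1
  · have h1 := congrArg (fun q => Polynomial.coeff q e) hR1
    simp only [hR, Polynomial.finsetSum_coeff, Polynomial.coeff_monomial, Polynomial.coeff_zero]
      at h1
    rw [Finset.sum_ite_eq', if_pos (Finset.mem_range.2 hee)] at h1
    exact h1
  · exact absurd (homogeneousComponent_eq_zero e G (by omega)) he

/-- There are no lines in a generic hypersurface of large degree. -/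
theorem no_lines {k K : Type} [Field k] [Field K] [Algebra k K] [Infinite K] {n d : ℕ}
    (hn : 2 * n ≤ d + 2) {F : MvPolynomial (Fin (n + 1)) K} (hF : F.IsHomogeneous d)
    (hind : AlgebraicIndependent k fun I : {I : Fin (n + 1) →₀ ℕ // I.degree = d} =>
      F.coeff I.1) (x : Fin (n + 1) → K) : ¬ OnL F x := by
  rintro ⟨y, ⟨i, j⟩, hij, h⟩
  have h1 := line_count (k := k) hF hij h (fun l : Fin 0 => Fin.elim0 l) (by
    have h2 : AlgebraicIndependent K (fun l : Fin 0 => x (Fin.elim0 l)) :=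
      algebraicIndependent_empty_type
    have h3 := hind.sumElim_comp h2
    exact h3)
  have h2 := h1.2 inferInstance
  omega

end Pool.Agent.Y735
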