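import Pool.Agent.Y735.Global

/-!
Heights of points on a line.
-/

set_option autoImplicit false

open MvPolynomial FF Pool.Agent.W603.LV Pool.Agent.W603.PV Pool.Agent.TH145.GH

namespace Pool.Agent.Y735

variable {k K : Type} [Field k] [Field K] [Algebra k K] {n : ℕ}

/-- The point of the line on a hyperplane. -/
def zp (p : Fin (n + 1) × Fin (n + 1) → K) (ξ : Fin (n + 1) → K) : Fin (n + 1) → K :=
  fun i => ∑ j, ξ j * p (j, i)

theorem zp_pl (x y ξ : Fin (n + 1) → K) :
    zp (pl x y) ξ = (∑ j, ξ j * x j) • y + (-(∑ j, ξ j * y j)) • x := by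
  funext i
  simp only [zp, pl, Pi.add_apply, Pi.smul_apply, smul_eq_mul, neg_mul]
  rw [Finset.sum_mul, Finset.sum_mul, ← sub_eq_add_neg, ← Finset.sum_sub_distrib]
  exact Finset.sum_congr rfl fun j _ => by ring

theorem zp_smul (p : Fin (n + 1) × Fin (n + 1) → K) (a : K) (ξ : Fin (n + 1) → K) :
    zp (a • p) ξ = a • zp p ξ := by
  funext i
  simp only [zp, Pi.smul_apply, smul_eq_mul, Finset.mul_sum]
  exact Finset.sum_congr rfl fun j _ => by ring

/-- A nonzero polynomial does not vanish at some constant point. -/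
theorem exists_const_ne [Infinite k] {ι : Type} [Finite ι] {Q : MvPolynomial ι K} (hQ : Q ≠ 0) :
    ∃ ξ : ι → k, eval (fun i => algebraMap k K (ξ i)) Q ≠ 0 := by
  by_contra hcon
  push Not at hcon
  apply hQ
  refine MvPolynomial.funext_set (fun _ => Set.range (algebraMap k K))
    (fun _ => Set.infinite_range_of_injective (algebraMap k K).injective) ?_
  intro x hx
  choose ξ hξ using fun i => hx i (Set.mem_univ i)
  have h1 := hcon ξ
  have h2 : (fun i => algebraMap k K (ξ i)) = x := funext hξ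
  rw [h2] at h1
  rw [h1, map_zero]

/-- A hyperplane, defined over the constants, that meets the line outside of the
hypersurface. -/
theorem exists_xi [Infinite k] {F : MvPolynomial (Fin (n + 1)) K} {x y : Fin (n + 1) → K}
    {ik : Fin (n + 1) × Fin (n + 1)} (hik : pl x y ik ≠ 0) {a b : K}
    (hab : eval (a • x + b • y) F ≠ 0) :
    ∃ ξ : Fin (n + 1) → k, eval (zp (pl x y) fun i => algebraMap k K (ξ i)) F ≠ 0 := by
  classical
  obtain ⟨Q, hQ⟩ : ∃ Q : MvPolynomial (Fin (n + 1)) K, ∀ ξ, eval ξ Q = eval (zp (pl x y) ξ) F := by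
    refine ⟨bind₁ (fun i => ∑ j, C (pl x y (j, i)) * X j) F, fun ξ => ?_⟩
    rw [← coe_aeval_eq_eval, RingHom.coe_coe, aeval_bind₁, ← coe_aeval_eq_eval, RingHom.coe_coe]
    congr 1
    congr 1
    funext i
    rw [map_sum]
    refine Finset.sum_congr rfl fun j _ => ?_
    rw [map_mul, aeval_X, aeval_C, Algebra.algebraMap_self_apply, mul_comm]
  have hne : Q ≠ 0 := by
    rintro rfl
    -- the linear form
    obtain ⟨i, j⟩ := ik
    have hp : pl x y (i, j) = x i * y j - x j * y i := rfl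
    have hij : i ≠ j := by
      rintro rfl
      rw [hp, sub_self] at hik
      exact hik rfl
    obtain ⟨ξ, hξ⟩ : ∃ ξ : Fin (n + 1) → K, (∑ l, ξ l * x l = b) ∧ (∑ l, ξ l * y l = -a) := by
      refine ⟨fun l => (if l = i then (b * y j + a * x j) / pl x y (i, j) else 0) +
        (if l = j then (-a * x i - b * y i) / pl x y (i, j) else 0), ?_, ?_⟩
      · simp only [add_mul, ite_mul, zero_mul, Finset.sum_add_distrib, Finset.sum_ite_eq',
          Finset.mem_univ, if_true]
        field_simp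
        rw [hp]; ring
      · simp only [add_mul, ite_mul, zero_mul, Finset.sum_add_distrib, Finset.sum_ite_eq',
          Finset.mem_univ, if_true]
        field_simp
        rw [hp]; ring
    have h1 := hQ ξ
    rw [map_zero, zp_pl, hξ.1, hξ.2, neg_neg, add_comm (b • y)] at h1
    exact hab h1.symm
  obtain ⟨ξ, hξ⟩ := exists_const_ne (k := k) hne
  exact ⟨ξ, by rw [← hQ]; exact hξ⟩

/-- The difference of the values of a monomial. -/
theorem ge_mon_sub (P : Place k K) {u v : Fin (n + 1) → K} {c : ℤ} (hu : ∀ i, Ge P 0 (u i))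
    (hv : ∀ i, Ge P 0 (v i)) (h : ∀ i, Ge P c (u i - v i)) (m : Fin (n + 1) →₀ ℕ) :
    Ge P c (mon u m - mon v m) := by
  classical
  have hpow : ∀ i (N : ℕ), Ge P c (u i ^ N - v i ^ N) := by
    intro i N
    induction N with
    | zero => rw [pow_zero, pow_zero, sub_self]; exact Ge.zero
    | succ N ih =>
      have h1 : u i ^ (N + 1) - v i ^ (N + 1) = (u i ^ N - v i ^ N) * u i +
          v i ^ N * (u i - v i) := by ring
      rw [h1]
      refine Ge.add ?_ ?_
      · have := ih.mul (hu i)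
        rwa [add_zero] at this
      · have h2 := (hv i).pow N
        rw [mul_zero] at h2
        have := h2.mul (h i)
        rwa [zero_add] at this
  unfold mon
  suffices h1 : ∀ s : Finset (Fin (n + 1)), Ge P c (∏ i ∈ s, u i ^ m i - ∏ i ∈ s, v i ^ m i) from
    h1 Finset.univ
  intro s
  induction s using Finset.induction_on with
  | empty => rw [Finset.prod_empty, Finset.prod_empty, sub_self]; exact Ge.zero
  | insert i s hi ih =>
    rw [Finset.prod_insert hi, Finset.prod_insert hi]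
    have h1 : u i ^ m i * ∏ j ∈ s, u j ^ m j - v i ^ m i * ∏ j ∈ s, v j ^ m j =
        (u i ^ m i - v i ^ m i) * ∏ j ∈ s, u j ^ m j +
          v i ^ m i * (∏ j ∈ s, u j ^ m j - ∏ j ∈ s, v j ^ m j) := by ring
    rw [h1]
    refine Ge.add ?_ ?_
    · have h2 := Ge.prod (P := P) s (fun j => u j ^ m j) (fun _ => 0) (fun j _ => by
        have := (hu j).pow (m j)
        rwa [mul_zero] at this)
      rw [Finset.sum_const_zero] at h2
      have := (hpow i (m i)).mul h2
      rwa [add_zero] at this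
    · have h2 := (hv i).pow (m i)
      rw [mul_zero] at h2
      have := h2.mul ih
      rwa [zero_add] at this

theorem ge_eval_sub (P : Place k K) {u v : Fin (n + 1) → K} {c g : ℤ} (hu : ∀ i, Ge P 0 (u i))
    (hv : ∀ i, Ge P 0 (v i)) (h : ∀ i, Ge P c (u i - v i)) {F : MvPolynomial (Fin (n + 1)) K}
    (hF : ∀ u, Ge P g (F.coeff u)) : Ge P (g + c) (eval u F - eval v F) := by
  rw [eval_mon, eval_mon, ← Finset.sum_sub_distrib]
  refine Ge.sum _ _ fun m _ => ?_
  rw [← mul_sub]
  exact (hF m).mul (ge_mon_sub P hu hv h m)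

/-- A basis of the line at a place. -/
theorem line_basis {x y x' : Fin (n + 1) → K} {lam mu : K} (hlam : lam ≠ 0) (hmu : mu ≠ 0)
    (hx : x = lam • x') {p' : Fin (n + 1) × Fin (n + 1) → K} (hp : pl x y = mu • p')
    {a : Fin (n + 1)} (ha : x' a = 1) : p' = pl x' fun i => p' (a, i) := by
  funext q
  have h1 : ∀ i j, mu * p' (i, j) = lam * (x' i * y j - x' j * y i) := by
    intro i j
    have h2 := congrFun hp (i, j)
    rw [Pi.smul_apply, smul_eq_mul] at h2
    rw [← h2, pl, hx]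
    simp only [Pi.smul_apply, smul_eq_mul]
    ring
  have h2 := h1 q.1 q.2
  have h3 := h1 a q.1
  have h4 := h1 a q.2
  rw [ha, one_mul] at h3 h4
  have h5 : mu * p' q = mu * pl x' (fun i => p' (a, i)) q := by
    simp only [pl]
    linear_combination h2 - x' q.1 * h4 + x' q.2 * h3
  exact mul_left_cancel₀ hmu h5

/-- The local inequality for the points of a line. -/
theorem line_local [Infinite k] {d : ℕ} {F : MvPolynomial (Fin (n + 1)) K}
    {D : (Fin (n + 1) →₀ ℕ) → Derivation ℤ K K} {e g : Place k K → ℤ}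
    (hdat : Data k F d D e g) {x y : Fin (n + 1) → K} (hxF : eval x F = 0)
    {ik : Fin (n + 1) × Fin (n + 1)} (hik : pl x y ik ≠ 0) {ξ : Fin (n + 1) → k}
    (hξ : eval (zp (pl x y) fun i => algebraMap k K (ξ i)) F ≠ 0) (P : Place k K) :
    (-1) * pord P x + d * po P (pl x y) + 1 * P.ord (∑ i, algebraMap k K (ξ i) * x i) - g P ≤
      P.ord (eval (zp (pl x y) fun i => algebraMap k K (ξ i)) F) := by
  classical
  have hx0 : x ≠ 0 := by
    rintro rfl
    apply hik
    simp [pl]
  have hp0 : pl x y ≠ 0 := fun h0 => hik (by rw [h0]; rfl)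
  obtain ⟨lam, x', hlam, hlamP, hxx, hx', a, ha⟩ := exists_scaled P hx0
  obtain ⟨mu, p', hmu, hmuP, hpp, hp', -⟩ := exists_scaled' P hp0
  obtain ⟨η, hη⟩ : ∃ η : Fin (n + 1) → K, η = fun i => algebraMap k K (ξ i) := ⟨_, rfl⟩
  rw [← hη] at hξ ⊢
  have hηi : ∀ i, algebraMap k K (ξ i) = η i := fun i => by rw [hη]
  simp only [hηi]
  obtain ⟨y', hy'⟩ : ∃ y' : Fin (n + 1) → K, y' = fun i => p' (a, i) := ⟨_, rfl⟩
  have hpl := line_basis hlam hmu hxx hpp ha
  rw [← hy'] at hpl
  have hy'i : ∀ i, Ge P 0 (y' i) := fun i => by rw [hy']; exact hp' _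
  have hηP : ∀ i, Ge P 0 (η i) := fun i => by rw [hη]; exact Ge.const _
  obtain ⟨s, hs⟩ : ∃ s, s = ∑ i, η i * x' i := ⟨_, rfl⟩
  obtain ⟨t, ht⟩ : ∃ t, t = ∑ i, η i * y' i := ⟨_, rfl⟩
  have hsP : Ge P 0 s := by
    rw [hs]
    refine Ge.sum _ _ fun i _ => ?_
    have := (hηP i).mul (hx' i)
    rwa [add_zero] at this
  have htP : Ge P 0 t := by
    rw [ht]
    refine Ge.sum _ _ fun i _ => ?_
    have := (hηP i).mul (hy'i i)
    rwa [add_zero] at this
  have hz : zp (pl x y) η = mu • (s • y' + (-t) • x') := by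
    rw [hpp, zp_smul, hpl, zp_pl, hs, ht]
  have hsx : ∑ i, η i * x i = lam * s := by
    rw [hs, Finset.mul_sum]
    refine Finset.sum_congr rfl fun i _ => ?_
    rw [hxx, Pi.smul_apply, smul_eq_mul]; ring
  rw [hz, eval_smul_hom hdat.hom] at hξ ⊢
  have hx'F : eval x' F = 0 := by
    have h1 := hxF
    rw [hxx, eval_smul_hom hdat.hom] at h1
    exact (mul_eq_zero.1 h1).resolve_left (pow_ne_zero _ hlam)
  have hF0 : eval (s • y' + (-t) • x') F ≠ 0 := right_ne_zero_of_mul hξ
  have h0 : eval ((-t) • x') F = 0 := by rw [eval_smul_hom hdat.hom, hx'F, mul_zero]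
  have hs0 : s ≠ 0 := by
    rintro rfl
    apply hF0
    rw [zero_smul, zero_add, h0]
  have hsP' : Ge P (P.ord s) s := Or.inr le_rfl
  have hsn : 0 ≤ P.ord s := hsP.resolve_left hs0
  have h2 : Ge P (-g P + P.ord s) (eval (s • y' + (-t) • x') F - eval ((-t) • x') F) := by
    refine ge_eval_sub P (fun i => ?_) (fun i => ?_) (fun i => ?_) (hdat.coef P)
    · simp only [Pi.add_apply, Pi.smul_apply, smul_eq_mul]
      refine Ge.add ?_ ?_
      · have := hsP.mul (hy'i i)
        rwa [add_zero] at this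
      · have := htP.neg.mul (hx' i)
        rwa [add_zero] at this
    · simp only [Pi.smul_apply, smul_eq_mul]
      have := htP.neg.mul (hx' i)
      rwa [add_zero] at this
    · simp only [Pi.add_apply, add_sub_cancel_right, Pi.smul_apply, smul_eq_mul]
      have := hsP'.mul (hy'i i)
      rwa [add_zero] at this
  rw [h0, sub_zero] at h2
  have h3 := h2.resolve_left hF0
  rw [P.ord_mul (pow_ne_zero _ hmu) hF0, P.ord_pow, hsx, P.ord_mul hlam hs0, hlamP, hmuP]
  linarith

/-- The local inequality for a point of multiplicity `d`. -/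
theorem line_local_d [Infinite k] {d : ℕ} {F : MvPolynomial (Fin (n + 1)) K}
    {D : (Fin (n + 1) →₀ ℕ) → Derivation ℤ K K} {e g : Place k K → ℤ}
    (hdat : Data k F d D e g) {x y : Fin (n + 1) → K}
    (hxF : ∀ a b : K, eval (a • x + b • y) F = b ^ d * eval y F)
    {ik : Fin (n + 1) × Fin (n + 1)} (hik : pl x y ik ≠ 0) {ξ : Fin (n + 1) → k}
    (hξ : eval (zp (pl x y) fun i => algebraMap k K (ξ i)) F ≠ 0) (P : Place k K) :
    (-d) * pord P x + d * po P (pl x y) + d * P.ord (∑ i, algebraMap k K (ξ i) * x i) - g P ≤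
      P.ord (eval (zp (pl x y) fun i => algebraMap k K (ξ i)) F) := by
  classical
  have hx0 : x ≠ 0 := by
    rintro rfl
    apply hik
    simp [pl]
  have hp0 : pl x y ≠ 0 := fun h0 => hik (by rw [h0]; rfl)
  obtain ⟨lam, x', hlam, hlamP, hxx, hx', a, ha⟩ := exists_scaled P hx0
  obtain ⟨mu, p', hmu, hmuP, hpp, hp', -⟩ := exists_scaled' P hp0
  obtain ⟨η, hη⟩ : ∃ η : Fin (n + 1) → K, η = fun i => algebraMap k K (ξ i) := ⟨_, rfl⟩
  rw [← hη] at hξ ⊢
  have hηi : ∀ i, algebraMap k K (ξ i) = η i := fun i => by rw [hη]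
  simp only [hηi]
  obtain ⟨y', hy'⟩ : ∃ y' : Fin (n + 1) → K, y' = fun i => p' (a, i) := ⟨_, rfl⟩
  have hpl := line_basis hlam hmu hxx hpp ha
  rw [← hy'] at hpl
  have hy'i : ∀ i, Ge P 0 (y' i) := fun i => by rw [hy']; exact hp' _
  obtain ⟨s, hs⟩ : ∃ s, s = ∑ i, η i * x' i := ⟨_, rfl⟩
  obtain ⟨t, ht⟩ : ∃ t, t = ∑ i, η i * y' i := ⟨_, rfl⟩
  have hz : zp (pl x y) η = mu • (s • y' + (-t) • x') := by
    rw [hpp, zp_smul, hpl, zp_pl, hs, ht]
  have hsx : ∑ i, η i * x i = lam * s := by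
    rw [hs, Finset.mul_sum]
    refine Finset.sum_congr rfl fun i _ => ?_
    rw [hxx, Pi.smul_apply, smul_eq_mul]; ring
  rw [hz, eval_smul_hom hdat.hom] at hξ ⊢
  -- `y'` in terms of `x` and `y`
  have hyy : y' = (-(y a / mu)) • x + (x a / mu) • y := by
    funext i
    have h2 := congrFun hpp (a, i)
    rw [Pi.smul_apply, smul_eq_mul] at h2
    rw [hy']
    simp only [Pi.add_apply, Pi.smul_apply, smul_eq_mul]
    have h3 : p' (a, i) = pl x y (a, i) / mu := by rw [h2]; field_simp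
    rw [h3, pl]
    field_simp
    ring
  have hx'x : x' = lam⁻¹ • x := by rw [hxx, smul_smul, inv_mul_cancel₀ hlam, one_smul]
  have hy'F : eval y' F = (x a / mu) ^ d * eval y F := by rw [hyy]; exact hxF _ _
  have hval : eval (s • y' + (-t) • x') F = s ^ d * eval y' F := by
    rw [hy'F]
    have h1 : s • y' + (-t) • x' = (s * (-(y a / mu)) + (-t) * lam⁻¹) • x +
        (s * (x a / mu)) • y := by
      rw [hx'x, hyy, smul_add, smul_smul, smul_smul, smul_smul, add_smul]
      abel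
    rw [h1, hxF, mul_pow]
    ring
  rw [hval] at hξ ⊢
  have hne : s ^ d * eval y' F ≠ 0 := right_ne_zero_of_mul hξ
  have hy0 : eval y' F ≠ 0 := right_ne_zero_of_mul hne
  have hs0 : s ≠ 0 := by
    rintro rfl
    apply left_ne_zero_of_mul hne
    exact zero_pow hdat.pos.ne'
  have h3 := (ge_eval P hy'i (hdat.coef P)).resolve_left hy0
  rw [P.ord_mul (pow_ne_zero _ hmu) hne, P.ord_pow, P.ord_mul (pow_ne_zero _ hs0) hy0, P.ord_pow,
    hsx, P.ord_mul hlam hs0, hlamP, hmuP]
  linarith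

section
variable [CharZero k] [IsFF k K] [IsAlgClosed k]

theorem data_fin_g {d : ℕ} {F : MvPolynomial (Fin (n + 1)) K}
    {D : (Fin (n + 1) →₀ ℕ) → Derivation ℤ K K} {e g : Place k K → ℤ}
    (hdat : Data k F d D e g) : {P : Place k K | g P ≠ 0}.Finite :=
  hdat.fin.subset fun _ hP => Or.inr hP

/-- The height of a point of the hypersurface on a line. -/
theorem line_ht {d : ℕ} {F : MvPolynomial (Fin (n + 1)) K}
    {D : (Fin (n + 1) →₀ ℕ) → Derivation ℤ K K} {e g : Place k K → ℤ}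
    (hdat : Data k F d D e g) {x y : Fin (n + 1) → K} (hxF : eval x F = 0)
    {ik : Fin (n + 1) × Fin (n + 1)} (hik : pl x y ik ≠ 0) {a b : K}
    (hab : eval (a • x + b • y) F ≠ 0) :
    pht k x ≤ d * fht k (pl x y) + ∑ᶠ P, g P := by
  have hx0 : x ≠ 0 := by
    rintro rfl
    apply hik
    simp [pl]
  have hp0 : pl x y ≠ 0 := fun h0 => hik (by rw [h0]; rfl)
  obtain ⟨ξ, hξ⟩ := exists_xi (k := k) hik hab
  have := sum_two (k := k) hx0 hp0 (data_fin_g hdat) (fun P => line_local hdat hxF hik hξ P)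
  linarith

/-- The height of a point of multiplicity `d` of a line. -/
theorem line_ht_d {d : ℕ} {F : MvPolynomial (Fin (n + 1)) K}
    {D : (Fin (n + 1) →₀ ℕ) → Derivation ℤ K K} {e g : Place k K → ℤ}
    (hdat : Data k F d D e g) {x y : Fin (n + 1) → K}
    (hxF : ∀ a b : K, eval (a • x + b • y) F = b ^ d * eval y F)
    {ik : Fin (n + 1) × Fin (n + 1)} (hik : pl x y ik ≠ 0) {a b : K}
    (hab : eval (a • x + b • y) F ≠ 0) :
    d * pht k x ≤ d * fht k (pl x y) + ∑ᶠ P, g P := by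
  have hx0 : x ≠ 0 := by
    rintro rfl
    apply hik
    simp [pl]
  have hp0 : pl x y ≠ 0 := fun h0 => hik (by rw [h0]; rfl)
  obtain ⟨ξ, hξ⟩ := exists_xi (k := k) hik hab
  have := sum_two (k := k) hx0 hp0 (data_fin_g hdat) (fun P => line_local_d hdat hxF hik hξ P)
  linarith

theorem fht_nonneg {ι : Type} [Finite ι] {f : ι → K} (hf : f ≠ 0) : 0 ≤ fht k f := by
  classical
  obtain ⟨j, hj⟩ := Function.ne_iff.1 hf
  have hq := po_finite (k := k) hf
  obtain ⟨S, hS⟩ := exists_supp (k := k) (Finset.univ : Finset Unit) (fun _ => f j)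
  obtain ⟨V, hV⟩ : ∃ V : Finset (Place k K), V = S ∪ hq.toFinset := ⟨_, rfl⟩
  have h1 : ∑ P ∈ V, P.ord (f j) = 0 := sum_ord_finset _ _ fun P hP => by
    rw [hV]; exact Finset.mem_union_left _ (hS () (Finset.mem_univ _) P hP)
  have h2 : fht k f = - ∑ P ∈ V, po P f := by
    unfold fht
    rw [finsum_eq_sum_of_support_subset (s := V)]
    intro P hP
    rw [hV]
    exact Finset.mem_union_right _ (hq.mem_toFinset.2 hP)
  have h3 := Finset.sum_le_sum (s := V) fun P _ => po_le P hj
  rw [h1] at h3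
  rw [h2]
  omega

end

end Pool.Agent.Y735
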