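import Pool.Agent.Y735.FinL

/-!
The lines in a generic hypersurface.
-/

set_option autoImplicit false

open MvPolynomial Pool.Agent.TH145.GH Cardinal

namespace Pool.Agent.Y735

/-- The number of independent elements of a finitely generated field. -/
theorem card_le_adjoin {k Ω ι : Type} [Field k] [Field Ω] [Algebra k Ω] [Finite ι] {v : ι → Ω}
    (hv : AlgebraicIndependent k v) (S : Finset Ω)
    (h : ∀ i, v i ∈ IntermediateField.adjoin k (S : Set Ω)) : Nat.card ι ≤ S.card := by
  classical
  obtain ⟨L, hL⟩ : ∃ L, L = IntermediateField.adjoin k (S : Set Ω) := ⟨_, rfl⟩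
  rw [← hL] at h
  obtain ⟨v', hv'⟩ : ∃ v' : ι → L, ∀ i, (v' i : Ω) = v i := ⟨fun i => ⟨v i, h i⟩, fun _ => rfl⟩
  have h1 : AlgebraicIndependent k v' := by
    refine AlgebraicIndependent.of_comp L.val ?_
    have h4 : L.val ∘ v' = v := funext hv'
    rw [h4]
    exact hv
  obtain ⟨s, hs⟩ : ∃ s : Set L, ∀ x : L, x ∈ s ↔ (x : Ω) ∈ S :=
    ⟨{x : L | (x : Ω) ∈ S}, fun _ => Iff.rfl⟩
  have h2 : IntermediateField.adjoin k s = ⊤ := by
    rw [eq_top_iff]
    rintro ⟨x, hx⟩ -
    have h2 : (IntermediateField.adjoin k s).map L.val = L := by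
      rw [IntermediateField.adjoin_map]
      conv_rhs => rw [hL]
      congr 1
      ext z
      constructor
      · rintro ⟨b, hb, rfl⟩
        exact (hs b).1 hb
      · intro hz
        have hzL : z ∈ L := by rw [hL]; exact IntermediateField.subset_adjoin _ _ hz
        exact ⟨⟨z, hzL⟩, (hs _).2 hz, rfl⟩
    have h3 : x ∈ (IntermediateField.adjoin k s).map L.val := by rw [h2]; exact hx
    obtain ⟨w, hw, hwx⟩ := h3
    have h4 : w = ⟨x, hx⟩ := Subtype.ext hwx
    rw [← h4]
    exact hw
  have h3 : Algebra.IsAlgebraic (Algebra.adjoin k s) L := by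
    rw [← IntermediateField.isAlgebraic_adjoin_iff_top, h2]
    exact ⟨fun x => isAlgebraic_algebraMap (⟨x, trivial⟩ : (⊤ : IntermediateField k L))⟩
  have h4 := Algebra.IsAlgebraic.trdeg_le_cardinalMk k s
  have h5 := h1.cardinalMk_le_trdeg
  have h6 : #s ≤ S.card := by
    have h7 : Function.Injective (fun x : s => (⟨(x : L), (hs _).1 x.2⟩ : S)) := by
      intro a b hab
      have h8 := congrArg Subtype.val hab
      exact Subtype.ext (Subtype.ext h8)
    have h8 := Cardinal.mk_le_of_injective h7
    rwa [Cardinal.mk_coe_finset] at h8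
  have h7 : (Nat.card ι : Cardinal) ≤ S.card := by
    rw [Nat.cast_card]
    exact (h5.trans h4).trans h6
  exact_mod_cast h7

/-- Coefficients of the restriction to a line. -/
theorem coeff_rho_mem {k Ω : Type} [Field k] [Field Ω] [Algebra k Ω] (L : IntermediateField k Ω)
    {n : ℕ} {u w : Fin (n + 1) → Ω} (hu : ∀ l, u l ∈ L) (hw : ∀ l, w l ∈ L)
    {G : MvPolynomial (Fin (n + 1)) Ω} (hG : ∀ I, G.coeff I ∈ L) (a : ℕ) :
    (rho u w G).coeff a ∈ L := by
  have key : ∀ m : ℕ, ∀ p : Fin (n + 1) → Polynomial Ω, (∀ l a, (p l).coeff a ∈ L) →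
      ∀ a, (∏ l, p l ^ 1).coeff a ∈ L := by
    intro m p hp a
    simp only [pow_one]
    have h : ∀ s : Finset (Fin (n + 1)), ∀ a, (∏ l ∈ s, p l).coeff a ∈ L := by
      intro s
      classical
      induction s using Finset.induction_on with
      | empty =>
        intro a
        rw [Finset.prod_empty, Polynomial.coeff_one]
        split_ifs
        · exact one_mem _
        · exact zero_mem _
      | insert i s hi ih =>
        intro a
        rw [Finset.prod_insert hi, Polynomial.coeff_mul]
        exact sum_mem fun x _ => mul_mem (hp _ _) (ih _)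
    exact h Finset.univ a
  have hpow : ∀ p : Polynomial Ω, (∀ a, p.coeff a ∈ L) → ∀ (m : ℕ) a, (p ^ m).coeff a ∈ L := by
    intro p hp m
    induction m with
    | zero =>
      intro a
      rw [pow_zero, Polynomial.coeff_one]
      split_ifs
      · exact one_mem _
      · exact zero_mem _
    | succ m ih =>
      intro a
      rw [pow_succ, Polynomial.coeff_mul]
      exact sum_mem fun x _ => mul_mem (ih _) (hp _)
  rw [G.as_sum, map_sum, Polynomial.finsetSum_coeff]
  refine sum_mem fun I _ => ?_
  rw [rho, aeval_monomial, Polynomial.algebraMap_eq, Polynomial.coeff_C_mul]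
  refine mul_mem (hG I) ?_
  rw [Finsupp.prod_fintype _ _ (fun i => pow_zero _)]
  have h1 := key 0 (fun l => (Polynomial.C (u l) * Polynomial.X + Polynomial.C (w l)) ^ I l)
    (fun l a => hpow _ (fun a => by
      rw [Polynomial.coeff_add, Polynomial.coeff_C_mul, Polynomial.coeff_C, Polynomial.coeff_X]
      refine add_mem (mul_mem (hu l) ?_) ?_
      · split_ifs
        · exact one_mem _
        · exact zero_mem _
      · split_ifs
        · exact hw l
        · exact zero_mem _) _ _) a
  simp only [pow_one] at h1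
  exact h1

/-- The exponents that involve only two variables. -/
def Two {n : ℕ} (i j : Fin (n + 1)) (I : Fin (n + 1) →₀ ℕ) : Prop :=
  ∀ l, l ≠ i → l ≠ j → I l = 0

/-- The coefficients of the form are determined by the line and the other coefficients. -/
theorem coeff_mem_line {k Ω : Type} [Field k] [Field Ω] [Algebra k Ω]
    (L : IntermediateField k Ω) {n d : ℕ} {u w : Fin (n + 1) → Ω} (hu : ∀ l, u l ∈ L)
    (hw : ∀ l, w l ∈ L) {i j : Fin (n + 1)} (hij : i ≠ j) (hui : u i = 1) (huj : u j = 0)
    (hwi : w i = 0) (hwj : w j = 1) {F : MvPolynomial (Fin (n + 1)) Ω} (hF : F.IsHomogeneous d)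
    (h : rho u w F = 0) (hL : ∀ I : Fin (n + 1) →₀ ℕ, I.degree = d → ¬ Two i j I →
      F.coeff I ∈ L) (I0 : Fin (n + 1) →₀ ℕ) (hI0 : I0.degree = d) : F.coeff I0 ∈ L := by
  classical
  by_cases hT : Two i j I0
  swap
  · exact hL I0 hI0 hT
  obtain ⟨G, hG⟩ : ∃ G, G = ∑ I ∈ F.support.filter fun I => ¬ Two i j I,
    monomial I (F.coeff I) := ⟨_, rfl⟩
  obtain ⟨H, hH⟩ : ∃ H, H = ∑ I ∈ F.support.filter fun I => Two i j I,
    monomial I (F.coeff I) := ⟨_, rfl⟩
  have hFGH : F = H + G := by
    rw [hG, hH, Finset.sum_filter_add_sum_filter_not]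
    exact F.as_sum
  have hGc : ∀ I, G.coeff I ∈ L := by
    intro I
    rw [hG, coeff_sum]
    refine sum_mem fun J hJ => ?_
    rw [coeff_monomial]
    split_ifs
    · rw [Finset.mem_filter] at hJ
      exact hL J (deg_of_mem hF hJ.1) hJ.2
    · exact zero_mem _
  have hmon : ∀ I : Fin (n + 1) →₀ ℕ, Two i j I → ∀ c : Ω, rho u w (monomial I c) =
      Polynomial.monomial (I i) c := by
    intro I hI c
    rw [rho, aeval_monomial, Polynomial.algebraMap_eq, Finsupp.prod_fintype _ _
      (fun i => pow_zero _), ← Finset.mul_prod_erase _ _ (Finset.mem_univ i),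
      ← Finset.mul_prod_erase _ _ (Finset.mem_erase.2 ⟨hij.symm, Finset.mem_univ j⟩),
      Finset.prod_eq_one, hui, hwi, huj, hwj]
    · rw [map_one, map_zero, one_mul, add_zero, zero_mul, zero_add, one_pow, mul_one, mul_one,
        Polynomial.C_mul_X_pow_eq_monomial]
    · intro l hl
      rw [Finset.mem_erase, Finset.mem_erase] at hl
      rw [hI l hl.2.1 hl.1, pow_zero]
  have hHc : (rho u w H).coeff (I0 i) = F.coeff I0 := by
    rw [hH, map_sum, Polynomial.finsetSum_coeff]
    have h1 : ∀ I ∈ F.support.filter fun I => Two i j I,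
        (rho u w (monomial I (F.coeff I))).coeff (I0 i) = if I = I0 then F.coeff I0 else 0 := by
      intro I hI
      rw [Finset.mem_filter] at hI
      rw [hmon I hI.2, Polynomial.coeff_monomial]
      by_cases hII : I = I0
      · rw [if_pos (by rw [hII]), if_pos hII, hII]
      · rw [if_neg hII, if_neg]
        intro hi
        apply hII
        have hd1 := deg_of_mem hF hI.1
        rw [← hI0, Finsupp.degree_eq_sum, Finsupp.degree_eq_sum,
          ← Finset.add_sum_erase _ _ (Finset.mem_univ i),
          ← Finset.add_sum_erase _ _ (Finset.mem_erase.2 ⟨hij.symm, Finset.mem_univ j⟩),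
          ← Finset.add_sum_erase _ (fun l => I0 l) (Finset.mem_univ i),
          ← Finset.add_sum_erase _ (fun l => I0 l)
            (Finset.mem_erase.2 ⟨hij.symm, Finset.mem_univ j⟩),
          Finset.sum_eq_zero, Finset.sum_eq_zero] at hd1
        · ext l
          by_cases hl : l = i
          · rw [hl, hi]
          · by_cases hl' : l = j
            · rw [hl']; omega
            · rw [hI.2 l hl hl', hT l hl hl']
        · intro l hl
          rw [Finset.mem_erase, Finset.mem_erase] at hl
          exact hT l hl.2.1 hl.1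
        · intro l hl
          rw [Finset.mem_erase, Finset.mem_erase] at hl
          exact hI.2 l hl.2.1 hl.1
    rw [Finset.sum_congr rfl h1, Finset.sum_ite_eq']
    split_ifs with h2
    · rfl
    · rw [Finset.mem_filter, not_and] at h2
      by_contra hne
      exact h2 (mem_support_iff.2 fun h0 => hne h0.symm) hT
  have h2 : (rho u w H).coeff (I0 i) = -(rho u w G).coeff (I0 i) := by
    rw [hFGH, map_add] at h
    have := congrArg (fun q => Polynomial.coeff q (I0 i)) h
    simp only [Polynomial.coeff_add, Polynomial.coeff_zero] at this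
    linear_combination this
  rw [← hHc, h2]
  exact neg_mem (coeff_rho_mem L hu hw hGc _)

/-- The number of exponents that involve only two variables. -/
theorem card_two {n d : ℕ} {i j : Fin (n + 1)} (hij : i ≠ j)
    [Fintype {I : Fin (n + 1) →₀ ℕ // I.degree = d}] [DecidablePred (Two i j)] :
    (Finset.univ.filter fun I : {I : Fin (n + 1) →₀ ℕ // I.degree = d} => ¬ Two i j I.1).card +
      (d + 1) ≤ Fintype.card {I : Fin (n + 1) →₀ ℕ // I.degree = d} := by
  classical
  have h1 : d + 1 ≤ (Finset.univ.filter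
      fun I : {I : Fin (n + 1) →₀ ℕ // I.degree = d} => Two i j I.1).card := by
    obtain ⟨f, hf⟩ : ∃ f : Fin (d + 1) → {I : Fin (n + 1) →₀ ℕ // I.degree = d},
        ∀ a, (f a).1 = Finsupp.single i (a : ℕ) + Finsupp.single j (d - a) :=
      ⟨fun a => ⟨Finsupp.single i (a : ℕ) + Finsupp.single j (d - a), by
        rw [map_add, Finsupp.degree_single, Finsupp.degree_single]
        have := a.2
        omega⟩, fun _ => rfl⟩
    have hinj : Function.Injective f := by
      intro a b hab
      have h2 := congrArg (fun I => I.1 i) hab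
      simp only [hf, Finsupp.add_apply, Finsupp.single_eq_same,
        Finsupp.single_eq_of_ne hij, add_zero] at h2
      exact Fin.ext h2
    have h2 := Finset.card_le_card (s := Finset.univ.image f) (t := Finset.univ.filter
      fun I : {I : Fin (n + 1) →₀ ℕ // I.degree = d} => Two i j I.1) (by
        intro I hI
        rw [Finset.mem_image] at hI
        obtain ⟨a, -, rfl⟩ := hI
        rw [Finset.mem_filter]
        refine ⟨Finset.mem_univ _, fun l hli hlj => ?_⟩
        rw [hf, Finsupp.add_apply, Finsupp.single_eq_of_ne hli, Finsupp.single_eq_of_ne hlj, add_zero])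
    rwa [Finset.card_image_of_injective _ hinj, Finset.card_univ, Fintype.card_fin] at h2
  have h2 := Finset.card_filter_add_card_filter_not (s := (Finset.univ :
    Finset {I : Fin (n + 1) →₀ ℕ // I.degree = d})) (fun I => Two i j I.1)
  rw [Finset.card_univ] at h2
  omega

/-- The dimension of the space of lines. -/
theorem line_count {k Ω : Type} [Field k] [Field Ω] [Algebra k Ω] [Infinite Ω] {n d : ℕ}
    {F : MvPolynomial (Fin (n + 1)) Ω} (hF : F.IsHomogeneous d) {x y : Fin (n + 1) → Ω}
    {i j : Fin (n + 1)} (hp : pl x y (i, j) ≠ 0)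
    (h : ∀ a b : Ω, eval (a • x + b • y) F = 0) {ι : Type} [Finite ι] (v : ι → Fin (n + 1))
    (hind : AlgebraicIndependent k (Sum.elim (fun l : ι => x (v l))
      fun I : {I : Fin (n + 1) →₀ ℕ // I.degree = d} => F.coeff I.1)) :
    Nat.card ι + (d + 1) ≤ 2 * n ∧ (IsEmpty ι → d + 3 ≤ 2 * n) := by
  classical
  have hpp : pl x y (i, j) = x i * y j - x j * y i := rfl
  have hij : i ≠ j := by
    rintro rfl
    rw [hpp, sub_self] at hp
    exact hp rfl
  have hfd := finite_deg n d
  have : Fintype {I : Fin (n + 1) →₀ ℕ // I.degree = d} := Fintype.ofFinite _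
  obtain ⟨u, hu⟩ : ∃ u : Fin (n + 1) → Ω, u = (y j / pl x y (i, j)) • x +
    (-(x j) / pl x y (i, j)) • y := ⟨_, rfl⟩
  obtain ⟨w, hw⟩ : ∃ w : Fin (n + 1) → Ω, w = (-(y i) / pl x y (i, j)) • x +
    (x i / pl x y (i, j)) • y := ⟨_, rfl⟩
  have hui : u i = 1 := by
    rw [hu, Pi.add_apply, Pi.smul_apply, Pi.smul_apply, smul_eq_mul, smul_eq_mul]
    field_simp
    rw [hpp]; ring
  have huj : u j = 0 := by
    rw [hu, Pi.add_apply, Pi.smul_apply, Pi.smul_apply, smul_eq_mul, smul_eq_mul]
    field_simp
    ring
  have hwi : w i = 0 := by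
    rw [hw, Pi.add_apply, Pi.smul_apply, Pi.smul_apply, smul_eq_mul, smul_eq_mul]
    field_simp
    ring
  have hwj : w j = 1 := by
    rw [hw, Pi.add_apply, Pi.smul_apply, Pi.smul_apply, smul_eq_mul, smul_eq_mul]
    field_simp
    rw [hpp]; ring
  have hxuw : x = x i • u + x j • w := by
    funext l
    rw [hu, hw]
    simp only [Pi.add_apply, Pi.smul_apply, smul_eq_mul]
    field_simp
    rw [hpp]; ring
  have hrho : rho u w F = 0 := by
    apply Polynomial.funext
    intro t
    rw [eval_rho, Polynomial.eval_zero]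
    have h1 := h (t * (y j / pl x y (i, j)) + (-(y i) / pl x y (i, j)))
      (t * (-(x j) / pl x y (i, j)) + (x i / pl x y (i, j)))
    rw [← h1]
    congr 2
    rw [hu, hw, smul_add, smul_smul, smul_smul, add_smul, add_smul]
    abel
  -- the generators
  obtain ⟨S0, hS0⟩ : ∃ S0 : Finset Ω, S0 = (((Finset.univ.erase i).erase j).image u ∪
    ((Finset.univ.erase i).erase j).image w) ∪
    (Finset.univ.filter fun I : {I : Fin (n + 1) →₀ ℕ // I.degree = d} => ¬ Two i j I.1).image
      (fun I => F.coeff I.1) := ⟨_, rfl⟩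
  have hcard0 : S0.card + (d + 1) ≤ 2 * (n - 1) +
      Fintype.card {I : Fin (n + 1) →₀ ℕ // I.degree = d} := by
    have h1 : ((Finset.univ.erase i).erase j).card = n - 1 := by
      rw [Finset.card_erase_of_mem (Finset.mem_erase.2 ⟨hij.symm, Finset.mem_univ j⟩),
        Finset.card_erase_of_mem (Finset.mem_univ i), Finset.card_univ, Fintype.card_fin]
      omega
    have h2 := card_two (d := d) hij
    have h3 : S0.card ≤ ((n - 1) + (n - 1)) + (Finset.univ.filter
        fun I : {I : Fin (n + 1) →₀ ℕ // I.degree = d} => ¬ Two i j I.1).card := by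
      rw [hS0]
      refine (Finset.card_union_le _ _).trans (add_le_add ((Finset.card_union_le _ _).trans
        (add_le_add ?_ ?_)) Finset.card_image_le)
      · exact Finset.card_image_le.trans h1.le
      · exact Finset.card_image_le.trans h1.le
    omega
  have hmem : ∀ (S : Finset Ω), S0 ⊆ S →
      (∀ l, u l ∈ IntermediateField.adjoin k (S : Set Ω)) ∧
      (∀ l, w l ∈ IntermediateField.adjoin k (S : Set Ω)) ∧
      ∀ I : {I : Fin (n + 1) →₀ ℕ // I.degree = d},
        F.coeff I.1 ∈ IntermediateField.adjoin k (S : Set Ω) := by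
    intro S hS
    have hS' : ∀ s ∈ S0, s ∈ IntermediateField.adjoin k (S : Set Ω) := fun s hs =>
      IntermediateField.subset_adjoin _ _ (hS hs)
    have hul : ∀ l, u l ∈ IntermediateField.adjoin k (S : Set Ω) := by
      intro l
      by_cases hli : l = i
      · rw [hli, hui]; exact one_mem _
      · by_cases hlj : l = j
        · rw [hlj, huj]; exact zero_mem _
        · apply hS'
          rw [hS0]
          exact Finset.mem_union_left _ (Finset.mem_union_left _ (Finset.mem_image_of_mem _
            (Finset.mem_erase.2 ⟨hlj, Finset.mem_erase.2 ⟨hli, Finset.mem_univ l⟩⟩)))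
    have hwl : ∀ l, w l ∈ IntermediateField.adjoin k (S : Set Ω) := by
      intro l
      by_cases hli : l = i
      · rw [hli, hwi]; exact zero_mem _
      · by_cases hlj : l = j
        · rw [hlj, hwj]; exact one_mem _
        · apply hS'
          rw [hS0]
          exact Finset.mem_union_left _ (Finset.mem_union_right _ (Finset.mem_image_of_mem _
            (Finset.mem_erase.2 ⟨hlj, Finset.mem_erase.2 ⟨hli, Finset.mem_univ l⟩⟩)))
    refine ⟨hul, hwl, fun I => ?_⟩
    refine coeff_mem_line _ hul hwl hij hui huj hwi hwj hF hrho (fun I hI hT => ?_) I.1 I.2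
    apply hS'
    rw [hS0]
    refine Finset.mem_union_right _ (Finset.mem_image.2 ⟨⟨I, hI⟩, ?_, rfl⟩)
    rw [Finset.mem_filter]
    exact ⟨Finset.mem_univ _, hT⟩
  have hn1 : 1 ≤ n := by
    by_contra hn0
    apply hij
    apply Fin.ext
    omega
  refine ⟨?_, fun hι => ?_⟩
  · obtain ⟨S, hS⟩ : ∃ S : Finset Ω, S = S0 ∪ {x i, x j} := ⟨_, rfl⟩
    have hSS : S0 ⊆ S := by rw [hS]; exact Finset.subset_union_left
    obtain ⟨h1, h2, h3⟩ := hmem S hSS
    have h4 := card_le_adjoin hind S (by
      rintro (l | I)
      · change x (v l) ∈ _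
        rw [hxuw, Pi.add_apply, Pi.smul_apply, Pi.smul_apply, smul_eq_mul, smul_eq_mul]
        refine add_mem (mul_mem (IntermediateField.subset_adjoin _ _ ?_) (h1 _))
          (mul_mem (IntermediateField.subset_adjoin _ _ ?_) (h2 _))
        · rw [hS]; simp
        · rw [hS]; simp
      · exact h3 I)
    rw [Nat.card_sum, Nat.card_eq_fintype_card (α := {I : Fin (n + 1) →₀ ℕ // I.degree = d})] at h4
    have h5 : S.card ≤ S0.card + 2 := by
      rw [hS]
      exact (Finset.card_union_le _ _).trans (add_le_add_right Finset.card_le_two _)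
    omega
  · obtain ⟨h1, h2, h3⟩ := hmem S0 (Finset.Subset.refl _)
    have h4 := card_le_adjoin hind S0 (by
      rintro (l | I)
      · exact (hι.false l).elim
      · exact h3 I)
    rw [Nat.card_sum, Nat.card_eq_fintype_card (α := {I : Fin (n + 1) →₀ ℕ // I.degree = d})] at h4
    omega

end Pool.Agent.Y735
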