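import Pool.Agent.Y735.Rows

/-!
The local inequality.
-/

set_option autoImplicit false

open MvPolynomial FF Pool.Agent.W603.LV Pool.Agent.W603.PV Pool.Agent.TH145.GH

namespace Pool.Agent.Y735

variable {k K : Type} [Field k] [Field K] [Algebra k K] {n : ℕ} {A B U T : Type}

/-- The minimum of the orders of the nonzero coordinates. -/
noncomputable def po (P : Place k K) {ι : Type} (f : ι → K) : ℤ := ⨅ j : {j // f j ≠ 0}, P.ord (f j)

theorem po_le (P : Place k K) {ι : Type} [Finite ι] {f : ι → K} {j : ι} (hj : f j ≠ 0) :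
    po P f ≤ P.ord (f j) := by
  unfold po
  exact ciInf_le (Finite.bddBelow_range _) (⟨j, hj⟩ : {j // f j ≠ 0})

theorem exists_po (P : Place k K) {ι : Type} [Finite ι] {f : ι → K} (hf : f ≠ 0) :
    ∃ j, f j ≠ 0 ∧ P.ord (f j) = po P f := by
  obtain ⟨j0, hj0⟩ := Function.ne_iff.1 hf
  have : Nonempty {j // f j ≠ 0} := ⟨⟨j0, hj0⟩⟩
  obtain ⟨j, hj⟩ := exists_eq_ciInf_of_finite (f := fun j : {j // f j ≠ 0} => P.ord (f j))
  exact ⟨j, j.2, hj⟩

/-- Scaling at a place. -/
theorem exists_scaled' (P : Place k K) {ι : Type} [Finite ι] {x : ι → K} (hx : x ≠ 0) :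
    ∃ (lam : K) (x' : ι → K), lam ≠ 0 ∧ P.ord lam = po P x ∧ x = lam • x' ∧
      (∀ l, Ge P 0 (x' l)) ∧ ∃ l, x' l = 1 := by
  obtain ⟨j, hj, hjP⟩ := exists_po P hx
  refine ⟨x j, (x j)⁻¹ • x, hj, hjP, ?_, fun l => ?_, j, ?_⟩
  · rw [smul_smul, mul_inv_cancel₀ hj, one_smul]
  · by_cases hl : x l = 0
    · left
      rw [Pi.smul_apply, hl, smul_zero]
    · right
      rw [Pi.smul_apply, smul_eq_mul, P.ord_mul (inv_ne_zero hj) hl, P.ord_inv, hjP]
      have := po_le P hl
      omega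
  · rw [Pi.smul_apply, smul_eq_mul, inv_mul_cancel₀ hj]

theorem po_fin (P : Place k K) (x : Fin (n + 1) → K) : po P x = pord P x := rfl

theorem ge_coeff_mul (P : Place k K) {a b : ℤ} {p q : MvPolynomial (Fin (n + 1)) K}
    (hp : ∀ u, Ge P a (p.coeff u)) (hq : ∀ u, Ge P b (q.coeff u)) (u : Fin (n + 1) →₀ ℕ) :
    Ge P (a + b) ((p * q).coeff u) := by
  classical
  rw [coeff_mul]
  exact Ge.sum _ _ fun v _ => (hp _).mul (hq _)

theorem ge_lf (P : Place k K) {m : Fin (n + 1) → K} {a : ℤ} (hm : ∀ l, Ge P a (m l))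
    (u : Fin (n + 1) →₀ ℕ) : Ge P a ((lf m).coeff u) := by
  classical
  rw [lf_apply, coeff_sum]
  refine Ge.sum _ _ fun i _ => ?_
  rw [coeff_smul, coeff_X, smul_eq_mul]
  split_ifs
  · rw [mul_one]; exact hm i
  · rw [mul_zero]; exact Ge.zero

theorem ge_X (P : Place k K) (i : Fin (n + 1)) (u : Fin (n + 1) →₀ ℕ) :
    Ge P 0 ((X i : MvPolynomial (Fin (n + 1)) K).coeff u) := by
  classical
  rw [coeff_X]
  split_ifs
  · exact Ge.one
  · exact Ge.zero

theorem ord_fac [Fintype A] [Fintype B] [Fintype U] [Fintype T] (P : Place k K) {lam mu : K}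
    (hlam : lam ≠ 0) (hmu : mu ≠ 0) : (∏ k : Ri A B U T, fac lam mu k) ≠ 0 ∧
      P.ord (∏ k : Ri A B U T, fac lam mu k) =
        ((1 + Fintype.card A + 2 * Fintype.card B + Fintype.card U + 2 * Fintype.card T : ℕ) : ℤ) *
          P.ord lam + ((Fintype.card U : ℤ) - Fintype.card T) * P.ord mu := by
  have h1 : (∏ k : Ri A B U T, fac lam mu k) = lam * (lam ^ Fintype.card A *
      ((lam ^ Fintype.card B * lam ^ Fintype.card B) *
        ((mu * lam) ^ Fintype.card U * (lam / mu * lam) ^ Fintype.card T))) := by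
    rw [Fintype.prod_option, Fintype.prod_option, Fintype.prod_sum_type, Fintype.prod_sum_type,
      Fintype.prod_sum_type, Fintype.prod_sum_type]
    simp only [fac, Finset.prod_const, Finset.card_univ, one_mul]
  have ha := pow_ne_zero (Fintype.card A) hlam
  have hb := pow_ne_zero (Fintype.card B) hlam
  have hu := pow_ne_zero (Fintype.card U) (mul_ne_zero hmu hlam)
  have ht := pow_ne_zero (Fintype.card T) (mul_ne_zero (div_ne_zero hlam hmu) hlam)
  refine ⟨?_, ?_⟩
  · rw [h1]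
    exact mul_ne_zero hlam (mul_ne_zero ha (mul_ne_zero (mul_ne_zero hb hb) (mul_ne_zero hu ht)))
  · rw [h1, P.ord_mul hlam (mul_ne_zero ha (mul_ne_zero (mul_ne_zero hb hb) (mul_ne_zero hu ht))),
      P.ord_mul ha (mul_ne_zero (mul_ne_zero hb hb) (mul_ne_zero hu ht)),
      P.ord_mul (mul_ne_zero hb hb) (mul_ne_zero hu ht), P.ord_mul hb hb, P.ord_mul hu ht,
      P.ord_pow, P.ord_pow, P.ord_pow, P.ord_pow, P.ord_mul hmu hlam,
      P.ord_mul (div_ne_zero hlam hmu) hlam, P.ord_div hlam hmu]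
    push_cast
    ring

/-- The local inequality. -/
theorem local_ineq [Fintype A] [Fintype B] [Fintype U] [Fintype T] {d : ℕ}
    {F : MvPolynomial (Fin (n + 1)) K} {D : (Fin (n + 1) →₀ ℕ) → Derivation ℤ K K}
    {e g : Place k K → ℤ} (hdat : Data k F d D e g) {x y : Fin (n + 1) → K} {i0 : Fin (n + 1)}
    (hi0 : x i0 ≠ 0) {ik : Fin (n + 1) × Fin (n + 1)} (hik : pl x y ik ≠ 0)
    (rd : RD K n A B U T)
    (hPB : ∀ b, (rd.PB b).IsHomogeneous (d - 1)) (hPU : ∀ b, (rd.PU b).IsHomogeneous (d - 1))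
    (hPT : ∀ b, (rd.PT b).IsHomogeneous (d - 1)) (P : Place k K)
    (hcB : ∀ b u, Ge P 0 ((rd.PB b).coeff u)) (hcU : ∀ b u, Ge P 0 ((rd.PU b).coeff u))
    (hcT : ∀ b u, Ge P 0 ((rd.PT b).coeff u))
    (hT : ∀ z t m, ∑ l, m l * x l = 0 → ∑ l, m l * y l = 0 → vec D x (rd.PT t * lf m) ∈
      Submodule.span K (row F D x y i0 ik rd z '' {l | rk l < 2}))
    (E : Ri A B U T ≃ Fin (n + 1)) {Θ : K} (hΘ : Θ ≠ 0)
    (h : ∀ z, vol E (row F D x y i0 ik rd z) = Θ * dF F x z) :
    (((1 + Fintype.card A + 3 * Fintype.card B + Fintype.card U + 2 * Fintype.card T : ℕ) : ℤ) -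
      ((d - 1 : ℕ) : ℤ)) * pord P x + ((Fintype.card U : ℤ) - Fintype.card T) * po P (pl x y) +
      Fintype.card B * P.ord (x i0) - ((n + 1) * (e P + g P) + g P) ≤ P.ord Θ := by
  classical
  have hx0 : x ≠ 0 := by
    rintro rfl
    exact hi0 rfl
  have hp0 : pl x y ≠ 0 := fun h0 => hik (by rw [h0]; rfl)
  obtain ⟨lam, x', hlam, hlamP, hxx, hx', hx1⟩ := exists_scaled P hx0
  obtain ⟨mu, p', hmu, hmuP, hpp, hp', bc, hbc⟩ := exists_scaled' P hp0
  obtain ⟨i, hi0', hi⟩ := hdat.smooth P x' hx' hx1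
  have he := hdat.e_nonneg P
  have hg := hdat.g_nonneg P
  have hc0 : -(e P + g P) ≤ 0 := by omega
  have h1 := h (Pi.single i 1)
  rw [row_repl F D x y i0 ik hik rd _ (hT _) hlam hxx hmu hpp bc hbc] at h1
  have h2 : dF F x (Pi.single i 1) = lam ^ (d - 1) * eval x' (pderiv i F) := by
    have h3 := dF_single F x i 1
    simp only [one_mul] at h3
    rw [show (Pi.single i 1 : Fin (n + 1) → K) = fun l => (Pi.single i 1 : Fin (n + 1) → K) l
      from rfl, h3, hxx, eval_smul_hom hdat.hom.pderiv]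
  rw [h2] at h1
  obtain ⟨hf0, hford⟩ := ord_fac (A := A) (B := B) (U := U) (T := T) P hlam hmu
  have hd1 : ∀ {Q : MvPolynomial (Fin (n + 1)) K} (m : Fin (n + 1) → K), Q.IsHomogeneous (d - 1) →
      (Q * lf m).IsHomogeneous d := by
    intro Q m hQ
    have h3 := hQ.mul (lf_hom m)
    rwa [Nat.sub_add_cancel hdat.pos] at h3
  have hdX : ∀ {Q : MvPolynomial (Fin (n + 1)) K} (j : Fin (n + 1)), Q.IsHomogeneous (d - 1) →
      (Q * X j).IsHomogeneous d := by
    intro Q j hQ
    have h3 := hQ.mul (isHomogeneous_X K j)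
    rwa [Nat.sub_add_cancel hdat.pos] at h3
  have hvec : ∀ {G : MvPolynomial (Fin (n + 1)) K}, G.IsHomogeneous d →
      (∀ u, Ge P 0 (G.coeff u)) → ∀ l, Ge P (-(e P + g P)) (vec D x' G l) := by
    intro G hG hc l
    rw [vec_apply]
    exact (ge_DD P (hdat.loss P) hG (c := 0) (fun u => by rw [neg_zero]; exact hc u)
      (hx' l)).mono (by omega)
  have hvX : ∀ {Q : MvPolynomial (Fin (n + 1)) K} (j : Fin (n + 1)), Q.IsHomogeneous (d - 1) →
      (∀ u, Ge P 0 (Q.coeff u)) → ∀ l, Ge P (-(e P + g P)) (vec D x' (Q * X j) l) := by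
    intro Q j hQ hc l
    exact hvec (hdX j hQ) (fun u => by
      have := ge_coeff_mul P hc (ge_X P j) u
      rwa [zero_add] at this) l
  have hvl : ∀ {Q : MvPolynomial (Fin (n + 1)) K} (m : Fin (n + 1) → K), Q.IsHomogeneous (d - 1) →
      (∀ u, Ge P 0 (Q.coeff u)) → (∀ l, Ge P 0 (m l)) →
      ∀ l, Ge P (-(e P + g P)) (vec D x' (Q * lf m) l) := by
    intro Q m hQ hc hm l
    exact hvec (hd1 m hQ) (fun u => by
      have := ge_coeff_mul P hc (ge_lf P hm) u
      rwa [zero_add] at this) l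
  -- the order of the determinant of the rows at the place
  have h3 : Ge P ((Finset.univ : Finset B).card * (P.ord (x i0) + P.ord lam) +
      (n + 1) * (-(e P + g P))) (vol E (lrow F D x x' p' i0 bc rd (Pi.single i 1))) := by
    have hm : ∀ j, Ge P (P.ord lam) (x j) := by
      intro j
      rw [hlamP]
      exact ge_pord P x j
    refine ge_pairs P (c := -(e P + g P)) (vol E) (fun R hR => ge_vol P E R hR)
      (fun b : B => some (some (Sum.inr (Sum.inl (Sum.inl b)))))
      (fun b : B => some (some (Sum.inr (Sum.inl (Sum.inr b)))))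
      (fun a b hab => by simpa using hab) (fun a b hab => by simpa using hab)
      (fun a b hab => by simp at hab)
      (x0 := x i0) (fun b => x (rd.jb b)) (fun b => x (rd.lb b)) (hm i0)
      (fun b => hm _) (fun b => hm _) (fun b => vec D x' (rd.PB b * X i0))
      (fun b => vec D x' (rd.PB b * X (rd.jb b))) (fun b => vec D x' (rd.PB b * X (rd.lb b)))
      (fun b => hvX _ (hPB b) (hcB b)) (fun b => hvX _ (hPB b) (hcB b))
      (fun b => hvX _ (hPB b) (hcB b)) Finset.univ _ (fun b _ => ⟨rfl, rfl⟩) ?_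
    intro κ hκ l
    rcases κ with _ | _ | a | (b | b) | u | t
    · simp only [lrow]
      by_cases hli : l = i
      · rw [hli, Pi.single_eq_same]; exact Ge.one.mono hc0
      · rw [Pi.single_eq_of_ne hli]; exact Ge.zero
    · exact (hx' l).mono hc0
    · simp only [lrow, wv, Pi.add_apply, Pi.smul_apply, smul_eq_mul]
      refine Ge.add ?_ ?_
      · by_cases hli : l = (rd.wa a).1
        · rw [hli, Pi.single_eq_same, mul_one]; exact (hx' _).mono hc0
        · rw [Pi.single_eq_of_ne hli, mul_zero]; exact Ge.zero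
      · rw [vec_apply]
        refine ge_DD P (hdat.loss P) ?_ ?_ (hx' l)
        · have h4 := (isHomogeneous_X K (rd.wa a).2).mul (hdat.hom.pderiv (i := (rd.wa a).1))
          have h5 : 1 + (d - 1) = d := by
            have := hdat.pos
            omega
          rwa [h5] at h4
        · intro u
          have := ge_coeff_mul P (ge_X P (rd.wa a).2) (ge_pderiv P (hdat.coef P) (rd.wa a).1) u
          rwa [zero_add] at this
    · exact absurd rfl (hκ b (Finset.mem_univ b)).1
    · exact absurd rfl (hκ b (Finset.mem_univ b)).2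
    · simp only [lrow]
      refine hvl _ (hPU u) (hcU u) (fun l => ?_) l
      unfold tm
      refine Ge.add (Ge.sub ?_ ?_) ?_
      · split_ifs
        · exact hp' _
        · exact Ge.zero
      · split_ifs
        · exact hp' _
        · exact Ge.zero
      · split_ifs
        · exact hp' _
        · exact Ge.zero
    · simp only [lrow]
      refine hvl _ (hPT t) (hcT t) (fun l => ?_) l
      unfold pm
      refine Ge.sub ?_ ?_
      · split_ifs
        · exact hx' _
        · exact Ge.zero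
      · split_ifs
        · exact hx' _
        · exact Ge.zero
  -- the orders
  have hne1 : Θ * (lam ^ (d - 1) * eval x' (pderiv i F)) ≠ 0 :=
    mul_ne_zero hΘ (mul_ne_zero (pow_ne_zero _ hlam) hi0')
  have hm0 : vol E (lrow F D x x' p' i0 bc rd (Pi.single i 1)) ≠ 0 := by
    intro h0
    rw [h0, mul_zero] at h1
    exact hne1 h1.symm
  have h4 := congrArg P.ord h1
  rw [P.ord_mul hf0 hm0, P.ord_mul hΘ (mul_ne_zero (pow_ne_zero _ hlam) hi0'),
    P.ord_mul (pow_ne_zero _ hlam) hi0', P.ord_pow, hford] at h4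
  have h5 := h3.resolve_left hm0
  rw [Finset.card_univ] at h5
  rw [hlamP] at h4 h5
  rw [hmuP] at h4
  push_cast at h4 ⊢
  linarith

end Pool.Agent.Y735
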