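import Pool.Agent.Y735.Vec
import Pool.Agent.Y735.Alt

/-!
The rows of the determinant, and their orders at a place.
-/

set_option autoImplicit false

open MvPolynomial FF Pool.Agent.W603.LV Pool.Agent.W603.PV Pool.Agent.TH145.GH

namespace Pool.Agent.Y735

variable {K : Type} [Field K] {n : ℕ}

/-- The Pluecker coordinates of the line through `x` and `y`. -/
def pl (x y : Fin (n + 1) → K) (q : Fin (n + 1) × Fin (n + 1)) : K :=
  x q.1 * y q.2 - x q.2 * y q.1

/-- The coefficients of a linear form that vanishes on the line with the Pluecker coordinates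
`p`. -/
def tm (p : Fin (n + 1) × Fin (n + 1) → K) (t : Fin (n + 1) × Fin (n + 1) × Fin (n + 1)) :
    Fin (n + 1) → K :=
  fun l => (if l = t.2.2 then p (t.1, t.2.1) else 0) - (if l = t.2.1 then p (t.1, t.2.2) else 0) +
    (if l = t.1 then p (t.2.1, t.2.2) else 0)

theorem lf_tm (p : Fin (n + 1) × Fin (n + 1) → K) (t : Fin (n + 1) × Fin (n + 1) × Fin (n + 1)) :
    lf (tm p t) = p (t.1, t.2.1) • X t.2.2 - p (t.1, t.2.2) • X t.2.1 +
      p (t.2.1, t.2.2) • X t.1 := by
  rw [← lf_single, ← lf_single, ← lf_single, ← map_sub, ← map_add]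
  rfl

theorem tm_smul (p : Fin (n + 1) × Fin (n + 1) → K) (a : K)
    (t : Fin (n + 1) × Fin (n + 1) × Fin (n + 1)) : tm (a • p) t = a • tm p t := by
  funext l
  simp only [tm, Pi.smul_apply, smul_eq_mul, mul_add, mul_sub, mul_ite, mul_zero]

theorem sum_tm (x y : Fin (n + 1) → K) (t : Fin (n + 1) × Fin (n + 1) × Fin (n + 1)) :
    ∑ l, tm (pl x y) t l * x l = 0 ∧ ∑ l, tm (pl x y) t l * y l = 0 := by
  have h : ∀ z : Fin (n + 1) → K, ∑ l, tm (pl x y) t l * z l =
      pl x y (t.1, t.2.1) * z t.2.2 - pl x y (t.1, t.2.2) * z t.2.1 +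
        pl x y (t.2.1, t.2.2) * z t.1 := by
    intro z
    rw [← eval_lf, lf_tm, map_add, map_sub, smul_eval, smul_eval, smul_eval, eval_X, eval_X,
      eval_X]
  rw [h, h]
  simp only [pl]
  constructor <;> ring

theorem sum_pm (x z : Fin (n + 1) → K) (i j : Fin (n + 1)) :
    ∑ l, pm x i j l * z l = x i * z j - x j * z i := by
  rw [← eval_lf, lf_pm, map_sub, smul_eval, smul_eval, eval_X, eval_X]

/-- The indices of the rows: an arbitrary vector, the point, the linear group, pairs, the forms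
that vanish on the line, and the forms that do not vanish on the line. -/
abbrev Ri (A B U T : Type) := Option (Option (A ⊕ (B ⊕ B) ⊕ (U ⊕ T)))

/-- The data of the rows. -/
structure RD (K : Type) [Field K] (n : ℕ) (A B U T : Type) where
  /-- the elements of the linear group -/
  wa : A → Fin (n + 1) × Fin (n + 1)
  /-- the forms of the pairs -/
  PB : B → MvPolynomial (Fin (n + 1)) K
  /-- the first variables of the pairs -/
  jb : B → Fin (n + 1)
  /-- the second variables of the pairs -/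
  lb : B → Fin (n + 1)
  /-- the forms of the third type -/
  PU : U → MvPolynomial (Fin (n + 1)) K
  /-- the triples -/
  tu : U → Fin (n + 1) × Fin (n + 1) × Fin (n + 1)
  /-- the forms of the fourth type -/
  PT : T → MvPolynomial (Fin (n + 1)) K

variable {A B U T : Type}

/-- The rows. -/
noncomputable def row (F : MvPolynomial (Fin (n + 1)) K)
    (D : (Fin (n + 1) →₀ ℕ) → Derivation ℤ K K) (x y : Fin (n + 1) → K) (i0 : Fin (n + 1))
    (ik : Fin (n + 1) × Fin (n + 1)) (rd : RD K n A B U T) (z : Fin (n + 1) → K) :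
    Ri A B U T → Fin (n + 1) → K
  | none => z
  | some none => x
  | some (some (Sum.inl a)) => wv F D x (rd.wa a)
  | some (some (Sum.inr (Sum.inl (Sum.inl b)))) => vec D x (rd.PB b * lf (pm x i0 (rd.jb b)))
  | some (some (Sum.inr (Sum.inl (Sum.inr b)))) => vec D x (rd.PB b * lf (pm x i0 (rd.lb b)))
  | some (some (Sum.inr (Sum.inr (Sum.inl u)))) => vec D x (rd.PU u * lf (tm (pl x y) (rd.tu u)))
  | some (some (Sum.inr (Sum.inr (Sum.inr t)))) =>
      vec D x (rd.PT t * lf ((pl x y ik)⁻¹ • pm x ik.1 ik.2))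

/-- The rows at a place. -/
noncomputable def lrow (F : MvPolynomial (Fin (n + 1)) K)
    (D : (Fin (n + 1) →₀ ℕ) → Derivation ℤ K K) (x x' : Fin (n + 1) → K)
    (p' : Fin (n + 1) × Fin (n + 1) → K) (i0 : Fin (n + 1))
    (bc : Fin (n + 1) × Fin (n + 1)) (rd : RD K n A B U T) (z : Fin (n + 1) → K) :
    Ri A B U T → Fin (n + 1) → K
  | none => z
  | some none => x'
  | some (some (Sum.inl a)) => wv F D x' (rd.wa a)
  | some (some (Sum.inr (Sum.inl (Sum.inl b)))) => x i0 • vec D x' (rd.PB b * X (rd.jb b)) -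
      x (rd.jb b) • vec D x' (rd.PB b * X i0)
  | some (some (Sum.inr (Sum.inl (Sum.inr b)))) => x i0 • vec D x' (rd.PB b * X (rd.lb b)) -
      x (rd.lb b) • vec D x' (rd.PB b * X i0)
  | some (some (Sum.inr (Sum.inr (Sum.inl u)))) => vec D x' (rd.PU u * lf (tm p' (rd.tu u)))
  | some (some (Sum.inr (Sum.inr (Sum.inr t)))) => vec D x' (rd.PT t * lf (pm x' bc.1 bc.2))

/-- The factors. -/
def fac (lam mu : K) : Ri A B U T → K
  | none => 1
  | some none => lam
  | some (some (Sum.inl _)) => lam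
  | some (some (Sum.inr (Sum.inl (Sum.inl _)))) => lam
  | some (some (Sum.inr (Sum.inl (Sum.inr _)))) => lam
  | some (some (Sum.inr (Sum.inr (Sum.inl _)))) => mu * lam
  | some (some (Sum.inr (Sum.inr (Sum.inr _)))) => lam / mu * lam

/-- The order of the rows. -/
def rk : Ri A B U T → ℕ
  | none => 0
  | some none => 0
  | some (some (Sum.inl _)) => 1
  | some (some (Sum.inr (Sum.inl _))) => 1
  | some (some (Sum.inr (Sum.inr (Sum.inl _)))) => 1
  | some (some (Sum.inr (Sum.inr (Sum.inr _)))) => 2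

/-- The volume form. -/
noncomputable def vol {ι : Type} (e : ι ≃ Fin (n + 1)) :
    (Fin (n + 1) → K) [⋀^ι]→ₗ[K] K :=
  (Matrix.detRowAlternating : (Fin (n + 1) → K) [⋀^Fin (n + 1)]→ₗ[K] K).domDomCongr e.symm

theorem vol_apply {ι : Type} (e : ι ≃ Fin (n + 1)) (R : ι → Fin (n + 1) → K) :
    vol e R = (Matrix.of fun i => R (e.symm i)).det := rfl

theorem ge_vol {k : Type} [Field k] [Algebra k K] (P : Place k K) {ι : Type}
    (e : ι ≃ Fin (n + 1)) {c : ℤ} (R : ι → Fin (n + 1) → K) (h : ∀ i l, Ge P c (R i l)) :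
    Ge P ((n + 1) * c) (vol e R) := by
  rw [vol_apply]
  refine ge_det P _ _ (fun _ _ => c) (fun i j => h _ _) fun σ => ?_
  rw [Finset.sum_const, Finset.card_univ, Fintype.card_fin, nsmul_eq_mul]
  push_cast
  exact le_rfl

/-- Replacement of the rows by the rows at the place. -/
theorem row_repl [Fintype A] [Fintype B] [Fintype U] [Fintype T]
    (F : MvPolynomial (Fin (n + 1)) K)
    (D : (Fin (n + 1) →₀ ℕ) → Derivation ℤ K K) (x y : Fin (n + 1) → K) (i0 : Fin (n + 1))
    (ik : Fin (n + 1) × Fin (n + 1)) (hik : pl x y ik ≠ 0) (rd : RD K n A B U T)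
    (z : Fin (n + 1) → K)
    (hT : ∀ t m, ∑ l, m l * x l = 0 → ∑ l, m l * y l = 0 → vec D x (rd.PT t * lf m) ∈
      Submodule.span K (row F D x y i0 ik rd z '' {l | rk l < 2}))
    {x' : Fin (n + 1) → K} {lam : K} (hlam : lam ≠ 0) (hx : x = lam • x')
    {p' : Fin (n + 1) × Fin (n + 1) → K} {mu : K} (hmu : mu ≠ 0) (hp : pl x y = mu • p')
    (bc : Fin (n + 1) × Fin (n + 1)) (hbc : p' bc = 1)
    (f : (Fin (n + 1) → K) [⋀^Ri A B U T]→ₗ[K] K) :
    f (row F D x y i0 ik rd z) = (∏ k : Ri A B U T, fac lam mu k) * f (lrow F D x x' p' i0 bc rd z) := by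
  classical
  obtain ⟨R, hR⟩ : ∃ R, R = row F D x y i0 ik rd z := ⟨_, rfl⟩
  rw [← hR] at hT ⊢
  have hxR : R (some none) = x := by rw [hR]; rfl
  have hx1 : x' ∈ Submodule.span K (R '' {l | rk l < 1}) := by
    have h1 : x' = lam⁻¹ • R (some none) := by
      rw [hxR, hx, smul_smul, inv_mul_cancel₀ hlam, one_smul]
    rw [h1]
    exact Submodule.smul_mem _ _ (Submodule.subset_span ⟨some none, by simp [rk], rfl⟩)
  have hx2 : x' ∈ Submodule.span K (R '' {l | rk l < 2}) := by
    refine Submodule.span_mono ?_ hx1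
    exact Set.image_mono fun l (hl : rk l < 1) => (lt_trans hl (by norm_num) : rk l < 2)
  have hv : ∀ G, vec D x G - lam • vec D x' G = DD D G lam • x' := by
    intro G
    rw [hx, vec_scale, add_sub_cancel_left]
  refine alt_tri f R _ _ rk fun k => ?_
  rcases k with _ | _ | a | (b | b) | u | t
  · rw [hR]
    simp only [row, fac, lrow, one_smul, sub_self]
    exact zero_mem _
  · rw [hR]
    simp only [row, fac, lrow]
    rw [← hx, sub_self]
    exact zero_mem _
  · have h1 : R (some (some (Sum.inl a))) - lam • wv F D x' (rd.wa a) =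
        DD D (X (rd.wa a).2 * pderiv (rd.wa a).1 F) lam • x' := by
      rw [hR]
      change wv F D x (rd.wa a) - _ = _
      rw [hx, wv_scale, add_sub_cancel_left]
    change R (some (some (Sum.inl a))) - lam • wv F D x' (rd.wa a) ∈ _
    rw [h1]
    exact Submodule.smul_mem _ _ hx1
  · change R (some (some (Sum.inr (Sum.inl (Sum.inl b))))) -
      lam • (x i0 • vec D x' (rd.PB b * X (rd.jb b)) - x (rd.jb b) • vec D x' (rd.PB b * X i0)) ∈ _
    have h1 : R (some (some (Sum.inr (Sum.inl (Sum.inl b))))) =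
        x i0 • vec D x (rd.PB b * X (rd.jb b)) - x (rd.jb b) • vec D x (rd.PB b * X i0) := by
      rw [hR]
      change vec D x (rd.PB b * lf (pm x i0 (rd.jb b))) = _
      rw [lf_pm, mul_sub, mul_smul_comm, mul_smul_comm, map_sub, map_smul, map_smul]
    have h2 : R (some (some (Sum.inr (Sum.inl (Sum.inl b))))) -
        lam • (x i0 • vec D x' (rd.PB b * X (rd.jb b)) -
          x (rd.jb b) • vec D x' (rd.PB b * X i0)) =
        x i0 • (vec D x (rd.PB b * X (rd.jb b)) - lam • vec D x' (rd.PB b * X (rd.jb b))) -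
          x (rd.jb b) • (vec D x (rd.PB b * X i0) - lam • vec D x' (rd.PB b * X i0)) := by
      rw [h1, smul_sub, smul_sub, smul_sub, smul_comm lam, smul_comm lam]
      abel
    rw [h2, hv, hv]
    exact sub_mem (Submodule.smul_mem _ _ (Submodule.smul_mem _ _ hx1))
      (Submodule.smul_mem _ _ (Submodule.smul_mem _ _ hx1))
  · change R (some (some (Sum.inr (Sum.inl (Sum.inr b))))) -
      lam • (x i0 • vec D x' (rd.PB b * X (rd.lb b)) - x (rd.lb b) • vec D x' (rd.PB b * X i0)) ∈ _
    have h1 : R (some (some (Sum.inr (Sum.inl (Sum.inr b))))) =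
        x i0 • vec D x (rd.PB b * X (rd.lb b)) - x (rd.lb b) • vec D x (rd.PB b * X i0) := by
      rw [hR]
      change vec D x (rd.PB b * lf (pm x i0 (rd.lb b))) = _
      rw [lf_pm, mul_sub, mul_smul_comm, mul_smul_comm, map_sub, map_smul, map_smul]
    have h2 : R (some (some (Sum.inr (Sum.inl (Sum.inr b))))) -
        lam • (x i0 • vec D x' (rd.PB b * X (rd.lb b)) -
          x (rd.lb b) • vec D x' (rd.PB b * X i0)) =
        x i0 • (vec D x (rd.PB b * X (rd.lb b)) - lam • vec D x' (rd.PB b * X (rd.lb b))) -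
          x (rd.lb b) • (vec D x (rd.PB b * X i0) - lam • vec D x' (rd.PB b * X i0)) := by
      rw [h1, smul_sub, smul_sub, smul_sub, smul_comm lam, smul_comm lam]
      abel
    rw [h2, hv, hv]
    exact sub_mem (Submodule.smul_mem _ _ (Submodule.smul_mem _ _ hx1))
      (Submodule.smul_mem _ _ (Submodule.smul_mem _ _ hx1))
  · change R (some (some (Sum.inr (Sum.inr (Sum.inl u))))) -
      (mu * lam) • vec D x' (rd.PU u * lf (tm p' (rd.tu u))) ∈ _
    have h1 : R (some (some (Sum.inr (Sum.inr (Sum.inl u))))) =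
        mu • vec D x (rd.PU u * lf (tm p' (rd.tu u))) := by
      rw [hR]
      change vec D x (rd.PU u * lf (tm (pl x y) (rd.tu u))) = _
      rw [hp, tm_smul, map_smul, mul_smul_comm, map_smul]
    rw [h1, mul_smul, ← smul_sub, hv]
    exact Submodule.smul_mem _ _ (Submodule.smul_mem _ _ hx1)
  · change R (some (some (Sum.inr (Sum.inr (Sum.inr t))))) -
      (lam / mu * lam) • vec D x' (rd.PT t * lf (pm x' bc.1 bc.2)) ∈ _
    obtain ⟨m, hm⟩ : ∃ m : Fin (n + 1) → K, m = (pl x y ik)⁻¹ • pm x ik.1 ik.2 -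
      (lam / mu) • pm x' bc.1 bc.2 := ⟨_, rfl⟩
    have h1 : R (some (some (Sum.inr (Sum.inr (Sum.inr t))))) =
        (lam / mu) • vec D x (rd.PT t * lf (pm x' bc.1 bc.2)) + vec D x (rd.PT t * lf m) := by
      rw [hR]
      change vec D x (rd.PT t * lf ((pl x y ik)⁻¹ • pm x ik.1 ik.2)) = _
      have e1 : vec D x (rd.PT t * lf m) = vec D x (rd.PT t * lf ((pl x y ik)⁻¹ • pm x ik.1 ik.2)) -
          (lam / mu) • vec D x (rd.PT t * lf (pm x' bc.1 bc.2)) := by
        rw [← map_smul (vec D x), ← map_sub (vec D x)]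
        congr 1
        rw [hm, map_sub, mul_sub, map_smul lf (lam / mu), mul_smul_comm (lam / mu)]
      rw [e1]
      abel
    have h2 : ∀ w : Fin (n + 1) → K, ∑ l, m l * w l =
        (pl x y ik)⁻¹ * (x ik.1 * w ik.2 - x ik.2 * w ik.1) -
          lam / mu * (x' bc.1 * w bc.2 - x' bc.2 * w bc.1) := by
      intro w
      rw [← sum_pm, ← sum_pm, Finset.mul_sum, Finset.mul_sum, ← Finset.sum_sub_distrib]
      refine Finset.sum_congr rfl fun l _ => ?_
      rw [hm]
      simp only [Pi.sub_apply, Pi.smul_apply, smul_eq_mul]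
      ring
    have h3 := hT t m (by
      rw [h2, hx]
      simp only [Pi.smul_apply, smul_eq_mul]
      ring) (by
      rw [h2]
      have h4 : x ik.1 * y ik.2 - x ik.2 * y ik.1 = pl x y ik := rfl
      have h5 : lam * (x' bc.1 * y bc.2 - x' bc.2 * y bc.1) = mu := by
        have h6 := congrFun hp bc
        rw [Pi.smul_apply, hbc, smul_eq_mul, mul_one] at h6
        rw [← h6, pl, hx]
        simp only [Pi.smul_apply, smul_eq_mul]
        ring
      rw [h4, inv_mul_cancel₀ hik, div_mul_eq_mul_div, h5, div_self hmu, sub_self])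
    rw [h1, mul_smul, add_sub_right_comm, ← smul_sub, hv]
    exact add_mem (Submodule.smul_mem _ _ (Submodule.smul_mem _ _ hx2)) h3

end Pool.Agent.Y735
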