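import Pool.Agent.TH145.GH.Ineq

/-!
Vector fields given by forms of degree `d`.
-/

set_option autoImplicit false

open MvPolynomial FF Pool.Agent.W603.LV Pool.Agent.W603.PV Pool.Agent.TH145.GH

namespace Pool.Agent.Y735

variable {K : Type} [Field K] {n : ℕ}

/-- The derivation `∑ G_J D_J`. -/
noncomputable def DD (D : (Fin (n + 1) →₀ ℕ) → Derivation ℤ K K) :
    MvPolynomial (Fin (n + 1)) K →ₗ[K] Derivation ℤ K K :=
  (basisMonomials (Fin (n + 1)) K).constr K D

theorem DD_monomial (D : (Fin (n + 1) →₀ ℕ) → Derivation ℤ K K) (J : Fin (n + 1) →₀ ℕ) (a : K) :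
    DD D (monomial J a) = a • D J := by
  have h1 : monomial J a = a • (basisMonomials (Fin (n + 1)) K) J := by
    rw [coe_basisMonomials, smul_monomial, smul_eq_mul, mul_one]
  rw [h1, map_smul, DD, Module.Basis.constr_basis]

theorem DD_apply (D : (Fin (n + 1) →₀ ℕ) → Derivation ℤ K K) (G : MvPolynomial (Fin (n + 1)) K)
    (a : K) : DD D G a = ∑ J ∈ G.support, G.coeff J * D J a := by
  conv_lhs => rw [G.as_sum]
  rw [map_sum, ← Derivation.coeFnAddMonoidHom_apply, map_sum, Finset.sum_apply]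
  refine Finset.sum_congr rfl fun J _ => ?_
  rw [DD_monomial]
  rfl

theorem DD_add (D : (Fin (n + 1) →₀ ℕ) → Derivation ℤ K K) (G H : MvPolynomial (Fin (n + 1)) K)
    (a : K) : DD D (G + H) a = DD D G a + DD D H a := by
  rw [map_add]; rfl

theorem DD_smul (D : (Fin (n + 1) →₀ ℕ) → Derivation ℤ K K) (c : K)
    (G : MvPolynomial (Fin (n + 1)) K) (a : K) : DD D (c • G) a = c * DD D G a := by
  rw [map_smul]; rfl

/-- The vector `D_G x`. -/
noncomputable def vec (D : (Fin (n + 1) →₀ ℕ) → Derivation ℤ K K) (x : Fin (n + 1) → K) :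
    MvPolynomial (Fin (n + 1)) K →ₗ[K] (Fin (n + 1) → K) where
  toFun G := fun l => DD D G (x l)
  map_add' G H := by funext l; exact DD_add D G H (x l)
  map_smul' c G := by funext l; exact DD_smul D c G (x l)

theorem vec_apply (D : (Fin (n + 1) →₀ ℕ) → Derivation ℤ K K) (x : Fin (n + 1) → K)
    (G : MvPolynomial (Fin (n + 1)) K) (l : Fin (n + 1)) : vec D x G l = DD D G (x l) := rfl

theorem vec_scale (D : (Fin (n + 1) →₀ ℕ) → Derivation ℤ K K) (x : Fin (n + 1) → K) (lam : K)
    (G : MvPolynomial (Fin (n + 1)) K) :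
    vec D (lam • x) G = lam • vec D x G + DD D G lam • x := by
  funext l
  rw [vec_apply, Pi.add_apply, Pi.smul_apply, Pi.smul_apply, Pi.smul_apply, vec_apply,
    smul_eq_mul, (DD D G).leibniz]
  simp only [smul_eq_mul]
  ring

/-- The corrected vector fields of the linear group. -/
noncomputable def wv (F : MvPolynomial (Fin (n + 1)) K)
    (D : (Fin (n + 1) →₀ ℕ) → Derivation ℤ K K) (x : Fin (n + 1) → K)
    (pq : Fin (n + 1) × Fin (n + 1)) : Fin (n + 1) → K :=
  x pq.2 • (Pi.single pq.1 1 : Fin (n + 1) → K) + vec D x (X pq.2 * pderiv pq.1 F)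

theorem wv_scale (F : MvPolynomial (Fin (n + 1)) K) (D : (Fin (n + 1) →₀ ℕ) → Derivation ℤ K K)
    (x : Fin (n + 1) → K) (lam : K) (pq : Fin (n + 1) × Fin (n + 1)) :
    wv F D (lam • x) pq = lam • wv F D x pq + DD D (X pq.2 * pderiv pq.1 F) lam • x := by
  unfold wv
  rw [vec_scale, Pi.smul_apply, smul_add, smul_smul, smul_eq_mul]
  abel

theorem gx_inl (F : MvPolynomial (Fin (n + 1)) K) (d : ℕ)
    (D : (Fin (n + 1) →₀ ℕ) → Derivation ℤ K K) (x : Fin (n + 1) → K)
    (pq : Fin (n + 1) × Fin (n + 1)) : gx F d D x (some (Sum.inl pq)) = wv F D x pq := by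
  funext l
  simp only [gx, wv, Pi.add_apply, Pi.smul_apply, smul_eq_mul, vec_apply, DD_apply]

/-- The linear form with coefficients `m`. -/
noncomputable def lf : (Fin (n + 1) → K) →ₗ[K] MvPolynomial (Fin (n + 1)) K where
  toFun m := ∑ i, m i • X i
  map_add' m m' := by
    rw [← Finset.sum_add_distrib]
    exact Finset.sum_congr rfl fun i _ => by rw [Pi.add_apply, add_smul]
  map_smul' c m := by
    rw [Finset.smul_sum]
    exact Finset.sum_congr rfl fun i _ => by
      rw [Pi.smul_apply, smul_eq_mul, mul_smul, RingHom.id_apply]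

theorem lf_apply (m : Fin (n + 1) → K) : lf m = ∑ i, m i • X (R := K) i := rfl

theorem eval_lf (m x : Fin (n + 1) → K) : eval x (lf m) = ∑ i, m i * x i := by
  rw [lf_apply, map_sum]
  exact Finset.sum_congr rfl fun i _ => by rw [smul_eval, eval_X]

theorem lf_hom (m : Fin (n + 1) → K) : (lf m).IsHomogeneous 1 := by
  rw [lf_apply]
  refine IsHomogeneous.sum _ _ _ fun i _ => ?_
  rw [smul_eq_C_mul]
  have := (isHomogeneous_C (Fin (n + 1)) (m i)).mul (isHomogeneous_X K i)
  rwa [zero_add] at this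

/-- The vector with the coordinates `x_i` at `j` and `- x_j` at `i`. -/
def pm (x : Fin (n + 1) → K) (i j : Fin (n + 1)) : Fin (n + 1) → K :=
  fun l => (if l = j then x i else 0) - if l = i then x j else 0

theorem lf_single (i : Fin (n + 1)) (a : K) : lf (fun l => if l = i then a else 0) = a • X i := by
  rw [lf_apply, Finset.sum_eq_single i]
  · rw [if_pos rfl]
  · intro j _ hj
    rw [if_neg hj, zero_smul]
  · intro h; exact absurd (Finset.mem_univ i) h

theorem lf_pm (x : Fin (n + 1) → K) (i j : Fin (n + 1)) :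
    lf (pm x i j) = x i • X j - x j • X i := by
  rw [← lf_single, ← lf_single, ← map_sub]
  rfl

theorem eval_pm (x : Fin (n + 1) → K) (i j : Fin (n + 1)) : eval x (lf (pm x i j)) = 0 := by
  rw [lf_pm, map_sub, smul_eval, smul_eval, eval_X, eval_X]
  ring

/-- The differential of `F` at the vector `D_G x`. -/
theorem dF_vec {F : MvPolynomial (Fin (n + 1)) K} {d : ℕ}
    {D : (Fin (n + 1) →₀ ℕ) → Derivation ℤ K K} (hF : F.IsHomogeneous d) (hD : Dual F d D)
    (x : Fin (n + 1) → K) {G : MvPolynomial (Fin (n + 1)) K} (hG : G.IsHomogeneous d) :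
    dF F x (vec D x G) = DD D G (eval x F) - eval x G := by
  have h1 : vec D x G = ∑ J ∈ G.support, G.coeff J • fun l => D J (x l) := by
    funext l
    rw [vec_apply, DD_apply, Finset.sum_apply]
    rfl
  have h2 : ∀ (s : Finset (Fin (n + 1) →₀ ℕ)) (f : (Fin (n + 1) →₀ ℕ) → Fin (n + 1) → K),
      dF F x (∑ J ∈ s, f J) = ∑ J ∈ s, dF F x (f J) := by
    intro s f
    unfold dF
    rw [Finset.sum_comm]
    refine Finset.sum_congr rfl fun l _ => ?_
    rw [Finset.sum_apply, Finset.mul_sum]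
  rw [h1, h2, DD_apply, eval_mon x G, ← Finset.sum_sub_distrib]
  refine Finset.sum_congr rfl fun J hJ => ?_
  rw [dF_smul, dF_D hF hD x (deg_of_mem hG hJ)]
  ring

/-- `D_G F = G`. -/
theorem DD_coeff {F : MvPolynomial (Fin (n + 1)) K} {d : ℕ}
    {D : (Fin (n + 1) →₀ ℕ) → Derivation ℤ K K} (hF : F.IsHomogeneous d) (hD : Dual F d D)
    {G : MvPolynomial (Fin (n + 1)) K} (hG : G.IsHomogeneous d) (J : Fin (n + 1) →₀ ℕ) :
    DD D G (F.coeff J) = G.coeff J := by
  classical
  rw [DD_apply]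
  by_cases hJ : J.degree = d
  · have h1 : ∀ I ∈ G.support, G.coeff I * D I (F.coeff J) =
        if I = J then G.coeff I else 0 := by
      intro I hI
      split_ifs with h
      · rw [(hD I J (deg_of_mem hG hI) hJ).1 h, mul_one]
      · rw [(hD I J (deg_of_mem hG hI) hJ).2 h, mul_zero]
    rw [Finset.sum_congr rfl h1, Finset.sum_ite_eq' G.support J]
    split_ifs with h
    · rfl
    · rw [notMem_support_iff.1 h]
  · have h1 : F.coeff J = 0 := by
      by_contra h
      exact hJ (deg_of_mem hF (mem_support_iff.2 h))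
    have h2 : G.coeff J = 0 := by
      by_contra h
      exact hJ (deg_of_mem hG (mem_support_iff.2 h))
    rw [h1, h2]
    exact Finset.sum_eq_zero fun I _ => by rw [map_zero, mul_zero]

/-- The order of `D_G a`. -/
theorem ge_DD {k : Type} [Field k] [Algebra k K] (P : Place k K) {d : ℕ}
    {D : (Fin (n + 1) →₀ ℕ) → Derivation ℤ K K} {e c : ℤ}
    (he : ∀ f, Ge P 0 f → ∀ I : Fin (n + 1) →₀ ℕ, I.degree = d → Ge P (-e) (D I f))
    {G : MvPolynomial (Fin (n + 1)) K} (hG : G.IsHomogeneous d) (hc : ∀ u, Ge P (-c) (G.coeff u))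
    {a : K} (ha : Ge P 0 a) : Ge P (-(e + c)) (DD D G a) := by
  rw [DD_apply]
  refine Ge.sum _ _ fun J hJ => ?_
  exact ((hc J).mul (he a ha J (deg_of_mem hG hJ))).mono (by omega)

end Pool.Agent.Y735
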