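import Pool.Agent.Y735.Rho
import Pool.Agent.Y735.Bracket

/-!
The restrictions of the vector fields to a line.
-/

set_option autoImplicit false

open MvPolynomial FF Pool.Agent.W603.LV Pool.Agent.W603.PV Pool.Agent.TH145.GH

namespace Pool.Agent.Y735

theorem finrank_map_mkQ {K E : Type*} [Field K] [AddCommGroup E] [Module K E]
    [FiniteDimensional K E] {D T : Submodule K E} (h : D ≤ T) :
    Module.finrank K (T.map D.mkQ) + Module.finrank K D = Module.finrank K T := by
  have h1 := LinearMap.finrank_range_add_finrank_ker (D.mkQ ∘ₗ T.subtype)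
  rw [LinearMap.range_comp, Submodule.range_subtype, LinearMap.ker_comp, Submodule.ker_mkQ] at h1
  rw [← h1, (Submodule.comapSubtypeEquivOfLe h).finrank_eq]

theorem rank_le {K V E : Type*} [Field K] [AddCommGroup V] [Module K V] [FiniteDimensional K V]
    [AddCommGroup E] [Module K E] [FiniteDimensional K E] (f : V →ₗ[K] E) {D T : Submodule K E}
    (h : D ≤ T) (hT : T ≤ LinearMap.range f ⊔ D) :
    Module.finrank K (D.comap f) + Module.finrank K T ≤
      Module.finrank K V + Module.finrank K D := by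
  have h1 := LinearMap.finrank_range_add_finrank_ker (D.mkQ ∘ₗ f)
  rw [LinearMap.ker_comp, Submodule.ker_mkQ, LinearMap.range_comp] at h1
  have h2 := finrank_map_mkQ h
  have h3 : T.map D.mkQ ≤ (LinearMap.range f).map D.mkQ := by
    refine (Submodule.map_mono hT).trans ?_
    rw [Submodule.map_sup, Submodule.mkQ_map_self, sup_bot_eq]
  have h4 := Submodule.finrank_mono h3
  omega

theorem le_rank {K V E : Type*} [Field K] [AddCommGroup V] [Module K V] [FiniteDimensional K V]
    [AddCommGroup E] [Module K E] [FiniteDimensional K E] (f : V →ₗ[K] E) {D T : Submodule K E}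
    (h : D ≤ T) (hT : LinearMap.range f ≤ T) :
    Module.finrank K V + Module.finrank K D ≤
      Module.finrank K (D.comap f) + Module.finrank K T := by
  have h1 := LinearMap.finrank_range_add_finrank_ker (D.mkQ ∘ₗ f)
  rw [LinearMap.ker_comp, Submodule.ker_mkQ, LinearMap.range_comp] at h1
  have h2 := finrank_map_mkQ h
  have h4 := Submodule.finrank_mono (Submodule.map_mono (f := D.mkQ) hT)
  omega

variable {K : Type} [Field K] {n : ℕ}

/-- The setting. -/
structure LineData (F : MvPolynomial (Fin (n + 1)) K) (d : ℕ)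
    (D : (Fin (n + 1) →₀ ℕ) → Derivation ℤ K K) (x y ms mt : Fin (n + 1) → K) : Prop where
  pos : 0 < d
  hom : F.IsHomogeneous d
  dual : Dual F d D
  comm : ∀ I J a, D I (D J a) = D J (D I a)
  zero : eval x F = 0
  sx : dt ms x = 1
  sy : dt ms y = 0
  tx : dt mt x = 0
  ty : dt mt y = 1
  ne : dFl F x ≠ 0

variable {F : MvPolynomial (Fin (n + 1)) K} {d : ℕ} {D : (Fin (n + 1) →₀ ℕ) → Derivation ℤ K K}
  {x y ms mt : Fin (n + 1) → K}

theorem exists_ms_mt {ik : Fin (n + 1) × Fin (n + 1)} (hik : pl x y ik ≠ 0) :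
    ∃ ms mt : Fin (n + 1) → K, dt ms x = 1 ∧ dt ms y = 0 ∧ dt mt x = 0 ∧ dt mt y = 1 := by
  have hp : pl x y ik = x ik.1 * y ik.2 - x ik.2 * y ik.1 := rfl
  refine ⟨(-(pl x y ik)⁻¹) • pm y ik.1 ik.2, (pl x y ik)⁻¹ • pm x ik.1 ik.2, ?_, ?_, ?_, ?_⟩
  · rw [dt_smul', dt, sum_pm]
    field_simp
    rw [hp]; ring
  · rw [dt_smul', dt, sum_pm]
    ring
  · rw [dt_smul', dt, sum_pm]
    ring
  · rw [dt_smul', dt, sum_pm, hp]
    exact inv_mul_cancel₀ (by rw [← hp]; exact hik)

/-- The map for the first space. -/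
noncomputable def psi (D : (Fin (n + 1) →₀ ℕ) → Derivation ℤ K K) (x ms mt m : Fin (n + 1) → K)
    (d : ℕ) : Polynomial.degreeLT K d →ₗ[K] (Fin (n + 1) → K) :=
  vec D x ∘ₗ LinearMap.mulRight K (lf m) ∘ₗ sg ms mt (d - 1) ∘ₗ
    (Polynomial.degreeLT K d).subtype

theorem psi_apply (D : (Fin (n + 1) →₀ ℕ) → Derivation ℤ K K) (x ms mt m : Fin (n + 1) → K)
    (d : ℕ) (q : Polynomial.degreeLT K d) :
    psi D x ms mt m d q = vec D x (sg ms mt (d - 1) q * lf m) := rfl

/-- The restrictions of the vector fields. -/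
noncomputable def Zs (F : MvPolynomial (Fin (n + 1)) K)
    (D : (Fin (n + 1) →₀ ℕ) → Derivation ℤ K K) (x y ms mt : Fin (n + 1) → K) (d : ℕ) :
    Submodule K (Polynomial K) :=
  ((Vl F D x y (d - 1)).comap (psi D x ms mt mt d)).map (Polynomial.degreeLT K d).subtype

/-- The forms that are mapped to the tangent vectors of the linear group. -/
noncomputable def Nm (F : MvPolynomial (Fin (n + 1)) K)
    (D : (Fin (n + 1) →₀ ℕ) → Derivation ℤ K K) (x ms mt m : Fin (n + 1) → K) (d : ℕ) :
    Submodule K (Polynomial K) :=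
  ((Wsp F D x).comap (psi D x ms mt m d)).map (Polynomial.degreeLT K d).subtype

theorem mem_Zs {q : Polynomial K} : q ∈ Zs F D x y ms mt d ↔
    q ∈ Polynomial.degreeLT K d ∧ vec D x (sg ms mt (d - 1) q * lf mt) ∈ Vl F D x y (d - 1) := by
  unfold Zs
  rw [Submodule.mem_map]
  constructor
  · rintro ⟨q, hq, rfl⟩
    exact ⟨q.2, hq⟩
  · rintro ⟨hq, h⟩
    exact ⟨⟨q, hq⟩, h, rfl⟩

theorem mem_Nm {m : Fin (n + 1) → K} {q : Polynomial K} : q ∈ Nm F D x ms mt m d ↔
    q ∈ Polynomial.degreeLT K d ∧ vec D x (sg ms mt (d - 1) q * lf m) ∈ Wsp F D x := by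
  unfold Nm
  rw [Submodule.mem_map]
  constructor
  · rintro ⟨q, hq, rfl⟩
    exact ⟨q.2, hq⟩
  · rintro ⟨hq, h⟩
    exact ⟨⟨q, hq⟩, h, rfl⟩

theorem finrank_degreeLT (d : ℕ) : Module.finrank K (Polynomial.degreeLT K d) = d := by
  rw [(Polynomial.degreeLTEquiv K d).finrank_eq, Module.finrank_fin_fun]

instance fd_degreeLT (d : ℕ) : FiniteDimensional K (Polynomial.degreeLT K d) :=
  LinearEquiv.finiteDimensional (Polynomial.degreeLTEquiv K d).symm

instance fd_Zs : FiniteDimensional K (Zs F D x y ms mt d) := by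
  unfold Zs; infer_instance

instance fd_Nm {m : Fin (n + 1) → K} : FiniteDimensional K (Nm F D x ms mt m d) := by
  unfold Nm; infer_instance

/-- The forms of the ideal of the line are mapped to the space of the line. -/
theorem vec_Js_mem {p : MvPolynomial (Fin (n + 1)) K} (hp : p ∈ Js (Nl x y) d) :
    vec D x p ∈ Vl F D x y (d - 1) := by
  refine Submodule.span_induction (p := fun q _ => vec D x q ∈ Vl F D x y (d - 1))
    ?_ ?_ ?_ ?_ hp
  · rintro _ ⟨Q, m, e', he', hQ, hm, rfl⟩
    have h1 : d - 1 = e' := by omega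
    rw [mem_Nl] at hm
    exact Submodule.mem_sup_right (Submodule.subset_span ⟨Q, m, by rw [h1]; exact hQ, hm.1, hm.2,
      rfl⟩)
  · rw [map_zero]; exact zero_mem _
  · intro p q _ _ hp hq
    rw [map_add]; exact add_mem hp hq
  · intro c p _ hp
    rw [map_smul]; exact Submodule.smul_mem _ _ hp

section
variable [CharZero K] (hL : LineData F d D x y ms mt)
include hL

theorem LineData.x_ne : x ≠ 0 := by
  rintro rfl
  have h := hL.sx
  have h2 : dt ms (0 : Fin (n + 1) → K) = 0 := by simp [dt]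
  rw [h2] at h
  exact zero_ne_one h

theorem LineData.line_mem {p : MvPolynomial (Fin (n + 1)) K} (hp : p.IsHomogeneous d)
    (h : rho x y p = 0) : vec D x p ∈ Vl F D x y (d - 1) :=
  vec_Js_mem (mem_Js_line hL.sx hL.sy hL.tx hL.ty hp h)

omit [CharZero K] in
theorem LineData.rho_sg_mul {q : Polynomial K} (hq : q ∈ Polynomial.degreeLT K d)
    (m : Fin (n + 1) → K) (hm : dt m x = 0) :
    rho x y (sg ms mt (d - 1) q * lf m) = dt m y • q := by
  have h1 := hL.pos
  have h2 : d - 1 + 1 = d := by omega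
  rw [map_mul, rho_sg hL.sx hL.sy hL.tx hL.ty (by rw [h2]; exact hq), rho_lf, hm, map_zero,
    zero_mul, zero_add, Polynomial.smul_eq_C_mul, mul_comm]

omit [CharZero K] in
theorem LineData.sg_hom (q : Polynomial K) (m : Fin (n + 1) → K) :
    (sg ms mt (d - 1) q * lf m).IsHomogeneous d := by
  have h3 := (Pool.Agent.Y735.sg_hom ms mt (d - 1) q).mul (lf_hom m)
  rwa [Nat.sub_add_cancel hL.pos] at h3

/-- The restriction of a form that vanishes at `x`. -/
theorem LineData.lift_mem {p : MvPolynomial (Fin (n + 1)) K} (hp : p.IsHomogeneous d)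
    (h : rho x y p ∈ Polynomial.degreeLT K d) :
    vec D x p - vec D x (sg ms mt (d - 1) (rho x y p) * lf mt) ∈ Vl F D x y (d - 1) := by
  rw [← map_sub]
  refine hL.line_mem (hp.sub (hL.sg_hom _ _)) ?_
  rw [map_sub, hL.rho_sg_mul h mt hL.tx, hL.ty, one_smul, sub_self]

theorem LineData.rho_mem_of_eval {p : MvPolynomial (Fin (n + 1)) K} (hp : p.IsHomogeneous d)
    (h : eval x p = 0) : rho x y p ∈ Polynomial.degreeLT K d := by
  have h1 := mem_Js_point hL.x_ne hp h
  refine Submodule.span_induction (p := fun q _ => rho x y q ∈ Polynomial.degreeLT K d)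
    ?_ ?_ ?_ ?_ h1
  · rintro _ ⟨Q, m, e', he', hQ, hm, rfl⟩
    rw [mem_Mx] at hm
    change dt m x = 0 at hm
    rw [map_mul, rho_lf, hm, map_zero, zero_mul, zero_add, mul_comm,
      ← Polynomial.smul_eq_C_mul]
    exact Submodule.smul_mem _ _ (rho_mem x y (by omega) hQ)
  · rw [map_zero]; exact zero_mem _
  · intro p q _ _ hp hq
    rw [map_add]; exact add_mem hp hq
  · intro c p _ hp
    rw [map_smul]; exact Submodule.smul_mem _ _ hp

omit [CharZero K] in
theorem LineData.eval_zero {p : MvPolynomial (Fin (n + 1)) K} (hp : p.IsHomogeneous d)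
    (h : vec D x p ∈ Wsp F D x) : eval x p = 0 := by
  have h1 := Wsp_le hL.pos hL.hom hL.dual hL.zero h
  rw [LinearMap.mem_ker, dFl_apply, dF_vec hL.hom hL.dual x hp, hL.zero, map_zero, zero_sub,
    neg_eq_zero] at h1
  exact h1

/-- The restrictions of the vector fields are in the space. -/
theorem LineData.rho_mem_Zs {p : MvPolynomial (Fin (n + 1)) K} (hp : p.IsHomogeneous d)
    (h : vec D x p ∈ Wsp F D x) : rho x y p ∈ Zs F D x y ms mt d := by
  have h1 := hL.rho_mem_of_eval hp (hL.eval_zero hp h)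
  rw [mem_Zs]
  refine ⟨h1, ?_⟩
  have h2 := hL.lift_mem hp h1
  have h3 := sub_mem (Submodule.mem_sup_left h : vec D x p ∈ Vl F D x y (d - 1)) h2
  rwa [sub_sub_cancel] at h3

/-- The dimension of the space. -/
theorem LineData.finrank_Zs :
    Module.finrank K (Zs F D x y ms mt d) + n ≤ d + Module.finrank K (Vl F D x y (d - 1)) := by
  obtain ⟨i0, hi0⟩ := Function.ne_iff.1 hL.x_ne
  have hi0' : x i0 ≠ 0 := hi0
  have h1 := rank_le (psi D x ms mt mt d) (D := Vl F D x y (d - 1))
    (T := LinearMap.ker (dFl F x)) (by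
      unfold Vl
      refine sup_le (Wsp_le hL.pos hL.hom hL.dual hL.zero) ?_
      rw [Submodule.span_le]
      rintro _ ⟨Q, m, hQ, hmx, hmy, rfl⟩
      exact dF_vlf hL.pos hL.hom hL.dual hL.zero hQ hmx) (by
      rw [← im_top (k := K) hL.pos hL.hom hL.dual hL.zero hi0']
      refine sup_le (imB_le ?_) (le_sup_left.trans le_sup_right)
      rintro b ⟨Q, hQ, rfl⟩ m -
      have hQm : (Q * lf (m : Fin (n + 1) → K)).IsHomogeneous d := by
        have h3 := hQ.1.mul (lf_hom (m : Fin (n + 1) → K))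
        rwa [Nat.sub_add_cancel hL.pos] at h3
      have h2 : rho x y (Q * lf (m : Fin (n + 1) → K)) ∈ Polynomial.degreeLT K d := by
        refine hL.rho_mem_of_eval hQm ?_
        rw [map_mul, eval_lf, mem_Mx.1 m.2, mul_zero]
      have h3 := hL.lift_mem hQm h2
      rw [bmap_apply]
      have h4 : vec D x (Q * lf (m : Fin (n + 1) → K)) =
        vec D x (sg ms mt (d - 1) (rho x y (Q * lf (m : Fin (n + 1) → K))) * lf mt) +
          (vec D x (Q * lf (m : Fin (n + 1) → K)) -
          vec D x (sg ms mt (d - 1) (rho x y (Q * lf (m : Fin (n + 1) → K))) * lf mt)) := by abel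
      rw [h4]
      refine add_mem (Submodule.mem_sup_left ⟨⟨_, h2⟩, ?_⟩) (Submodule.mem_sup_right h3)
      rw [psi_apply])
  rw [ker_finrank hL.ne, finrank_degreeLT] at h1
  unfold Zs
  rw [Submodule.finrank_map_subtype_eq]
  exact h1

omit [CharZero K] in
theorem LineData.finrank_Nm {m : Fin (n + 1) → K} (hm : m ∈ Nl x y) :
    d + Module.finrank K (Wsp F D x) ≤
      Module.finrank K (Nm F D x ms mt m d) + Module.finrank K (Vl F D x y (d - 1)) := by
  have h1 := le_rank (psi D x ms mt m d) (D := Wsp F D x) (T := Vl F D x y (d - 1))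
    le_sup_left (by
      rintro _ ⟨q, rfl⟩
      rw [mem_Nl] at hm
      exact Submodule.mem_sup_right (Submodule.subset_span
        ⟨_, m, Pool.Agent.Y735.sg_hom ms mt (d - 1) q, hm.1, hm.2, rfl⟩))
  rw [finrank_degreeLT] at h1
  unfold Nm
  rw [Submodule.finrank_map_subtype_eq]
  exact h1

end

end Pool.Agent.Y735
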